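import Pool.Agent.Y713.SE.Glo3

/-! Arithmetic of `k[X]`. -/

set_option autoImplicit false
set_option linter.all false

open Polynomial IsDedekindDomain

namespace Pool.Agent.Y713.SE

section ded
variable {R K : Type} [CommRing R] [IsDedekindDomain R] [Field K] [Algebra R K]
  [IsFractionRing R K]

theorem pow_transfer {ℓ : ℕ} (v : HeightOneSpectrum R) {a : K} (ha : a ≠ 0)
    (h : ∃ x : v.adicCompletion K, algebraMap K (v.adicCompletion K) a = x ^ ℓ) :
    ∃ k : K, v.valuation K (a - k ^ ℓ) < v.valuation K a := by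
  obtain ⟨c, hc⟩ := h
  set w := (Valued.v (R := v.adicCompletion K) (Γ₀ := WithZero (Multiplicative ℤ))) with hw
  set A := algebraMap K (v.adicCompletion K) a with hA
  have hopen : IsOpen {z : v.adicCompletion K | w (A - z ^ ℓ) < w A} := by
    have h1 := Valued.isOpen_ball (v.adicCompletion K) (w.restrict A)
    have h2 : Continuous (fun z : v.adicCompletion K => A - z ^ ℓ) := by fun_prop
    have h3 := h1.preimage h2
    convert h3 using 1
    ext z
    exact (w.restrict_lt_iff).symm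
  have hA0 : w A ≠ 0 := by
    rw [Valuation.ne_zero_iff, hA]
    exact (_root_.map_ne_zero _).2 ha
  have hmem : c ∈ {z : v.adicCompletion K | w (A - z ^ ℓ) < w A} := by
    show w (A - c ^ ℓ) < w A
    rw [hc, sub_self, map_zero, ← hc]
    exact zero_lt_iff.2 hA0
  obtain ⟨k, hk⟩ := (HeightOneSpectrum.denseRange_algebraMap K v).exists_mem_open hopen ⟨c, hmem⟩
  refine ⟨k, ?_⟩
  have hk' : w (A - algebraMap K (v.adicCompletion K) k ^ ℓ) < w A := hk
  rw [hA, ← map_pow, ← map_sub, hw, val_coe, val_coe] at hk'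
  exact hk'

theorem pow_unit {ℓ : ℕ} (hℓ : ℓ ≠ 0) (v : HeightOneSpectrum R) {r : R} (hr : r ∉ v.asIdeal)
    (h : ∃ x : v.adicCompletion K, algebraMap K (v.adicCompletion K) (algebraMap R K r) = x ^ ℓ) :
    ∃ a : R, r - a ^ ℓ ∈ v.asIdeal := by
  have hr0 : r ≠ 0 := by rintro rfl; exact hr (Ideal.zero_mem _)
  have hrK : algebraMap R K r ≠ 0 := by
    intro h0
    exact hr0 (IsFractionRing.injective R K (by rw [h0, map_zero]))
  have h1 : v.valuation K (algebraMap R K r) = 1 := by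
    have h2 : v.valuation K (algebraMap R K r) ≤ 1 := v.valuation_le_one r
    rcases h2.eq_or_lt with h3 | h3
    · exact h3
    · exact absurd ((v.valuation_lt_one_iff_mem r).1 h3) hr
  obtain ⟨c, hc⟩ := pow_transfer v hrK h
  rw [h1] at hc
  have hcℓ : v.valuation K (c ^ ℓ) ≤ 1 := by
    have e : c ^ ℓ = algebraMap R K r - (algebraMap R K r - c ^ ℓ) := by ring
    rw [e]
    exact (Valuation.map_sub _ _ _).trans (max_le h1.le hc.le)
  have hc1 : v.valuation K c ≤ 1 := by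
    rw [map_pow] at hcℓ
    exact (pow_le_one_iff hℓ).1 hcℓ
  obtain ⟨a, ha⟩ := v.exists_valuation_sub_lt_of_integer hc1 1
  rw [Units.val_one] at ha
  refine ⟨a, ?_⟩
  rw [← v.valuation_lt_one_iff_mem (K := K)]
  show v.valuation K (algebraMap R K (r - a ^ ℓ)) < 1
  have e : algebraMap R K (r - a ^ ℓ) = (algebraMap R K r - c ^ ℓ) -
      ((algebraMap R K a) ^ ℓ - c ^ ℓ) := by
    rw [map_sub, map_pow]; ring
  rw [e]
  refine lt_of_le_of_lt (Valuation.map_sub _ _ _) (max_lt hc ?_)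
  rw [← Commute.mul_geom_sum₂ (Commute.all _ _), map_mul]
  have h4 : v.valuation K (∑ i ∈ Finset.range ℓ, algebraMap R K a ^ i * c ^ (ℓ - 1 - i)) ≤ 1 := by
    refine Valuation.map_sum_le _ fun i _ => ?_
    rw [map_mul, map_pow, map_pow]
    exact mul_le_one' (pow_le_one' (v.valuation_le_one a) _) (pow_le_one' hc1 _)
  calc _ ≤ v.valuation K (algebraMap R K a - c) * 1 := mul_le_mul_right h4 _
    _ < 1 := by rw [mul_one]; exact ha

end ded

section poly
variable {k : Type} [Field k]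

/-- The height one prime generated by an irreducible polynomial. -/
noncomputable def hp (π : k[X]) (hπ : Irreducible π) : HeightOneSpectrum k[X] where
  asIdeal := Ideal.span {π}
  isPrime := (Ideal.span_singleton_prime hπ.ne_zero).2 hπ.prime
  ne_bot := by rw [Ne, Ideal.span_singleton_eq_bot]; exact hπ.ne_zero

lemma mem_hp {π : k[X]} (hπ : Irreducible π) (r : k[X]) : r ∈ (hp π hπ).asIdeal ↔ π ∣ r :=
  Ideal.mem_span_singleton

lemma eq_hp {v : HeightOneSpectrum k[X]} {π : k[X]} (hπ : Irreducible π) (h : π ∈ v.asIdeal) :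
    v = hp π hπ := by
  apply HeightOneSpectrum.ext
  have hle : (hp π hπ).asIdeal ≤ v.asIdeal := by
    show Ideal.span {π} ≤ v.asIdeal
    rw [Ideal.span_singleton_le_iff_mem]; exact h
  exact ((hp π hπ).isMaximal.eq_of_le v.isPrime.ne_top hle).symm

theorem exists_gen (v : HeightOneSpectrum k[X]) : ∃ (π : k[X]) (hπ : Irreducible π),
    π.Monic ∧ v = hp π hπ := by
  obtain ⟨π, hπ⟩ := (inferInstance : v.asIdeal.IsPrincipal).principal
  have h : v.asIdeal = Ideal.span {π} := hπ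
  have h1 := v.isPrime
  have h2 : π ≠ 0 := by
    rintro rfl
    exact v.ne_bot (by rw [h, Ideal.span_singleton_eq_bot])
  rw [h, Ideal.span_singleton_prime h2] at h1
  have h3 := h1.irreducible
  have h4 : Associated π (π * C π.leadingCoeff⁻¹) :=
    ⟨(Polynomial.isUnit_C.2 (IsUnit.mk0 _ (inv_ne_zero (leadingCoeff_ne_zero.2 h2)))).unit, rfl⟩
  refine ⟨π * C π.leadingCoeff⁻¹, h4.irreducible h3, monic_mul_leadingCoeff_inv h2, ?_⟩
  apply eq_hp
  rw [h, Ideal.mem_span_singleton]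
  exact dvd_mul_right _ _

/-- no new `ℓ`-th powers of constants modulo a polynomial of degree prime to `ℓ` -/
theorem const_stable {ℓ : ℕ} (hpr : ℓ.Prime) {π : k[X]} (hπ : Irreducible π)
    (hd : ¬ ℓ ∣ π.natDegree) {c : k} (h : ∃ a : k[X], π ∣ C c - a ^ ℓ) : ∃ b : k, c = b ^ ℓ := by
  obtain ⟨a, ha⟩ := h
  haveI : Fact (Irreducible π) := ⟨hπ⟩
  haveI : FiniteDimensional k (AdjoinRoot π) := (AdjoinRoot.powerBasis hπ.ne_zero).finite
  have h1 : algebraMap k (AdjoinRoot π) c = (AdjoinRoot.mk π a) ^ ℓ := by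
    rw [← map_pow]
    have : AdjoinRoot.mk π (C c) = AdjoinRoot.mk π (a ^ ℓ) := AdjoinRoot.mk_eq_mk.2 ha
    exact this
  have h2 := congrArg (Algebra.norm k) h1
  rw [Algebra.norm_algebraMap, map_pow, (AdjoinRoot.powerBasis hπ.ne_zero).finrank,
    AdjoinRoot.powerBasis_dim] at h2
  by_cases hc : c = 0
  · exact ⟨0, by rw [hc, zero_pow hpr.ne_zero]⟩
  set N := Algebra.norm k (AdjoinRoot.mk π a) with hN
  obtain ⟨r, -, hr⟩ := Nat.exists_mul_mod_eq_one_of_coprime
    ((Nat.Prime.coprime_iff_not_dvd hpr).2 hd).symm hpr.one_lt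
  have h3 := Nat.div_add_mod (π.natDegree * r) ℓ
  rw [hr] at h3
  set q := π.natDegree * r / ℓ with hq
  have h4 : (c ^ q) ^ ℓ * c = (N ^ r) ^ ℓ := by
    rw [← pow_mul, ← pow_succ, mul_comm q ℓ, h3, pow_mul, h2, ← pow_mul, ← pow_mul, mul_comm ℓ r]
  refine ⟨N ^ r * (c ^ q)⁻¹, ?_⟩
  rw [mul_pow, ← h4, inv_pow, mul_comm, inv_mul_cancel_left₀ (pow_ne_zero _ (pow_ne_zero _ hc))]

variable {K : Type} [Field K] [Algebra k[X] K] [IsFractionRing k[X] K]

lemma val_hp_self {π : k[X]} (hπ : Irreducible π) :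
    (hp π hπ).valuation K (algebraMap k[X] K π) = WithZero.exp (-1 : ℤ) := by
  rw [HeightOneSpectrum.valuation_of_algebraMap]
  exact (hp π hπ).intValuation_singleton hπ.ne_zero rfl

lemma not_pw_exp {ℓ : ℕ} (hpr : ℓ.Prime) : ¬ Pw ℓ (WithZero.exp (-1 : ℤ)) := by
  rintro ⟨β, hβ⟩
  have hβ0 : β ≠ 0 := by
    rintro rfl
    rw [zero_pow hpr.ne_zero] at hβ
    exact WithZero.exp_ne_zero hβ
  obtain ⟨m, rfl⟩ : ∃ m : ℤ, β = WithZero.exp m := ⟨_, (WithZero.exp_log hβ0).symm⟩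
  rw [← WithZero.exp_nsmul] at hβ
  have h1 := WithZero.exp_injective hβ
  rw [nsmul_eq_mul] at h1
  have h2 : (ℓ : ℤ) ∣ 1 := ⟨-m, by linarith⟩
  have h3 : ℓ ∣ 1 := by exact_mod_cast h2
  exact hpr.one_lt.ne' (Nat.dvd_one.1 h3)

lemma val_eq_one_iff (v : HeightOneSpectrum k[X]) (r : k[X]) :
    v.valuation K (algebraMap k[X] K r) = 1 ↔ r ∉ v.asIdeal := by
  rw [← v.valuation_lt_one_iff_mem (K := K), not_lt]
  exact ⟨fun h => h.ge, fun h => le_antisymm (v.valuation_le_one r) h⟩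

lemma val_C {v : HeightOneSpectrum k[X]} {c : k} (hc : c ≠ 0) :
    v.valuation K (algebraMap k[X] K (C c)) = 1 := by
  rw [val_eq_one_iff]
  intro h
  exact v.isPrime.ne_top (Ideal.eq_top_of_isUnit_mem _ h (Polynomial.isUnit_C.2 (IsUnit.mk0 _ hc)))

/-- representation of an element whose valuations outside a finite set are divisible by `ℓ` -/
theorem rep_poly {ℓ : ℕ} (hpr : ℓ.Prime) (T : Finset k[X]) (hT : ∀ π ∈ T, Irreducible π) (N : ℕ) :
    ∀ r : k[X], r ≠ 0 → r.natDegree ≤ N →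
    (∀ v : HeightOneSpectrum k[X], (∀ π ∈ T, π ∉ v.asIdeal) →
      Pw ℓ (v.valuation K (algebraMap k[X] K r))) →
    ∃ (c : k) (a : k[X] → ℕ) (z : k[X]), c ≠ 0 ∧ z ≠ 0 ∧ r = C c * (∏ π ∈ T, π ^ a π) * z ^ ℓ := by
  classical
  induction N using Nat.strong_induction_on with
  | _ N ih =>
  intro r hr hN h
  by_cases hu : IsUnit r
  · obtain ⟨c, hc, rfl⟩ := Polynomial.isUnit_iff.1 hu
    exact ⟨c, fun _ => 0, 1, hc.ne_zero, one_ne_zero, by simp⟩
  obtain ⟨π0, hπ0, hdvd0⟩ := WfDvdMonoid.exists_irreducible_factor hu hr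
  by_cases hex : ∃ π ∈ T, π ∣ r
  · obtain ⟨π, hπT, r', rfl⟩ := hex
    have hπ := hT π hπT
    have hr' : r' ≠ 0 := right_ne_zero_of_mul hr
    have hdeg : (π * r').natDegree = π.natDegree + r'.natDegree := natDegree_mul hπ.ne_zero hr'
    have hπd : 0 < π.natDegree := hπ.natDegree_pos
    obtain ⟨c, a, z, hc, hz, e⟩ := ih r'.natDegree (by omega) r' hr' le_rfl (fun v hv => by
      have h1 := h v hv
      rwa [map_mul, map_mul, (val_eq_one_iff v π).2 (hv π hπT), one_mul] at h1)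
    refine ⟨c, Function.update a π (a π + 1), z, hc, hz, ?_⟩
    rw [e, ← Finset.mul_prod_erase T _ hπT, ← Finset.mul_prod_erase T _ hπT,
      Function.update_self, pow_succ]
    have e2 : ∏ x ∈ T.erase π, x ^ Function.update a π (a π + 1) x = ∏ x ∈ T.erase π, x ^ a x :=
      Finset.prod_congr rfl fun x hx => by rw [Function.update_of_ne (Finset.ne_of_mem_erase hx)]
    rw [e2]; ring
  · push Not at hex
    set v := hp π0 hπ0 with hv
    have hvT : ∀ π ∈ T, π ∉ v.asIdeal := by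
      intro π hπT hmem
      have h1 := eq_hp (hT π hπT) hmem
      apply hex π hπT
      have h2 : r ∈ v.asIdeal := (mem_hp hπ0 r).2 hdvd0
      rw [h1] at h2
      exact (mem_hp _ r).1 h2
    have h1 := h v hvT
    obtain ⟨β, hβ⟩ := h1
    have hlt : v.valuation K (algebraMap k[X] K r) < 1 :=
      (v.valuation_lt_one_iff_mem r).2 ((mem_hp hπ0 r).2 hdvd0)
    have hne : v.valuation K (algebraMap k[X] K r) ≠ 0 := by
      rw [Valuation.ne_zero_iff]
      intro h0
      exact hr (IsFractionRing.injective k[X] K (by rw [h0, map_zero]))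
    have hβ0 : β ≠ 0 := by
      rintro rfl
      rw [zero_pow hpr.ne_zero] at hβ
      exact hne hβ
    obtain ⟨m, rfl⟩ : ∃ m : ℤ, β = WithZero.exp m := ⟨_, (WithZero.exp_log hβ0).symm⟩
    have hm : m < 0 := by
      rw [hβ] at hlt
      have h2 : WithZero.exp m < 1 := by
        by_contra hge
        exact absurd hlt (not_lt.2 (one_le_pow_of_one_le' (not_lt.1 hge) _))
      rw [← WithZero.exp_zero, WithZero.exp_lt_exp] at h2
      exact h2
    have h3 : π0 ^ ℓ ∣ r := by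
      have h4 : v.intValuation r ≤ WithZero.exp (-(ℓ : ℤ)) := by
        rw [← HeightOneSpectrum.valuation_of_algebraMap (K := K), hβ, ← WithZero.exp_nsmul,
          WithZero.exp_le_exp, nsmul_eq_mul]
        have : (0 : ℤ) ≤ ℓ := by positivity
        nlinarith
      rw [v.intValuation_le_pow_iff_mem] at h4
      have h5 : v.asIdeal ^ ℓ = Ideal.span {π0 ^ ℓ} := by
        rw [hv]
        show (Ideal.span {π0}) ^ ℓ = _
        rw [Ideal.span_singleton_pow]
      rw [h5, Ideal.mem_span_singleton] at h4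
      exact h4
    obtain ⟨r', rfl⟩ := h3
    have hr' : r' ≠ 0 := right_ne_zero_of_mul hr
    have hπd : 0 < π0.natDegree := hπ0.natDegree_pos
    have hdeg : (π0 ^ ℓ * r').natDegree = ℓ * π0.natDegree + r'.natDegree := by
      rw [natDegree_mul (pow_ne_zero _ hπ0.ne_zero) hr', natDegree_pow]
    have hpos : 0 < ℓ * π0.natDegree := Nat.mul_pos hpr.pos hπd
    obtain ⟨c, a, z, hc, hz, e⟩ := ih r'.natDegree (by omega) r' hr' le_rfl (fun v hv => by
      have h1 := h v hv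
      rw [map_mul, map_mul, map_pow, map_pow] at h1
      have h2 : v.valuation K (algebraMap k[X] K π0) ≠ 0 := by
        rw [Valuation.ne_zero_iff]
        intro h0
        exact hπ0.ne_zero (IsFractionRing.injective k[X] K (by rw [h0, map_zero]))
      have h3 := (Pw.pow (ℓ := ℓ) (v.valuation K (algebraMap k[X] K π0))).inv.mul h1
      rwa [inv_mul_cancel_left₀ (pow_ne_zero _ h2)] at h3)
    refine ⟨c, a, π0 * z, hc, mul_ne_zero hπ0.ne_zero hz, ?_⟩
    rw [e]; ring

theorem rep {ℓ : ℕ} (hpr : ℓ.Prime) (T : Finset k[X]) (hT : ∀ π ∈ T, Irreducible π)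
    {d : K} (hd : d ≠ 0)
    (h : ∀ v : HeightOneSpectrum k[X], (∀ π ∈ T, π ∉ v.asIdeal) → Pw ℓ (v.valuation K d)) :
    ∃ (c : k) (a : k[X] → ℕ) (z : K), c ≠ 0 ∧ z ≠ 0 ∧
      d = algebraMap k[X] K (C c * (∏ π ∈ T, π ^ a π)) * z ^ ℓ := by
  obtain ⟨r, s, hs, rfl⟩ := IsFractionRing.div_surjective (A := k[X]) d
  have hs0 : s ≠ 0 := nonZeroDivisors.ne_zero hs
  have hsK : algebraMap k[X] K s ≠ 0 := by simpa using hs0
  have hr0 : r ≠ 0 := by
    rintro rfl
    simp at hd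
  have e0 : algebraMap k[X] K (r * s ^ (ℓ - 1)) =
      algebraMap k[X] K r / algebraMap k[X] K s * (algebraMap k[X] K s) ^ ℓ := by
    have : (algebraMap k[X] K s) ^ ℓ = (algebraMap k[X] K s) ^ (ℓ - 1) * algebraMap k[X] K s := by
      rw [← pow_succ, Nat.sub_add_cancel hpr.pos]
    rw [map_mul, map_pow, this]; field_simp
  obtain ⟨c, a, z, hc, hz, e⟩ := rep_poly (K := K) hpr T hT _ (r * s ^ (ℓ - 1))
    (mul_ne_zero hr0 (pow_ne_zero _ hs0)) le_rfl (fun v hv => by
      rw [e0, map_mul, map_pow]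
      exact (h v hv).mul (Pw.pow _))
  have hzK : algebraMap k[X] K z ≠ 0 := by simpa using hz
  refine ⟨c, a, algebraMap k[X] K z / algebraMap k[X] K s, hc, div_ne_zero hzK hsK, ?_⟩
  rw [e, map_mul, map_pow] at e0
  rw [div_pow, ← mul_div_assoc, e0, mul_div_cancel_right₀ _ (pow_ne_zero _ hsK)]

/-- stability at a place of degree prime to `ℓ` -/
theorem stab2 {ℓ : ℕ} (hpr : ℓ.Prime) {π : k[X]} (hπ : Irreducible π) (hdeg : ¬ ℓ ∣ π.natDegree)
    {d : K} (hd : d ≠ 0) (h : ∀ v : HeightOneSpectrum k[X], Pw ℓ (v.valuation K d))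
    (hx : ∃ x : (hp π hπ).adicCompletion K, algebraMap K _ d = x ^ ℓ) :
    ∃ y : K, d = y ^ ℓ := by
  obtain ⟨c, a, z, hc, hz, e⟩ := rep (K := K) hpr ∅ (by simp) hd (fun v _ => h v)
  rw [Finset.prod_empty, mul_one] at e
  have hx' : ∃ x : (hp π hπ).adicCompletion K,
      algebraMap K ((hp π hπ).adicCompletion K) (algebraMap k[X] K (C c)) = x ^ ℓ := by
    obtain ⟨x, hx⟩ := hx
    refine ⟨x / algebraMap K _ z, ?_⟩
    rw [div_pow, ← hx, e, map_mul, map_pow, mul_div_cancel_right₀]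
    exact pow_ne_zero _ ((_root_.map_ne_zero _).2 hz)
  have hcm : C c ∉ (hp π hπ).asIdeal := (val_eq_one_iff (K := K) _ _).1 (val_C hc)
  obtain ⟨a, ha⟩ := pow_unit hpr.ne_zero (hp π hπ) hcm hx'
  rw [mem_hp] at ha
  obtain ⟨b, hb⟩ := const_stable hpr hπ hdeg ⟨a, ha⟩
  refine ⟨algebraMap k[X] K (C b) * z, ?_⟩
  rw [e, mul_pow, ← map_pow, ← C_pow, ← hb]

end poly

end Pool.Agent.Y713.SE
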