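import Pool.Agent.Y713.SE.Exd

/-! Construction of the polynomial `D`, all characteristics. -/

set_option autoImplicit false
set_option linter.all false

open Polynomial IsDedekindDomain

namespace Pool.Agent.Y713.SE

section
variable {k : Type} [Field k]

lemma expand_dvd {q : ℕ} (hq : 0 < q) {D W : k[X]} (hD : D.Monic)
    (h : expand k q D ∣ expand k q W) : D ∣ W := by
  rw [← modByMonic_eq_zero_iff_dvd hD]
  by_contra hne
  have h1 : expand k q D ∣ expand k q (W %ₘ D) := by
    have e : W %ₘ D = W - D * (W /ₘ D) := by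
      rw [eq_sub_iff_add_eq]
      exact modByMonic_add_div W D
    rw [e, map_sub, map_mul]
    exact dvd_sub h (dvd_mul_right _ _)
  have h2 : expand k q (W %ₘ D) ≠ 0 := (expand_ne_zero hq).2 hne
  have h3 := natDegree_le_of_dvd h1 h2
  rw [natDegree_expand, natDegree_expand] at h3
  have h4 : D.natDegree ≤ (W %ₘ D).natDegree := Nat.le_of_mul_le_mul_right h3 hq
  have h5 : D ≠ 1 := by
    rintro rfl
    exact hne (modByMonic_one W)
  exact absurd (natDegree_modByMonic_lt W hD h5) (not_lt.2 h4)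

theorem frob_data {ℓ : ℕ} (hℓ : ℓ.Prime) (hℓk : (ℓ : k) ≠ 0) (T : Finset k[X])
    (hT : ∀ π ∈ T, Irreducible π ∧ π.Monic) :
    ∃ (q : ℕ) (Φ h : k[X] → k[X]) (e : k[X] → ℕ), 0 < q ∧ ¬ ℓ ∣ q ∧
      (∀ z, z ^ q = expand k q (Φ z)) ∧
      (∀ π ∈ T, (h π).Monic ∧ 0 < (h π).natDegree ∧ (h π).Separable ∧ ¬ ℓ ∣ e π ∧
        Φ π = h π ^ e π) ∧ (∀ π ∈ T, ∀ π' ∈ T, π ≠ π' → IsCoprime (h π) (h π')) := by
  classical
  have hcop : ∀ π ∈ T, ∀ π' ∈ T, π ≠ π' → IsCoprime π π' := by
    intro π hπ π' hπ' hne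
    rw [(hT π hπ).1.coprime_iff_not_dvd]
    intro hd
    apply hne
    exact eq_of_monic_of_associated (hT π hπ).2 (hT π' hπ').2
      ((hT π hπ).1.associated_of_dvd (hT π' hπ').1 hd)
  obtain ⟨p, hp⟩ := CharP.exists k
  haveI := hp
  rcases CharP.char_is_prime_or_zero k p with hpp | hp0
  · haveI : Fact p.Prime := ⟨hpp⟩
    haveI : ExpChar k p := ExpChar.prime hpp
    have hpℓ : ¬ ℓ ∣ p := by
      intro hd
      apply hℓk
      have := (Nat.prime_dvd_prime_iff_eq hℓ hpp).1 hd
      rw [this]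
      exact CharP.cast_eq_zero k p
    have hex : ∀ π, ∃ (n : ℕ) (g : k[X]), π ∈ T → g.Separable ∧ expand k (p ^ n) g = π := by
      intro π
      by_cases hπ : π ∈ T
      · obtain ⟨n, g, h1, h2⟩ := exists_separable_of_irreducible p (hT π hπ).1 hpp.ne_zero
        exact ⟨n, g, fun _ => ⟨h1, h2⟩⟩
      · exact ⟨0, 0, fun h => absurd h hπ⟩
    choose nn g hg using hex
    set r := T.sup nn with hr
    have hnr : ∀ π ∈ T, nn π ≤ r := fun π hπ => Finset.le_sup hπ
    have hΦ : ∀ z : k[X], z ^ p ^ r = expand k (p ^ r) (z.map (iterateFrobenius k p r)) := by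
      intro z
      rw [← map_iterateFrobenius_expand p z r, map_expand]
    have hmap : ∀ π ∈ T, π.map (iterateFrobenius k p r) =
        ((g π).map (iterateFrobenius k p (r - nn π))) ^ p ^ nn π := by
      intro π hπ
      rw [← map_iterateFrobenius_expand p _ (nn π), ← map_expand, Polynomial.map_map, (hg π hπ).2,
        ← iterateFrobenius_add]
      congr 2
      have := hnr π hπ
      omega
    refine ⟨p ^ r, fun z => z.map (iterateFrobenius k p r),
      fun π => (g π).map (iterateFrobenius k p (r - nn π)), fun π => p ^ nn π,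
      pow_pos hpp.pos r, fun h => hpℓ (hℓ.dvd_of_dvd_pow h), hΦ, fun π hπ => ?_, ?_⟩
    · have hgm : (g π).Monic := by
        have h1 := (hT π hπ).2
        rw [← (hg π hπ).2] at h1
        exact (monic_expand_iff (pow_pos hpp.pos _)).1 h1
      have hgd : 0 < (g π).natDegree := by
        have h1 := (hT π hπ).1.natDegree_pos
        rw [← (hg π hπ).2, natDegree_expand] at h1
        exact Nat.pos_of_mul_pos_right h1
      refine ⟨hgm.map _, by rw [hgm.natDegree_map]; exact hgd, (hg π hπ).1.map,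
        fun h => hpℓ (hℓ.dvd_of_dvd_pow h), hmap π hπ⟩
    · intro π hπ π' hπ' hne
      have h1 := (hcop π hπ π' hπ' hne).map (mapRingHom (iterateFrobenius k p r))
      rw [coe_mapRingHom, hmap π hπ, hmap π' hπ',
        IsCoprime.pow_iff (pow_pos hpp.pos _) (pow_pos hpp.pos _)] at h1
      exact h1
  · subst hp0
    haveI : CharZero k := CharP.charP_to_charZero k
    refine ⟨1, id, id, fun _ => 1, one_pos, fun h => hℓ.one_lt.ne' (Nat.dvd_one.1 h), fun z => ?_,
      fun π hπ => ⟨(hT π hπ).2, (hT π hπ).1.natDegree_pos, (hT π hπ).1.separable,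
        fun h => hℓ.one_lt.ne' (Nat.dvd_one.1 h), by rw [id, pow_one]⟩, hcop⟩
    rw [pow_one, expand_one, id]

end

section
variable {O k : Type} [CommRing O] [IsDedekindDomain O] [Field k] [Algebra O k]
  [IsFractionRing O k]

theorem infinite_k (hinf : Infinite (HeightOneSpectrum O)) : Infinite k := by
  by_contra hfin
  rw [not_infinite_iff_finite] at hfin
  haveI : Finite O := Finite.of_injective (algebraMap O k) (IsFractionRing.injective O k)
  have : Finite (HeightOneSpectrum O) := Finite.of_injective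
    (fun v : HeightOneSpectrum O => (v.asIdeal : Set O)) fun v w h =>
      HeightOneSpectrum.ext (SetLike.coe_injective h)
  exact not_finite (HeightOneSpectrum O)

theorem exists_D2 (hinf : Infinite (HeightOneSpectrum O)) {ℓ : ℕ} (hℓ : ℓ.Prime)
    (hℓk : (ℓ : k) ≠ 0) (T : Finset k[X]) (hT : ∀ π ∈ T, Irreducible π ∧ π.Monic) (N : ℕ) :
    ∃ D : k[X], D.Monic ∧ Irreducible D ∧ N ≤ D.natDegree ∧ ¬ ℓ ∣ D.natDegree ∧
      ∀ (c : k) (a : k[X] → ℕ) (z : k[X]), c ≠ 0 → D ∣ C c * ∏ π ∈ T, π ^ a π - z ^ ℓ →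
        ∀ π ∈ T, ℓ ∣ a π := by
  classical
  obtain ⟨q, Φ, h, e, hq, hℓq, hΦ, hh, hcop⟩ := frob_data hℓ hℓk T hT
  haveI := infinite_k (k := k) hinf
  set P : k[X] := ∏ π : T, h π with hP
  have hPm : P.Monic := monic_prod_of_monic _ _ fun π _ => (hh π π.2).1
  have hPsep : P.Separable := by
    rw [hP]
    refine separable_prod (fun π π' hne => ?_) fun π : T => (hh π π.2).2.2.1
    exact hcop π π.2 π' π'.2 fun h => hne (Subtype.ext h)
  set S0 := P.natDegree with hS0
  set s := ℓ * (N + S0 + 1) + 1 - S0 with hs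
  have hℓ1 : 1 ≤ ℓ := hℓ.pos
  have hs1 : 1 ≤ s := by
    have : 1 * (N + S0 + 1) ≤ ℓ * (N + S0 + 1) := Nat.mul_le_mul_right _ hℓ1
    omega
  have hsum : S0 + s = ℓ * (N + S0 + 1) + 1 := by
    have : 1 * (N + S0 + 1) ≤ ℓ * (N + S0 + 1) := Nat.mul_le_mul_right _ hℓ1
    omega
  have hbinf : {x : k | ¬ P.IsRoot x}.Infinite := by
    have h1 : {x : k | P.IsRoot x}.Finite := finite_setOf_isRoot hPm.ne_zero
    exact h1.infinite_compl
  let b : Fin s → k := fun j => (hbinf.natEmbedding _ (j : ℕ) : k)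
  have hb : Function.Injective b := by
    intro i j hij
    exact Fin.ext ((hbinf.natEmbedding _).injective (Subtype.ext hij))
  have hbP : ∀ j, ¬ P.IsRoot (b j) := fun j => (hbinf.natEmbedding _ (j : ℕ)).2
  let H : T ⊕ Fin s → k[X] := Sum.elim (fun π => h π) (fun j => X - C (b j))
  have hHprod : ∏ i, H i = P * ∏ j, (X - C (b j)) := by
    rw [Fintype.prod_sum_type]
    rfl
  have hHsep : (∏ i, H i).Separable := by
    rw [hHprod]
    refine hPsep.mul (separable_prod_X_sub_C_iff.2 hb) ?_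
    refine IsCoprime.prod_right fun j _ => ?_
    rw [isCoprime_comm, (irreducible_X_sub_C (b j)).coprime_iff_not_dvd, dvd_iff_isRoot]
    exact hbP j
  obtain ⟨D, hD1, hD2, hD3, hD4⟩ := exists_D1 hinf H (fun i => by
      rcases i with π | j
      · exact (hh π π.2).1
      · exact monic_X_sub_C _) (fun i => by
      rcases i with π | j
      · exact (hh π π.2).2.1
      · show 0 < (X - C (b j)).natDegree
        rw [natDegree_X_sub_C]; exact one_pos) hHsep (Sum.inr ⟨0, hs1⟩)
  have hDdeg : D.natDegree = ℓ * (N + S0 + 1) + 1 := by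
    rw [hD2, Fintype.sum_sum_type, ← hsum]
    congr 1
    · show ∑ π : T, (h π).natDegree = S0
      rw [hS0, hP]
      exact (natDegree_prod_of_monic Finset.univ (fun π : T => h π)
        fun π _ => (hh π π.2).1).symm
    · show ∑ j : Fin s, (X - C (b j)).natDegree = s
      simp
  have hDℓ : ¬ ℓ ∣ D.natDegree := by
    rw [hDdeg]
    intro h
    have := (Nat.dvd_add_right (dvd_mul_right ℓ _)).1 h
    exact hℓ.one_lt.ne' (Nat.dvd_one.1 this)
  refine ⟨expand k q D, hD1.expand hq, hD3 q hq, ?_, ?_, ?_⟩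
  · rw [natDegree_expand, hDdeg]
    have h1 : 1 * (N + S0 + 1) ≤ ℓ * (N + S0 + 1) := Nat.mul_le_mul_right _ hℓ1
    calc N ≤ (ℓ * (N + S0 + 1) + 1) * 1 := by omega
      _ ≤ _ := Nat.mul_le_mul_left _ hq
  · rw [natDegree_expand]
    intro h
    rcases (Nat.Prime.dvd_mul hℓ).1 h with h | h
    · exact hDℓ h
    · exact hℓq h
  · intro c a z hc hdvd π hπ
    have h1 : D ∣ C (c ^ q) * ∏ i, H i ^ (Sum.elim (fun π : T => e π * a π) (fun _ => 0) i) -
        (Φ z) ^ ℓ := by
      apply expand_dvd hq hD1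
      have h2 : expand k q D ∣ (C c * ∏ π ∈ T, π ^ a π) ^ q - (z ^ ℓ) ^ q :=
        hdvd.trans (sub_dvd_pow_sub_pow _ _ _)
      have h3 : (C c * ∏ π ∈ T, π ^ a π) ^ q - (z ^ ℓ) ^ q =
          expand k q (C (c ^ q) * ∏ i, H i ^ (Sum.elim (fun π : T => e π * a π) (fun _ => 0) i) -
            (Φ z) ^ ℓ) := by
        have e0 : (z ^ ℓ) ^ q = expand k q (Φ z ^ ℓ) := by
          rw [map_pow, ← hΦ z, ← pow_mul, ← pow_mul, mul_comm]
        rw [map_sub, map_mul, expand_C, e0, mul_pow, ← C_pow]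
        congr 2
        rw [Fintype.prod_sum_type, ← Finset.prod_coe_sort, ← Finset.prod_pow, map_mul, map_prod,
          map_prod]
        have e1 : ∏ j : Fin s, expand k q (H (Sum.inr j) ^
            (Sum.elim (fun π : T => e π * a π) (fun _ => 0) (Sum.inr j : T ⊕ Fin s))) = 1 := by
          apply Finset.prod_eq_one
          intro j _
          rw [Sum.elim_inr, pow_zero, map_one]
        rw [e1, mul_one]
        refine Finset.prod_congr rfl fun π' _ => ?_
        rw [Sum.elim_inl, map_pow]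
        show ((π' : k[X]) ^ a π') ^ q = (expand k q (h π')) ^ (e π' * a π')
        rw [← pow_mul, mul_comm (a _) q, pow_mul, hΦ, (hh π' π'.2).2.2.2.2, map_pow, ← pow_mul]
      rw [h3] at h2
      exact h2
    have h2 := hD4 ℓ (c ^ q) _ (Φ z) hℓ.ne_zero (pow_ne_zero _ hc) (by rfl) h1 (Sum.inl ⟨π, hπ⟩)
    rw [Sum.elim_inl] at h2
    exact ((Nat.Prime.dvd_mul hℓ).1 h2).resolve_left (hh π hπ).2.2.2.1

end

end Pool.Agent.Y713.SE
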