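import Pool.Agent.Y713.SE.Can

/-! Local analysis: Kummer generators and norms. -/

set_option autoImplicit false
set_option linter.all false

open Polynomial

namespace Pool.Agent.Y713.SE

/-- A non-archimedean absolute value on `Ω`, invariant under the automorphisms over `F`. -/
structure LS (ℓ : ℕ) (F Ω : Type) [Field F] [Field Ω] [Algebra F Ω] where
  nrm : AbsoluteValue Ω ℝ
  na : ∀ x y, nrm (x + y) ≤ max (nrm x) (nrm y)
  inv : ∀ (τ : Ω ≃ₐ[F] Ω) (x : Ω), nrm (τ x) = nrm x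
  hℓ : nrm (ℓ : Ω) = 1

namespace LS

variable {ℓ : ℕ} {F Ω : Type} [Field F] [Field Ω] [Algebra F Ω] (S : LS ℓ F Ω)

/-- value group -/
def Gam (t : ℝ) : Prop := ∃ x : F, x ≠ 0 ∧ S.nrm (algebraMap F Ω x) = t

variable {S}

lemma Gam.mul {t u : ℝ} (ht : S.Gam t) (hu : S.Gam u) : S.Gam (t * u) := by
  obtain ⟨x, hx, rfl⟩ := ht
  obtain ⟨y, hy, rfl⟩ := hu
  exact ⟨x * y, mul_ne_zero hx hy, by rw [map_mul, map_mul]⟩

lemma Gam.inv {t : ℝ} (ht : S.Gam t) : S.Gam t⁻¹ := by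
  obtain ⟨x, hx, rfl⟩ := ht
  exact ⟨x⁻¹, inv_ne_zero hx, by rw [map_inv₀, map_inv₀]⟩

lemma Gam.one : S.Gam 1 := ⟨1, one_ne_zero, by rw [map_one, map_one]⟩

lemma Gam.pow {t : ℝ} (ht : S.Gam t) (k : ℕ) : S.Gam (t ^ k) := by
  obtain ⟨x, hx, rfl⟩ := ht
  exact ⟨x ^ k, pow_ne_zero _ hx, by rw [map_pow, map_pow]⟩

lemma Gam.div {t u : ℝ} (ht : S.Gam t) (hu : S.Gam u) : S.Gam (t / u) := by
  rw [div_eq_mul_inv]; exact ht.mul hu.inv

lemma Gam.ne {t : ℝ} (ht : S.Gam t) : t ≠ 0 := by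
  obtain ⟨x, hx, rfl⟩ := ht
  exact S.nrm.ne_zero ((_root_.map_ne_zero _).2 hx)

lemma Gam.pos {t : ℝ} (ht : S.Gam t) : 0 < t := by
  obtain ⟨x, hx, rfl⟩ := ht
  exact S.nrm.pos ((_root_.map_ne_zero _).2 hx)

lemma nrm_root {z : Ω} (hℓ : ℓ ≠ 0) (h : z ^ ℓ = 1) : S.nrm z = 1 := by
  have h1 := congrArg S.nrm h
  rw [map_pow, map_one] at h1
  exact (pow_eq_one_iff_of_nonneg (S.nrm.nonneg _) hℓ).1 h1

end LS

namespace Dat

variable {ℓ n : ℕ} {K : Type} [Field K] (D : Dat ℓ n K)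
variable {F Ω : Type} [Field F] [Algebra K F] [Field Ω] [Algebra K Ω] [Algebra F Ω]
  [IsScalarTower K F Ω]

/-- an automorphism over `F`, viewed over `K` -/
noncomputable abbrev rs (K : Type) [Field K] {F Ω : Type} [Field F] [Algebra K F] [Field Ω]
    [Algebra K Ω] [Algebra F Ω] [IsScalarTower K F Ω] (τ : Ω ≃ₐ[F] Ω) : Ω →ₐ[K] Ω :=
  τ.toAlgHom.restrictScalars K

lemma rs_apply (τ : Ω ≃ₐ[F] Ω) (x : Ω) : rs K τ x = τ x := rfl

lemma rs_mul (σ τ : Ω ≃ₐ[F] Ω) : rs K (σ * τ) = (rs K σ).comp (rs K τ) := rfl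

lemma rs_one : rs K (1 : Ω ≃ₐ[F] Ω) = AlgHom.id K Ω := rfl

lemma rs_coe (τ : Ω ≃ₐ[F] Ω) : ((τ.restrictScalars K : Ω ≃ₐ[K] Ω) : Ω →ₐ[K] Ω) = rs K τ := rfl

/-- the norms of the leading coefficients of an ideal -/
noncomputable def Lam (S : LS ℓ F Ω) (i : Fin n) (I : Ideal (D.base Ω).A) : ℝ :=
  S.nrm ((D.base Ω).lam i ((D.base Ω).U I))

variable (S : LS ℓ F Ω)

lemma Lam_pos (i : Fin n) (I : Ideal (D.base Ω).A) : 0 < D.Lam S i I :=
  S.nrm.pos ((D.base Ω).lam_ne i ((D.base Ω).U_ne I))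

lemma Lam_ne (i : Fin n) (I : Ideal (D.base Ω).A) : D.Lam S i I ≠ 0 := (D.Lam_pos S i I).ne'

lemma Lam_mul (i : Fin n) {I J : Ideal (D.base Ω).A} (hI : I ≠ ⊥) (hJ : J ≠ ⊥) :
    D.Lam S i (I * J) = D.Lam S i I * D.Lam S i J := by
  unfold Lam
  rw [(D.base Ω).U_mul hI hJ, (D.base Ω).lam_mul i ((D.base Ω).U_ne I) ((D.base Ω).U_ne J), map_mul]

lemma Lam_top (i : Fin n) : D.Lam S i ⊤ = 1 := by
  unfold Lam
  rw [U_top, lam_one, map_one]

lemma Lam_pow (i : Fin n) {I : Ideal (D.base Ω).A} (hI : I ≠ ⊥) (k : ℕ) :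
    D.Lam S i (I ^ k) = D.Lam S i I ^ k := by
  induction k with
  | zero => rw [pow_zero, pow_zero, Ideal.one_eq_top, Lam_top]
  | succ k ih =>
    rw [pow_succ, pow_succ, Lam_mul _ _ _ _ hI, ih]
    rw [← Ideal.zero_eq_bot] at hI ⊢
    exact pow_ne_zero _ hI

lemma Lam_prod (i : Fin n) {ι : Type} (s : Finset ι) {G : ι → Ideal (D.base Ω).A}
    (h : ∀ j ∈ s, G j ≠ ⊥) : D.Lam S i (∏ j ∈ s, G j) = ∏ j ∈ s, D.Lam S i (G j) := by
  classical
  induction s using Finset.induction_on with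
  | empty => rw [Finset.prod_empty, Finset.prod_empty, Ideal.one_eq_top, Lam_top]
  | insert a s ha ih =>
    rw [Finset.prod_insert ha, Finset.prod_insert ha, D.Lam_mul S i (h a (Finset.mem_insert_self _ _))
      (prod_ne s fun i hi => h i (Finset.mem_insert_of_mem hi)),
      ih fun i hi => h i (Finset.mem_insert_of_mem hi)]

lemma Lam_sI (i : Fin n) (j : ℕ) {I : Ideal (D.base Ω).A} (hI : I ≠ ⊥) :
    D.Lam S i ((D.base Ω).sI j I) = D.Lam S i I := by
  unfold Lam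
  rw [(D.base Ω).U_sI j hI]

lemma Lam_mI (i : Fin n) (τ : Ω ≃ₐ[F] Ω) {I : Ideal (D.base Ω).A} (hI : I ≠ ⊥) :
    D.Lam S i (D.mI (rs K τ) I) = D.Lam S i I := by
  unfold Lam
  rw [D.U_mI _ hI, D.lam_map (rs K τ) i ((D.base Ω).U_ne I), rs_apply, S.inv]

lemma nrm_ζ (k : ℕ) : S.nrm ((D.base Ω).ζ ^ k) = 1 :=
  LS.nrm_root D.pos.ne' ((D.base Ω).ζpow k)

lemma Lam_span {a : (D.base Ω).A} (ha : a ≠ 0) : ∃ t : ℝ, 0 < t ∧
    ∀ i : Fin n, D.Lam S i (Ideal.span {a}) = t * S.nrm ((D.base Ω).lead i a) ^ ℓ := by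
  have hN := (D.base Ω).Nm_ne ha
  have hc : ((D.base Ω).Nm a).leadingCoeff⁻¹ ≠ 0 := inv_ne_zero (leadingCoeff_ne_zero.2 hN)
  refine ⟨S.nrm (((D.base Ω).Nm a).leadingCoeff⁻¹), S.nrm.pos hc, fun i => ?_⟩
  unfold Lam
  rw [(D.base Ω).U_span ha, (D.base Ω).lam_mul i hN (C_ne_zero.2 hc), (D.base Ω).lam_C i hc,
    (D.base Ω).lead_Nm i ha, map_mul, map_mul, map_prod, map_pow,
    Finset.prod_congr rfl fun j _ => D.nrm_ζ S _, Finset.prod_const_one]
  ring

/-- comparing principal multiples -/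
lemma Lam_rel {a b : (D.base Ω).A} (ha : a ≠ 0) (hb : b ≠ 0) {I J : Ideal (D.base Ω).A}
    (hI : I ≠ ⊥) (hJ : J ≠ ⊥) (h : Ideal.span {a} * I = Ideal.span {b} * J) :
    ∃ t : ℝ, 0 < t ∧ ∀ i : Fin n, S.nrm ((D.base Ω).lead i a) ^ ℓ * D.Lam S i I =
      t * (S.nrm ((D.base Ω).lead i b) ^ ℓ * D.Lam S i J) := by
  obtain ⟨t, ht, h1⟩ := D.Lam_span S ha
  obtain ⟨u, hu, h2⟩ := D.Lam_span S hb
  refine ⟨u / t, div_pos hu ht, fun i => ?_⟩
  have h3 := congrArg (D.Lam S i) h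
  rw [D.Lam_mul S i ((D.base Ω).span_ne ha) hI, D.Lam_mul S i ((D.base Ω).span_ne hb) hJ,
    h1, h2] at h3
  rw [div_mul_eq_mul_div, eq_div_iff ht.ne']
  linarith

lemma oI_mI (i : Fin n) (φ : Ω →ₐ[K] Ω) {I : Ideal (D.base Ω).A} (hI : I ≠ ⊥) :
    (D.base Ω).oI i (D.mI φ I) = (D.base Ω).oI i I := by
  unfold oI
  rw [D.U_mI φ hI]
  have h : (D.base Ω).e i = (φ : Ω →+* Ω) ((D.base Ω).e i) := (φ.commutes _).symm
  conv_lhs => rw [h]
  exact (eq_rootMultiplicity_map (φ : Ω →+* Ω).injective _).symm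

/-- the fixed field -/
lemma exists_F [IsGalois F Ω] {z : Ω} (h : ∀ τ : Ω ≃ₐ[F] Ω, τ z = z) :
    ∃ x : F, algebraMap F Ω x = z := (InfiniteGalois.mem_range_algebraMap_iff_fixed z).2 h

/-- Theorem A: the norms of the Kummer generators -/
theorem locA [IsGalois F Ω] {χ : (Ω ≃ₐ[F] Ω) → Fin n → ℕ} {R : ClassGroup (D.base Ω).A}
    (hR : ∀ τ, D.mC (rs K τ) R = R * cl ((D.base Ω).PT (χ τ)))
    {i j : Fin n} {θ : Ω} (hθ0 : θ ≠ 0)
    (hθ : ∀ τ : Ω ≃ₐ[F] Ω, (D.base Ω).ζ ^ χ τ j * τ θ = (D.base Ω).ζ ^ χ τ i * θ)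
    {B1 B2 : Ideal (D.base Ω).A} (hB1 : B1 ≠ ⊥) (hB2 : B2 ≠ ⊥)
    (hi1 : ∀ τ : Ω ≃ₐ[F] Ω, D.mI (rs K τ) B1 = B1) (hi2 : ∀ τ : Ω ≃ₐ[F] Ω, D.mI (rs K τ) B2 = B2)
    (hcl : cl B1 * (D.base Ω).sC R = cl B2 * R) :
    ∃ x : F, x ≠ 0 ∧ S.nrm θ ^ ℓ * (D.Lam S i B1 * D.Lam S j B2) =
      S.nrm (algebraMap F Ω x) ^ ℓ * (D.Lam S j B1 * D.Lam S i B2) := by
  obtain ⟨I, hI, rfl⟩ := exists_cl R
  rw [(D.base Ω).sC_cl hI, ← cl_mul hB1 ((D.base Ω).sI_ne hI), ← cl_mul hB2 hI] at hcl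
  obtain ⟨b, a, hb, ha, hab⟩ := (cl_eq_iff ((D.base Ω).mul_ne hB1 ((D.base Ω).sI_ne hI))
    ((D.base Ω).mul_ne hB2 hI)).1 hcl
  -- the ratio of leading coefficients
  have key : ∀ τ : Ω ≃ₐ[F] Ω, ∃ κ : Ω, κ ≠ 0 ∧ ∀ k : Fin n,
      τ ((D.base Ω).lead k a) * (D.base Ω).lead k b * (κ * (D.base Ω).ζ ^ χ τ k) =
        τ ((D.base Ω).lead k b) * (D.base Ω).lead k a := by
    intro τ
    have h1 := hR τ
    rw [D.mC_cl _ hI, ← cl_mul hI ((D.base Ω).PT_ne _)] at h1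
    obtain ⟨p, q, hp, hq, hpq⟩ := (cl_eq_iff (D.mI_ne _ hI)
      ((D.base Ω).mul_ne hI ((D.base Ω).PT_ne _))).1 h1
    have h2 := congrArg (D.mI (rs K τ)) hab
    rw [mI_mul, mI_mul, mI_mul, mI_mul, mI_span, mI_span, hi1, hi2, mI_sI] at h2
    have h3 := congrArg ((D.base Ω).sI 1) hpq
    rw [sI_mul, sI_mul, sI_mul, sI_span, sI_span, sI_PT] at h3
    have hta := D.mp_ne (rs K τ) ha
    have htb := D.mp_ne (rs K τ) hb
    have hsp : (D.base Ω).s 1 p ≠ 0 := (map_ne_zero_iff _ ((D.base Ω).s 1).injective).2 hp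
    have hsq : (D.base Ω).s 1 q ≠ 0 := (map_ne_zero_iff _ ((D.base Ω).s 1).injective).2 hq
    -- the key ideal identity
    have h4 : Ideal.span {D.mp (rs K τ) a * (D.base Ω).s 1 p * q * b} =
        Ideal.span {D.mp (rs K τ) b * p * (D.base Ω).s 1 q * a} := by
      have hne : (B1 * (D.base Ω).sI 1 I) * (D.base Ω).PT (χ τ) ≠ ⊥ :=
        (D.base Ω).mul_ne ((D.base Ω).mul_ne hB1 ((D.base Ω).sI_ne hI)) ((D.base Ω).PT_ne _)
      apply mul_right_cancel₀ hne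
      simp only [← Ideal.span_singleton_mul_span_singleton]
      generalize (D.base Ω).sI 1 I = sI at *
      generalize D.mI (rs K τ) I = tI at *
      generalize (D.base Ω).PT (χ τ) = T at *
      generalize (D.base Ω).sI 1 tI = stI at *
      generalize Ideal.span {D.mp (rs K τ) a} = ta at *
      generalize Ideal.span {D.mp (rs K τ) b} = tb at *
      generalize Ideal.span {(D.base Ω).s 1 p} = sp at *
      generalize Ideal.span {(D.base Ω).s 1 q} = sq at *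
      generalize Ideal.span {a} = a' at *
      generalize Ideal.span {b} = b' at *
      generalize Ideal.span {p} = p' at *
      generalize Ideal.span {q} = q' at *
      calc ta * sp * q' * b' * (B1 * sI * T) = ta * sp * q' * (b' * (B1 * sI)) * T := by ring
        _ = ta * sp * q' * (a' * (B2 * I)) * T := by rw [hab]
        _ = ta * sp * a' * B2 * (q' * (I * T)) := by ring
        _ = ta * sp * a' * B2 * (p' * tI) := by rw [hpq]
        _ = sp * a' * p' * (ta * (B2 * tI)) := by ring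
        _ = sp * a' * p' * (tb * (B1 * stI)) := by rw [h2]
        _ = a' * p' * tb * B1 * (sp * stI) := by ring
        _ = a' * p' * tb * B1 * (sq * (sI * T)) := by rw [h3]
        _ = _ := by ring
    rw [Ideal.span_singleton_eq_span_singleton] at h4
    obtain ⟨u, hu⟩ := h4
    obtain ⟨κ, hκ, huκ⟩ := (D.base Ω).unit_const u.isUnit
    rw [huκ] at hu
    have hκA := (D.base Ω).alg_ne (C_ne_zero.2 hκ)
    refine ⟨κ, hκ, fun k => ?_⟩
    have h5 := congrArg ((D.base Ω).lead k) hu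
    rw [(D.base Ω).lead_mul k (mul_ne_zero (mul_ne_zero (mul_ne_zero hta hsp) hq) hb) hκA,
      (D.base Ω).lead_mul k (mul_ne_zero (mul_ne_zero hta hsp) hq) hb,
      (D.base Ω).lead_mul k (mul_ne_zero hta hsp) hq, (D.base Ω).lead_mul k hta hsp,
      (D.base Ω).lead_mul k (mul_ne_zero (mul_ne_zero htb hp) hsq) ha,
      (D.base Ω).lead_mul k (mul_ne_zero htb hp) hsq, (D.base Ω).lead_mul k htb hp,
      (D.base Ω).lead_C k hκ, (D.base Ω).lead_s k hp, (D.base Ω).lead_s k hq,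
      D.lead_mp _ k ha, D.lead_mp _ k hb, rs_apply, rs_apply, one_mul, one_mul] at h5
    have h6 : (D.base Ω).ord k p = (D.base Ω).ord k q + χ τ k := by
      have h7 := congrArg ((D.base Ω).oI k) hpq
      rw [(D.base Ω).oI_mul k ((D.base Ω).span_ne hp) (D.mI_ne _ hI),
        (D.base Ω).oI_mul k ((D.base Ω).span_ne hq) ((D.base Ω).mul_ne hI ((D.base Ω).PT_ne _)),
        (D.base Ω).oI_mul k hI ((D.base Ω).PT_ne _), (D.base Ω).oI_span k hp,
        (D.base Ω).oI_span k hq, D.oI_mI k _ hI, (D.base Ω).oI_PT] at h7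
      omega
    have h8 : (D.base Ω).ζ ^ (D.base Ω).ord k q * (D.base Ω).lead k p * (D.base Ω).lead k q ≠ 0 :=
      mul_ne_zero (mul_ne_zero (pow_ne_zero _ (D.base Ω).ζ_ne) ((D.base Ω).lead_ne hp))
        ((D.base Ω).lead_ne hq)
    apply mul_left_cancel₀ h8
    rw [h6, pow_add] at h5
    linear_combination h5
  -- the element
  set z : Ω := θ * ((D.base Ω).lead i a * (D.base Ω).lead j b) /
    ((D.base Ω).lead j a * (D.base Ω).lead i b) with hz
  have hai := (D.base Ω).lead_ne (i := i) ha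
  have haj := (D.base Ω).lead_ne (i := j) ha
  have hbi := (D.base Ω).lead_ne (i := i) hb
  have hbj := (D.base Ω).lead_ne (i := j) hb
  have hz0 : z ≠ 0 := div_ne_zero (mul_ne_zero hθ0 (mul_ne_zero hai hbj)) (mul_ne_zero haj hbi)
  have hzfix : ∀ τ : Ω ≃ₐ[F] Ω, τ z = z := by
    intro τ
    obtain ⟨κ, hκ, hk⟩ := key τ
    have hi := hk i
    have hj := hk j
    have hθ' := hθ τ
    have hζi : (D.base Ω).ζ ^ χ τ i ≠ 0 := pow_ne_zero _ (D.base Ω).ζ_ne
    have hζj : (D.base Ω).ζ ^ χ τ j ≠ 0 := pow_ne_zero _ (D.base Ω).ζ_ne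
    have tai : τ ((D.base Ω).lead i a) ≠ 0 := (_root_.map_ne_zero _).2 hai
    have taj : τ ((D.base Ω).lead j a) ≠ 0 := (_root_.map_ne_zero _).2 haj
    have tbi : τ ((D.base Ω).lead i b) ≠ 0 := (_root_.map_ne_zero _).2 hbi
    have tbj : τ ((D.base Ω).lead j b) ≠ 0 := (_root_.map_ne_zero _).2 hbj
    rw [hz, map_div₀, map_mul, map_mul, map_mul, div_eq_div_iff (mul_ne_zero taj tbi)
      (mul_ne_zero haj hbi)]
    generalize τ ((D.base Ω).lead i a) = Ai at *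
    generalize τ ((D.base Ω).lead j a) = Aj at *
    generalize τ ((D.base Ω).lead i b) = Bi at *
    generalize τ ((D.base Ω).lead j b) = Bj at *
    generalize (D.base Ω).lead i a = ai at *
    generalize (D.base Ω).lead j a = aj at *
    generalize (D.base Ω).lead i b = bi at *
    generalize (D.base Ω).lead j b = bj at *
    generalize (D.base Ω).ζ ^ χ τ i = zi at *
    generalize (D.base Ω).ζ ^ χ τ j = zj at *
    generalize τ θ = t at *
    have hne : κ * zi * zj ≠ 0 := mul_ne_zero (mul_ne_zero hκ hζi) hζj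
    apply mul_left_cancel₀ hne
    -- hi : Ai * bi * (κ * zi) = Bi * ai ; hj : Aj * bj * (κ * zj) = Bj * aj ; hθ' : zj * t = zi * θ
    calc κ * zi * zj * (t * (Ai * Bj) * (aj * bi)) =
        (Ai * bi * (κ * zi)) * (zj * t) * (Bj * aj) := by ring
      _ = (Bi * ai) * (zi * θ) * (Aj * bj * (κ * zj)) := by rw [hi, hθ', ← hj]
      _ = _ := by ring
  obtain ⟨x, hx⟩ := exists_F hzfix
  have hx0 : x ≠ 0 := by
    rintro rfl
    rw [map_zero] at hx
    exact hz0 hx.symm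
  refine ⟨x, hx0, ?_⟩
  -- norms
  obtain ⟨t, ht, hrel⟩ := D.Lam_rel S hb ha ((D.base Ω).mul_ne hB1 ((D.base Ω).sI_ne hI))
    ((D.base Ω).mul_ne hB2 hI) hab
  have hri := hrel i
  have hrj := hrel j
  rw [D.Lam_mul S _ hB1 ((D.base Ω).sI_ne hI), D.Lam_mul S _ hB2 hI, D.Lam_sI S _ 1 hI] at hri hrj
  have hIi := D.Lam_ne S i I
  have hIj := D.Lam_ne S j I
  rw [hx, hz, map_div₀, map_mul, map_mul, map_mul, div_pow, mul_pow, mul_pow, mul_pow]
  have nai := S.nrm.ne_zero hai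
  have naj := S.nrm.ne_zero haj
  have nbi := S.nrm.ne_zero hbi
  have nbj := S.nrm.ne_zero hbj
  rw [div_mul_eq_mul_div, eq_div_iff (mul_ne_zero (pow_ne_zero _ naj) (pow_ne_zero _ nbi))]
  apply mul_left_cancel₀ (mul_ne_zero (mul_ne_zero ht.ne' hIi) hIj)
  generalize S.nrm ((D.base Ω).lead i a) ^ ℓ = ai at *
  generalize S.nrm ((D.base Ω).lead j a) ^ ℓ = aj at *
  generalize S.nrm ((D.base Ω).lead i b) ^ ℓ = bi at *
  generalize S.nrm ((D.base Ω).lead j b) ^ ℓ = bj at *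
  generalize D.Lam S i B1 = B1i at *
  generalize D.Lam S j B1 = B1j at *
  generalize D.Lam S i B2 = B2i at *
  generalize D.Lam S j B2 = B2j at *
  generalize D.Lam S i I = Ii at *
  generalize D.Lam S j I = Ij at *
  generalize S.nrm θ ^ ℓ = T at *
  -- hri : bi * (B1i * Ii) = t * (ai * (B2i * Ii)); hrj : bj * (B1j * Ij) = t * (aj * (B2j * Ij))
  calc t * Ii * Ij * (T * (B1i * B2j) * (aj * bi)) =
      T * (bi * (B1i * Ii)) * (t * (aj * (B2j * Ij))) := by ring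
    _ = T * (t * (ai * (B2i * Ii))) * (bj * (B1j * Ij)) := by rw [hri, ← hrj]
    _ = _ := by ring

/-- the value group of an abelian extension generated by radicals of norms in the value group -/
theorem claimE [IsGalois F Ω] {ι : Type} (s : Finset ι) (θ : ι → Ω)
    (hθ0 : ∀ a ∈ s, θ a ≠ 0) (hθ : ∀ a ∈ s, ∀ σ : Ω ≃ₐ[F] Ω, ∃ k : ℕ, σ (θ a) = (D.base Ω).ζ ^ k * θ a)
    (hG : ∀ a ∈ s, S.Gam (S.nrm (θ a))) : ∀ z : Ω, z ≠ 0 →
      (∀ σ : Ω ≃ₐ[F] Ω, (∀ a ∈ s, σ (θ a) = θ a) → σ z = z) → S.Gam (S.nrm z) := by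
  classical
  induction s using Finset.induction_on with
  | empty =>
    intro z hz h
    obtain ⟨x, rfl⟩ := exists_F (F := F) (z := z) fun τ => h τ (by simp)
    exact ⟨x, fun hx => hz (by rw [hx, map_zero]), rfl⟩
  | insert b s hb ih =>
    have ih' := ih (fun a ha => hθ0 a (Finset.mem_insert_of_mem ha))
      (fun a ha => hθ a (Finset.mem_insert_of_mem ha)) (fun a ha => hG a (Finset.mem_insert_of_mem ha))
    intro z hz h
    by_cases hall : ∀ σ : Ω ≃ₐ[F] Ω, (∀ a ∈ s, σ (θ a) = θ a) → σ (θ b) = θ b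
    · refine ih' z hz fun σ hσ => h σ fun a ha => ?_
      rcases Finset.mem_insert.1 ha with rfl | ha
      · exact hall σ hσ
      · exact hσ a ha
    push Not at hall
    obtain ⟨τ0, hτ0, hτ0b⟩ := hall
    have hb0 := hθ0 b (Finset.mem_insert_self _ _)
    have hζfix : ∀ (σ : Ω ≃ₐ[F] Ω) (k : ℕ), σ ((D.base Ω).ζ ^ k) = (D.base Ω).ζ ^ k := by
      intro σ k
      rw [map_pow]
      congr 1
      exact (rs K σ).commutes _
    -- a generator
    obtain ⟨τ, hτs, hτb⟩ : ∃ τ : Ω ≃ₐ[F] Ω, (∀ a ∈ s, τ (θ a) = θ a) ∧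
        τ (θ b) = (D.base Ω).ζ * θ b := by
      obtain ⟨k, hk⟩ := hθ b (Finset.mem_insert_self _ _) τ0
      have hkℓ : ¬ ℓ ∣ k := by
        rintro ⟨r, rfl⟩
        rw [pow_mul, (D.base Ω).hζ.pow_eq_one, one_pow, one_mul] at hk
        exact hτ0b hk
      obtain ⟨r, -, hr⟩ := Nat.exists_mul_mod_eq_one_of_coprime
        ((Nat.Prime.coprime_iff_not_dvd D.hp).2 hkℓ).symm D.hp.one_lt
      have hpow : ∀ r : ℕ, (∀ a ∈ s, (τ0 ^ r) (θ a) = θ a) ∧
          (τ0 ^ r) (θ b) = (D.base Ω).ζ ^ (k * r) * θ b := by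
        intro r
        induction r with
        | zero =>
          exact ⟨fun a _ => rfl, by simp⟩
        | succ r ihr =>
          refine ⟨fun a ha => ?_, ?_⟩
          · rw [pow_succ', AlgEquiv.mul_apply, ihr.1 a ha, hτ0 a ha]
          · rw [pow_succ', AlgEquiv.mul_apply, ihr.2, map_mul, hζfix, hk, mul_add, mul_one, pow_add]
            ring
      refine ⟨τ0 ^ r, (hpow r).1, ?_⟩
      rw [(hpow r).2, (D.base Ω).ζ_pow_of_modEq (a := k * r) (b := 1), pow_one]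
      rw [Nat.ModEq, hr, Nat.mod_eq_of_lt D.hp.one_lt]
    have hτk : ∀ k : ℕ, (∀ a ∈ s, (τ ^ k) (θ a) = θ a) ∧
        (τ ^ k) (θ b) = (D.base Ω).ζ ^ k * θ b := by
      intro k
      induction k with
      | zero =>
        exact ⟨fun a _ => rfl, by simp⟩
      | succ k ihk =>
        refine ⟨fun a ha => ?_, ?_⟩
        · rw [pow_succ', AlgEquiv.mul_apply, ihk.1 a ha, hτs a ha]
        · rw [pow_succ', AlgEquiv.mul_apply, ihk.2, map_mul, hζfix, hτb, pow_succ]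
          ring
    have hτℓ : (τ ^ ℓ) z = z := by
      refine h _ fun a ha => ?_
      rcases Finset.mem_insert.1 ha with rfl | ha
      · rw [(hτk ℓ).2, (D.base Ω).hζ.pow_eq_one, one_mul]
      · exact (hτk ℓ).1 a ha
    -- the eigencomponents
    set w : Ω := (D.base Ω).ζ⁻¹ with hw
    have hζ0 := (D.base Ω).ζ_ne
    have hwfix : ∀ (σ : Ω ≃ₐ[F] Ω) (k : ℕ), σ (w ^ k) = w ^ k := by
      intro σ k
      have := hζfix σ 1
      rw [pow_one] at this
      rw [map_pow, hw, map_inv₀, this]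
    let Z : ℕ → Ω := fun i => ∑ m ∈ Finset.range ℓ, w ^ (i * m) * (τ ^ m) z
    have hτZ : ∀ i, τ (Z i) = (D.base Ω).ζ ^ i * Z i := by
      intro i
      have h1 : ∑ m ∈ Finset.range ℓ, w ^ (i * (m + 1)) * (τ ^ (m + 1)) z =
          ∑ m ∈ Finset.range ℓ, w ^ (i * m) * (τ ^ m) z := by
        refine D.sum_shift (fun m => w ^ (i * m) * (τ ^ m) z) ?_
        rw [hτℓ, mul_zero, pow_zero, one_mul, pow_zero, mul_comm i ℓ, pow_mul, hw, inv_pow,
          (D.base Ω).hζ.pow_eq_one, inv_one, one_pow, one_mul]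
        rfl
      have h3 : τ (Z i) = (D.base Ω).ζ ^ i *
          ∑ m ∈ Finset.range ℓ, w ^ (i * (m + 1)) * (τ ^ (m + 1)) z := by
        show τ (∑ m ∈ Finset.range ℓ, w ^ (i * m) * (τ ^ m) z) = _
        rw [map_sum, Finset.mul_sum]
        refine Finset.sum_congr rfl fun m _ => ?_
        rw [map_mul, hwfix, ← AlgEquiv.mul_apply, ← pow_succ', mul_add, mul_one, pow_add w]
        have h2 : (D.base Ω).ζ ^ i * w ^ i = 1 := by
          rw [← mul_pow, hw, mul_inv_cancel₀ hζ0, one_pow]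
        calc w ^ (i * m) * (τ ^ (m + 1)) z = 1 * (w ^ (i * m) * (τ ^ (m + 1)) z) := by ring
          _ = _ := by rw [← h2]; ring
      rw [h3, h1]
    have hτkZ : ∀ i k, (τ ^ k) (Z i) = (D.base Ω).ζ ^ (i * k) * Z i := by
      intro i k
      induction k with
      | zero => rw [mul_zero, pow_zero, pow_zero, one_mul]; rfl
      | succ k ihk =>
        rw [pow_succ', AlgEquiv.mul_apply, ihk, map_mul, hζfix, hτZ, mul_add, mul_one, pow_add]
        ring
    -- commuting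
    have hcomm : ∀ σ ρ : Ω ≃ₐ[F] Ω, ∀ a ∈ insert b s, σ (ρ (θ a)) = ρ (σ (θ a)) := by
      intro σ ρ a ha
      obtain ⟨k, hk⟩ := hθ a ha σ
      obtain ⟨k', hk'⟩ := hθ a ha ρ
      rw [hk, hk', map_mul, map_mul, hζfix, hζfix, hk, hk']; ring
    have hfixZ : ∀ g : Ω ≃ₐ[F] Ω, (∀ a ∈ insert b s, g (θ a) = θ a) → ∀ i, g (Z i) = Z i := by
      intro g hg i
      show g (∑ m ∈ Finset.range ℓ, w ^ (i * m) * (τ ^ m) z) = ∑ m ∈ Finset.range ℓ, _
      rw [map_sum]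
      refine Finset.sum_congr rfl fun m _ => ?_
      rw [map_mul, hwfix]
      congr 1
      have h1 : ((τ ^ m)⁻¹ * g * (τ ^ m)) z = z := by
        refine h _ fun a ha => ?_
        rw [AlgEquiv.mul_apply, AlgEquiv.mul_apply, hcomm g _ a ha, hg a ha]
        exact (τ ^ m).symm_apply_apply _
      have h2 := congrArg (τ ^ m) h1
      rw [AlgEquiv.mul_apply, AlgEquiv.mul_apply] at h2
      exact ((τ ^ m).apply_symm_apply _).symm.trans h2
    have hGZ : ∀ i, Z i ≠ 0 → S.Gam (S.nrm (Z i)) := by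
      intro i hZi
      have hne : Z i / θ b ^ i ≠ 0 := div_ne_zero hZi (pow_ne_zero _ hb0)
      have h1 : S.Gam (S.nrm (Z i / θ b ^ i)) := by
        refine ih' _ hne fun σ hσ => ?_
        obtain ⟨k, hk⟩ := hθ b (Finset.mem_insert_self _ _) σ
        have h2 : ((τ ^ k)⁻¹ * σ) (Z i) = Z i := by
          apply hfixZ
          intro a ha
          rw [AlgEquiv.mul_apply]
          rcases Finset.mem_insert.1 ha with rfl | ha'
          · rw [hk, ← (hτk k).2]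
            exact (τ ^ k).symm_apply_apply _
          · rw [hσ a ha']
            have h3 := (hτk k).1 a ha'
            conv_lhs => rw [← h3]
            exact (τ ^ k).symm_apply_apply _
        have h3 : σ (Z i) = (D.base Ω).ζ ^ (i * k) * Z i := by
          rw [← hτkZ]
          conv_rhs => rw [← h2]
          rw [AlgEquiv.mul_apply]
          exact ((τ ^ k).apply_symm_apply _).symm
        rw [map_div₀, map_pow, hk, h3, mul_pow, ← pow_mul, mul_comm k i,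
          mul_div_mul_left _ _ (pow_ne_zero _ hζ0)]
      have h2 : S.nrm (Z i) = S.nrm (Z i / θ b ^ i) * S.nrm (θ b) ^ i := by
        rw [← map_pow, ← map_mul, div_mul_cancel₀ _ (pow_ne_zero _ hb0)]
      rw [h2]
      exact h1.mul ((hG b (Finset.mem_insert_self _ _)).pow i)
    -- sum of the eigencomponents
    have hsum : ∑ i ∈ Finset.range ℓ, Z i = (ℓ : Ω) * z := by
      show ∑ i ∈ Finset.range ℓ, ∑ m ∈ Finset.range ℓ, w ^ (i * m) * (τ ^ m) z = _
      rw [Finset.sum_comm, Finset.sum_eq_single 0]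
      · simp
      · intro m hm hm0
        rw [← Finset.sum_mul]
        have h1 : ∑ i ∈ Finset.range ℓ, w ^ (i * m) = 0 := by
          have hwp : IsPrimitiveRoot w ℓ := (D.base Ω).hζ.inv
          have h2 := mul_neg_geom_sum (w ^ m) ℓ
          rw [← pow_mul, mul_comm m ℓ, pow_mul, hwp.pow_eq_one, one_pow, sub_self] at h2
          have h3 : (1 : Ω) - w ^ m ≠ 0 := by
            rw [sub_ne_zero]
            exact (hwp.pow_ne_one_of_pos_of_lt hm0 (Finset.mem_range.1 hm)).symm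
          have h4 := (mul_eq_zero.1 h2).resolve_left h3
          rw [← h4]
          exact Finset.sum_congr rfl fun i _ => by rw [← pow_mul, mul_comm]
        rw [h1, zero_mul]
      · intro h0
        exact absurd (Finset.mem_range.2 D.pos) h0
    have hnw : S.nrm w = 1 := by
      rw [hw, map_inv₀]
      have := D.nrm_ζ S 1
      rw [pow_one] at this
      rw [this, inv_one]
    have hna : ∀ (s : Finset ℕ) (G : ℕ → Ω) (t : ℝ), 0 ≤ t → (∀ i ∈ s, S.nrm (G i) ≤ t) →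
        S.nrm (∑ i ∈ s, G i) ≤ t := by
      intro s G t ht hle
      induction s using Finset.induction_on with
      | empty => rw [Finset.sum_empty, map_zero]; exact ht
      | insert a s ha ih2 =>
        rw [Finset.sum_insert ha]
        exact (S.na _ _).trans (max_le (hle a (Finset.mem_insert_self _ _))
          (ih2 fun i hi => hle i (Finset.mem_insert_of_mem hi)))
    have hle : ∀ i, S.nrm (Z i) ≤ S.nrm z := by
      intro i
      refine hna _ _ _ (S.nrm.nonneg _) fun m _ => ?_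
      rw [map_mul, map_pow, hnw, one_pow, one_mul, S.inv]
    have hex : ∃ i ∈ Finset.range ℓ, S.nrm z ≤ S.nrm (Z i) := by
      by_contra hne
      push Not at hne
      have hpos := S.nrm.pos hz
      obtain ⟨t, ht0, ht1, ht2⟩ : ∃ t : ℝ, 0 ≤ t ∧ t < S.nrm z ∧
          ∀ i ∈ Finset.range ℓ, S.nrm (Z i) ≤ t := by
        obtain ⟨i0, hi0, hmax⟩ := Finset.exists_max_image (Finset.range ℓ) (fun i => S.nrm (Z i))
          ⟨0, Finset.mem_range.2 D.pos⟩
        exact ⟨_, S.nrm.nonneg _, hne i0 hi0, hmax⟩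
      have h1 := hna _ _ _ ht0 ht2
      rw [hsum, map_mul, S.hℓ, one_mul] at h1
      linarith
    obtain ⟨i, _, hi⟩ := hex
    have heq : S.nrm z = S.nrm (Z i) := le_antisymm hi (hle i)
    rw [heq]
    refine hGZ i fun h0 => ?_
    rw [h0, map_zero] at heq
    exact hz ((AbsoluteValue.eq_zero _).1 heq)

lemma cl_PT_of_modEq {L : Type} [Field L] (D : Dat ℓ n L) {m : Fin n → ℕ}
    (h : ∀ i j, m i ≡ m j [MOD ℓ]) : cl (D.PT m) = 1 := by
  have i0 : Fin n := ⟨0, D.n_pos⟩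
  rw [cl_PT]
  have h1 : ∀ k, cl (D.PP k) ^ m k = cl (D.PP k) ^ m i0 := by
    intro k
    have h2 : ∀ a : ℕ, cl (D.PP k) ^ a = cl (D.PP k) ^ (a % ℓ) := fun a => by
      conv_lhs => rw [← Nat.div_add_mod a ℓ, pow_add, pow_mul, D.cl_PP_pow, one_pow, one_mul]
    rw [h2, h2 (m i0), h k i0]
  rw [Finset.prod_congr rfl fun k _ => h1 k, Finset.prod_pow, cl_prod_PP, one_pow]

/-- Theorem B: the torsion relation -/
theorem locB [IsGalois F Ω] {χ : (Ω ≃ₐ[F] Ω) → Fin n → ℕ} {R : ClassGroup (D.base Ω).A}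
    (hR : ∀ τ, D.mC (rs K τ) R = R * cl ((D.base Ω).PT (χ τ)))
    {θ : Fin n → Fin n → Ω} (hθ0 : ∀ i j, θ i j ≠ 0)
    (hθ : ∀ (τ : Ω ≃ₐ[F] Ω) i j, (D.base Ω).ζ ^ χ τ j * τ (θ i j) = (D.base Ω).ζ ^ χ τ i * θ i j)
    (hG : ∀ i j, S.Gam (S.nrm (θ i j))) (τ : Ω ≃ₐ[F] Ω) (i j : Fin n) :
    ∃ x : F, x ≠ 0 ∧ D.Lam S j ((D.base Ω).PT (χ τ)) =
      S.nrm (algebraMap F Ω x) ^ ℓ * D.Lam S i ((D.base Ω).PT (χ τ)) := by
  have hθ' : ∀ (σ : Ω ≃ₐ[F] Ω) i j, ∃ k : ℕ, σ (θ i j) = (D.base Ω).ζ ^ k * θ i j := by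
    intro σ i j
    refine ⟨χ σ i + (ℓ - 1) * χ σ j, ?_⟩
    apply mul_left_cancel₀ (pow_ne_zero (χ σ j) (D.base Ω).ζ_ne)
    rw [hθ]
    have h1 : (D.base Ω).ζ ^ χ σ j * (D.base Ω).ζ ^ ((ℓ - 1) * χ σ j) = 1 := by
      rw [← pow_add]
      have : χ σ j + (ℓ - 1) * χ σ j = ℓ * χ σ j := by
        have := D.pos
        obtain ⟨k, rfl⟩ : ∃ k, ℓ = k + 1 := ⟨ℓ - 1, (Nat.sub_add_cancel this).symm⟩
        rw [Nat.add_sub_cancel]; ring
      rw [this, pow_mul, (D.base Ω).hζ.pow_eq_one, one_pow]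
    rw [pow_add]
    calc (D.base Ω).ζ ^ χ σ i * θ i j = 1 * ((D.base Ω).ζ ^ χ σ i * θ i j) := by ring
      _ = _ := by rw [← h1]; ring
  obtain ⟨I, hI, hIR, hcan⟩ := D.exists_can R
  -- the subgroup fixing the radicals fixes the ideal
  have hH : ∀ σ : Ω ≃ₐ[F] Ω, (∀ i j, σ (θ i j) = θ i j) → D.mI (rs K σ) I = I := by
    intro σ hσ
    rw [← rs_coe]
    apply hcan
    rw [rs_coe, hR, D.base Ω |>.cl_PT_of_modEq, mul_one]
    intro i j
    have h1 := hθ σ i j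
    rw [hσ] at h1
    exact ((D.base Ω).ζ_modEq (mul_right_cancel₀ (hθ0 i j) h1)).symm
  have h1 := hR τ
  rw [← hIR, D.mC_cl _ hI, ← cl_mul hI ((D.base Ω).PT_ne _)] at h1
  obtain ⟨p, q, hp, hq, hpq⟩ := (cl_eq_iff (D.mI_ne _ hI)
    ((D.base Ω).mul_ne hI ((D.base Ω).PT_ne _))).1 h1
  have hcomm : ∀ σ ρ : Ω ≃ₐ[F] Ω, ∀ i j, σ (ρ (θ i j)) = ρ (σ (θ i j)) := by
    intro σ ρ i j
    obtain ⟨k, hk⟩ := hθ' σ i j
    obtain ⟨k', hk'⟩ := hθ' ρ i j
    have hζfix : ∀ (σ : Ω ≃ₐ[F] Ω) (k : ℕ), σ ((D.base Ω).ζ ^ k) = (D.base Ω).ζ ^ k := by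
      intro σ k
      rw [map_pow]
      congr 1
      exact (rs K σ).commutes _
    rw [hk, hk', map_mul, map_mul, hζfix, hζfix, hk, hk']; ring
  -- the element
  set z : Ω := ((D.base Ω).lead i q * (D.base Ω).lead j p) /
    ((D.base Ω).lead i p * (D.base Ω).lead j q) with hz
  have hpi := (D.base Ω).lead_ne (i := i) hp
  have hpj := (D.base Ω).lead_ne (i := j) hp
  have hqi := (D.base Ω).lead_ne (i := i) hq
  have hqj := (D.base Ω).lead_ne (i := j) hq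
  have hz0 : z ≠ 0 := div_ne_zero (mul_ne_zero hqi hpj) (mul_ne_zero hpi hqj)
  have hzfix : ∀ σ : Ω ≃ₐ[F] Ω, (∀ a ∈ (Finset.univ : Finset (Fin n × Fin n)),
      σ (θ a.1 a.2) = θ a.1 a.2) → σ z = z := by
    intro σ hσ
    have hσ' : ∀ i j, σ (θ i j) = θ i j := fun i j => hσ (i, j) (Finset.mem_univ _)
    have h2 : D.mI (rs K σ) (D.mI (rs K τ) I) = D.mI (rs K τ) I := by
      have h3 : D.mI (rs K (τ⁻¹ * σ * τ)) I = I := by
        apply hH
        intro i j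
        rw [AlgEquiv.mul_apply, AlgEquiv.mul_apply, hcomm σ, hσ' i j]
        exact τ.symm_apply_apply _
      have h4 := congrArg (D.mI (rs K τ)) h3
      rw [mI_mI, ← rs_mul] at h4
      rw [mI_mI, ← rs_mul, ← h4]
      congr 2
      group
    have h5 := congrArg (D.mI (rs K σ)) hpq
    rw [mI_mul, mI_mul, mI_mul, mI_span, mI_span, h2, hH σ hσ', mI_PT] at h5
    have hsp := D.mp_ne (rs K σ) hp
    have hsq := D.mp_ne (rs K σ) hq
    have h6 : Ideal.span {D.mp (rs K σ) p * q} = Ideal.span {D.mp (rs K σ) q * p} := by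
      have hne : (I * (D.base Ω).PT (χ τ)) ≠ ⊥ := (D.base Ω).mul_ne hI ((D.base Ω).PT_ne _)
      apply mul_right_cancel₀ hne
      rw [← Ideal.span_singleton_mul_span_singleton, ← Ideal.span_singleton_mul_span_singleton]
      calc Ideal.span {D.mp (rs K σ) p} * Ideal.span {q} * (I * (D.base Ω).PT (χ τ)) =
          Ideal.span {D.mp (rs K σ) p} * (Ideal.span {q} * (I * (D.base Ω).PT (χ τ))) := by ring
        _ = Ideal.span {p} * (Ideal.span {D.mp (rs K σ) p} * D.mI (rs K τ) I) := by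
            rw [← hpq]; ring
        _ = _ := by rw [h5]; ring
    rw [Ideal.span_singleton_eq_span_singleton] at h6
    obtain ⟨u, hu⟩ := h6
    obtain ⟨κ, hκ, huκ⟩ := (D.base Ω).unit_const u.isUnit
    rw [huκ] at hu
    have hκA := (D.base Ω).alg_ne (C_ne_zero.2 hκ)
    have key : ∀ k : Fin n, σ ((D.base Ω).lead k p) * (D.base Ω).lead k q * κ =
        σ ((D.base Ω).lead k q) * (D.base Ω).lead k p := by
      intro k
      have h7 := congrArg ((D.base Ω).lead k) hu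
      rwa [(D.base Ω).lead_mul k (mul_ne_zero hsp hq) hκA, (D.base Ω).lead_mul k hsp hq,
        (D.base Ω).lead_mul k hsq hp, (D.base Ω).lead_C k hκ, D.lead_mp _ k hp, D.lead_mp _ k hq,
        rs_apply, rs_apply] at h7
    have ki := key i
    have kj := key j
    have tpi : σ ((D.base Ω).lead i p) ≠ 0 := (_root_.map_ne_zero _).2 hpi
    have tqj : σ ((D.base Ω).lead j q) ≠ 0 := (_root_.map_ne_zero _).2 hqj
    rw [hz, map_div₀, map_mul, map_mul, div_eq_div_iff (mul_ne_zero tpi tqj)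
      (mul_ne_zero hpi hqj)]
    generalize σ ((D.base Ω).lead i p) = Pi at *
    generalize σ ((D.base Ω).lead j p) = Pj at *
    generalize σ ((D.base Ω).lead i q) = Qi at *
    generalize σ ((D.base Ω).lead j q) = Qj at *
    generalize (D.base Ω).lead i p = pi at *
    generalize (D.base Ω).lead j p = pj at *
    generalize (D.base Ω).lead i q = qi at *
    generalize (D.base Ω).lead j q = qj at *
    apply mul_left_cancel₀ hκ
    -- ki : Pi * qi * κ = Qi * pi; kj : Pj * qj * κ = Qj * pj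
    calc κ * (Qi * Pj * (pi * qj)) = (Qi * pi) * (Pj * qj * κ) := by ring
      _ = (Pi * qi * κ) * (Qj * pj) := by rw [← ki, kj]
      _ = _ := by ring
  have hzG := D.claimE S Finset.univ (fun a : Fin n × Fin n => θ a.1 a.2)
    (fun a _ => hθ0 _ _) (fun a _ σ => hθ' σ _ _) (fun a _ => hG _ _) z hz0 hzfix
  obtain ⟨x, hx, hxz⟩ := hzG
  refine ⟨x, hx, ?_⟩
  obtain ⟨t, ht, hrel⟩ := D.Lam_rel S hp hq (D.mI_ne _ hI)
    ((D.base Ω).mul_ne hI ((D.base Ω).PT_ne _)) hpq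
  have hri := hrel i
  have hrj := hrel j
  rw [D.Lam_mul S _ hI ((D.base Ω).PT_ne _), D.Lam_mI S _ τ hI] at hri hrj
  have hIi := D.Lam_ne S i I
  have hIj := D.Lam_ne S j I
  have npi := pow_ne_zero ℓ (S.nrm.ne_zero hpi)
  have npj := pow_ne_zero ℓ (S.nrm.ne_zero hpj)
  have nqi := pow_ne_zero ℓ (S.nrm.ne_zero hqi)
  have nqj := pow_ne_zero ℓ (S.nrm.ne_zero hqj)
  rw [hxz, hz, map_div₀, map_mul, map_mul, div_pow, mul_pow, mul_pow, div_mul_eq_mul_div,
    eq_div_iff (mul_ne_zero npi nqj)]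
  generalize S.nrm ((D.base Ω).lead i p) ^ ℓ = pi at *
  generalize S.nrm ((D.base Ω).lead j p) ^ ℓ = pj at *
  generalize S.nrm ((D.base Ω).lead i q) ^ ℓ = qi at *
  generalize S.nrm ((D.base Ω).lead j q) ^ ℓ = qj at *
  generalize D.Lam S i I = Ii at *
  generalize D.Lam S j I = Ij at *
  generalize D.Lam S i ((D.base Ω).PT (χ τ)) = Ti at *
  generalize D.Lam S j ((D.base Ω).PT (χ τ)) = Tj at *
  -- hri : pi * Ii = t * (qi * (Ii * Ti)); hrj : pj * Ij = t * (qj * (Ij * Tj))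
  have hi' : pi = t * (qi * Ti) := by
    apply mul_right_cancel₀ hIi
    rw [hri]; ring
  have hj' : pj = t * (qj * Tj) := by
    apply mul_right_cancel₀ hIj
    rw [hrj]; ring
  rw [hi', hj']; ring

end Dat

end Pool.Agent.Y713.SE
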