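import Pool.Agent.Y713.SE.Plc

/-! Cocycles with values in the class group of the coordinate ring. -/

set_option autoImplicit false
set_option linter.all false

open Polynomial

namespace Pool.Agent.Y713.SE

section lc

variable {K Ω : Type} [Field K] [Field Ω] [Algebra K Ω] [IsGalois K Ω]

theorem locConst_apply (x : Ω) : IsLocallyConstant (fun σ : Ω ≃ₐ[K] Ω => σ x) := by
  rw [IsLocallyConstant.iff_exists_open]
  intro σ
  have ho : IsOpen (MulAction.stabilizer (Ω ≃ₐ[K] Ω) x : Set (Ω ≃ₐ[K] Ω)) :=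
    stabilizer_isOpen_of_isIntegral x
  refine ⟨(fun ρ => σ⁻¹ * ρ) ⁻¹' (MulAction.stabilizer (Ω ≃ₐ[K] Ω) x : Set (Ω ≃ₐ[K] Ω)),
    ho.preimage (continuous_const_mul _), ?_, ?_⟩
  · show σ⁻¹ * σ ∈ MulAction.stabilizer (Ω ≃ₐ[K] Ω) x
    rw [inv_mul_cancel]
    exact (MulAction.stabilizer (Ω ≃ₐ[K] Ω) x).one_mem
  · intro ρ hρ
    have h1 : (σ⁻¹ * ρ) x = x := hρ
    have h2 := congrArg σ h1
    rw [AlgEquiv.mul_apply] at h2
    exact (σ.apply_symm_apply _).symm.trans h2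

end lc

/-- Kummer theory -/
theorem kummer {K Ω : Type} [Field K] [Field Ω] [Algebra K Ω] [IsGalois K Ω] {ℓ : ℕ}
    (hp : ℓ.Prime) (hℓ : (ℓ : Ω) ≠ 0) {ζ : K} (hζ : IsPrimitiveRoot (algebraMap K Ω ζ) ℓ)
    (ψ : (Ω ≃ₐ[K] Ω) → Ω) (hψ : ∀ σ, ∃ k : ℕ, ψ σ = algebraMap K Ω ζ ^ k)
    (hmul : ∀ σ τ, ψ (σ * τ) = ψ σ * ψ τ) (hc : IsLocallyConstant ψ) :
    ∃ θ : Ω, θ ≠ 0 ∧ ∀ σ, σ θ = ψ σ * θ := by
  set z := algebraMap K Ω ζ with hz
  have hz0 : z ≠ 0 := hζ.ne_zero hp.pos.ne'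
  have hψne : ∀ σ, ψ σ ≠ 0 := fun σ => by
    obtain ⟨k, hk⟩ := hψ σ
    rw [hk]; exact pow_ne_zero _ hz0
  have hone : ψ 1 = 1 := by
    have := hmul 1 1
    rw [mul_one] at this
    exact (mul_eq_left₀ (hψne 1)).1 this.symm
  by_cases htriv : ∀ σ, ψ σ = 1
  · exact ⟨1, one_ne_zero, fun σ => by rw [htriv σ, map_one, mul_one]⟩
  push Not at htriv
  obtain ⟨τ0, hτ0⟩ := htriv
  have hfix : ∀ (σ : Ω ≃ₐ[K] Ω) (k : ℕ), σ (z ^ k) = z ^ k := fun σ k => by
    rw [map_pow, hz, AlgEquiv.commutes]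
  have hpow : ∀ (σ : Ω ≃ₐ[K] Ω) (r : ℕ), ψ (σ ^ r) = ψ σ ^ r := by
    intro σ r
    induction r with
    | zero => rw [pow_zero, pow_zero, hone]
    | succ r ih => rw [pow_succ, pow_succ, hmul, ih]
  obtain ⟨τ, hτ⟩ : ∃ τ, ψ τ = z := by
    obtain ⟨k, hk⟩ := hψ τ0
    have hkℓ : ¬ ℓ ∣ k := by
      rintro ⟨r, rfl⟩
      rw [pow_mul, hζ.pow_eq_one, one_pow] at hk
      exact hτ0 hk
    obtain ⟨r, -, hr⟩ := Nat.exists_mul_mod_eq_one_of_coprime
      ((Nat.Prime.coprime_iff_not_dvd hp).2 hkℓ).symm hp.one_lt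
    refine ⟨τ0 ^ r, ?_⟩
    rw [hpow, hk, ← pow_mul, ← Nat.div_add_mod (k * r) ℓ, hr, pow_add, pow_mul, hζ.pow_eq_one,
      one_pow, one_mul, pow_one]
  let H : Subgroup (Ω ≃ₐ[K] Ω) :=
    { carrier := {σ | ψ σ = 1}
      mul_mem' := by
        intro a b ha hb
        show ψ (a * b) = 1
        rw [hmul, show ψ a = 1 from ha, show ψ b = 1 from hb, mul_one]
      one_mem' := hone
      inv_mem' := by
        intro a ha
        show ψ a⁻¹ = 1
        have := hmul a⁻¹ a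
        rw [inv_mul_cancel, hone, show ψ a = 1 from ha, mul_one] at this
        exact this.symm }
  have hHo : IsOpen (H : Set (Ω ≃ₐ[K] Ω)) := hc.isOpen_fiber 1
  let Hc : ClosedSubgroup (Ω ≃ₐ[K] Ω) := ⟨H, H.isClosed_of_isOpen hHo⟩
  have hfx := InfiniteGalois.fixingSubgroup_fixedField Hc
  have hτn : τ ∉ (IntermediateField.fixedField (Hc : Subgroup (Ω ≃ₐ[K] Ω))).fixingSubgroup := by
    rw [hfx]
    intro h
    have h1 : ψ τ = 1 := h
    rw [hτ] at h1
    exact (hζ.ne_one hp.one_lt) h1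
  rw [IntermediateField.mem_fixingSubgroup_iff] at hτn
  push Not at hτn
  obtain ⟨x, hx, hx'⟩ := hτn
  have hxH : ∀ σ, ψ σ = 1 → σ x = x := fun σ hσ => hx ⟨σ, hσ⟩
  have hinv : ∀ σ, ψ σ⁻¹ * ψ σ = 1 := fun σ => by rw [← hmul, inv_mul_cancel, hone]
  -- conjugation invariance
  have hconj : ∀ (g ρ : Ω ≃ₐ[K] Ω), ψ g = 1 → g (ρ x) = ρ x := by
    intro g ρ hg
    have h1 : ψ (ρ⁻¹ * g * ρ) = 1 := by rw [hmul, hmul, hg, mul_one, hinv]
    have h2 := congrArg ρ (hxH _ h1)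
    rw [AlgEquiv.mul_apply, AlgEquiv.mul_apply] at h2
    exact (ρ.apply_symm_apply _).symm.trans h2
  have hτℓ : (τ ^ ℓ) x = x := hxH _ (by rw [hpow, hτ, hζ.pow_eq_one])
  set w : Ω := z⁻¹ with hw
  have hwfix : ∀ (σ : Ω ≃ₐ[K] Ω) (k : ℕ), σ (w ^ k) = w ^ k := by
    intro σ k
    have := hfix σ 1
    rw [pow_one] at this
    rw [map_pow, hw, map_inv₀, this]
  have hwp : IsPrimitiveRoot w ℓ := hζ.inv
  let Z : ℕ → Ω := fun i => ∑ m ∈ Finset.range ℓ, w ^ (i * m) * (τ ^ m) x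
  have hshift : ∀ (G : ℕ → Ω), G ℓ = G 0 →
      ∑ m ∈ Finset.range ℓ, G (m + 1) = ∑ m ∈ Finset.range ℓ, G m := by
    intro G hG
    obtain ⟨k, rfl⟩ : ∃ k, ℓ = k + 1 := ⟨ℓ - 1, (Nat.sub_add_cancel hp.pos).symm⟩
    rw [Finset.sum_range_succ (fun i => G (i + 1)), Finset.sum_range_succ' G k, hG]
  have hτZ : ∀ i, τ (Z i) = z ^ i * Z i := by
    intro i
    have h1 : ∑ m ∈ Finset.range ℓ, w ^ (i * (m + 1)) * (τ ^ (m + 1)) x =
        ∑ m ∈ Finset.range ℓ, w ^ (i * m) * (τ ^ m) x := by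
      refine hshift (fun m => w ^ (i * m) * (τ ^ m) x) ?_
      rw [hτℓ, mul_zero, pow_zero, one_mul, pow_zero, mul_comm i ℓ, pow_mul, hwp.pow_eq_one,
        one_pow, one_mul]
      rfl
    have h3 : τ (Z i) = z ^ i * ∑ m ∈ Finset.range ℓ, w ^ (i * (m + 1)) * (τ ^ (m + 1)) x := by
      show τ (∑ m ∈ Finset.range ℓ, w ^ (i * m) * (τ ^ m) x) = _
      rw [map_sum, Finset.mul_sum]
      refine Finset.sum_congr rfl fun m _ => ?_
      rw [map_mul, hwfix, ← AlgEquiv.mul_apply, ← pow_succ', mul_add, mul_one, pow_add w]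
      have h2 : z ^ i * w ^ i = 1 := by rw [← mul_pow, hw, mul_inv_cancel₀ hz0, one_pow]
      calc w ^ (i * m) * (τ ^ (m + 1)) x = 1 * (w ^ (i * m) * (τ ^ (m + 1)) x) := by ring
        _ = _ := by rw [← h2]; ring
    rw [h3, h1]
  have hHZ : ∀ g, ψ g = 1 → ∀ i, g (Z i) = Z i := by
    intro g hg i
    show g (∑ m ∈ Finset.range ℓ, w ^ (i * m) * (τ ^ m) x) = ∑ m ∈ Finset.range ℓ, _
    rw [map_sum]
    refine Finset.sum_congr rfl fun m _ => ?_
    rw [map_mul, hwfix, hconj g _ hg]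
  have hsum : ∑ i ∈ Finset.range ℓ, Z i = (ℓ : Ω) * x := by
    show ∑ i ∈ Finset.range ℓ, ∑ m ∈ Finset.range ℓ, w ^ (i * m) * (τ ^ m) x = _
    rw [Finset.sum_comm, Finset.sum_eq_single 0]
    · simp
    · intro m hm hm0
      rw [← Finset.sum_mul]
      have h1 : ∑ i ∈ Finset.range ℓ, w ^ (i * m) = 0 := by
        have h2 := mul_neg_geom_sum (w ^ m) ℓ
        rw [← pow_mul, mul_comm m ℓ, pow_mul, hwp.pow_eq_one, one_pow, sub_self] at h2
        have h3 : (1 : Ω) - w ^ m ≠ 0 := by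
          rw [sub_ne_zero]
          exact (hwp.pow_ne_one_of_pos_of_lt hm0 (Finset.mem_range.1 hm)).symm
        have h4 := (mul_eq_zero.1 h2).resolve_left h3
        rw [← h4]
        exact Finset.sum_congr rfl fun i _ => by rw [← pow_mul, mul_comm]
      rw [h1, zero_mul]
    · intro h0
      exact absurd (Finset.mem_range.2 hp.pos) h0
  obtain ⟨i, hi, hi0, hZi⟩ : ∃ i ∈ Finset.range ℓ, i ≠ 0 ∧ Z i ≠ 0 := by
    by_contra hne
    push Not at hne
    rw [Finset.sum_eq_single 0 (fun i hi hi0 => hne i hi hi0)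
      (fun h0 => absurd (Finset.mem_range.2 hp.pos) h0)] at hsum
    have h1 := hτZ 0
    rw [pow_zero, one_mul, hsum, map_mul, map_natCast] at h1
    exact hx' (mul_left_cancel₀ hℓ h1)
  obtain ⟨r, -, hr⟩ := Nat.exists_mul_mod_eq_one_of_coprime
    (Nat.coprime_of_lt_prime hi0 (Finset.mem_range.1 hi) hp).symm hp.one_lt
  refine ⟨Z i ^ r, pow_ne_zero _ hZi, fun σ => ?_⟩
  have hτθ : ∀ k, (τ ^ k) (Z i ^ r) = z ^ k * Z i ^ r := by
    have h1 : τ (Z i ^ r) = z * Z i ^ r := by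
      rw [map_pow, hτZ, mul_pow, ← pow_mul, ← Nat.div_add_mod (i * r) ℓ, hr, pow_add, pow_mul,
        hζ.pow_eq_one, one_pow, one_mul, pow_one]
    intro k
    induction k with
    | zero => simp
    | succ k ih =>
      rw [pow_succ', AlgEquiv.mul_apply, ih, map_mul, hfix, h1, pow_succ]; ring
  obtain ⟨k, hk⟩ := hψ σ
  have h1 : ψ ((τ ^ k)⁻¹ * σ) = 1 := by
    rw [hmul, hk, ← hτ, ← hpow]; exact hinv _
  have h2 : ((τ ^ k)⁻¹ * σ) (Z i ^ r) = Z i ^ r := by rw [map_pow, hHZ _ h1]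
  have h3 := congrArg (τ ^ k) h2
  rw [AlgEquiv.mul_apply] at h3
  rw [hk, ← hτθ]
  exact (AlgEquiv.apply_symm_apply _ _).symm.trans h3

/-- an automorphism restricts to a normal subextension -/
theorem exists_restr {K L Ω : Type} [Field K] [Field L] [Field Ω] [Algebra K L] [Algebra K Ω]
    [Normal K L] (ι : L →ₐ[K] Ω) (τ : Ω ≃ₐ[K] Ω) : ∃ σ : L ≃ₐ[K] L, ∀ x, τ (ι x) = ι (σ x) := by
  letI : Algebra L Ω := ι.toRingHom.toAlgebra
  haveI : IsScalarTower K L Ω := IsScalarTower.of_algebraMap_eq fun x => (ι.commutes x).symm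
  exact ⟨τ.restrictNormal L, fun x => (AlgEquiv.restrictNormal_commutes τ L x).symm⟩

namespace Dat

variable {ℓ n : ℕ} {K : Type} [Field K] (D : Dat ℓ n K)
variable {L : Type} [Field L] [Algebra K L]

section loccon
variable [IsGalois K L]

/-- an automorphism as a homomorphism -/
noncomputable abbrev au (σ : L ≃ₐ[K] L) : L →ₐ[K] L := σ.toAlgHom

lemma map_locConst (g : L[X]) :
    IsLocallyConstant (fun σ : L ≃ₐ[K] L => g.map ((au σ : L →ₐ[K] L) : L →+* L)) := by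
  induction g using Polynomial.induction_on' with
  | add p q hp hq =>
    have := hp.comp₂ hq (fun a b => a + b)
    convert this using 2
    rw [Polynomial.map_add]
  | monomial k r =>
    have := (locConst_apply (K := K) r).comp (fun a => monomial k a)
    convert this using 2
    simp

lemma mp_locConst (a : (D.base L).A) :
    IsLocallyConstant (fun σ : L ≃ₐ[K] L => D.mp (au σ) a) := by
  have h : ∀ s : Finset (Fin ℓ), IsLocallyConstant (fun σ : L ≃ₐ[K] L =>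
      ∑ j ∈ s, (((D.base L).c j a).map ((au σ : L →ₐ[K] L) : L →+* L)) • (D.base L).y ^ (j : ℕ)) := by
    classical
    intro s
    induction s using Finset.induction_on with
    | empty => simp only [Finset.sum_empty]; exact IsLocallyConstant.const _
    | insert j s hj ih =>
      have h1 := (map_locConst (K := K) ((D.base L).c j a)).comp
        (fun g => g • (D.base L).y ^ (j : ℕ))
      have h2 := h1.comp₂ ih (fun a b => a + b)
      convert h2 using 2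
      rw [Finset.sum_insert hj]; rfl
  convert h Finset.univ using 2
  exact D.mp_eq _ _

lemma mI_locConst (I : Ideal (D.base L).A) :
    IsLocallyConstant (fun σ : L ≃ₐ[K] L => D.mI (au σ) I) := by
  classical
  obtain ⟨s, rfl⟩ : ∃ s : Finset (D.base L).A, Ideal.span (s : Set (D.base L).A) = I :=
    (isNoetherianRing_iff_ideal_fg _).1 inferInstance I
  induction s using Finset.induction_on with
  | empty =>
    convert IsLocallyConstant.const (⊥ : Ideal (D.base L).A) using 2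
    unfold mI
    rw [Finset.coe_empty, Ideal.span_empty, Ideal.map_bot]; rfl
  | insert a s ha ih =>
    have h1 := (D.mp_locConst a).comp (fun b => Ideal.span {b})
    have h2 := h1.comp₂ ih (fun a b => a ⊔ b)
    convert h2 using 2
    rw [Finset.coe_insert, Ideal.span_insert]
    unfold mI
    rw [Ideal.map_sup, Ideal.map_span, Set.image_singleton]; rfl

lemma mC_locConst (c : ClassGroup (D.base L).A) :
    IsLocallyConstant (fun σ : L ≃ₐ[K] L => D.mC (au σ) c) := by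
  obtain ⟨I, hI, rfl⟩ := exists_cl c
  have h := (D.mI_locConst I).comp (fun J => cl J)
  convert h using 2
  exact D.mC_cl _ hI

end loccon

/-- continuous cocycles -/
def Coc (c : (L ≃ₐ[K] L) → ClassGroup (D.base L).A) : Prop :=
  IsLocallyConstant c ∧ ∀ σ τ, c (σ * τ) = c σ * D.mC (au σ) (c τ)

/-- coboundaries -/
def Cob (c : (L ≃ₐ[K] L) → ClassGroup (D.base L).A) : Prop :=
  ∃ Q : ClassGroup (D.base L).A, ∀ σ, c σ = D.mC (au σ) Q / Q

/-- triviality over an extension -/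
def Triv (F Ω : Type) [Field F] [Algebra K F] [Field Ω] [Algebra K Ω] [Algebra F Ω]
    [IsScalarTower K F Ω] (c : (L ≃ₐ[K] L) → ClassGroup (D.base L).A) : Prop :=
  ∃ (ι : L →ₐ[K] Ω) (P : ClassGroup (D.base Ω).A), ∀ (τ : Ω ≃ₐ[F] Ω) (σ : L ≃ₐ[K] L),
    (∀ x : L, τ (ι x) = ι (σ x)) → D.mC ι (c σ) = D.mC (rs K τ) P / P

lemma mC_mul_au (σ τ : L ≃ₐ[K] L) (c : ClassGroup (D.base L).A) :
    D.mC (au (σ * τ)) c = D.mC (au σ) (D.mC (au τ) c) := by
  rw [mC_mC]; rfl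

lemma Coc.div [IsGalois K L] {c : (L ≃ₐ[K] L) → ClassGroup (D.base L).A} (hc : D.Coc c)
    (Q : ClassGroup (D.base L).A) : D.Coc (fun σ => c σ / (D.mC (au σ) Q / Q)) := by
  refine ⟨hc.1.comp₂ ((D.mC_locConst Q).comp (fun a => a / Q)) (fun a b => a / b), fun σ τ => ?_⟩
  show c (σ * τ) / (D.mC (au (σ * τ)) Q / Q) = c σ / (D.mC (au σ) Q / Q) *
    D.mC (au σ) (c τ / (D.mC (au τ) Q / Q))
  rw [hc.2, _root_.map_div, _root_.map_div, mC_mul_au]
  generalize D.mC (au σ) (D.mC (au τ) Q) = a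
  generalize D.mC (au σ) Q = b
  generalize D.mC (au σ) (c τ) = d
  generalize c σ = e
  rw [div_mul_div_comm, div_mul_div_comm, mul_comm b a, mul_comm Q b, mul_comm a b,
    mul_div_mul_left_eq_div]

/-- apply an endomorphism commuting with everything -/
lemma Coc.map {c : (L ≃ₐ[K] L) → ClassGroup (D.base L).A} (hc : D.Coc c)
    (f : ClassGroup (D.base L).A →* ClassGroup (D.base L).A)
    (hf : ∀ (σ : L ≃ₐ[K] L) x, f (D.mC (au σ) x) = D.mC (au σ) (f x)) :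
    D.Coc (fun σ => f (c σ)) := by
  refine ⟨hc.1.comp f, fun σ τ => ?_⟩
  show f (c (σ * τ)) = f (c σ) * D.mC (au σ) (f (c τ))
  rw [hc.2, map_mul, hf]

end Dat

end Pool.Agent.Y713.SE
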