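import Pool.Agent.Y713.SE.Phi

/-! Change of the base field. -/

set_option autoImplicit false
set_option linter.all false

open Polynomial

namespace Pool.Agent.Y713.SE

namespace Dat

variable {ℓ n : ℕ} {K : Type} [Field K] (D : Dat ℓ n K)

/-- the same curve over an extension -/
noncomputable def base (L : Type) [Field L] [Algebra K L] : Dat ℓ n L where
  hp := D.hp
  hne := by
    rw [← map_natCast (algebraMap K L)]
    exact (_root_.map_ne_zero _).2 D.hne
  ζ := algebraMap K L D.ζ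
  hζ := D.hζ.map_of_injective (algebraMap K L).injective
  δ := algebraMap K L D.δ
  hδ := (_root_.map_ne_zero _).2 D.hδ
  e := fun i => algebraMap K L (D.e i)
  he := fun i j h => D.he ((algebraMap K L).injective h)
  hn := D.hn

variable {L L' L'' : Type} [Field L] [Algebra K L] [Field L'] [Algebra K L'] [Field L'']
  [Algebra K L'']

@[simp] lemma base_ζ : (D.base L).ζ = algebraMap K L D.ζ := rfl
@[simp] lemma base_δ : (D.base L).δ = algebraMap K L D.δ := rfl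
@[simp] lemma base_e (i : Fin n) : (D.base L).e i = algebraMap K L (D.e i) := rfl

lemma f_map (φ : L →ₐ[K] L') : (D.base L).f.map (φ : L →+* L') = (D.base L').f := by
  unfold f
  rw [Polynomial.map_mul, map_C, Polynomial.map_prod]
  simp only [base_δ, base_e, AlgHom.coe_toRingHom, AlgHom.commutes, Polynomial.map_sub, map_X,
    map_C]

lemma g_map (φ : L →ₐ[K] L') (i : Fin n) : ((D.base L).g i).map (φ : L →+* L') = (D.base L').g i := by
  unfold g
  rw [Polynomial.map_mul, map_C, Polynomial.map_prod]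
  simp only [base_δ, base_e, AlgHom.coe_toRingHom, AlgHom.commutes, Polynomial.map_sub, map_X,
    map_C]

/-- base change of functions -/
noncomputable def mp (φ : L →ₐ[K] L') : (D.base L).A →+* (D.base L').A :=
  AdjoinRoot.lift ((algebraMap L'[X] (D.base L').A).comp (mapRingHom (φ : L →+* L')))
    (D.base L').y (by
      rw [eval₂_sub, eval₂_pow, eval₂_X, eval₂_C, (D.base L').y_pow, RingHom.comp_apply,
        coe_mapRingHom, D.f_map φ, sub_self])

lemma mp_alg (φ : L →ₐ[K] L') (g : L[X]) :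
    D.mp φ (algebraMap L[X] (D.base L).A g) = algebraMap L'[X] (D.base L').A (g.map φ) :=
  AdjoinRoot.lift_of _

lemma mp_y (φ : L →ₐ[K] L') : D.mp φ (D.base L).y = (D.base L').y := AdjoinRoot.lift_root _

lemma mp_eq (φ : L →ₐ[K] L') (a : (D.base L).A) : D.mp φ a =
    ∑ j : Fin ℓ, (((D.base L).c j a).map (φ : L →+* L')) • (D.base L').y ^ (j : ℕ) := by
  conv_lhs => rw [← (D.base L).sum_c a]
  rw [map_sum]
  refine Finset.sum_congr rfl fun j _ => ?_
  rw [Algebra.smul_def, map_mul, mp_alg, map_pow, mp_y, Algebra.smul_def]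

lemma c_mp (φ : L →ₐ[K] L') (a : (D.base L).A) (j : Fin ℓ) :
    (D.base L').c j (D.mp φ a) = ((D.base L).c j a).map (φ : L →+* L') := by
  rw [mp_eq, c_sum]

lemma mp_inj (φ : L →ₐ[K] L') : Function.Injective (D.mp φ) := by
  intro a b h
  apply (D.base L).ext_c
  intro j
  apply Polynomial.map_injective (φ : L →+* L') (φ : L →+* L').injective
  rw [← c_mp, ← c_mp, h]

lemma mp_mp (φ : L →ₐ[K] L') (ψ : L' →ₐ[K] L'') (a : (D.base L).A) :
    D.mp ψ (D.mp φ a) = D.mp (ψ.comp φ) a := by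
  apply (D.base L'').ext_c
  intro j
  rw [c_mp, c_mp, c_mp, Polynomial.map_map]
  rfl

lemma mp_comp (φ : L →ₐ[K] L') (ψ : L' →ₐ[K] L'') :
    (D.mp ψ).comp (D.mp φ) = D.mp (ψ.comp φ) := RingHom.ext fun a => D.mp_mp φ ψ a

lemma mp_id (a : (D.base L).A) : D.mp (AlgHom.id K L) a = a := by
  apply (D.base L).ext_c
  intro j
  rw [c_mp]
  exact Polynomial.map_id

lemma mp_idr : D.mp (AlgHom.id K L) = RingHom.id _ := RingHom.ext fun a => D.mp_id a

lemma mp_s (φ : L →ₐ[K] L') (i : ℕ) (a : (D.base L).A) :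
    D.mp φ ((D.base L).s i a) = (D.base L').s i (D.mp φ a) := by
  apply (D.base L').ext_c
  intro j
  rw [c_mp, c_s, c_s, c_mp, Polynomial.map_mul, map_C]
  simp only [base_ζ, AlgHom.coe_toRingHom, map_pow, AlgHom.commutes]

lemma Nm_mp (φ : L →ₐ[K] L') (a : (D.base L).A) :
    (D.base L').Nm (D.mp φ a) = ((D.base L).Nm a).map (φ : L →+* L') := by
  apply (D.base L').injA
  rw [Nm_spec, ← mp_alg, Nm_spec, map_prod]
  exact Finset.prod_congr rfl fun i _ => (D.mp_s φ i a).symm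

lemma ev_mp (φ : L →ₐ[K] L') (i : Fin n) (a : (D.base L).A) :
    (D.base L').ev i (D.mp φ a) = φ ((D.base L).ev i a) := by
  rw [ev_eq, ev_eq, c_mp, base_e, base_e]
  have : algebraMap K L' (D.e i) = (φ : L →+* L') (algebraMap K L (D.e i)) := (φ.commutes _).symm
  rw [this, eval_map_apply]
  rfl

lemma ge_mp (φ : L →ₐ[K] L') (i : Fin n) : (D.base L').ge i = φ ((D.base L).ge i) := by
  unfold ge
  rw [← D.g_map φ, base_e, base_e]
  have : algebraMap K L' (D.e i) = (φ : L →+* L') (algebraMap K L (D.e i)) := (φ.commutes _).symm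
  rw [this, eval_map_apply]
  rfl

lemma gA_mp (φ : L →ₐ[K] L') (i : Fin n) : D.mp φ ((D.base L).gA i) = (D.base L').gA i := by
  unfold gA
  rw [mp_alg, ← D.g_map φ]

lemma Ld_mp (φ : L →ₐ[K] L') {i : Fin n} {a : (D.base L).A} {m : ℕ} {c : L}
    (h : (D.base L).Ld i a m c) : (D.base L').Ld i (D.mp φ a) m (φ c) := by
  obtain ⟨hc, a', h1, h2⟩ := h
  refine ⟨(_root_.map_ne_zero _).2 hc, D.mp φ a', ?_, ?_⟩
  · have h3 := congrArg (D.mp φ) h1
    rwa [map_mul, map_mul, map_pow, map_pow, gA_mp, mp_y] at h3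
  · rw [ev_mp, h2, map_mul, map_pow, ← ge_mp]

lemma lead_mp (φ : L →ₐ[K] L') (i : Fin n) {a : (D.base L).A} (ha : a ≠ 0) :
    (D.base L').lead i (D.mp φ a) = φ ((D.base L).lead i a) :=
  ((D.base L').eq_of_Ld (D.Ld_mp φ ((D.base L).ld ha))).2

lemma ord_mp (φ : L →ₐ[K] L') (i : Fin n) {a : (D.base L).A} (ha : a ≠ 0) :
    (D.base L').ord i (D.mp φ a) = (D.base L).ord i a :=
  ((D.base L').eq_of_Ld (D.Ld_mp φ ((D.base L).ld ha))).1

lemma mp_ne (φ : L →ₐ[K] L') {a : (D.base L).A} (ha : a ≠ 0) : D.mp φ a ≠ 0 :=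
  (map_ne_zero_iff _ (D.mp_inj φ)).2 ha

lemma lam_map (φ : L →ₐ[K] L') (i : Fin n) {V : L[X]} (hV : V ≠ 0) :
    (D.base L').lam i (V.map (φ : L →+* L')) = φ ((D.base L).lam i V) := by
  unfold lam
  rw [← mp_alg, D.lead_mp φ i ((D.base L).alg_ne hV)]

/-- base change of ideals -/
noncomputable def mI (φ : L →ₐ[K] L') (I : Ideal (D.base L).A) : Ideal (D.base L').A :=
  I.map (D.mp φ)

lemma mI_ne (φ : L →ₐ[K] L') {I : Ideal (D.base L).A} (hI : I ≠ ⊥) : D.mI φ I ≠ ⊥ :=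
  map_ne _ (D.mp_inj φ) hI

lemma mI_mul (φ : L →ₐ[K] L') (I J : Ideal (D.base L).A) :
    D.mI φ (I * J) = D.mI φ I * D.mI φ J := Ideal.map_mul _ _ _

lemma mI_mI (φ : L →ₐ[K] L') (ψ : L' →ₐ[K] L'') (I : Ideal (D.base L).A) :
    D.mI ψ (D.mI φ I) = D.mI (ψ.comp φ) I := by
  unfold mI
  rw [Ideal.map_map, mp_comp]

lemma mI_id (I : Ideal (D.base L).A) : D.mI (AlgHom.id K L) I = I := by
  unfold mI
  rw [mp_idr, Ideal.map_id]

lemma mI_span (φ : L →ₐ[K] L') (a : (D.base L).A) :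
    D.mI φ (Ideal.span {a}) = Ideal.span {D.mp φ a} := by
  unfold mI
  rw [Ideal.map_span, Set.image_singleton]

lemma mI_mono (φ : L →ₐ[K] L') {I J : Ideal (D.base L).A} (h : I ≤ J) : D.mI φ I ≤ D.mI φ J :=
  Ideal.map_mono h

lemma mem_mI (φ : L →ₐ[K] L') {I : Ideal (D.base L).A} {a : (D.base L).A} (h : a ∈ I) :
    D.mp φ a ∈ D.mI φ I := Ideal.mem_map_of_mem _ h

lemma mI_sI (φ : L →ₐ[K] L') (j : ℕ) (I : Ideal (D.base L).A) :
    D.mI φ ((D.base L).sI j I) = (D.base L').sI j (D.mI φ I) := by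
  have h : (D.mp φ).comp ((D.base L).s j : (D.base L).A →+* (D.base L).A) =
      ((D.base L').s j : (D.base L').A →+* (D.base L').A).comp (D.mp φ) :=
    RingHom.ext fun a => D.mp_s φ j a
  have h1 := Ideal.map_map (I := I) ((D.base L).s j : (D.base L).A →+* (D.base L).A) (D.mp φ)
  have h2 := Ideal.map_map (I := I) (D.mp φ) ((D.base L').s j : (D.base L').A →+* (D.base L').A)
  rw [h] at h1
  exact h1.trans h2.symm

lemma mI_prod (φ : L →ₐ[K] L') {ι : Type} (s : Finset ι) (F : ι → Ideal (D.base L).A) :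
    D.mI φ (∏ i ∈ s, F i) = ∏ i ∈ s, D.mI φ (F i) := by
  unfold mI
  rw [← Ideal.mapHom_apply, map_prod]
  rfl

lemma mI_pow (φ : L →ₐ[K] L') (I : Ideal (D.base L).A) (k : ℕ) :
    D.mI φ (I ^ k) = D.mI φ I ^ k := Ideal.map_pow _ _ _

lemma U_mI (φ : L →ₐ[K] L') {I : Ideal (D.base L).A} (hI : I ≠ ⊥) :
    (D.base L').U (D.mI φ I) = ((D.base L).U I).map (φ : L →+* L') := by
  apply (D.base L').U_eq_of (((D.base L).U_monic I).map _)
  unfold NI
  rw [← mp_alg, ← mI_span, ← (D.base L).NI_eq hI]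
  unfold NI
  rw [mI_prod]
  exact Finset.prod_congr rfl fun j _ => (D.mI_sI φ j I).symm

lemma mI_PP (φ : L →ₐ[K] L') (k : Fin n) : D.mI φ ((D.base L).PP k) = (D.base L').PP k := by
  apply le_antisymm
  · refine Ideal.map_le_iff_le_comap.2 fun a ha => ?_
    rw [Ideal.mem_comap, mem_PP, ev_mp, (D.base L).mem_PP.1 ha, map_zero]
  · apply PP_le
    · rw [← mp_y D φ]
      exact D.mem_mI φ ((D.base L).y_mem_PP k)
    · have h := D.mem_mI φ ((D.base L).X_mem_PP k)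
      rw [mp_alg] at h
      convert h using 2
      rw [Polynomial.map_sub, map_X, map_C, base_e, base_e]
      congr 2
      exact (φ.commutes _).symm

lemma mI_PT (φ : L →ₐ[K] L') (m : Fin n → ℕ) : D.mI φ ((D.base L).PT m) = (D.base L').PT m := by
  unfold PT
  rw [mI_prod]
  exact Finset.prod_congr rfl fun k _ => by rw [mI_pow, mI_PP]

/-- base change of ideal classes -/
noncomputable def mC (φ : L →ₐ[K] L') : ClassGroup (D.base L).A →* ClassGroup (D.base L').A :=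
  clm (D.mp φ) (D.mp_inj φ)

lemma mC_cl (φ : L →ₐ[K] L') {I : Ideal (D.base L).A} (hI : I ≠ ⊥) :
    D.mC φ (cl I) = cl (D.mI φ I) := clm_cl _ _ hI

lemma mC_mC (φ : L →ₐ[K] L') (ψ : L' →ₐ[K] L'') (c : ClassGroup (D.base L).A) :
    D.mC ψ (D.mC φ c) = D.mC (ψ.comp φ) c := by
  obtain ⟨I, hI, rfl⟩ := exists_cl c
  rw [mC_cl _ _ hI, mC_cl _ _ (D.mI_ne φ hI), mC_cl _ _ hI, mI_mI]

lemma mC_id (c : ClassGroup (D.base L).A) : D.mC (AlgHom.id K L) c = c := by
  obtain ⟨I, hI, rfl⟩ := exists_cl c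
  rw [mC_cl _ _ hI, mI_id]

lemma mC_sC (φ : L →ₐ[K] L') (c : ClassGroup (D.base L).A) :
    D.mC φ ((D.base L).sC c) = (D.base L').sC (D.mC φ c) := by
  obtain ⟨I, hI, rfl⟩ := exists_cl c
  rw [sC_cl _ hI, mC_cl _ _ ((D.base L).sI_ne hI), mC_cl _ _ hI, sC_cl _ (D.mI_ne φ hI), mI_sI]

lemma mC_PT (φ : L →ₐ[K] L') (m : Fin n → ℕ) :
    D.mC φ (cl ((D.base L).PT m)) = cl ((D.base L').PT m) := by
  rw [mC_cl _ _ ((D.base L).PT_ne m), mI_PT]

lemma mI_inj_of_equiv (τ : L ≃ₐ[K] L) {I J : Ideal (D.base L).A}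
    (h : D.mI (τ : L →ₐ[K] L) I = D.mI (τ : L →ₐ[K] L) J) : I = J := by
  have h1 := congrArg (D.mI (τ.symm : L →ₐ[K] L)) h
  have h2 : ((τ.symm : L →ₐ[K] L).comp (τ : L →ₐ[K] L)) = AlgHom.id K L := by
    ext x; simp
  rwa [mI_mI, mI_mI, h2, mI_id, mI_id] at h1

end Dat

end Pool.Agent.Y713.SE
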