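import Pool.Agent.Y713.SE.Cls

/-! The class group and the Picard group, naturally. -/

set_option autoImplicit false
set_option linter.all false

open scoped nonZeroDivisors TensorProduct
open CommRing (Pic)

namespace Pool.Agent.Y713.SE

section
variable {A : Type} [CommRing A] [IsDedekindDomain A]

/-- product of ideals and tensor product -/
noncomputable def tenMul (I J : Ideal A) : I ⊗[A] J ≃ₗ[A] (I * J : Ideal A) :=
  Submodule.LinearDisjoint.mulMap
    (.of_left_le_one_of_flat I J <| le_top.trans Ideal.one_eq_top.ge)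

/-- multiplication by an element -/
theorem spanMul {a : A} (ha : a ≠ 0) (I : Ideal A) :
    Nonempty (I ≃ₗ[A] (Ideal.span {a} * I : Ideal A)) := by
  let f : I →ₗ[A] A := (LinearMap.mulLeft A a).comp I.subtype
  have hf : Function.Injective f := by
    intro x y h
    exact Subtype.ext (mul_left_cancel₀ ha h)
  have hr : LinearMap.range f = (Ideal.span {a} * I : Ideal A) := by
    ext x
    rw [Ideal.mem_span_singleton_mul]
    constructor
    · rintro ⟨y, rfl⟩
      exact ⟨y.1, y.2, rfl⟩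
    · rintro ⟨z, hz, rfl⟩
      exact ⟨⟨z, hz⟩, rfl⟩
  exact ⟨(LinearEquiv.ofInjective f hf).trans (LinearEquiv.ofEq _ _ hr)⟩

theorem topE : Nonempty ((⊤ : Ideal A) ≃ₗ[A] A) := ⟨Submodule.topEquiv⟩

/-- nonzero ideals are invertible modules -/
theorem inv_ideal {I : Ideal A} (hI : I ≠ ⊥) : Module.Invertible A I := by
  obtain ⟨J, hJ, hJc⟩ := exists_cl (cl I)⁻¹
  have h1 : cl (I * J) = cl (⊤ : Ideal A) := by
    rw [cl_mul hI hJ, hJc, mul_inv_cancel, cl_top]
  have hIJ : I * J ≠ ⊥ := by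
    rw [← Ideal.zero_eq_bot] at *
    exact mul_ne_zero hI hJ
  obtain ⟨a, b, ha, hb, h⟩ := (cl_eq_iff hIJ top_ne_bot).1 h1
  obtain ⟨e1⟩ := spanMul ha (I * J)
  obtain ⟨e2⟩ := spanMul hb (⊤ : Ideal A)
  exact Module.Invertible.left ((tenMul I J).trans (e1.trans ((LinearEquiv.ofEq _ _ h).trans
    (e2.symm.trans Submodule.topEquiv))))

open Classical in
/-- the class of an ideal in the Picard group -/
noncomputable def pI (I : Ideal A) : Pic A :=
  if h : I ≠ ⊥ then (haveI := inv_ideal h; Pic.mk A I) else 1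

lemma pI_eq_iff {I : Ideal A} (hI : I ≠ ⊥) (N : Pic A) : pI I = N ↔ Nonempty (I ≃ₗ[A] N) := by
  unfold pI
  rw [dif_pos hI]
  haveI := inv_ideal hI
  exact CommRing.Pic.mk_eq_iff

lemma pI_eq_pI_iff {I J : Ideal A} (hI : I ≠ ⊥) (hJ : J ≠ ⊥) :
    pI I = pI J ↔ Nonempty (I ≃ₗ[A] J) := by
  unfold pI
  rw [dif_pos hI, dif_pos hJ]
  haveI := inv_ideal hI
  haveI := inv_ideal hJ
  exact CommRing.Pic.mk_eq_mk_iff

lemma pI_mul {I J : Ideal A} (hI : I ≠ ⊥) (hJ : J ≠ ⊥) : pI (I * J) = pI I * pI J := by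
  have hIJ : I * J ≠ ⊥ := by
    rw [← Ideal.zero_eq_bot] at *
    exact mul_ne_zero hI hJ
  unfold pI
  rw [dif_pos hI, dif_pos hJ, dif_pos hIJ]
  haveI := inv_ideal hI
  haveI := inv_ideal hJ
  haveI := inv_ideal hIJ
  rw [← CommRing.Pic.mk_tensor, CommRing.Pic.mk_eq_mk_iff]
  exact ⟨(tenMul I J).symm⟩

lemma equiv_iff {I J : Ideal A} (hI : I ≠ ⊥) (hJ : J ≠ ⊥) :
    Nonempty (I ≃ₗ[A] J) ↔ cl I = cl J := by
  rw [cl_eq_iff hI hJ]
  constructor
  · rintro ⟨φ⟩
    obtain ⟨x, hx, hx0⟩ := (Submodule.ne_bot_iff I).1 hI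
    have hφ0 : ((φ ⟨x, hx⟩ : J) : A) ≠ 0 := by
      intro h0
      have h1 : φ ⟨x, hx⟩ = 0 := Subtype.ext h0
      rw [LinearEquiv.map_eq_zero_iff] at h1
      exact hx0 (congrArg Subtype.val h1)
    refine ⟨(φ ⟨x, hx⟩ : J), x, hφ0, hx0, ?_⟩
    have key : ∀ y : I, ((φ ⟨x, hx⟩ : J) : A) * (y : A) = x * ((φ y : J) : A) := by
      intro y
      have e1 : (y : A) • (⟨x, hx⟩ : I) = x • y := by
        apply Subtype.ext
        show (y : A) * x = x * y
        ring
      have h2 := congrArg φ e1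
      rw [map_smul, map_smul] at h2
      have h3 := congrArg Subtype.val h2
      have h4 : (y : A) * ((φ ⟨x, hx⟩ : J) : A) = x * ((φ y : J) : A) := h3
      rw [mul_comm]
      exact h4
    ext z
    rw [Ideal.mem_span_singleton_mul, Ideal.mem_span_singleton_mul]
    constructor
    · rintro ⟨y, hy, rfl⟩
      exact ⟨(φ ⟨y, hy⟩ : J), (φ ⟨y, hy⟩ : J).2, (key ⟨y, hy⟩).symm⟩
    · rintro ⟨y, hy, rfl⟩
      refine ⟨(φ.symm ⟨y, hy⟩ : I), (φ.symm ⟨y, hy⟩ : I).2, ?_⟩
      rw [key, LinearEquiv.apply_symm_apply]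
  · rintro ⟨a, b, ha, hb, h⟩
    obtain ⟨e1⟩ := spanMul ha I
    obtain ⟨e2⟩ := spanMul hb J
    exact ⟨e1.trans ((LinearEquiv.ofEq _ _ h).trans e2.symm)⟩

/-- the isomorphism of the class group with the Picard group -/
noncomputable def pc : ClassGroup A →* Pic A where
  toFun c := pI (exists_cl c).choose
  map_one' := by
    have h := (exists_cl (1 : ClassGroup A)).choose_spec
    have hI := h.1
    have hc := h.2
    set I := (exists_cl (1 : ClassGroup A)).choose
    haveI := inv_ideal hI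
    unfold pI
    rw [dif_pos hI, CommRing.Pic.mk_eq_one_iff]
    have h1 : cl I = cl (⊤ : Ideal A) := by rw [hc, cl_top]
    obtain ⟨e⟩ := (equiv_iff hI top_ne_bot).2 h1
    exact ⟨e.trans Submodule.topEquiv⟩
  map_mul' c d := by
    have hc := (exists_cl c).choose_spec
    have hd := (exists_cl d).choose_spec
    have hcd := (exists_cl (c * d)).choose_spec
    set I := (exists_cl c).choose
    set J := (exists_cl d).choose
    set H := (exists_cl (c * d)).choose
    have hIJ : I * J ≠ ⊥ := by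
      have h1 := hc.1
      have h2 := hd.1
      rw [← Ideal.zero_eq_bot] at *
      exact mul_ne_zero h1 h2
    rw [← pI_mul hc.1 hd.1, pI_eq_pI_iff hcd.1 hIJ, equiv_iff hcd.1 hIJ, hcd.2, cl_mul hc.1 hd.1,
      hc.2, hd.2]

lemma pc_cl {I : Ideal A} (hI : I ≠ ⊥) : pc (cl I) = pI I := by
  have h := (exists_cl (cl I)).choose_spec
  show pI (exists_cl (cl I)).choose = pI I
  rw [pI_eq_pI_iff h.1 hI, equiv_iff h.1 hI]
  exact h.2

lemma pc_bij : Function.Bijective (pc : ClassGroup A →* Pic A) := by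
  constructor
  · intro c d h
    obtain ⟨I, hI, rfl⟩ := exists_cl c
    obtain ⟨J, hJ, rfl⟩ := exists_cl d
    rwa [pc_cl hI, pc_cl hJ, pI_eq_pI_iff hI hJ, equiv_iff hI hJ] at h
  · intro M
    obtain ⟨I, ⟨e⟩⟩ := Module.Invertible.exists_linearEquiv_ideal A M
    have hI : I ≠ ⊥ := by
      rintro rfl
      have h1 : Subsingleton (M : Type) := e.toEquiv.subsingleton
      have h2 := (Module.Invertible.linearEquiv A (M : Type)).symm.toEquiv.subsingleton
      exact one_ne_zero (α := A) (Subsingleton.elim _ _)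
    exact ⟨cl I, by rw [pc_cl hI, pI_eq_iff hI]; exact ⟨e.symm⟩⟩

end

section
variable {A B : Type} [CommRing A] [IsDedekindDomain A] [CommRing B] [IsDedekindDomain B]

theorem map_pI (φ : A →+* B) (hφ : Function.Injective φ) {I : Ideal A} (hI : I ≠ ⊥) :
    CommRing.Pic.mapRingHom φ (pI I) = pI (I.map φ) := by
  letI := φ.toAlgebra
  haveI : Module.IsTorsionFree A B := by
    rw [Module.isTorsionFree_iff_algebraMap_injective]
    exact hφ
  have hφ' : algebraMap A B = φ := rfl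
  have h1 : CommRing.Pic.mapRingHom φ (pI I) = CommRing.Pic.mapAlgebra A B (pI I) := by
    rw [← CommRing.Pic.mapRingHom_algebraMap]
    rfl
  rw [h1, CommRing.Pic.mapAlgebra_apply]
  have hne := map_ne φ hφ hI
  have h2 : Nonempty ((pI I : Pic A) ≃ₗ[A] I) := by
    obtain ⟨e⟩ := (pI_eq_iff hI (pI I)).1 rfl
    exact ⟨e.symm⟩
  obtain ⟨e⟩ := h2
  symm
  rw [pI_eq_iff hne]
  -- `B ⊗ I ≃ I B`
  let f : B ⊗[A] I →ₗ[B] B := (TensorProduct.AlgebraTensorModule.rid A B B).toLinearMap.comp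
    (TensorProduct.AlgebraTensorModule.map (LinearMap.id : B →ₗ[B] B) I.subtype)
  have hfa : ∀ (b : B) (x : I), f (b ⊗ₜ x) = algebraMap A B x * b := by
    intro b x
    show (TensorProduct.AlgebraTensorModule.rid A B B) (b ⊗ₜ[A] (x : A)) = _
    rw [TensorProduct.AlgebraTensorModule.rid_tmul, Algebra.smul_def]
  have hf : Function.Injective f := by
    have h3 : Function.Injective (I.subtype.lTensor B) :=
      Module.Flat.lTensor_preserves_injective_linearMap _ I.subtype_injective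
    exact (TensorProduct.AlgebraTensorModule.rid A B B).injective.comp h3
  have hr : LinearMap.range f = I.map φ := by
    apply le_antisymm
    · rintro _ ⟨t, rfl⟩
      induction t using TensorProduct.induction_on with
      | zero => rw [map_zero]; exact Submodule.zero_mem _
      | tmul b x =>
        rw [hfa, hφ']
        exact Ideal.mul_mem_right _ _ (Ideal.mem_map_of_mem φ x.2)
      | add s t hs ht => rw [map_add]; exact Submodule.add_mem _ hs ht
    · rw [Ideal.map_le_iff_le_comap]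
      intro x hx
      refine ⟨1 ⊗ₜ ⟨x, hx⟩, ?_⟩
      rw [hfa, mul_one, hφ']
  have e1 : (B ⊗[A] (pI I : Pic A)) ≃ₗ[B] (I.map φ : Ideal B) :=
    (TensorProduct.AlgebraTensorModule.congr (LinearEquiv.refl B B) e).trans
      ((LinearEquiv.ofInjective f hf).trans (LinearEquiv.ofEq _ _ hr))
  obtain ⟨e2⟩ := (CommRing.Pic.mk_eq_iff (R := B) (M := B ⊗[A] (pI I : Pic A))).1 rfl
  exact ⟨e1.symm.trans e2⟩

theorem pc_nat (φ : A →+* B) (hφ : Function.Injective φ) (c : ClassGroup A) :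
    pc (clm φ hφ c) = CommRing.Pic.mapRingHom φ (pc c) := by
  obtain ⟨I, hI, rfl⟩ := exists_cl c
  rw [clm_cl φ hφ hI, pc_cl hI, pc_cl (map_ne φ hφ hI), map_pI φ hφ hI]

end

end Pool.Agent.Y713.SE
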