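import Pool.Agent.Y713.SE.Bas

/-! The canonical ideal in a class: invariant classes contain invariant ideals. -/

set_option autoImplicit false
set_option linter.all false

open Polynomial

namespace Pool.Agent.Y713.SE

namespace Dat

section
variable {ℓ n : ℕ} {E : Type} [Field E] (D : Dat ℓ n E)

lemma deg_mul {I J : Ideal D.A} (hI : I ≠ ⊥) (hJ : J ≠ ⊥) :
    (D.U (I * J)).natDegree = (D.U I).natDegree + (D.U J).natDegree := by
  rw [D.U_mul hI hJ, (D.U_monic I).natDegree_mul (D.U_monic J)]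

theorem can_unique {I J : Ideal D.A} (hI : I ≠ ⊥) (hJ : J ≠ ⊥) (h : cl I = cl J)
    (hmin : ∀ I' : Ideal D.A, I' ≠ ⊥ → cl I' = cl I → (D.U I).natDegree ≤ (D.U I').natDegree)
    (hd : (D.U I).natDegree = (D.U J).natDegree) : I = J := by
  obtain ⟨a, b, ha, hb, hab⟩ := (cl_eq_iff hI hJ).1 h
  have h1 : (D.U (Ideal.span {a} * I)).natDegree = (D.U (Ideal.span {b} * J)).natDegree := by
    rw [hab]
  rw [D.deg_mul (D.span_ne ha) hI, D.deg_mul (D.span_ne hb) hJ, hd, D.natDegree_U_span ha,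
    D.natDegree_U_span hb] at h1
  have h2 : (D.Nm a).natDegree = (D.Nm b).natDegree := by omega
  obtain ⟨c, hc | ⟨hz, hlt⟩⟩ := D.exists_sub ha hb h2
  · have hc0 : c ≠ 0 := by
      rintro rfl
      rw [C_0, map_zero, zero_mul] at hc
      exact ha hc
    have hu : IsUnit (algebraMap E[X] D.A (C c)) := (isUnit_C.2 (isUnit_iff_ne_zero.2 hc0)).map _
    have h3 : Ideal.span {a} = Ideal.span {b} := by
      rw [hc, Ideal.span_singleton_eq_span_singleton]
      exact (associated_isUnit_mul_left_iff hu).2 (Associated.refl _)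
    rw [h3] at hab
    exact mul_left_cancel₀ (D.span_ne hb) hab
  · exfalso
    obtain ⟨k, hk⟩ : ∃ k, k = algebraMap E[X] D.A (C c) := ⟨_, rfl⟩
    rw [← hk] at hz hlt
    obtain ⟨z, hzdef⟩ : ∃ z, z = a - k * b := ⟨_, rfl⟩
    rw [← hzdef] at hz hlt
    have hle : Ideal.span {z} * I ≤ Ideal.span {b} := by
      rw [Ideal.mul_le]
      intro r hr x hx
      obtain ⟨t, rfl⟩ := Ideal.mem_span_singleton.1 hr
      have h4 : a * x ∈ Ideal.span {b} := by
        have : a * x ∈ Ideal.span {a} * I :=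
          Ideal.mul_mem_mul (Ideal.mem_span_singleton_self a) hx
        rw [hab] at this
        exact (Ideal.mul_le_left : Ideal.span {b} * J ≤ Ideal.span {b}) this
      have h5 : z * t * x = t * (a * x) - (t * k * x) * b := by
        rw [hzdef]; ring
      rw [Ideal.mem_span_singleton] at h4 ⊢
      rw [h5]
      exact dvd_sub (Dvd.dvd.mul_left h4 t) (dvd_mul_left b _)
    obtain ⟨J', hJ'⟩ := Ideal.dvd_iff_le.2 hle
    have hJ'0 : J' ≠ ⊥ := by
      rintro rfl
      rw [Ideal.mul_bot] at hJ'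
      exact D.mul_ne (D.span_ne hz) hI hJ'
    have hcl : cl J' = cl I := by
      have h6 := congrArg cl hJ'
      rw [cl_mul (D.span_ne hz) hI, cl_mul (D.span_ne hb) hJ'0, cl_span hz, cl_span hb, one_mul,
        one_mul] at h6
      exact h6.symm
    have h7 := hmin J' hJ'0 hcl
    have h8 : (D.U (Ideal.span {z} * I)).natDegree = (D.U (Ideal.span {b} * J')).natDegree := by
      rw [hJ']
    rw [D.deg_mul (D.span_ne hz) hI, D.deg_mul (D.span_ne hb) hJ'0, D.natDegree_U_span hz,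
      D.natDegree_U_span hb] at h8
    omega

lemma exists_min (c : ClassGroup D.A) : ∃ I : Ideal D.A, I ≠ ⊥ ∧ cl I = c ∧
    ∀ I' : Ideal D.A, I' ≠ ⊥ → cl I' = cl I → (D.U I).natDegree ≤ (D.U I').natDegree := by
  classical
  have hex : ∃ d : ℕ, ∃ I : Ideal D.A, I ≠ ⊥ ∧ cl I = c ∧ (D.U I).natDegree = d := by
    obtain ⟨I, hI, h⟩ := exists_cl c
    exact ⟨_, I, hI, h, rfl⟩
  obtain ⟨I, hI, h, hd⟩ := Nat.find_spec hex
  refine ⟨I, hI, h, fun I' hI' h' => ?_⟩
  rw [hd]
  exact Nat.find_min' hex ⟨I', hI', h'.trans h, rfl⟩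

end

variable {ℓ n : ℕ} {K : Type} [Field K] (D : Dat ℓ n K)
variable {L : Type} [Field L] [Algebra K L]

/-- the canonical ideal of a class is fixed by all automorphisms fixing the class -/
theorem exists_can (c : ClassGroup (D.base L).A) : ∃ I : Ideal (D.base L).A, I ≠ ⊥ ∧ cl I = c ∧
    ∀ τ : L ≃ₐ[K] L, D.mC (τ : L →ₐ[K] L) c = c → D.mI (τ : L →ₐ[K] L) I = I := by
  obtain ⟨I, hI, hIc, hmin⟩ := (D.base L).exists_min c
  refine ⟨I, hI, hIc, fun τ hτ => ?_⟩
  symm
  apply (D.base L).can_unique hI (D.mI_ne _ hI) _ hmin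
  · rw [D.U_mI _ hI, natDegree_map]
  · rw [← D.mC_cl _ hI, hIc, hτ]

end Dat

end Pool.Agent.Y713.SE
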