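import Mathlib

/-! Ideal classes. -/

set_option autoImplicit false
set_option linter.all false

open scoped nonZeroDivisors

namespace Pool.Agent.Y713.SE

section
variable {A B R : Type} [CommRing A] [IsDedekindDomain A] [CommRing B] [IsDedekindDomain B]
  [CommRing R] [IsDedekindDomain R]

open Classical in
/-- the class of an ideal -/
noncomputable def cl (I : Ideal A) : ClassGroup A :=
  if h : I ≠ ⊥ then ClassGroup.mk0 ⟨I, mem_nonZeroDivisors_iff_ne_zero.2 h⟩ else 1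

lemma cl_of {I : Ideal A} (h : I ≠ ⊥) :
    cl I = ClassGroup.mk0 ⟨I, mem_nonZeroDivisors_iff_ne_zero.2 h⟩ := by
  unfold cl; rw [dif_pos h]

lemma cl_mul {I J : Ideal A} (hI : I ≠ ⊥) (hJ : J ≠ ⊥) : cl (I * J) = cl I * cl J := by
  have hIJ : I * J ≠ ⊥ := by
    rw [← Ideal.zero_eq_bot] at *
    exact mul_ne_zero hI hJ
  rw [cl_of hI, cl_of hJ, cl_of hIJ, ← map_mul]
  rfl

lemma cl_eq_iff {I J : Ideal A} (hI : I ≠ ⊥) (hJ : J ≠ ⊥) : cl I = cl J ↔
    ∃ a b : A, a ≠ 0 ∧ b ≠ 0 ∧ Ideal.span {a} * I = Ideal.span {b} * J := by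
  rw [cl_of hI, cl_of hJ, ClassGroup.mk0_eq_mk0_iff]
  constructor
  · rintro ⟨x, y, hx, hy, h⟩; exact ⟨x, y, hx, hy, h⟩
  · rintro ⟨x, y, hx, hy, h⟩; exact ⟨x, y, hx, hy, h⟩

lemma exists_cl (c : ClassGroup A) : ∃ I : Ideal A, I ≠ ⊥ ∧ cl I = c := by
  obtain ⟨⟨I, hI⟩, rfl⟩ := ClassGroup.mk0_surjective c
  have hI' : I ≠ ⊥ := mem_nonZeroDivisors_iff_ne_zero.1 hI
  exact ⟨I, hI', cl_of hI'⟩

lemma cl_span {a : A} (ha : a ≠ 0) : cl (Ideal.span {a}) = 1 := by
  have h : Ideal.span {a} ≠ ⊥ := fun h => ha (Ideal.span_singleton_eq_bot.1 h)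
  rw [cl_of h, ClassGroup.mk0_eq_one_iff]
  exact ⟨⟨a, rfl⟩⟩

lemma cl_top : cl (⊤ : Ideal A) = 1 := by
  rw [← Ideal.span_singleton_one]
  exact cl_span one_ne_zero

lemma cl_pow {I : Ideal A} (hI : I ≠ ⊥) (k : ℕ) : cl (I ^ k) = cl I ^ k := by
  induction k with
  | zero => rw [pow_zero, pow_zero, Ideal.one_eq_top, cl_top]
  | succ k ih =>
    rw [pow_succ, pow_succ, cl_mul _ hI, ih]
    rw [← Ideal.zero_eq_bot] at hI ⊢
    exact pow_ne_zero _ hI

lemma prod_ne {ι : Type} (s : Finset ι) {F : ι → Ideal A} (h : ∀ i ∈ s, F i ≠ ⊥) :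
    ∏ i ∈ s, F i ≠ ⊥ := by
  simp only [← Ideal.zero_eq_bot] at *
  exact Finset.prod_ne_zero_iff.2 h

lemma cl_prod {ι : Type} (s : Finset ι) {F : ι → Ideal A} (h : ∀ i ∈ s, F i ≠ ⊥) :
    cl (∏ i ∈ s, F i) = ∏ i ∈ s, cl (F i) := by
  classical
  induction s using Finset.induction_on with
  | empty => rw [Finset.prod_empty, Finset.prod_empty, Ideal.one_eq_top, cl_top]
  | insert a s ha ih =>
    rw [Finset.prod_insert ha, Finset.prod_insert ha, cl_mul (h a (Finset.mem_insert_self _ _))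
      (prod_ne s fun i hi => h i (Finset.mem_insert_of_mem hi)),
      ih fun i hi => h i (Finset.mem_insert_of_mem hi)]

lemma map_ne (φ : A →+* B) (hφ : Function.Injective φ) {I : Ideal A} (hI : I ≠ ⊥) :
    I.map φ ≠ ⊥ := fun h => hI ((Ideal.map_eq_bot_iff_of_injective hφ).1 h)

/-- extension of ideal classes along an injective homomorphism -/
noncomputable def clm (φ : A →+* B) (hφ : Function.Injective φ) : ClassGroup A →* ClassGroup B :=
  letI := φ.toAlgebra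
  haveI : Module.IsTorsionFree A B := by
    rw [Module.isTorsionFree_iff_algebraMap_injective]
    exact hφ
  ClassGroup.extendedHom A B

lemma clm_cl (φ : A →+* B) (hφ : Function.Injective φ) {I : Ideal A} (hI : I ≠ ⊥) :
    clm φ hφ (cl I) = cl (I.map φ) := by
  letI := φ.toAlgebra
  haveI : Module.IsTorsionFree A B := by
    rw [Module.isTorsionFree_iff_algebraMap_injective]
    exact hφ
  rw [cl_of hI, cl_of (map_ne φ hφ hI)]
  exact ClassGroup.extendedHom_mk0 A B _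

lemma clm_comp (φ : A →+* B) (hφ : Function.Injective φ) (ψ : B →+* R)
    (hψ : Function.Injective ψ) (c : ClassGroup A) :
    clm ψ hψ (clm φ hφ c) = clm (ψ.comp φ) (hψ.comp hφ) c := by
  obtain ⟨I, hI, rfl⟩ := exists_cl c
  rw [clm_cl φ hφ hI, clm_cl ψ hψ (map_ne φ hφ hI), clm_cl _ _ hI, Ideal.map_map]

lemma clm_congr {φ ψ : A →+* B} (hφ : Function.Injective φ) (h : φ = ψ) (c : ClassGroup A) :
    clm φ hφ c = clm ψ (h ▸ hφ) c := by subst h; rfl

lemma clm_id (c : ClassGroup A) : clm (RingHom.id A) Function.injective_id c = c := by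
  obtain ⟨I, hI, rfl⟩ := exists_cl c
  rw [clm_cl _ _ hI, Ideal.map_id]

end

end Pool.Agent.Y713.SE
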