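import Pool.Agent.Y713.SE.Ring

/-! The coordinate ring of `y ^ ℓ = δ ∏ (x - e i)` is a Dedekind domain. -/

set_option autoImplicit false
set_option linter.all false

open Polynomial

namespace Pool.Agent.Y713.SE

/-- The data of a superelliptic curve `y ^ ℓ = δ ∏ (x - e i)`, `i = 1, …, n`, over `E`. -/
structure Dat (ℓ n : ℕ) (E : Type) [Field E] where
  hp : ℓ.Prime
  hne : (ℓ : E) ≠ 0
  ζ : E
  hζ : IsPrimitiveRoot ζ ℓ
  δ : E
  hδ : δ ≠ 0
  e : Fin n → E
  he : Function.Injective e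
  hn : ¬ ℓ ∣ n

lemma dvd_of_pow {F : Type} [Field F] {ℓ j : ℕ} (hj : j < ℓ) {f a b : F[X]} (hf : Squarefree f)
    (hf0 : f ≠ 0) (hb : b ≠ 0) (h : b ^ ℓ ∣ a ^ ℓ * f ^ j) : b ∣ a := by
  classical
  set g := EuclideanDomain.gcd a b with hg
  have hg0 : g ≠ 0 := by
    rw [hg, Ne, EuclideanDomain.gcd_eq_zero_iff]
    exact fun h => hb h.2
  obtain ⟨a', ha'⟩ := EuclideanDomain.gcd_dvd_left a b
  obtain ⟨b', hb'⟩ := EuclideanDomain.gcd_dvd_right a b
  rw [← hg] at ha' hb'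
  have hcop : IsCoprime a' b' := by
    have h1 : g = a * EuclideanDomain.gcdA a b + b * EuclideanDomain.gcdB a b :=
      EuclideanDomain.gcd_eq_gcd_ab a b
    generalize EuclideanDomain.gcdA a b = x at h1
    generalize EuclideanDomain.gcdB a b = z at h1
    refine ⟨x, z, ?_⟩
    apply mul_left_cancel₀ hg0
    rw [mul_one]
    calc g * (x * a' + z * b') = (g * a') * x + (g * b') * z := by ring
      _ = a * x + b * z := by rw [← ha', ← hb']
      _ = g := h1.symm
  rw [ha', hb', mul_pow, mul_pow, mul_assoc] at h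
  have h2 := (mul_dvd_mul_iff_left (pow_ne_zero ℓ hg0)).1 h
  have h3 : b' ^ ℓ ∣ f ^ j := (hcop.symm.pow (m := ℓ) (n := ℓ)).dvd_of_dvd_mul_left h2
  have hu : IsUnit b' := by
    by_contra hu
    have hb'0 : b' ≠ 0 := by rintro rfl; exact hb (by rw [hb', mul_zero])
    obtain ⟨p, hp, hpb⟩ := WfDvdMonoid.exists_irreducible_factor hu hb'0
    have hpp := hp.prime
    have h4 : p ^ ℓ ∣ f ^ j := (pow_dvd_pow_of_dvd hpb ℓ).trans h3
    have h5 := (squarefree_iff_emultiplicity_le_one f).1 hf p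
    have h6 : emultiplicity p f ≤ 1 := h5.resolve_right hp.not_isUnit
    have h7 : (ℓ : ℕ∞) ≤ emultiplicity p (f ^ j) := le_emultiplicity_of_pow_dvd h4
    rw [emultiplicity_pow hpp] at h7
    have h8 : (j : ℕ∞) * emultiplicity p f ≤ j * 1 := mul_le_mul_right h6 _
    rw [mul_one] at h8
    have h9 : (ℓ : ℕ∞) ≤ j := h7.trans h8
    have : ℓ ≤ j := by exact_mod_cast h9
    omega
  obtain ⟨u, hu⟩ := hu
  rw [hb', ha', ← hu]
  exact mul_dvd_mul_left g (Units.coe_dvd)

namespace Dat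

variable {ℓ n : ℕ} {E : Type} [Field E] (D : Dat ℓ n E)

/-- the polynomial `δ ∏ (x - e i)` -/
noncomputable def f : E[X] := C D.δ * ∏ i, (X - C (D.e i))

/-- the cofactor of `x - e i` -/
noncomputable def g (i : Fin n) : E[X] := C D.δ * ∏ j ∈ Finset.univ.erase i, (X - C (D.e j))

lemma f_eq (i : Fin n) : D.f = (X - C (D.e i)) * D.g i := by
  unfold f g
  rw [← Finset.mul_prod_erase Finset.univ (fun j => (X - C (D.e j) : E[X])) (Finset.mem_univ i)]
  ring

lemma g_eval (i : Fin n) : (D.g i).eval (D.e i) = D.δ * ∏ j ∈ Finset.univ.erase i, (D.e i - D.e j) := by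
  unfold g
  rw [eval_mul, eval_C, eval_prod]
  simp

lemma g_eval_ne (i : Fin n) : (D.g i).eval (D.e i) ≠ 0 := by
  rw [g_eval]
  refine mul_ne_zero D.hδ (Finset.prod_ne_zero_iff.2 fun j hj => ?_)
  rw [sub_ne_zero]
  intro h
  exact (Finset.ne_of_mem_erase hj) (D.he h.symm)

lemma f_ne : D.f ≠ 0 := by
  unfold f
  exact mul_ne_zero (C_ne_zero.2 D.hδ) (Finset.prod_ne_zero_iff.2 fun i _ => X_sub_C_ne_zero _)

lemma natDegree_f : D.f.natDegree = n := by
  unfold f
  rw [natDegree_C_mul D.hδ, natDegree_prod_of_monic _ _ fun i _ => monic_X_sub_C _]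
  simp

lemma f_eval (i : Fin n) : D.f.eval (D.e i) = 0 := by
  rw [D.f_eq i, eval_mul]; simp

include D in
lemma n_pos : 0 < n := Nat.pos_of_ne_zero fun h => D.hn (h ▸ dvd_zero _)

lemma separable : D.f.Separable := by
  unfold f
  have h1 : (∏ i, (X - C (D.e i)) : E[X]).Separable := by
    rw [separable_prod_X_sub_C_iff]
    exact D.he
  exact h1.of_dvd ⟨C (D.δ⁻¹), by
    rw [mul_comm (C D.δ), mul_assoc, ← C_mul, mul_inv_cancel₀ D.hδ, C_1, mul_one]⟩

lemma squarefree : Squarefree D.f := D.separable.squarefree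

include D in
lemma pos : 0 < ℓ := D.hp.pos

/-- the coordinate ring -/
abbrev A : Type := CR ℓ D.f

end Dat

end Pool.Agent.Y713.SE
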