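import Pool.Agent.Y713.SE.Dat

/-! The coordinate ring of `y ^ ℓ = δ ∏ (x - e i)` is a Dedekind domain; norms. -/

set_option autoImplicit false
set_option linter.all false

open Polynomial

namespace Pool.Agent.Y713.SE

namespace Dat

variable {ℓ n : ℕ} {E : Type} [Field E] (D : Dat ℓ n E)

lemma irred : Irreducible (X ^ ℓ - C D.f : E[X][X]) := by
  have i : Fin n := ⟨0, D.n_pos⟩
  have hP : (Ideal.span {(X - C (D.e i) : E[X])}).IsPrime :=
    (Ideal.span_singleton_prime (X_sub_C_ne_zero _)).2 (prime_X_sub_C _)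
  have hpos := D.pos
  apply irreducible_of_eisenstein_criterion hP
  · rw [(monic_def hpos).leadingCoeff]
    exact fun h => hP.ne_top ((Ideal.eq_top_iff_one _).2 h)
  · intro m hm
    rw [degree_X_pow_sub_C hpos] at hm
    have hm' : m < ℓ := by exact_mod_cast hm
    rw [coeff_sub, coeff_X_pow, if_neg hm'.ne, zero_sub, coeff_C]
    split_ifs
    · rw [neg_mem_iff, D.f_eq i]
      exact Ideal.mul_mem_right _ _ (Ideal.mem_span_singleton_self _)
    · simp
  · rw [degree_X_pow_sub_C hpos]; exact_mod_cast hpos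
  · rw [coeff_sub, coeff_X_pow, if_neg hpos.ne, zero_sub, coeff_C, if_pos rfl, neg_mem_iff,
      Ideal.span_singleton_pow, Ideal.mem_span_singleton, D.f_eq i, pow_two,
      mul_dvd_mul_iff_left (X_sub_C_ne_zero _), dvd_iff_isRoot, IsRoot.def]
    exact D.g_eval_ne i
  · exact (monic_def hpos).isPrimitive

instance isDomain : IsDomain D.A := AdjoinRoot.isDomain_of_prime D.irred.prime

instance finiteA : Module.Finite E[X] D.A := finite D.pos
instance freeA : Module.Free E[X] D.A := free D.pos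

lemma injA : Function.Injective (algebraMap E[X] D.A) := inj D.pos

instance torsionFreeA : Module.IsTorsionFree E[X] D.A :=
  Module.isTorsionFree_iff_algebraMap_injective.2 D.injA

/-- the function `y` -/
noncomputable def y : D.A := yy ℓ D.f

lemma y_pow : D.y ^ ℓ = algebraMap E[X] D.A D.f := yy_pow D.pos

lemma y_ne : D.y ≠ 0 := by
  intro h
  have h1 := D.y_pow
  rw [h, zero_pow D.pos.ne'] at h1
  exact D.f_ne (D.injA (by rw [← h1, map_zero]))

lemma ζpow (i : ℕ) : (D.ζ ^ i) ^ ℓ = 1 := by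
  rw [← pow_mul, mul_comm, pow_mul, D.hζ.pow_eq_one, one_pow]

lemma ζ_ne : D.ζ ≠ 0 := D.hζ.ne_zero D.pos.ne'

/-- the automorphism `y ↦ ζ ^ i y` -/
noncomputable def s (i : ℕ) : D.A ≃ₐ[E[X]] D.A := twE D.pos (D.ζ ^ i) (D.ζpow i)

lemma s_apply (i : ℕ) (a : D.A) : D.s i a = tw D.pos (D.ζ ^ i) (D.ζpow i) a := rfl

lemma s_zero (a : D.A) : D.s 0 a = a := by
  rw [s_apply, tw_congr D.pos _ (one_pow _) (pow_zero _), tw_one]

lemma s_s (i j : ℕ) (a : D.A) : D.s i (D.s j a) = D.s (i + j) a := by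
  rw [s_apply, s_apply, s_apply, tw_tw]
  exact tw_congr _ _ _ (by rw [pow_add]) _

lemma s_y (i : ℕ) : D.s i D.y = algebraMap E[X] D.A (C (D.ζ ^ i)) * D.y :=
  tw_yy D.pos _ (D.ζpow i)

lemma s_mod {i j : ℕ} (h : D.ζ ^ i = D.ζ ^ j) (a : D.A) : D.s i a = D.s j a :=
  tw_congr D.pos (D.ζpow i) (D.ζpow j) h _

lemma s_ell (a : D.A) : D.s ℓ a = a := by
  rw [D.s_mod (j := 0) (by rw [D.hζ.pow_eq_one, pow_zero]), s_zero]

/-- coefficients -/
noncomputable def c (j : Fin ℓ) : D.A →ₗ[E[X]] E[X] := cf D.pos j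

lemma sum_c (a : D.A) : ∑ j : Fin ℓ, D.c j a • D.y ^ (j : ℕ) = a := sum_cf D.pos a

lemma c_sum (b : Fin ℓ → E[X]) (j : Fin ℓ) : D.c j (∑ i, b i • D.y ^ (i : ℕ)) = b j :=
  cf_sum D.pos b j

lemma ext_c {a b : D.A} (h : ∀ j, D.c j a = D.c j b) : a = b := ext_cf D.pos h

lemma c_s (i : ℕ) (a : D.A) (j : Fin ℓ) : D.c j (D.s i a) = C (D.ζ ^ (i * j)) * D.c j a := by
  have h := cf_tw D.pos (D.ζ ^ i) (D.ζpow i) a j
  rw [← pow_mul] at h
  exact h

lemma c_algebraMap (g : E[X]) (j : Fin ℓ) :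
    D.c j (algebraMap E[X] D.A g) = if (⟨0, D.pos⟩ : Fin ℓ) = j then g else 0 :=
  cf_algebraMap D.pos g j

/-- averaging -/
lemma sum_s (a : D.A) (j : Fin ℓ) :
    ∑ i ∈ Finset.range ℓ, (C ((D.ζ⁻¹) ^ (i * j)) : E[X]) • D.s i a =
    (C (ℓ : E) * D.c j a) • D.y ^ (j : ℕ) := sum_tw D.pos D.hζ a j

/-- an invariant element comes from `E[x]` -/
lemma mem_of_s {a : D.A} (h : D.s 1 a = a) : ∃ g : E[X], algebraMap E[X] D.A g = a := by
  refine ⟨D.c ⟨0, D.pos⟩ a, D.ext_c fun j => ?_⟩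
  rw [c_algebraMap]
  split_ifs with hj
  · rw [hj]
  · have h1 := D.c_s 1 a j
    rw [h, one_mul] at h1
    have h2 : D.ζ ^ (j : ℕ) ≠ 1 := by
      apply D.hζ.pow_ne_one_of_pos_of_lt _ j.2
      intro h3
      exact hj (Fin.ext h3.symm)
    have h3 : C (D.ζ ^ (j : ℕ) - 1) * D.c j a = 0 := by
      rw [C_sub, C_1, sub_mul, ← h1, one_mul, sub_self]
    rcases mul_eq_zero.1 h3 with h4 | h4
    · exact absurd (sub_eq_zero.1 (C_eq_zero.1 h4)) h2
    · exact h4.symm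

include D in
/-- product over the shifted range -/
lemma prod_shift {M : Type} [CommMonoid M] (F : ℕ → M) (hF : F ℓ = F 0) :
    ∏ i ∈ Finset.range ℓ, F (i + 1) = ∏ i ∈ Finset.range ℓ, F i := by
  obtain ⟨k, hk⟩ : ∃ k, ℓ = k + 1 := ⟨ℓ - 1, (Nat.sub_add_cancel D.pos).symm⟩
  rw [hk] at hF ⊢
  rw [Finset.prod_range_succ (fun i => F (i + 1)), Finset.prod_range_succ' F k, hF]

/-- the norm -/
noncomputable def Nm (a : D.A) : E[X] := D.c ⟨0, D.pos⟩ (∏ i ∈ Finset.range ℓ, D.s i a)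

lemma Nm_spec (a : D.A) : algebraMap E[X] D.A (D.Nm a) = ∏ i ∈ Finset.range ℓ, D.s i a := by
  have h : D.s 1 (∏ i ∈ Finset.range ℓ, D.s i a) = ∏ i ∈ Finset.range ℓ, D.s i a := by
    rw [map_prod]
    have h1 : ∀ i, D.s 1 (D.s i a) = D.s (i + 1) a := fun i => by rw [s_s, add_comm]
    rw [Finset.prod_congr rfl fun i _ => h1 i]
    exact D.prod_shift (fun i => D.s i a) (by rw [s_ell, s_zero])
  obtain ⟨g, hg⟩ := D.mem_of_s h
  unfold Nm
  rw [← hg, c_algebraMap, if_pos rfl]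

lemma Nm_mul (a b : D.A) : D.Nm (a * b) = D.Nm a * D.Nm b := by
  apply D.injA
  rw [map_mul, Nm_spec, Nm_spec, Nm_spec, ← Finset.prod_mul_distrib]
  exact Finset.prod_congr rfl fun i _ => map_mul _ _ _

lemma Nm_algebraMap (g : E[X]) : D.Nm (algebraMap E[X] D.A g) = g ^ ℓ := by
  apply D.injA
  rw [Nm_spec, Finset.prod_congr rfl fun i _ => (D.s i).commutes g, Finset.prod_const,
    Finset.card_range, map_pow]

lemma Nm_s (i : ℕ) (a : D.A) : D.Nm (D.s i a) = D.Nm a := by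
  induction i with
  | zero => rw [s_zero]
  | succ k ih =>
    rw [← ih]
    apply D.injA
    rw [Nm_spec, Nm_spec]
    have h1 : ∀ j, D.s j (D.s (k + 1) a) = (fun m => D.s m (D.s k a)) (j + 1) := by
      intro j
      simp only [s_s]
      congr 1
      rw [add_right_comm, add_assoc]
    rw [Finset.prod_congr rfl fun j _ => h1 j]
    exact D.prod_shift (fun m => D.s m (D.s k a)) (by rw [s_ell, s_zero])

lemma Nm_ne {a : D.A} (ha : a ≠ 0) : D.Nm a ≠ 0 := by
  intro h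
  have h1 := D.Nm_spec a
  rw [h, map_zero] at h1
  obtain ⟨i, _, hi⟩ := Finset.prod_eq_zero_iff.1 h1.symm
  exact ha ((map_eq_zero_iff _ (D.s i).injective).1 hi)

lemma dvd_Nm (a : D.A) : a ∣ algebraMap E[X] D.A (D.Nm a) := by
  rw [Nm_spec]
  have := Finset.dvd_prod_of_mem (fun i => D.s i a) (Finset.mem_range.2 D.pos)
  simpa only [s_zero] using this

end Dat

end Pool.Agent.Y713.SE
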