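import Pool.Agent.Y713.SE.Ded

/-! The coordinate ring of `y ^ ℓ = δ ∏ (x - e i)` is a Dedekind domain. -/

set_option autoImplicit false
set_option linter.all false

open Polynomial

namespace Pool.Agent.Y713.SE

lemma dvd_of_integral {E M : Type} [Field E] [Field M] [Algebra E[X] M]
    (hinj : Function.Injective (algebraMap E[X] M)) {r t : E[X]} (ht : t ≠ 0) {w : M}
    (hw : IsIntegral E[X] w) (h : w * algebraMap E[X] M t = algebraMap E[X] M r) : t ∣ r := by
  let φ : FractionRing E[X] →ₐ[E[X]] M := IsFractionRing.liftAlgHom (g := Algebra.ofId E[X] M) hinj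
  have h1 : φ (algebraMap E[X] _ r / algebraMap E[X] _ t) = w := by
    rw [map_div₀, AlgHom.commutes, AlgHom.commutes, ← h, mul_div_cancel_right₀]
    exact (map_ne_zero_iff _ hinj).2 ht
  have h2 : IsIntegral E[X] (algebraMap E[X] (FractionRing E[X]) r / algebraMap E[X] _ t) := by
    rw [← isIntegral_algHom_iff φ φ.toRingHom.injective, h1]; exact hw
  obtain ⟨q, hq⟩ := IsIntegrallyClosed.isIntegral_iff.1 h2
  refine ⟨q, ?_⟩
  have ht' : algebraMap E[X] (FractionRing E[X]) t ≠ 0 :=
    (map_ne_zero_iff _ (IsFractionRing.injective _ _)).2 ht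
  rw [eq_div_iff ht', ← map_mul] at hq
  rw [← IsFractionRing.injective _ _ hq, mul_comm]

namespace Dat

variable {ℓ n : ℕ} {E : Type} [Field E] (D : Dat ℓ n E)

theorem integral_div (a : D.A) {b : E[X]} (hb : b ≠ 0) {z : FractionRing D.A}
    (hz : IsIntegral E[X] z)
    (h : z * algebraMap D.A (FractionRing D.A) (algebraMap E[X] D.A b) =
      algebraMap D.A (FractionRing D.A) a) :
    ∃ q : D.A, algebraMap D.A (FractionRing D.A) q = z := by
  have hιinj : Function.Injective (algebraMap D.A (FractionRing D.A)) :=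
    IsFractionRing.injective _ _
  have hbι : algebraMap D.A (FractionRing D.A) (algebraMap E[X] D.A b) ≠ 0 :=
    (map_ne_zero_iff _ hιinj).2 ((map_ne_zero_iff _ D.injA).2 hb)
  -- the automorphisms
  have hS : ∀ i : ℕ, ∃ w : FractionRing D.A, IsIntegral E[X] w ∧
      w * algebraMap D.A (FractionRing D.A) (algebraMap E[X] D.A b) =
        algebraMap D.A (FractionRing D.A) (D.s i a) := by
    intro i
    have hg : Function.Injective ((algebraMap D.A (FractionRing D.A)).comp
        ((D.s i).toAlgHom.toRingHom)) := hιinj.comp (D.s i).injective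
    let φ0 : FractionRing D.A →+* FractionRing D.A := IsFractionRing.lift hg
    have hφ0 : ∀ x : D.A, φ0 (algebraMap D.A (FractionRing D.A) x) =
        algebraMap D.A (FractionRing D.A) (D.s i x) := fun x => IsFractionRing.lift_algebraMap hg x
    let φ : FractionRing D.A →ₐ[E[X]] FractionRing D.A :=
      { φ0 with
        commutes' := fun r => by
          show φ0 _ = _
          rw [IsScalarTower.algebraMap_apply E[X] D.A (FractionRing D.A), hφ0, AlgEquiv.commutes] }
    refine ⟨φ z, hz.map φ, ?_⟩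
    have h2 : algebraMap D.A (FractionRing D.A) (algebraMap E[X] D.A b) =
        φ (algebraMap D.A (FractionRing D.A) (algebraMap E[X] D.A b)) := by
      show _ = φ0 _
      rw [hφ0, AlgEquiv.commutes]
    rw [h2, ← map_mul, h]
    exact hφ0 a
  choose w hw1 hw2 using hS
  have hdvd : ∀ j : Fin ℓ, b ∣ D.c j a := by
    intro j
    have hWint : IsIntegral E[X] (∑ i ∈ Finset.range ℓ, (C ((D.ζ⁻¹) ^ (i * j)) : E[X]) • w i) :=
      IsIntegral.sum _ fun i _ => (hw1 i).smul _
    have hWb : (∑ i ∈ Finset.range ℓ, (C ((D.ζ⁻¹) ^ (i * j)) : E[X]) • w i) *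
        algebraMap D.A (FractionRing D.A) (algebraMap E[X] D.A b) =
        algebraMap D.A (FractionRing D.A) ((C (ℓ : E) * D.c j a) • D.y ^ (j : ℕ)) := by
      rw [← D.sum_s, Finset.sum_mul, map_sum]
      refine Finset.sum_congr rfl fun i _ => ?_
      rw [Algebra.smul_def, Algebra.smul_def, mul_assoc, hw2, map_mul (algebraMap D.A _),
        IsScalarTower.algebraMap_apply E[X] D.A (FractionRing D.A)]
    generalize (∑ i ∈ Finset.range ℓ, (C ((D.ζ⁻¹) ^ (i * j)) : E[X]) • w i) = W at hWint hWb
    have hpow : W ^ ℓ * algebraMap E[X] (FractionRing D.A) (b ^ ℓ) =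
        algebraMap E[X] (FractionRing D.A) ((C (ℓ : E) * D.c j a) ^ ℓ * D.f ^ (j : ℕ)) := by
      have h1 := congrArg (· ^ ℓ) hWb
      simp only [mul_pow W] at h1
      rw [IsScalarTower.algebraMap_apply E[X] D.A (FractionRing D.A),
        IsScalarTower.algebraMap_apply E[X] D.A (FractionRing D.A),
        map_pow (algebraMap E[X] D.A), map_pow (algebraMap D.A _), h1, ← map_pow]
      congr 1
      rw [Algebra.smul_def, mul_pow, ← pow_mul, mul_comm (j : ℕ), pow_mul, D.y_pow]
      simp only [map_mul, map_pow]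
    have hinj' : Function.Injective (algebraMap E[X] (FractionRing D.A)) := by
      rw [IsScalarTower.algebraMap_eq E[X] D.A]
      exact hιinj.comp D.injA
    have h3 := dvd_of_integral hinj' (pow_ne_zero ℓ hb) (hWint.pow ℓ) hpow
    have h4 := dvd_of_pow j.2 D.squarefree D.f_ne hb h3
    exact (IsUnit.dvd_mul_left (isUnit_C.2 (isUnit_iff_ne_zero.2 D.hne))).1 h4
  choose q hq using hdvd
  refine ⟨∑ j, q j • D.y ^ (j : ℕ), ?_⟩
  apply mul_right_cancel₀ hbι
  rw [h, ← map_mul]
  congr 1
  conv_rhs => rw [← D.sum_c a]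
  rw [Finset.sum_mul]
  refine Finset.sum_congr rfl fun j _ => ?_
  rw [hq j, Algebra.smul_def, Algebra.smul_def, map_mul]
  ring

theorem integrallyClosed_aux (z : FractionRing D.A) (hz : IsIntegral D.A z) :
    ∃ q : D.A, algebraMap D.A (FractionRing D.A) q = z := by
  have hz' : IsIntegral E[X] z := isIntegral_trans z hz
  obtain ⟨a, b0, hb0, rfl⟩ := IsFractionRing.div_surjective (A := D.A) z
  have hb0' : b0 ≠ 0 := nonZeroDivisors.ne_zero hb0
  have hbne : D.Nm b0 ≠ 0 := D.Nm_ne hb0'
  obtain ⟨c, hc⟩ := D.dvd_Nm b0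
  have hιinj : Function.Injective (algebraMap D.A (FractionRing D.A)) :=
    IsFractionRing.injective _ _
  have hb0ι : algebraMap D.A (FractionRing D.A) b0 ≠ 0 := (map_ne_zero_iff _ hιinj).2 hb0'
  refine D.integral_div (a * c) hbne hz' ?_
  rw [hc, map_mul, map_mul, ← mul_assoc, div_mul_cancel₀ _ hb0ι]

instance integrallyClosed : IsIntegrallyClosed D.A := by
  rw [isIntegrallyClosed_iff (FractionRing D.A)]
  intro z hz
  exact D.integrallyClosed_aux z hz

instance isNoeth : IsNoetherianRing D.A := IsNoetherianRing.of_finite E[X] D.A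

instance dimLE : Ring.DimensionLEOne D.A := Ring.DimensionLEOne.of_isIntegral E[X] D.A

instance isDedekindDomain : IsDedekindDomain D.A where

lemma Nm_isUnit {u : D.A} (hu : IsUnit u) : IsUnit (D.Nm u) := by
  obtain ⟨v, hv⟩ := hu.exists_right_inv
  have h2 := D.Nm_mul u v
  have h3 : D.Nm 1 = 1 := by
    have := D.Nm_algebraMap 1
    rwa [map_one, one_pow] at this
  rw [hv, h3] at h2
  exact IsUnit.of_mul_eq_one _ h2.symm

end Dat

end Pool.Agent.Y713.SE
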