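import Pool.Agent.Y713.SE.Wt

/-! Evaluation, order and leading coefficient at the branch points. -/

set_option autoImplicit false
set_option linter.all false

open Polynomial

namespace Pool.Agent.Y713.SE

namespace Dat

variable {ℓ n : ℕ} {E : Type} [Field E] (D : Dat ℓ n E)

/-- evaluation at the point `(e i, 0)` -/
noncomputable def ev (i : Fin n) : D.A →+* E :=
  AdjoinRoot.lift (evalRingHom (D.e i)) 0 (by
    rw [eval₂_sub, eval₂_pow, eval₂_X, eval₂_C, zero_pow D.pos.ne', coe_evalRingHom, D.f_eval,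
      sub_zero])

lemma ev_alg (i : Fin n) (g : E[X]) : D.ev i (algebraMap E[X] D.A g) = g.eval (D.e i) :=
  AdjoinRoot.lift_of _

lemma ev_y (i : Fin n) : D.ev i D.y = 0 := AdjoinRoot.lift_root _

lemma exists_y (a : D.A) : ∃ t : D.A, a = algebraMap E[X] D.A (D.c ⟨0, D.pos⟩ a) + D.y * t := by
  have h := D.sum_c a
  refine ⟨∑ j ∈ Finset.univ.erase (⟨0, D.pos⟩ : Fin ℓ), D.c j a • D.y ^ ((j : ℕ) - 1), ?_⟩
  conv_lhs => rw [← h]
  rw [← Finset.add_sum_erase _ _ (Finset.mem_univ (⟨0, D.pos⟩ : Fin ℓ)), pow_zero,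
    Algebra.smul_def, mul_one, Finset.mul_sum]
  congr 1
  refine Finset.sum_congr rfl fun j hj => ?_
  have h1 : (j : ℕ) ≠ 0 := fun h => (Finset.ne_of_mem_erase hj) (Fin.ext h)
  rw [mul_smul_comm, ← pow_succ', Nat.sub_add_cancel (Nat.pos_of_ne_zero h1)]

lemma ev_eq (i : Fin n) (a : D.A) : D.ev i a = (D.c ⟨0, D.pos⟩ a).eval (D.e i) := by
  obtain ⟨t, ht⟩ := D.exists_y a
  conv_lhs => rw [ht]
  rw [map_add, map_mul, ev_y, zero_mul, add_zero, ev_alg]

lemma ev_s (i : Fin n) (j : ℕ) (a : D.A) : D.ev i (D.s j a) = D.ev i a := by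
  rw [ev_eq, ev_eq, c_s]
  simp

lemma eval_Nm (i : Fin n) (a : D.A) : (D.Nm a).eval (D.e i) = D.ev i a ^ ℓ := by
  rw [← ev_alg, Nm_spec, map_prod, Finset.prod_congr rfl fun j _ => D.ev_s i j a,
    Finset.prod_const, Finset.card_range]

/-- the value of the cofactor -/
noncomputable def ge (i : Fin n) : E := (D.g i).eval (D.e i)

lemma ge_ne (i : Fin n) : D.ge i ≠ 0 := D.g_eval_ne i

/-- the cofactor as an element of the coordinate ring -/
noncomputable def gA (i : Fin n) : D.A := algebraMap E[X] D.A (D.g i)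

lemma ev_gA (i : Fin n) : D.ev i (D.gA i) = D.ge i := D.ev_alg i _

lemma gA_ne (i : Fin n) : D.gA i ≠ 0 := by
  intro h
  have := D.ev_gA i
  rw [h, map_zero] at this
  exact D.ge_ne i this.symm

lemma y_pow' (i : Fin n) : D.y ^ ℓ = algebraMap E[X] D.A (X - C (D.e i)) * D.gA i := by
  exact D.y_pow.trans ((congrArg (algebraMap E[X] D.A) (D.f_eq i)).trans (map_mul _ _ _))

lemma step {i : Fin n} {a : D.A} (h : D.ev i a = 0) : ∃ a1 : D.A, a * D.gA i = D.y * a1 := by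
  obtain ⟨t, ht⟩ := D.exists_y a
  rw [ev_eq] at h
  obtain ⟨r, hr⟩ := dvd_iff_isRoot.2 h
  refine ⟨algebraMap E[X] D.A r * D.y ^ (ℓ - 1) + t * D.gA i, ?_⟩
  have h1 : D.y * D.y ^ (ℓ - 1) = D.y ^ ℓ := by
    rw [← pow_succ', Nat.sub_add_cancel D.pos]
  calc a * D.gA i = (algebraMap E[X] D.A r) * (algebraMap E[X] D.A (X - C (D.e i)) * D.gA i) +
        D.y * t * D.gA i := by
        conv_lhs => rw [ht, hr, map_mul]
        ring
    _ = _ := by rw [← y_pow', ← h1]; ring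

/-- `a` has order `m` and leading coefficient `c` at the `i`-th branch point -/
def Ld (i : Fin n) (a : D.A) (m : ℕ) (c : E) : Prop :=
  c ≠ 0 ∧ ∃ a' : D.A, a * D.gA i ^ m = D.y ^ m * a' ∧ D.ev i a' = c * D.ge i ^ m

variable {D}

lemma Ld.unique_aux {i : Fin n} {a : D.A} {m m' : ℕ} {c c' : E} (h : D.Ld i a m c)
    (h' : D.Ld i a m' c') (hm : m ≤ m') : m = m' ∧ c = c' := by
  obtain ⟨hc, a', h1, h2⟩ := h
  obtain ⟨hc', a'', h3, h4⟩ := h'
  obtain ⟨k, rfl⟩ := Nat.exists_eq_add_of_le hm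
  have h5 : a' * D.gA i ^ k = D.y ^ k * a'' := by
    apply mul_left_cancel₀ (pow_ne_zero m D.y_ne)
    calc D.y ^ m * (a' * D.gA i ^ k) = (D.y ^ m * a') * D.gA i ^ k := by ring
      _ = a * D.gA i ^ (m + k) := by rw [← h1, pow_add]; ring
      _ = _ := by rw [h3, pow_add]; ring
  have h6 := congrArg (D.ev i) h5
  rw [map_mul, map_mul, map_pow, map_pow, ev_gA, ev_y, h2, h4] at h6
  have hk : k = 0 := by
    by_contra hk
    rw [zero_pow hk, zero_mul] at h6
    exact (mul_ne_zero (mul_ne_zero hc (pow_ne_zero _ (D.ge_ne i))) (pow_ne_zero _ (D.ge_ne i))) h6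
  subst hk
  refine ⟨rfl, ?_⟩
  rw [pow_zero, pow_zero, mul_one, one_mul, add_zero] at h6
  exact mul_right_cancel₀ (pow_ne_zero _ (D.ge_ne i)) h6

lemma Ld.unique {i : Fin n} {a : D.A} {m m' : ℕ} {c c' : E} (h : D.Ld i a m c)
    (h' : D.Ld i a m' c') : m = m' ∧ c = c' := by
  rcases le_total m m' with hm | hm
  · exact h.unique_aux h' hm
  · obtain ⟨h1, h2⟩ := h'.unique_aux h hm
    exact ⟨h1.symm, h2.symm⟩

lemma Ld.mul {i : Fin n} {a b : D.A} {m m' : ℕ} {c c' : E} (h : D.Ld i a m c)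
    (h' : D.Ld i b m' c') : D.Ld i (a * b) (m + m') (c * c') := by
  obtain ⟨hc, a', h1, h2⟩ := h
  obtain ⟨hc', b', h3, h4⟩ := h'
  refine ⟨mul_ne_zero hc hc', a' * b', ?_, ?_⟩
  · calc a * b * D.gA i ^ (m + m') = (a * D.gA i ^ m) * (b * D.gA i ^ m') := by rw [pow_add]; ring
      _ = _ := by rw [h1, h3, pow_add]; ring
  · rw [map_mul, h2, h4, pow_add]; ring

lemma Ld.s {i : Fin n} {a : D.A} {m : ℕ} {c : E} (h : D.Ld i a m c) (j : ℕ) :
    D.Ld i (D.s j a) m (D.ζ ^ (j * m) * c) := by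
  obtain ⟨hc, a', h1, h2⟩ := h
  refine ⟨mul_ne_zero (pow_ne_zero _ D.ζ_ne) hc,
    algebraMap E[X] D.A (C (D.ζ ^ (j * m))) * D.s j a', ?_, ?_⟩
  · have h3 := congrArg (D.s j) h1
    rw [map_mul, map_mul, map_pow, map_pow, s_y, gA, AlgEquiv.commutes, mul_pow, ← map_pow,
      ← map_pow, ← C_pow, ← pow_mul] at h3
    rw [gA, ← map_pow, h3]
    ring
  · rw [map_mul, ev_alg, eval_C, ev_s, h2]; ring

lemma Ld.zero_of {i : Fin n} {a : D.A} (h : D.ev i a ≠ 0) : D.Ld i a 0 (D.ev i a) :=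
  ⟨h, a, by simp, by simp⟩

variable (D)

lemma exists_Ld_aux (i : Fin n) (k : ℕ) : ∀ a : D.A, a ≠ 0 →
    (D.Nm a).rootMultiplicity (D.e i) = k → ∃ c, D.Ld i a k c := by
  induction k with
  | zero =>
    intro a ha hk
    have h : D.ev i a ≠ 0 := by
      intro h
      have h1 := D.eval_Nm i a
      rw [h, zero_pow D.pos.ne'] at h1
      have h2 := (rootMultiplicity_pos (D.Nm_ne ha)).2 h1
      omega
    exact ⟨_, Ld.zero_of h⟩
  | succ k ih =>
    intro a ha hk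
    have h : D.ev i a = 0 := by
      have h1 : 0 < (D.Nm a).rootMultiplicity (D.e i) := by omega
      have h2 : (D.Nm a).eval (D.e i) = 0 := (rootMultiplicity_pos (D.Nm_ne ha)).1 h1
      rw [D.eval_Nm i a] at h2
      exact pow_eq_zero_iff D.pos.ne' |>.1 h2
    obtain ⟨a1, h1⟩ := D.step h
    have ha1 : a1 ≠ 0 := by
      rintro rfl
      rw [mul_zero] at h1
      exact (mul_ne_zero ha (D.gA_ne i)) h1
    obtain ⟨u, hu, hy⟩ := D.Nm_y
    have hg0 : D.g i ≠ 0 := by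
      intro h
      have := D.ge_ne i
      rw [ge, h, eval_zero] at this
      exact this rfl
    have h2 : D.Nm a * D.g i ^ (ℓ - 1) = C u * ((X - C (D.e i)) * D.Nm a1) := by
      have h3 := congrArg D.Nm h1
      rw [Nm_mul, Nm_mul, gA, Nm_algebraMap, hy, D.f_eq i] at h3
      apply mul_right_cancel₀ hg0
      calc D.Nm a * D.g i ^ (ℓ - 1) * D.g i = D.Nm a * D.g i ^ ℓ := by
            rw [mul_assoc, ← pow_succ, Nat.sub_add_cancel D.pos]
        _ = _ := by rw [h3]; ring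
    have hrg : (D.g i ^ (ℓ - 1)).rootMultiplicity (D.e i) = 0 := by
      apply rootMultiplicity_eq_zero
      rw [IsRoot.def, eval_pow]
      exact pow_ne_zero _ (D.ge_ne i)
    have h4 : (D.Nm a1).rootMultiplicity (D.e i) = k := by
      have h5 := congrArg (rootMultiplicity (D.e i)) h2
      have hX : (X - C (D.e i) : E[X]) ≠ 0 := X_sub_C_ne_zero _
      have hN1 := D.Nm_ne ha1
      rw [rootMultiplicity_mul (mul_ne_zero (D.Nm_ne ha) (pow_ne_zero _ hg0)),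
        rootMultiplicity_mul (mul_ne_zero (C_ne_zero.2 hu) (mul_ne_zero hX hN1)),
        rootMultiplicity_mul (mul_ne_zero hX hN1), hrg, rootMultiplicity_C,
        rootMultiplicity_X_sub_C_self, hk] at h5
      omega
    obtain ⟨c, hc, a', h5, h6⟩ := ih a1 ha1 h4
    refine ⟨c / D.ge i, div_ne_zero hc (D.ge_ne i), a', ?_, ?_⟩
    · calc a * D.gA i ^ (k + 1) = (a * D.gA i) * D.gA i ^ k := by rw [pow_succ']; ring
        _ = D.y * (a1 * D.gA i ^ k) := by rw [h1]; ring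
        _ = _ := by rw [h5, pow_succ']; ring
    · rw [h6, pow_succ', ← mul_assoc, div_mul_cancel₀ _ (D.ge_ne i)]

/-- the order at the `i`-th branch point -/
noncomputable def ord (i : Fin n) (a : D.A) : ℕ := (D.Nm a).rootMultiplicity (D.e i)

open Classical in
/-- the leading coefficient at the `i`-th branch point -/
noncomputable def lead (i : Fin n) (a : D.A) : E :=
  if ha : a ≠ 0 then (D.exists_Ld_aux i _ a ha rfl).choose else 0

lemma ld {i : Fin n} {a : D.A} (ha : a ≠ 0) : D.Ld i a (D.ord i a) (D.lead i a) := by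
  unfold lead
  rw [dif_pos ha]
  exact (D.exists_Ld_aux i _ a ha rfl).choose_spec

lemma Ld_ne {i : Fin n} {a : D.A} {m : ℕ} {c : E} (h : D.Ld i a m c) : a ≠ 0 := by
  rintro rfl
  obtain ⟨hc, a', h1, h2⟩ := h
  rw [zero_mul] at h1
  have h3 : a' = 0 := by
    rcases mul_eq_zero.1 h1.symm with h | h
    · exact absurd h (pow_ne_zero _ D.y_ne)
    · exact h
  rw [h3, map_zero] at h2
  exact (mul_ne_zero hc (pow_ne_zero _ (D.ge_ne i))) h2.symm

lemma eq_of_Ld {i : Fin n} {a : D.A} {m : ℕ} {c : E} (h : D.Ld i a m c) :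
    D.ord i a = m ∧ D.lead i a = c := (D.ld (D.Ld_ne h)).unique h

lemma lead_ne {i : Fin n} {a : D.A} (ha : a ≠ 0) : D.lead i a ≠ 0 := (D.ld ha).1

lemma ord_mul (i : Fin n) {a b : D.A} (ha : a ≠ 0) (hb : b ≠ 0) :
    D.ord i (a * b) = D.ord i a + D.ord i b := (D.eq_of_Ld ((D.ld ha).mul (D.ld hb))).1

lemma lead_mul (i : Fin n) {a b : D.A} (ha : a ≠ 0) (hb : b ≠ 0) :
    D.lead i (a * b) = D.lead i a * D.lead i b := (D.eq_of_Ld ((D.ld ha).mul (D.ld hb))).2

lemma ord_s (i : Fin n) {a : D.A} (ha : a ≠ 0) (j : ℕ) : D.ord i (D.s j a) = D.ord i a :=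
  (D.eq_of_Ld ((D.ld ha).s j)).1

lemma lead_s (i : Fin n) {a : D.A} (ha : a ≠ 0) (j : ℕ) :
    D.lead i (D.s j a) = D.ζ ^ (j * D.ord i a) * D.lead i a := (D.eq_of_Ld ((D.ld ha).s j)).2

lemma lead_of_ev (i : Fin n) {a : D.A} (h : D.ev i a ≠ 0) :
    D.lead i a = D.ev i a := (D.eq_of_Ld (Ld.zero_of h)).2

lemma ord_of_ev (i : Fin n) {a : D.A} (h : D.ev i a ≠ 0) :
    D.ord i a = 0 := (D.eq_of_Ld (Ld.zero_of h)).1

lemma lead_C (i : Fin n) {c : E} (hc : c ≠ 0) : D.lead i (algebraMap E[X] D.A (C c)) = c := by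
  rw [lead_of_ev, ev_alg, eval_C]
  rw [ev_alg, eval_C]; exact hc

lemma lead_one (i : Fin n) : D.lead i (1 : D.A) = 1 := by
  have := D.lead_C i (one_ne_zero (α := E))
  rwa [C_1, map_one] at this

lemma lead_pow (i : Fin n) {a : D.A} (ha : a ≠ 0) (k : ℕ) :
    D.lead i (a ^ k) = D.lead i a ^ k := by
  induction k with
  | zero => rw [pow_zero, pow_zero, lead_one]
  | succ k ih => rw [pow_succ, pow_succ, lead_mul _ _ (pow_ne_zero _ ha) ha, ih]

/-- leading coefficient of a polynomial in `x` -/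
noncomputable def lam (i : Fin n) (V : E[X]) : E := D.lead i (algebraMap E[X] D.A V)

lemma alg_ne {V : E[X]} (hV : V ≠ 0) : algebraMap E[X] D.A V ≠ 0 :=
  (map_ne_zero_iff _ D.injA).2 hV

lemma lam_ne (i : Fin n) {V : E[X]} (hV : V ≠ 0) : D.lam i V ≠ 0 := D.lead_ne (D.alg_ne hV)

lemma lam_mul (i : Fin n) {V W : E[X]} (hV : V ≠ 0) (hW : W ≠ 0) :
    D.lam i (V * W) = D.lam i V * D.lam i W := by
  unfold lam
  rw [map_mul, lead_mul _ _ (D.alg_ne hV) (D.alg_ne hW)]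

lemma lam_one (i : Fin n) : D.lam i 1 = 1 := by
  unfold lam
  rw [map_one, lead_one]

lemma lam_C (i : Fin n) {c : E} (hc : c ≠ 0) : D.lam i (C c) = c := D.lead_C i hc

lemma lam_pow (i : Fin n) {V : E[X]} (hV : V ≠ 0) (k : ℕ) : D.lam i (V ^ k) = D.lam i V ^ k := by
  unfold lam
  rw [map_pow, lead_pow _ _ (D.alg_ne hV)]

lemma lam_of_eval (i : Fin n) {V : E[X]} (h : V.eval (D.e i) ≠ 0) :
    D.lam i V = V.eval (D.e i) := by
  unfold lam
  rw [lead_of_ev, ev_alg]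
  rwa [ev_alg]

lemma lam_X_sub_C_ne {i k : Fin n} (h : i ≠ k) : D.lam i (X - C (D.e k)) = D.e i - D.e k := by
  rw [lam_of_eval]
  · simp
  · simp only [eval_sub, eval_X, eval_C, ne_eq]
    exact sub_ne_zero.2 fun h' => h (D.he h')

lemma Ld_X_sub_C_self (i : Fin n) :
    D.Ld i (algebraMap E[X] D.A (X - C (D.e i))) ℓ (D.ge i)⁻¹ := by
  refine ⟨inv_ne_zero (D.ge_ne i), D.gA i ^ (ℓ - 1), ?_, ?_⟩
  · calc algebraMap E[X] D.A (X - C (D.e i)) * D.gA i ^ ℓ =
        algebraMap E[X] D.A (X - C (D.e i)) * (D.gA i * D.gA i ^ (ℓ - 1)) := by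
          rw [← pow_succ', Nat.sub_add_cancel D.pos]
      _ = _ := by rw [D.y_pow' i]; ring
  · rw [map_pow, ev_gA]
    rw [eq_inv_mul_iff_mul_eq₀ (D.ge_ne i), ← pow_succ', Nat.sub_add_cancel D.pos]

lemma lam_X_sub_C_self (i : Fin n) : D.lam i (X - C (D.e i)) = (D.ge i)⁻¹ :=
  (D.eq_of_Ld (D.Ld_X_sub_C_self i)).2

lemma lead_Nm (i : Fin n) {a : D.A} (ha : a ≠ 0) :
    D.lam i (D.Nm a) = (∏ j ∈ Finset.range ℓ, D.ζ ^ (j * D.ord i a)) * D.lead i a ^ ℓ := by
  unfold lam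
  rw [Nm_spec]
  have h : ∀ k : ℕ, D.lead i (∏ j ∈ Finset.range k, D.s j a) =
      (∏ j ∈ Finset.range k, D.ζ ^ (j * D.ord i a)) * D.lead i a ^ k := by
    intro k
    induction k with
    | zero => rw [Finset.prod_range_zero, Finset.prod_range_zero, pow_zero, mul_one, lead_one]
    | succ k ih =>
      rw [Finset.prod_range_succ, Finset.prod_range_succ, lead_mul, ih, lead_s _ _ ha, pow_succ]
      · ring
      · exact Finset.prod_ne_zero_iff.2 fun j _ => (map_ne_zero_iff _ (D.s j).injective).2 ha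
      · exact (map_ne_zero_iff _ (D.s k).injective).2 ha
  exact h ℓ

end Dat

end Pool.Agent.Y713.SE
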