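import Pool.Agent.Y713.SE.Pd

/-! Construction of the polynomial `D`. -/

set_option autoImplicit false
set_option linter.all false

open Polynomial IsDedekindDomain IsLocalRing

namespace Pool.Agent.Y713.SE

section
variable {O k : Type} [CommRing O] [IsDedekindDomain O] [Field k] [Algebra O k]
  [IsFractionRing O k]

/-- almost all primes are good for a finite set of elements -/
theorem exists_good_prime (hinf : Infinite (HeightOneSpectrum O)) (S : Finset k)
    (B : Set (HeightOneSpectrum O)) (hB : B.Finite) :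
    ∃ p : HeightOneSpectrum O, p ∉ B ∧ ∀ x ∈ S, p.valuation k x ≤ 1 := by
  have h1 : (⋃ x ∈ S, {v : HeightOneSpectrum O | 1 < v.valuation k x}).Finite := by
    refine Set.Finite.biUnion S.finite_toSet fun x _ => ?_
    exact HeightOneSpectrum.Support.finite O x
  obtain ⟨p, hp⟩ := (hB.union h1).infinite_compl.nonempty
  rw [Set.mem_compl_iff, Set.mem_union, not_or] at hp
  refine ⟨p, hp.1, fun x hx => ?_⟩
  by_contra hlt
  apply hp.2
  rw [Set.mem_iUnion₂]
  exact ⟨x, hx, not_le.1 hlt⟩

theorem coprime_sq {p q : HeightOneSpectrum O} (hpq : p ≠ q) :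
    ∃ s t : O, s ∈ p.asIdeal ^ 2 ∧ t ∈ q.asIdeal ^ 2 ∧ s + t = 1 := by
  have h1 : IsCoprime p.asIdeal q.asIdeal := by
    rw [Ideal.isCoprime_iff_sup_eq]
    exact p.isMaximal.coprime_of_ne q.isMaximal fun h => hpq (HeightOneSpectrum.ext h)
  have h2 : IsCoprime (p.asIdeal ^ 2) (q.asIdeal ^ 2) := h1.pow
  obtain ⟨s, hs, t, ht, h⟩ := Ideal.isCoprime_iff_exists.1 h2
  exact ⟨s, t, hs, ht, h⟩

theorem approx {p q : HeightOneSpectrum O} (hpq : p ≠ q) {x : k} (hx : p.valuation k x ≤ 1)
    (y : O) : ∃ a : O, p.valuation k (algebraMap O k a - x) ≤ WithZero.exp (-2 : ℤ) ∧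
      a - y ∈ q.asIdeal ^ 2 := by
  obtain ⟨a0, ha0⟩ := p.exists_valuation_sub_lt_of_integer hx
    (Units.mk0 (WithZero.exp (-2 : ℤ)) WithZero.exp_ne_zero)
  rw [Units.val_mk0] at ha0
  obtain ⟨s, t, hs, ht, hst⟩ := coprime_sq hpq
  refine ⟨a0 * t + y * s, ?_, ?_⟩
  · have e : algebraMap O k (a0 * t + y * s) - x =
        (algebraMap O k a0 - x) + algebraMap O k (s * (y - a0)) := by
      have h1 : t = 1 - s := by rw [← hst]; ring
      rw [h1]
      simp only [map_add, map_mul, map_sub, map_one]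
      ring
    rw [e]
    refine (Valuation.map_add _ _ _).trans (max_le ha0.le ?_)
    rw [HeightOneSpectrum.valuation_of_algebraMap]
    have := (p.intValuation_le_pow_iff_mem (s * (y - a0)) 2).2 (Ideal.mul_mem_right _ _ hs)
    simpa using this
  · have e : a0 * t + y * s - y = (a0 - y) * t := by
      have h1 : s = 1 - t := by rw [← hst]; ring
      rw [h1]; ring
    rw [e]
    exact Ideal.mul_mem_left _ _ ht

/-- the polynomial over `O` -/
theorem exists_DO {p q : HeightOneSpectrum O} (hpq : p ≠ q) {Q : k[X]} (hQ : Q.Monic)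
    (hd : 0 < Q.natDegree) (hQi : ∀ i, p.valuation k (Q.coeff i) ≤ 1) {ϖ : O} :
    ∃ D : O[X], D.Monic ∧ D.natDegree = Q.natDegree ∧
      (∀ i, i < D.natDegree → D.coeff i ∈ q.asIdeal) ∧ D.coeff 0 ∉ q.asIdeal ^ 2 ∧
      (∀ i, p.valuation k ((D.map (algebraMap O k) - Q - C (algebraMap O k ϖ)).coeff i) ≤
        WithZero.exp (-2 : ℤ)) := by
  obtain ⟨ϖ', hϖ'⟩ := q.intValuation_exists_uniformizer
  have hϖ'1 : ϖ' ∈ q.asIdeal := by
    have := (q.intValuation_le_pow_iff_mem ϖ' 1).1 (by rw [hϖ']; simp)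
    rwa [pow_one] at this
  have hϖ'2 : ϖ' ∉ q.asIdeal ^ 2 := by
    rw [← q.intValuation_le_pow_iff_mem, hϖ', WithZero.exp_le_exp]
    norm_num
  have hx : ∀ i, p.valuation k (Q.coeff i + (if i = 0 then algebraMap O k ϖ else 0)) ≤ 1 := by
    intro i
    refine (Valuation.map_add _ _ _).trans (max_le (hQi i) ?_)
    split_ifs
    · exact p.valuation_le_one ϖ
    · rw [map_zero]; exact zero_le'
  have hex : ∀ i : ℕ, ∃ a : O, p.valuation k (algebraMap O k a -
      (Q.coeff i + (if i = 0 then algebraMap O k ϖ else 0))) ≤ WithZero.exp (-2 : ℤ) ∧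
      a - (if i = 0 then ϖ' else 0) ∈ q.asIdeal ^ 2 := fun i => approx hpq (hx i) _
  choose a ha1 ha2 using hex
  set d := Q.natDegree with hddef
  set r : O[X] := ∑ i ∈ Finset.range d, C (a i) * X ^ i with hr
  have hrc : ∀ i, r.coeff i = if i < d then a i else 0 := by
    intro i
    rw [hr, finset_sum_coeff]
    simp only [coeff_C_mul, coeff_X_pow, mul_ite, mul_one, mul_zero]
    rw [Finset.sum_ite_eq]
    simp only [Finset.mem_range]
  have hrd : r.degree < d := by
    rw [degree_lt_iff_coeff_zero]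
    intro i hi
    rw [hrc, if_neg (by omega)]
  have hmon : (X ^ d + r).Monic := monic_X_pow_add hrd
  have hnd : (X ^ d + r).natDegree = d := by
    rw [natDegree_add_eq_left_of_degree_lt]
    · exact natDegree_X_pow d
    · rwa [degree_X_pow]
  have hDc : ∀ i, (X ^ d + r).coeff i = if i < d then a i else if i = d then 1 else 0 := by
    intro i
    rw [coeff_add, hrc, coeff_X_pow]
    by_cases h1 : i < d
    · rw [if_pos h1, if_neg (by omega), if_pos h1, zero_add]
    · rw [if_neg h1, if_neg h1, add_zero]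
  refine ⟨X ^ d + r, hmon, hnd, ?_, ?_, ?_⟩
  · intro i hi
    rw [hnd] at hi
    rw [hDc, if_pos hi]
    have h2 := Ideal.pow_le_self (I := q.asIdeal) (n := 2) (by norm_num) (ha2 i)
    have h3 : (if i = 0 then ϖ' else 0) ∈ q.asIdeal := by
      split_ifs
      · exact hϖ'1
      · exact Ideal.zero_mem _
    have := Ideal.add_mem _ h2 h3
    rwa [sub_add_cancel] at this
  · rw [hDc, if_pos hd]
    intro h
    have h2 := ha2 0
    rw [if_pos rfl] at h2
    have h3 := Ideal.sub_mem _ h h2
    rw [sub_sub_cancel] at h3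
    exact hϖ'2 h3
  · intro i
    rw [coeff_sub, coeff_sub, coeff_map, hDc, coeff_C]
    by_cases h1 : i < d
    · rw [if_pos h1]
      have h2 := ha1 i
      convert h2 using 2
      ring
    · rw [if_neg h1]
      by_cases h2 : i = d
      · have h3 : Q.coeff i = 1 := by rw [h2]; exact hQ.coeff_natDegree
        rw [if_pos h2, h3, map_one, sub_self, if_neg (by omega), sub_self, map_zero]
        exact zero_le'
      · have h3 : Q.coeff i = 0 := coeff_eq_zero_of_natDegree_lt (by omega)
        rw [if_neg h2, h3, map_zero, if_neg (by omega), sub_zero, sub_zero, map_zero]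
        exact zero_le'

/-- irreducibility of the expansions -/
theorem irr_expand {q : HeightOneSpectrum O} {D : O[X]} (hD : D.Monic) (hd : 0 < D.natDegree)
    (h1 : ∀ i, i < D.natDegree → D.coeff i ∈ q.asIdeal) (h2 : D.coeff 0 ∉ q.asIdeal ^ 2)
    {m : ℕ} (hm : 0 < m) : Irreducible (expand k m (D.map (algebraMap O k))) := by
  have hmon : (expand O m D).Monic := hD.expand hm
  have hnd : (expand O m D).natDegree = D.natDegree * m := natDegree_expand m D
  have hirr : Irreducible (expand O m D) := by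
    refine IsEisensteinAt.irreducible (𝓟 := q.asIdeal) ⟨?_, ?_, ?_⟩ q.isPrime hmon.isPrimitive
      (by rw [hnd]; exact Nat.mul_pos hd hm)
    · rw [hmon.leadingCoeff]
      exact fun h => q.isPrime.ne_top ((Ideal.eq_top_iff_one _).2 h)
    · intro i hi
      rw [coeff_expand hm]
      split_ifs with hdvd
      · apply h1
        rw [hnd] at hi
        exact (Nat.div_lt_iff_lt_mul hm).2 hi
      · exact Ideal.zero_mem _
    · rw [coeff_expand hm, if_pos (dvd_zero _), Nat.zero_div]
      exact h2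
  rw [hmon.irreducible_iff_irreducible_map_fraction_map (K := k), map_expand] at hirr
  exact hirr

/-- existence of `D` for a family of polynomials -/
theorem exists_D1 (hinf : Infinite (HeightOneSpectrum O)) {ι : Type} [Fintype ι] [DecidableEq ι]
    (h : ι → k[X]) (hmon : ∀ i, (h i).Monic) (hdeg : ∀ i, 0 < (h i).natDegree)
    (hsep : (∏ i, h i).Separable) (i0 : ι) : ∃ D : k[X], D.Monic ∧
      D.natDegree = ∑ i, (h i).natDegree ∧ (∀ m, 0 < m → Irreducible (expand k m D)) ∧
      ∀ (ℓ : ℕ) (c : k) (a : ι → ℕ) (z : k[X]), ℓ ≠ 0 → c ≠ 0 → a i0 = 0 →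
        D ∣ C c * ∏ i, h i ^ a i - z ^ ℓ → ∀ i, ℓ ∣ a i := by
  classical
  set Q := ∏ i, h i with hQdef
  have hQm : Q.Monic := monic_prod_of_monic _ _ fun i _ => hmon i
  have hQd : Q.natDegree = ∑ i, (h i).natDegree := natDegree_prod_of_monic _ _ fun i _ => hmon i
  have hQpos : 0 < Q.natDegree := by
    rw [hQd]
    exact Finset.sum_pos (fun i _ => hdeg i) ⟨i0, Finset.mem_univ _⟩
  obtain ⟨s, t, hst⟩ := hsep
  -- the finite set of coefficients
  let S : Finset k := s.coeffs ∪ t.coeffs ∪ Finset.univ.biUnion fun i => (h i).coeffs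
  obtain ⟨p, -, hp⟩ := exists_good_prime (k := k) hinf S ∅ Set.finite_empty
  obtain ⟨q, hq, -⟩ := exists_good_prime (k := k) hinf ∅ {p} (Set.finite_singleton p)
  have hpq : p ≠ q := fun h => hq (by rw [h]; exact Set.mem_singleton _)
  have hcoef : ∀ g : k[X], (∀ x ∈ g.coeffs, p.valuation k x ≤ 1) →
      ∀ i, p.valuation k (g.coeff i) ≤ 1 := by
    intro g hg i
    by_cases h0 : g.coeff i = 0
    · rw [h0, map_zero]; exact zero_le'
    · exact hg _ (coeff_mem_coeffs h0)
  -- the valuation ring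
  let V := (p.valuation k).valuationSubring
  have hVinj : Function.Injective (algebraMap V k) := IsFractionRing.injective V k
  have hlift : ∀ g : k[X], (∀ i, p.valuation k (g.coeff i) ≤ 1) → g ∈ lifts (algebraMap V k) := by
    intro g hg
    rw [lifts_iff_coeff_lifts]
    intro i
    exact ⟨⟨g.coeff i, hg i⟩, rfl⟩
  have hhi : ∀ i j, p.valuation k ((h i).coeff j) ≤ 1 := fun i => hcoef _ fun x hx => hp x
    (Finset.mem_union_right _ (Finset.mem_biUnion.2 ⟨i, Finset.mem_univ _, hx⟩))
  have hexh : ∀ i, ∃ g : V[X], g.map (algebraMap V k) = h i ∧ g.natDegree = (h i).natDegree ∧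
      g.Monic := fun i => lifts_and_natDegree_eq_and_monic (hlift _ (hhi i)) (hmon i)
  choose H hH1 hH2 hH3 using hexh
  have hHQ : (∏ i, H i).map (algebraMap V k) = Q := by
    rw [Polynomial.map_prod, hQdef]
    exact Finset.prod_congr rfl fun i _ => hH1 i
  have hQi : ∀ i, p.valuation k (Q.coeff i) ≤ 1 := by
    intro i
    rw [← hHQ, coeff_map]
    exact ((∏ i, H i).coeff i).2
  obtain ⟨s', hs'⟩ := (mem_lifts _).1 (hlift s (hcoef _ fun x hx => hp x
    (Finset.mem_union_left _ (Finset.mem_union_left _ hx))))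
  obtain ⟨t', ht'⟩ := (mem_lifts _).1 (hlift t (hcoef _ fun x hx => hp x
    (Finset.mem_union_left _ (Finset.mem_union_right _ hx))))
  have hsepV : (∏ i, H i).Separable := by
    refine ⟨s', t', ?_⟩
    apply Polynomial.map_injective _ hVinj
    rw [Polynomial.map_add, Polynomial.map_mul, Polynomial.map_mul, ← derivative_map, hHQ, hs',
      ht', Polynomial.map_one]
    exact hst
  have hsq : Squarefree ((∏ i, H i).map (residue V)) := (hsepV.map (f := residue V)).squarefree
  -- the uniformizer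
  obtain ⟨ϖ, hϖ⟩ := p.intValuation_exists_uniformizer
  have hϖk : p.valuation k (algebraMap O k ϖ) = WithZero.exp (-1 : ℤ) := by
    rw [HeightOneSpectrum.valuation_of_algebraMap, hϖ]
  have hval1 : ∀ x : O, p.valuation k (algebraMap O k x) ≤ 1 := fun x => p.valuation_le_one x
  let θ : O →+* V := (algebraMap O k).codRestrict (p.valuation k).valuationSubring.toSubring hval1
  have hθ : ∀ x, algebraMap V k (θ x) = algebraMap O k x := fun x => rfl
  let ϖV : V := θ ϖ
  have hVdvd : ∀ x y : V, p.valuation k (algebraMap V k x) ≤ p.valuation k (algebraMap V k y) →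
      y ∣ x := by
    intro x y hxy
    by_cases hy : y = 0
    · have : x = 0 := by
        rw [hy, map_zero, map_zero] at hxy
        have h1 := le_antisymm hxy zero_le'
        rw [map_eq_zero] at h1
        exact hVinj (by rw [h1, map_zero])
      rw [hy, this]
    have hy0 : algebraMap V k y ≠ 0 := fun h0 => hy (hVinj (by rw [h0, map_zero]))
    refine ⟨⟨algebraMap V k x / algebraMap V k y, ?_⟩, ?_⟩
    · show p.valuation k (algebraMap V k x / algebraMap V k y) ≤ 1
      rw [_root_.map_div₀]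
      exact div_le_one_of_le₀ hxy zero_le'
    · apply hVinj
      rw [map_mul]
      show algebraMap V k x = algebraMap V k y * (algebraMap V k x / algebraMap V k y)
      rw [mul_div_cancel₀ _ hy0]
  have hunitV : ∀ x : V, p.valuation k (algebraMap V k x) = 1 → IsUnit x := by
    intro x hx
    exact isUnit_of_dvd_one (hVdvd 1 x (by rw [hx, map_one, map_one]))
  have hϖirr : Irreducible ϖV := by
    refine ⟨fun hu => ?_, fun x y hxy => ?_⟩
    · obtain ⟨w, hw⟩ := hu
      have h1 : p.valuation k (algebraMap V k (w : V)) * p.valuation k (algebraMap V k (↑w⁻¹ : V)) =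
          1 := by
        rw [← map_mul, ← map_mul, Units.mul_inv, map_one, map_one]
      rw [hw] at h1
      have h2 : p.valuation k (algebraMap V k (↑w⁻¹ : V)) ≤ 1 := (↑w⁻¹ : V).2
      have h3 : p.valuation k (algebraMap V k ϖV) < 1 := by
        show p.valuation k (algebraMap O k ϖ) < 1
        rw [hϖk, ← WithZero.exp_zero, WithZero.exp_lt_exp]
        norm_num
      have h4 := mul_lt_one_of_lt_of_le h3 h2
      rw [h1] at h4
      exact lt_irrefl _ h4
    · have h1 : p.valuation k (algebraMap V k x) * p.valuation k (algebraMap V k y) =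
          WithZero.exp (-1 : ℤ) := by
        rw [← map_mul, ← map_mul, ← hxy]
        exact hϖk
      have hx0 : p.valuation k (algebraMap V k x) ≠ 0 := by
        intro h0; rw [h0, zero_mul] at h1; exact WithZero.exp_ne_zero h1.symm
      have hy0 : p.valuation k (algebraMap V k y) ≠ 0 := by
        intro h0; rw [h0, mul_zero] at h1; exact WithZero.exp_ne_zero h1.symm
      obtain ⟨m, hm⟩ : ∃ m : ℤ, p.valuation k (algebraMap V k x) = WithZero.exp m :=
        ⟨_, (WithZero.exp_log hx0).symm⟩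
      obtain ⟨n, hn⟩ : ∃ n : ℤ, p.valuation k (algebraMap V k y) = WithZero.exp n :=
        ⟨_, (WithZero.exp_log hy0).symm⟩
      have hm1 : m ≤ 0 := by
        have h2 : p.valuation k (algebraMap V k x) ≤ 1 := x.2
        rwa [hm, ← WithZero.exp_zero, WithZero.exp_le_exp] at h2
      have hn1 : n ≤ 0 := by
        have h2 : p.valuation k (algebraMap V k y) ≤ 1 := y.2
        rwa [hn, ← WithZero.exp_zero, WithZero.exp_le_exp] at h2
      rw [hm, hn, ← WithZero.exp_add] at h1
      have h3 := WithZero.exp_injective h1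
      rcases (by omega : m = 0 ∨ n = 0) with h4 | h4
      · left; apply hunitV; rw [hm, h4, WithZero.exp_zero]
      · right; apply hunitV; rw [hn, h4, WithZero.exp_zero]
  -- the polynomial
  obtain ⟨D, hD1, hD2, hD3, hD4, hD5⟩ := exists_DO (k := k) hpq hQm hQpos hQi (ϖ := ϖ)
  have hDpos : 0 < D.natDegree := by rw [hD2]; exact hQpos
  refine ⟨D.map (algebraMap O k), hD1.map _, ?_, fun m hm => irr_expand hD1 hDpos hD3 hD4 hm, ?_⟩
  · rw [hD1.natDegree_map, hD2, hQd]
  intro ℓ c a z hℓ hc ha0 hdvd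
  have hDirrk : Irreducible (D.map (algebraMap O k)) := by
    have := irr_expand (k := k) hD1 hDpos hD3 hD4 one_pos
    rwa [expand_one] at this
  -- the polynomial over `V`
  set DV : V[X] := D.map θ with hDV
  have hDVk : DV.map (algebraMap V k) = D.map (algebraMap O k) := by
    rw [hDV, Polynomial.map_map]
    rfl
  have hDVm : DV.Monic := hD1.map _
  have hDVirr : Irreducible DV := by
    rw [hDVm.irreducible_iff_irreducible_map_fraction_map (K := k), hDVk]
    exact hDirrk
  obtain ⟨E, hE⟩ : ∃ E, DV - ∏ i, H i - C ϖV = C (ϖV ^ 2) * E := by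
    have : C (ϖV ^ 2) ∣ DV - ∏ i, H i - C ϖV := by
      rw [C_dvd_iff_dvd_coeff]
      intro i
      apply hVdvd
      have e1 : algebraMap V k ((DV - ∏ i, H i - C ϖV).coeff i) =
          (D.map (algebraMap O k) - Q - C (algebraMap O k ϖ)).coeff i := by
        rw [← coeff_map, Polynomial.map_sub, Polynomial.map_sub, hDVk, hHQ, map_C]
        rfl
      have e2 : p.valuation k (algebraMap V k (ϖV ^ 2)) = WithZero.exp (-2 : ℤ) := by
        rw [map_pow, map_pow]
        show (p.valuation k (algebraMap O k ϖ)) ^ 2 = _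
        rw [hϖk, ← WithZero.exp_nsmul]
        rfl
      rw [e1, e2]
      exact hD5 i
    exact this
  have hDE : DV = ∏ i, H i + C ϖV + C (ϖV ^ 2) * E := by rw [← hE]; ring
  -- clear denominators
  have hden : ∀ g : k[X], ∃ (M : ℕ) (G : V[X]), G.map (algebraMap V k) =
      C ((algebraMap V k ϖV) ^ M) * g := by
    intro g
    have h1 : ∀ x : k, ∃ M : ℕ, ∀ M', M ≤ M' → p.valuation k ((algebraMap V k ϖV) ^ M' * x) ≤ 1 := by
      intro x
      by_cases hx : x = 0
      · exact ⟨0, fun M' _ => by rw [hx, mul_zero, map_zero]; exact zero_le'⟩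
      have hx0 : p.valuation k x ≠ 0 := (Valuation.ne_zero_iff _).2 hx
      obtain ⟨m, hm⟩ : ∃ m : ℤ, p.valuation k x = WithZero.exp m :=
        ⟨_, (WithZero.exp_log hx0).symm⟩
      refine ⟨m.toNat, fun M' hM' => ?_⟩
      have e : p.valuation k (algebraMap V k ϖV) = WithZero.exp (-1 : ℤ) := hϖk
      rw [map_mul, map_pow, e, hm, ← WithZero.exp_nsmul, ← WithZero.exp_add,
        ← WithZero.exp_zero, WithZero.exp_le_exp]
      simp only [nsmul_eq_mul]
      have := Int.self_le_toNat m
      have : (m.toNat : ℤ) ≤ M' := by exact_mod_cast hM'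
      linarith
    choose M hM using h1
    let N := (Finset.range (g.natDegree + 1)).sup fun i => M (g.coeff i)
    have h2 : C ((algebraMap V k ϖV) ^ N) * g ∈ lifts (algebraMap V k) := by
      apply hlift
      intro i
      rw [coeff_C_mul]
      by_cases hi : i ≤ g.natDegree
      · exact hM _ _ (Finset.le_sup (f := fun i => M (g.coeff i)) (Finset.mem_range.2 (by omega)))
      · rw [coeff_eq_zero_of_natDegree_lt (by omega), mul_zero, map_zero]
        exact zero_le'
    obtain ⟨G, hG⟩ := (mem_lifts _).1 h2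
    exact ⟨N, G, hG⟩
  obtain ⟨M1, z1, hz1⟩ := hden z
  obtain ⟨m, hm⟩ : ∃ m : ℤ, p.valuation k c = WithZero.exp m :=
    ⟨_, (WithZero.exp_log ((Valuation.ne_zero_iff _).2 hc)).symm⟩
  set M := M1 + m.toNat with hMdef
  have eϖ : p.valuation k (algebraMap V k ϖV) = WithZero.exp (-1 : ℤ) := hϖk
  have hϖV0 : algebraMap V k ϖV ≠ 0 := by
    intro h0
    rw [h0, map_zero] at eϖ
    exact WithZero.exp_ne_zero eϖ.symm
  have hℓ1 : 1 ≤ ℓ := Nat.one_le_iff_ne_zero.2 hℓ
  obtain ⟨j, hj⟩ : ∃ j : ℕ, (j : ℤ) = ℓ * M - m := by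
    have h1 : 0 ≤ (ℓ : ℤ) * M - m := by
      have h2 := Int.self_le_toNat m
      have h3 : (m.toNat : ℤ) ≤ M := by exact_mod_cast (by omega : m.toNat ≤ M)
      have h4 : (M : ℤ) ≤ ℓ * M := by
        have : (1 : ℤ) ≤ ℓ := by exact_mod_cast hℓ1
        nlinarith [Int.natCast_nonneg M]
      linarith
    exact ⟨_, Int.toNat_of_nonneg h1⟩
  have hu1 : p.valuation k ((algebraMap V k ϖV) ^ (ℓ * M) * c / (algebraMap V k ϖV) ^ j) = 1 := by
    rw [_root_.map_div₀, map_mul, map_pow, map_pow, eϖ, hm, ← WithZero.exp_nsmul,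
      ← WithZero.exp_nsmul, ← WithZero.exp_add, ← WithZero.exp_sub, ← WithZero.exp_zero]
    congr 1
    simp only [nsmul_eq_mul]
    push_cast
    linarith
  obtain ⟨u, hu⟩ := hunitV ⟨_, hu1.le⟩ hu1
  have huk : algebraMap V k (u : V) =
      (algebraMap V k ϖV) ^ (ℓ * M) * c / (algebraMap V k ϖV) ^ j := by rw [hu]; rfl
  have hdvdV : DV ∣ C (ϖV ^ j * u) * ∏ i, H i ^ a i - (C (ϖV ^ (M - M1)) * z1) ^ ℓ := by
    rw [← map_dvd_map (algebraMap V k) hVinj hDVm, hDVk]
    have e1 : (C (ϖV ^ j * u) * ∏ i, H i ^ a i - (C (ϖV ^ (M - M1)) * z1) ^ ℓ).map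
        (algebraMap V k) = C ((algebraMap V k ϖV) ^ (ℓ * M)) * (C c * ∏ i, h i ^ a i - z ^ ℓ) := by
      rw [Polynomial.map_sub, Polynomial.map_mul, Polynomial.map_pow, Polynomial.map_mul,
        Polynomial.map_prod, map_C, map_C, hz1, map_mul, huk, map_pow, map_pow]
      have e2 : ∏ i, (H i ^ a i).map (algebraMap V k) = ∏ i, h i ^ a i :=
        Finset.prod_congr rfl fun i _ => by rw [Polynomial.map_pow, hH1]
      have e3 : (algebraMap V k ϖV) ^ j * ((algebraMap V k ϖV) ^ (ℓ * M) * c /
          (algebraMap V k ϖV) ^ j) = (algebraMap V k ϖV) ^ (ℓ * M) * c := by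
        rw [mul_div_cancel₀ _ (pow_ne_zero _ hϖV0)]
      have e4 : (C ((algebraMap V k ϖV) ^ (M - M1)) * (C ((algebraMap V k ϖV) ^ M1) * z)) ^ ℓ =
          C ((algebraMap V k ϖV) ^ (ℓ * M)) * z ^ ℓ := by
        rw [← mul_assoc, ← C_mul, ← pow_add, mul_pow, ← C_pow, ← pow_mul]
        congr 3
        rw [mul_comm]
        congr 1
        omega
      rw [e2, e3, e4, C_mul]
      ring
    rw [e1]
    exact hdvd.mul_left _
  have hres : ∀ i, 0 < ((H i).map (residue V)).natDegree := by
    intro i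
    rw [(hH3 i).natDegree_map, hH2]
    exact hdeg i
  have key : ∀ i, ℓ ∣ j + a i := fun i =>
    pd_V hDVm hDVirr hϖirr H hDE hsq i (hres i) hℓ a j u _ hdvdV
  have hj0 : ℓ ∣ j := by
    have := key i0
    rwa [ha0, add_zero] at this
  intro i
  exact (Nat.dvd_add_right hj0).1 (key i)

end

end Pool.Agent.Y713.SE
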