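import Pool.Agent.Y713.SE.Red

/-! Places of a Dedekind domain: consequences of local triviality. -/

set_option autoImplicit false
set_option linter.all false

open Polynomial IsDedekindDomain

namespace Pool.Agent.Y713.SE

/-- `ℓ`-th powers in the value group -/
def Pw (ℓ : ℕ) (γ : WithZero (Multiplicative ℤ)) : Prop := ∃ β, γ = β ^ ℓ

lemma Pw.mul {ℓ : ℕ} {a b : WithZero (Multiplicative ℤ)} (ha : Pw ℓ a) (hb : Pw ℓ b) :
    Pw ℓ (a * b) := by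
  obtain ⟨x, rfl⟩ := ha
  obtain ⟨y, rfl⟩ := hb
  exact ⟨x * y, by rw [mul_pow]⟩

lemma Pw.pow {ℓ : ℕ} (a : WithZero (Multiplicative ℤ)) : Pw ℓ (a ^ ℓ) := ⟨a, rfl⟩

lemma Pw.inv {ℓ : ℕ} {a : WithZero (Multiplicative ℤ)} (ha : Pw ℓ a) : Pw ℓ a⁻¹ := by
  obtain ⟨x, rfl⟩ := ha
  exact ⟨x⁻¹, by rw [inv_pow]⟩

lemma Pw.one {ℓ : ℕ} : Pw ℓ 1 := ⟨1, by rw [one_pow]⟩

/-- a value whose power prime to `ℓ` is an `ℓ`-th power -/
lemma Pw.of_pow {ℓ k : ℕ} (hk : Nat.Coprime k ℓ) (hℓ : 1 < ℓ) {a : WithZero (Multiplicative ℤ)}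
    (ha : a ≠ 0) (h : Pw ℓ (a ^ k)) : Pw ℓ a := by
  obtain ⟨r, -, hr⟩ := Nat.exists_mul_mod_eq_one_of_coprime hk hℓ
  obtain ⟨b, hb⟩ := h
  have h1 := Nat.div_add_mod (k * r) ℓ
  rw [hr] at h1
  set t := k * r / ℓ with ht
  have h2 : (a ^ t) ^ ℓ * a = (b ^ r) ^ ℓ := by
    rw [← pow_mul, ← pow_succ, mul_comm t ℓ, h1, pow_mul, hb, ← pow_mul, ← pow_mul, mul_comm ℓ r]
  refine ⟨b ^ r * (a ^ t)⁻¹, ?_⟩
  rw [mul_pow, ← h2, inv_pow, mul_comm, inv_mul_cancel_left₀ (pow_ne_zero _ (pow_ne_zero _ ha))]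

section
variable {R K : Type} [CommRing R] [IsDedekindDomain R] [Field K] [Algebra R K] [IsFractionRing R K]
variable {v : HeightOneSpectrum R} {ℓ : ℕ} {Ω : Type} [Field Ω] [Algebra (v.adicCompletion K) Ω]

/-- compatibility of an absolute value with the valuation -/
def Cpt (S : LS ℓ (v.adicCompletion K) Ω) : Prop := ∀ x y : v.adicCompletion K,
  S.nrm (algebraMap _ Ω x) ≤ S.nrm (algebraMap _ Ω y) ↔
    (Valued.v x : WithZero (Multiplicative ℤ)) ≤ Valued.v y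

variable {S : LS ℓ (v.adicCompletion K) Ω} (hS : Cpt S)

include hS

lemma Cpt.eq_iff (x y : v.adicCompletion K) : S.nrm (algebraMap _ Ω x) = S.nrm (algebraMap _ Ω y) ↔
    (Valued.v x : WithZero (Multiplicative ℤ)) = Valued.v y := by
  constructor
  · intro h
    exact le_antisymm ((hS x y).1 h.le) ((hS y x).1 h.ge)
  · intro h
    exact le_antisymm ((hS x y).2 h.le) ((hS y x).2 h.ge)

lemma Cpt.pw {x y : v.adicCompletion K} {γ : K} (hγ : algebraMap K (v.adicCompletion K) γ = x)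
    (h : S.nrm (algebraMap _ Ω x) = S.nrm (algebraMap _ Ω y) ^ ℓ) : Pw ℓ (v.valuation K γ) := by
  rw [← map_pow, ← map_pow, hS.eq_iff, ← hγ, val_coe, map_pow] at h
  exact ⟨_, h⟩

variable [Algebra K Ω] [IsScalarTower K (v.adicCompletion K) Ω]

lemma Cpt.one {a : K} (h : v.valuation K a = 1) : S.nrm (algebraMap K Ω a) = 1 := by
  have h1 : S.nrm (algebraMap (v.adicCompletion K) Ω (algebraMap K _ a)) =
      S.nrm (algebraMap (v.adicCompletion K) Ω 1) := by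
    rw [hS.eq_iff, val_coe, h, map_one]
  rwa [map_one, map_one, ← IsScalarTower.algebraMap_apply] at h1

lemma Cpt.lt {a : K} (h : v.valuation K a < 1) : S.nrm (algebraMap K Ω a) < 1 := by
  have h1 : ¬ S.nrm (algebraMap (v.adicCompletion K) Ω 1) ≤
      S.nrm (algebraMap (v.adicCompletion K) Ω (algebraMap K _ a)) := by
    rw [hS, val_coe, map_one]
    exact not_le.2 h
  rw [map_one, map_one, ← IsScalarTower.algebraMap_apply] at h1
  exact not_le.1 h1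

lemma Cpt.gen (hp : ℓ.Prime) {π : K} (hπ0 : π ≠ 0) (hπ : ¬ Pw ℓ (v.valuation K π)) (γ : ℝ)
    (hγ : S.Gam γ) : ∃ (r : ℕ) (g : ℝ), S.Gam g ∧ γ = S.nrm (algebraMap K Ω π) ^ r * g ^ ℓ := by
  obtain ⟨x, hx, rfl⟩ := hγ
  have hvx : (Valued.v x : WithZero (Multiplicative ℤ)) ≠ 0 := (Valuation.ne_zero_iff _).2 hx
  have hvπ : v.valuation K π ≠ 0 := (Valuation.ne_zero_iff _).2 hπ0
  obtain ⟨k, hk⟩ : ∃ k : ℤ, (Valued.v x : WithZero (Multiplicative ℤ)) = WithZero.exp k :=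
    ⟨_, (WithZero.exp_log hvx).symm⟩
  obtain ⟨w, hw⟩ : ∃ w : ℤ, v.valuation K π = WithZero.exp w := ⟨_, (WithZero.exp_log hvπ).symm⟩
  have hwℓ : ¬ (ℓ : ℤ) ∣ w := by
    rintro ⟨t, rfl⟩
    refine hπ ⟨WithZero.exp t, ?_⟩
    rw [hw, ← WithZero.exp_nsmul]
    simp
  haveI := Fact.mk hp
  -- choose the exponent
  obtain ⟨r, hr⟩ : ∃ r : ℕ, (ℓ : ℤ) ∣ k - w * r := by
    have hw0 : (w : ZMod ℓ) ≠ 0 := fun h => hwℓ ((ZMod.intCast_zmod_eq_zero_iff_dvd _ _).1 h)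
    refine ⟨((k : ZMod ℓ) * (w : ZMod ℓ)⁻¹).val, ?_⟩
    rw [← ZMod.intCast_zmod_eq_zero_iff_dvd]
    push_cast
    rw [ZMod.natCast_val, ZMod.cast_id', id]
    rw [mul_comm (k : ZMod ℓ), mul_inv_cancel_left₀ hw0, sub_self]
  obtain ⟨s, hs⟩ := hr
  obtain ⟨ϖ, hϖ⟩ := v.valuation_exists_uniformizer K
  have hϖ0 : ϖ ≠ 0 := by
    rintro rfl
    rw [map_zero] at hϖ
    exact WithZero.exp_ne_zero hϖ.symm
  refine ⟨r, S.nrm (algebraMap _ Ω (algebraMap K (v.adicCompletion K) (ϖ ^ (-s)))),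
    ⟨_, (_root_.map_ne_zero _).2 (zpow_ne_zero _ hϖ0), rfl⟩, ?_⟩
  set y : v.adicCompletion K := algebraMap K (v.adicCompletion K) (ϖ ^ (-s)) with hy
  have e : S.nrm (algebraMap K Ω π) ^ r * S.nrm (algebraMap (v.adicCompletion K) Ω y) ^ ℓ =
      S.nrm (algebraMap (v.adicCompletion K) Ω (algebraMap K (v.adicCompletion K) π ^ r * y ^ ℓ)) := by
    rw [IsScalarTower.algebraMap_apply K (v.adicCompletion K) Ω]
    simp only [map_mul, map_pow]
  rw [e, hS.eq_iff, hk, map_mul, map_pow, map_pow, hy, val_coe, val_coe,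
    map_zpow₀, hϖ, hw, ← WithZero.exp_zsmul, ← WithZero.exp_nsmul, ← WithZero.exp_nsmul,
    ← WithZero.exp_add]
  congr 1
  simp only [nsmul_eq_mul, smul_eq_mul]
  linarith

end

namespace Dat

variable {ℓ n : ℕ} {K : Type} [Field K] (D : Dat ℓ n K)
variable {L : Type} [Field L] [Algebra K L]

/-- Kummer data of a cocycle with values in the kernel of `1 - s` -/
structure KD (χ : (L ≃ₐ[K] L) → Fin n → ℕ) where
  θ : Fin n → Fin n → L
  d : Fin n → Fin n → K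
  h0 : ∀ i j, θ i j ≠ 0
  hθ : ∀ (σ : L ≃ₐ[K] L) i j, (D.base L).ζ ^ χ σ j * σ (θ i j) = (D.base L).ζ ^ χ σ i * θ i j
  hd : ∀ i j, θ i j ^ ℓ = algebraMap K L (d i j)

theorem exists_KD [IsGalois K L] {χ : (L ≃ₐ[K] L) → Fin n → ℕ}
    (hc : D.Coc (fun σ => cl ((D.base L).PT (χ σ)))) : Nonempty (D.KD χ) := by
  obtain ⟨hlc, hmul⟩ := hc
  replace hmul : ∀ σ τ, cl ((D.base L).PT (χ (σ * τ))) =
      cl ((D.base L).PT (χ σ)) * cl ((D.base L).PT (χ τ)) := by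
    intro σ τ
    rw [← D.mC_PT (au σ) (χ τ)]
    exact hmul σ τ
  set ζ := (D.base L).ζ with hζdef
  have hζ0 : ζ ≠ 0 := (D.base L).ζ_ne
  have hζ1 : ζ ^ ℓ = 1 := (D.base L).hζ.pow_eq_one
  have hfix : ∀ (σ : L ≃ₐ[K] L) (k : ℕ), σ (ζ ^ k) = ζ ^ k := fun σ k => by
    rw [map_pow]; congr 1; exact σ.commutes _
  -- the characters
  have hex : ∀ i j, ∃ θ : L, θ ≠ 0 ∧ ∀ σ : L ≃ₐ[K] L, σ θ = ζ ^ (χ σ i + (ℓ - 1) * χ σ j) * θ := by
    intro i j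
    have hval : ∀ m m' : Fin n → ℕ, cl ((D.base L).PT m) = cl ((D.base L).PT m') →
        ζ ^ (m i + (ℓ - 1) * m j) = ζ ^ (m' i + (ℓ - 1) * m' j) := by
      intro m m' h
      apply (D.base L).ζ_pow_of_modEq
      have h1 := (D.base L).PT_indep h i j
      -- m i + m' j ≡ m j + m' i
      have hℓ : 1 ≤ ℓ := D.pos
      have h2 : (m i + (ℓ - 1) * m j) + (m j + m' j) ≡ (m' i + (ℓ - 1) * m' j) + (m j + m' j)
          [MOD ℓ] := by
        have e1 : (m i + (ℓ - 1) * m j) + (m j + m' j) = (m i + m' j) + ℓ * m j := by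
          obtain ⟨k, rfl⟩ : ∃ k, ℓ = k + 1 := ⟨ℓ - 1, by omega⟩
          rw [Nat.add_sub_cancel]; ring
        have e2 : (m' i + (ℓ - 1) * m' j) + (m j + m' j) = (m j + m' i) + ℓ * m' j := by
          obtain ⟨k, rfl⟩ : ∃ k, ℓ = k + 1 := ⟨ℓ - 1, by omega⟩
          rw [Nat.add_sub_cancel]; ring
        rw [e1, e2]
        have e3 : ∀ a b : ℕ, a + ℓ * b ≡ a [MOD ℓ] := fun a b => by
          simp [Nat.ModEq]
        exact ((e3 _ _).trans h1).trans (e3 _ _).symm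
      exact Nat.ModEq.add_right_cancel' _ h2
    classical
    let g : ClassGroup (D.base L).A → L := fun c =>
      if h : ∃ m, c = cl ((D.base L).PT m) then ζ ^ (h.choose i + (ℓ - 1) * h.choose j) else 1
    have hg : ∀ m, g (cl ((D.base L).PT m)) = ζ ^ (m i + (ℓ - 1) * m j) := by
      intro m
      have h : ∃ m', cl ((D.base L).PT m) = cl ((D.base L).PT m') := ⟨m, rfl⟩
      have h1 : g (cl ((D.base L).PT m)) = ζ ^ (h.choose i + (ℓ - 1) * h.choose j) := dif_pos h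
      rw [h1]
      exact hval _ _ h.choose_spec.symm
    have hlc' : IsLocallyConstant (fun σ : L ≃ₐ[K] L => ζ ^ (χ σ i + (ℓ - 1) * χ σ j)) := by
      have := hlc.comp g
      convert this using 2 with σ
      exact (hg _).symm
    have hmulψ : ∀ σ τ : L ≃ₐ[K] L, ζ ^ (χ (σ * τ) i + (ℓ - 1) * χ (σ * τ) j) =
        ζ ^ (χ σ i + (ℓ - 1) * χ σ j) * ζ ^ (χ τ i + (ℓ - 1) * χ τ j) := by
      intro σ τ
      have hPT : cl ((D.base L).PT (χ σ)) * cl ((D.base L).PT (χ τ)) =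
          cl ((D.base L).PT (χ σ + χ τ)) := by
        rw [cl_PT, cl_PT, cl_PT]
        simp only [Pi.add_apply, pow_add, Finset.prod_mul_distrib]
      have h1 := hval _ _ ((hmul σ τ).trans hPT)
      rw [h1, ← pow_add]
      congr 1
      simp only [Pi.add_apply]
      ring
    obtain ⟨θ, hθ0, hθ⟩ := kummer (ζ := D.ζ) D.hp (D.base L).hne (D.base L).hζ
      (fun σ : L ≃ₐ[K] L => ζ ^ (χ σ i + (ℓ - 1) * χ σ j)) (fun σ => ⟨_, rfl⟩) hmulψ hlc'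
    exact ⟨θ, hθ0, hθ⟩
  choose θ hθ0 hθ using hex
  have hθ' : ∀ (σ : L ≃ₐ[K] L) i j, ζ ^ χ σ j * σ (θ i j) = ζ ^ χ σ i * θ i j := by
    intro σ i j
    rw [hθ, pow_add]
    have h1 : ζ ^ χ σ j * ζ ^ ((ℓ - 1) * χ σ j) = 1 := by
      rw [← pow_add]
      have : χ σ j + (ℓ - 1) * χ σ j = ℓ * χ σ j := by
        have := D.pos
        obtain ⟨k, rfl⟩ : ∃ k, ℓ = k + 1 := ⟨ℓ - 1, (Nat.sub_add_cancel this).symm⟩
        rw [Nat.add_sub_cancel]; ring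
      rw [this, pow_mul, hζ1, one_pow]
    calc ζ ^ χ σ j * (ζ ^ χ σ i * ζ ^ ((ℓ - 1) * χ σ j) * θ i j) =
        (ζ ^ χ σ j * ζ ^ ((ℓ - 1) * χ σ j)) * (ζ ^ χ σ i * θ i j) := by ring
      _ = _ := by rw [h1, one_mul]
  have hd : ∀ i j, ∃ d : K, algebraMap K L d = θ i j ^ ℓ := by
    intro i j
    refine exists_F (F := K) fun σ => ?_
    rw [map_pow, hθ, mul_pow, ← pow_mul, mul_comm _ ℓ, pow_mul, hζ1, one_pow, one_mul]
  choose d hd using hd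
  exact ⟨⟨θ, d, hθ0, hθ', fun i j => (hd i j).symm⟩⟩

end Dat

end Pool.Agent.Y713.SE
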