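import Pool.Agent.Y713.SE.Glo

/-! Consequences of local triviality at the three types of places. -/

set_option autoImplicit false
set_option linter.all false

open Polynomial IsDedekindDomain

namespace Pool.Agent.Y713.SE

namespace Dat

variable {ℓ n : ℕ} {K : Type} [Field K] (D : Dat ℓ n K)
variable {L : Type} [Field L] [Algebra K L] [IsGalois K L]

section gen
variable {F Ω : Type} [Field F] [Algebra K F] [Field Ω] [Algebra K Ω] [Algebra F Ω]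
  [IsScalarTower K F Ω]

/-- passing to the place -/
theorem transfer {χ χ' : (L ≃ₐ[K] L) → Fin n → ℕ} {ι : L →ₐ[K] Ω} {P : ClassGroup (D.base Ω).A}
    (hP : ∀ (τ : Ω ≃ₐ[F] Ω) (σ : L ≃ₐ[K] L), (∀ x : L, τ (ι x) = ι (σ x)) →
      D.mC ι (cl ((D.base L).PT (χ σ))) = D.mC (rs K τ) P / P)
    {Q : ClassGroup (D.base L).A}
    (hχ' : ∀ σ, cl ((D.base L).PT (χ' σ)) = cl ((D.base L).PT (χ σ)) / (D.mC (au σ) Q / Q))
    (kd : D.KD χ') :
    ∃ χv : (Ω ≃ₐ[F] Ω) → Fin n → ℕ,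
      (∀ τ, D.mC (rs K τ) (P / D.mC ι Q) = (P / D.mC ι Q) * cl ((D.base Ω).PT (χv τ))) ∧
      ∀ (τ : Ω ≃ₐ[F] Ω) i j, (D.base Ω).ζ ^ χv τ j * τ (ι (kd.θ i j)) =
        (D.base Ω).ζ ^ χv τ i * ι (kd.θ i j) := by
  have hex : ∀ τ : Ω ≃ₐ[F] Ω, ∃ σ : L ≃ₐ[K] L, ∀ x, τ (ι x) = ι (σ x) := fun τ =>
    exists_restr ι (τ.restrictScalars K)
  choose ρ hρ using hex
  refine ⟨fun τ => χ' (ρ τ), fun τ => ?_, fun τ i j => ?_⟩
  · have h1 := hP τ (ρ τ) (hρ τ)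
    have h2 : (rs K τ).comp ι = ι.comp (au (ρ τ)) := AlgHom.ext (hρ τ)
    rw [← D.mC_PT ι, hχ', _root_.map_div, _root_.map_div (D.mC ι), _root_.map_div (D.mC ι), h1,
      mC_mC, mC_mC, h2]
    generalize D.mC (ι.comp (au (ρ τ))) Q = a
    generalize D.mC (rs K τ) P = b
    generalize D.mC ι Q = d
    rw [div_div_div_comm, mul_comm, div_mul_cancel]
  · have hζ : ∀ k : ℕ, (D.base Ω).ζ ^ k = ι ((D.base L).ζ ^ k) := fun k => by
      rw [map_pow]; congr 1; exact (ι.commutes _).symm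
    rw [hρ, hζ, hζ, ← map_mul, ← map_mul, kd.hθ]

theorem transfer' {χ : (L ≃ₐ[K] L) → Fin n → ℕ} {ι : L →ₐ[K] Ω} {P : ClassGroup (D.base Ω).A}
    (hP : ∀ (τ : Ω ≃ₐ[F] Ω) (σ : L ≃ₐ[K] L), (∀ x : L, τ (ι x) = ι (σ x)) →
      D.mC ι (cl ((D.base L).PT (χ σ))) = D.mC (rs K τ) P / P) :
    ∃ χv : (Ω ≃ₐ[F] Ω) → Fin n → ℕ,
      (∀ τ, D.mC (rs K τ) P = P * cl ((D.base Ω).PT (χv τ))) ∧ True := by
  have hex : ∀ τ : Ω ≃ₐ[F] Ω, ∃ σ : L ≃ₐ[K] L, ∀ x, τ (ι x) = ι (σ x) := fun τ =>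
    exists_restr ι (τ.restrictScalars K)
  choose ρ hρ using hex
  refine ⟨fun τ => χ (ρ τ), fun τ => ?_, trivial⟩
  have h1 := hP τ (ρ τ) (hρ τ)
  rw [← D.mC_PT ι, h1, mul_comm, div_mul_cancel]

/-- the invariant ideal -/
theorem exists_B {χv : (Ω ≃ₐ[F] Ω) → Fin n → ℕ} {P : ClassGroup (D.base Ω).A}
    (hP : ∀ τ, D.mC (rs K τ) P = P * cl ((D.base Ω).PT (χv τ))) :
    ∃ B : Ideal (D.base Ω).A, B ≠ ⊥ ∧ (∀ τ : Ω ≃ₐ[F] Ω, D.mI (rs K τ) B = B) ∧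
      cl B * (D.base Ω).sC P = P := by
  obtain ⟨B, hB, hBc, hcan⟩ := D.exists_can (P / (D.base Ω).sC P)
  refine ⟨B, hB, fun τ => ?_, by rw [hBc, div_mul_cancel]⟩
  rw [← rs_coe]
  apply hcan
  rw [rs_coe, _root_.map_div, mC_sC, hP, map_mul, sC_cl _ ((D.base Ω).PT_ne _), sI_PT,
    mul_div_mul_right_eq_div]

/-- the Kummer generators have norms in the value group -/
theorem gam_of [IsGalois F Ω] (S : LS ℓ F Ω) {χv : (Ω ≃ₐ[F] Ω) → Fin n → ℕ}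
    {P : ClassGroup (D.base Ω).A}
    (hP : ∀ τ, D.mC (rs K τ) P = P * cl ((D.base Ω).PT (χv τ)))
    {i j : Fin n} {θ : Ω} (hθ0 : θ ≠ 0)
    (hθ : ∀ τ : Ω ≃ₐ[F] Ω, (D.base Ω).ζ ^ χv τ j * τ θ = (D.base Ω).ζ ^ χv τ i * θ)
    {B : Ideal (D.base Ω).A} (hB : B ≠ ⊥) (hinv : ∀ τ : Ω ≃ₐ[F] Ω, D.mI (rs K τ) B = B)
    {m : Fin n → ℕ} (hcl : cl B * (D.base Ω).sC P = cl ((D.base Ω).PT m) * P)
    {μ : ℝ} {g : Fin n → ℝ} (hμ : 0 < μ) (hg : ∀ i, S.Gam (g i))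
    (hL : ∀ i, D.Lam S i B = μ * g i ^ ℓ * D.Lam S i ((D.base Ω).PT m)) :
    S.Gam (S.nrm θ) := by
  obtain ⟨x, hx, h⟩ := D.locA S hP hθ0 hθ hB ((D.base Ω).PT_ne m) hinv
    (fun τ => D.mI_PT _ m) hcl
  have hGx : S.Gam (S.nrm (algebraMap F Ω x)) := ⟨x, hx, rfl⟩
  have h1 : S.nrm θ ^ ℓ = (S.nrm (algebraMap F Ω x) * g j / g i) ^ ℓ := by
    rw [hL, hL] at h
    have hi := D.Lam_ne S i ((D.base Ω).PT m)
    have hj := D.Lam_ne S j ((D.base Ω).PT m)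
    have hgi := pow_ne_zero ℓ (hg i).ne
    rw [div_pow, mul_pow, eq_div_iff hgi]
    apply mul_left_cancel₀ (mul_ne_zero (mul_ne_zero hμ.ne' hi) hj)
    linear_combination h
  have h2 : S.nrm θ = S.nrm (algebraMap F Ω x) * g j / g i := by
    refine (pow_left_inj₀ (S.nrm.nonneg _) ?_ D.pos.ne').1 h1
    exact (((hGx.mul (hg j)).div (hg i)).pos).le
  rw [h2]
  exact (hGx.mul (hg j)).div (hg i)

end gen

section place
variable {R : Type} [CommRing R] [IsDedekindDomain R] [Algebra R K] [IsFractionRing R K]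
variable {v : HeightOneSpectrum R} {Ω : Type} [Field Ω] [Algebra (v.adicCompletion K) Ω]
  [Algebra K Ω] [IsScalarTower K (v.adicCompletion K) Ω] [IsSepClosed Ω]
  [IsGalois (v.adicCompletion K) Ω]

lemma e_sub (i j : Fin n) : (D.base Ω).e i - (D.base Ω).e j = algebraMap K Ω (D.e i - D.e j) := by
  rw [map_sub]; rfl

/-- hypothesis of good reduction up to twist -/
def Sep1 (v : HeightOneSpectrum R) : Prop := ∀ i j, i ≠ j → v.valuation K (D.e i - D.e j) = 1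

lemma Lam_PT_sep1 {S : LS ℓ (v.adicCompletion K) Ω} (hS : Cpt S) (h : D.Sep1 v) (i : Fin n)
    (m : Fin n → ℕ) : D.Lam S i ((D.base Ω).PT m) = (S.nrm (D.base Ω).δ)⁻¹ ^ m i := by
  have hone : ∀ i j, i ≠ j → S.nrm ((D.base Ω).e i - (D.base Ω).e j) = 1 := fun i j hij => by
    rw [D.e_sub]
    exact hS.one (h i j hij)
  rw [Lam_PT, Finset.prod_eq_single i]
  · congr 1
    rw [Lam_PP_self, nrm_ge, Finset.prod_eq_one, mul_one]
    intro j hj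
    exact hone i j (Finset.ne_of_mem_erase hj).symm
  · intro k _ hk
    rw [D.Lam_PP_ne S hk.symm, hone i k hk.symm, one_pow]
  · intro h; exact absurd (Finset.mem_univ _) h

/-- good places -/
theorem good_place {p : ℕ} [ExpChar Ω p] (hv : D.Sep1 v) (hδ : v.valuation K D.δ = 1)
    (hℓ : v.valuation K (ℓ : K) = 1) {χ : (L ≃ₐ[K] L) → Fin n → ℕ}
    (ht : D.Triv (v.adicCompletion K) Ω (fun σ => cl ((D.base L).PT (χ σ))))
    (kd : D.KD χ) (i j : Fin n) : Pw ℓ (v.valuation K (kd.d i j)) := by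
  obtain ⟨S, hS⟩ := exists_LSv v ℓ Ω hℓ
  replace hS : Cpt S := hS
  obtain ⟨ι, P, hP⟩ := ht
  obtain ⟨χv, h1, h2⟩ := D.transfer (Q := 1) (χ' := χ) hP
    (fun σ => by rw [map_one, div_one, div_one]) kd
  rw [map_one, div_one] at h1
  obtain ⟨B, hB, hBinv, hBc⟩ := D.exists_B h1
  have hone : ∀ i j, i ≠ j → S.nrm ((D.base Ω).e i - (D.base Ω).e j) = 1 := fun i j hij => by
    rw [D.e_sub]
    exact hS.one (hv i j hij)
  have hδ' : S.nrm (D.base Ω).δ = 1 := hS.one hδ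
  obtain ⟨μ, g, m, hμ, hg, hL⟩ := D.tame1 S (p := p) hone hB hBinv
  have hL' : ∀ i, D.Lam S i B = μ * g i ^ ℓ * D.Lam S i ((D.base Ω).PT (fun _ => 0)) := by
    intro i
    rw [hL, D.Lam_PT_sep1 hS hv, D.Lam_PT_sep1 hS hv, hδ']; simp
  have hcl : cl B * (D.base Ω).sC P = cl ((D.base Ω).PT (fun _ => 0)) * P := by
    rw [hBc, cl_PT]; simp
  have hθ0 : ι (kd.θ i j) ≠ 0 := (_root_.map_ne_zero _).2 (kd.h0 i j)
  obtain ⟨x, hx, hxθ⟩ := D.gam_of S h1 hθ0 (fun τ => h2 τ i j) hB hBinv hcl hμ hg hL'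
  have h3 : S.nrm (algebraMap (v.adicCompletion K) Ω (algebraMap K (v.adicCompletion K) (kd.d i j))) =
      S.nrm (algebraMap (v.adicCompletion K) Ω x) ^ ℓ := by
    rw [hxθ, ← map_pow, ← map_pow, kd.hd, AlgHom.commutes, ← IsScalarTower.algebraMap_apply]
  exact hS.pw rfl h3

omit [IsGalois K L] [IsSepClosed Ω] in
/-- the adjusted class at a place -/
theorem adj_eq {ι : L →ₐ[K] Ω} {P : ClassGroup (D.base Ω).A}
    {Q : ClassGroup (D.base L).A} {m : Fin n → ℕ}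
    (hQ : cl ((D.base L).PT m) * (D.base L).sC Q = Q) {B : Ideal (D.base Ω).A}
    (hBc : cl B * (D.base Ω).sC P = P) :
    cl B * (D.base Ω).sC (P / D.mC ι Q) = cl ((D.base Ω).PT m) * (P / D.mC ι Q) := by
  have h1 : cl ((D.base Ω).PT m) * (D.base Ω).sC (D.mC ι Q) = D.mC ι Q := by
    rw [← mC_sC, ← D.mC_PT ι, ← map_mul, hQ]
  rw [_root_.map_div]
  generalize (D.base Ω).sC (D.mC ι Q) = sq at *
  generalize D.mC ι Q = q at *
  generalize (D.base Ω).sC P = sp at *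
  generalize cl ((D.base Ω).PT m) = t at *
  generalize cl B = b at *
  rw [← h1, ← hBc, ← mul_div_assoc, ← mul_div_assoc, mul_div_mul_left_eq_div]

/-- twist places -/
theorem twist_place {p : ℕ} [ExpChar Ω p] (hv : D.Sep1 v) (hδ : ¬ Pw ℓ (v.valuation K D.δ))
    (hℓ : v.valuation K (ℓ : K) = 1) {χ : (L ≃ₐ[K] L) → Fin n → ℕ}
    (ht : D.Triv (v.adicCompletion K) Ω (fun σ => cl ((D.base L).PT (χ σ)))) :
    ∃ m : Fin n → ℕ, ∀ (Q : ClassGroup (D.base L).A) (χ' : (L ≃ₐ[K] L) → Fin n → ℕ) (kd : D.KD χ'),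
      cl ((D.base L).PT m) * (D.base L).sC Q = Q →
      (∀ σ, cl ((D.base L).PT (χ' σ)) = cl ((D.base L).PT (χ σ)) / (D.mC (au σ) Q / Q)) →
      ∀ i j, ∃ x : v.adicCompletion K, algebraMap K (v.adicCompletion K) (kd.d i j) = x ^ ℓ := by
  obtain ⟨S, hS⟩ := exists_LSv v ℓ Ω hℓ
  replace hS : Cpt S := hS
  obtain ⟨ι, P, hP⟩ := ht
  have hone : ∀ i j, i ≠ j → S.nrm ((D.base Ω).e i - (D.base Ω).e j) = 1 := fun i j hij => by
    rw [D.e_sub]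
    exact hS.one (hv i j hij)
  obtain ⟨χ0, h10, -⟩ := D.transfer' (χ := χ) hP
  obtain ⟨B, hB, hBinv, hBc⟩ := D.exists_B h10
  obtain ⟨μ, g, m, hμ, hg, hL⟩ := D.tame1 S (p := p) hone hB hBinv
  refine ⟨m, fun Q χ' kd hQ hχ' => ?_⟩
  obtain ⟨χv, h1, h2⟩ := D.transfer hP hχ' kd
  have hcl := D.adj_eq (ι := ι) hQ hBc
  have hθ0 : ∀ i j, ι (kd.θ i j) ≠ 0 := fun i j => (_root_.map_ne_zero _).2 (kd.h0 i j)
  have hG : ∀ i j, S.Gam (S.nrm (ι (kd.θ i j))) := fun i j =>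
    D.gam_of S h1 (hθ0 i j) (fun τ => h2 τ i j) hB hBinv hcl hμ hg hL
  have hδ0 : S.nrm (D.base Ω).δ ≠ 0 := S.nrm.ne_zero (D.base Ω).hδ
  have hvδ0 : v.valuation K D.δ ≠ 0 := (Valuation.ne_zero_iff _).2 D.hδ
  have hmod : ∀ τ i j, χv τ i ≡ χv τ j [MOD ℓ] := by
    intro τ i j
    obtain ⟨x, hx, hxx⟩ := D.locB S h1 hθ0 h2 hG τ i j
    rw [D.Lam_PT_sep1 hS hv, D.Lam_PT_sep1 hS hv] at hxx
    -- `δ ^ (a) = x ^ ℓ δ ^ b`
    have h3 : S.nrm (D.base Ω).δ ^ χv τ i =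
        S.nrm (algebraMap (v.adicCompletion K) Ω x) ^ ℓ * S.nrm (D.base Ω).δ ^ χv τ j := by
      rw [inv_pow, inv_pow] at hxx
      have e1 := pow_ne_zero (χv τ i) hδ0
      have e2 := pow_ne_zero (χv τ j) hδ0
      field_simp at hxx
      linear_combination hxx
    have h4 : (v.valuation K D.δ) ^ χv τ i =
        (Valued.v x : WithZero (Multiplicative ℤ)) ^ ℓ * (v.valuation K D.δ) ^ χv τ j := by
      have h5 : S.nrm (algebraMap (v.adicCompletion K) Ω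
          ((algebraMap K (v.adicCompletion K) D.δ) ^ χv τ i)) =
          S.nrm (algebraMap (v.adicCompletion K) Ω
          (x ^ ℓ * (algebraMap K (v.adicCompletion K) D.δ) ^ χv τ j)) := by
        simp only [map_pow, map_mul, ← IsScalarTower.algebraMap_apply]
        exact h3
      rw [hS.eq_iff, map_pow, map_mul, map_pow, map_pow, val_coe] at h5
      exact h5
    by_contra hne
    apply hδ
    have hℓ1 := D.hp.one_lt
    have hcop : Nat.Coprime (χv τ i + (ℓ - 1) * χv τ j) ℓ := by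
      rw [Nat.coprime_comm, Nat.Prime.coprime_iff_not_dvd D.hp]
      intro hdvd
      apply hne
      have e1 : χv τ i + (ℓ - 1) * χv τ j + χv τ j = χv τ i + ℓ * χv τ j := by
        obtain ⟨k, hk⟩ : ∃ k, ℓ = k + 1 := ⟨ℓ - 1, by omega⟩
        rw [hk, Nat.add_sub_cancel]; ring
      have e2 : χv τ i + ℓ * χv τ j ≡ χv τ i [MOD ℓ] := by simp [Nat.ModEq]
      have e3 : χv τ i + (ℓ - 1) * χv τ j + χv τ j ≡ 0 + χv τ j [MOD ℓ] :=
        Nat.ModEq.add_right _ ((Nat.modEq_zero_iff_dvd).2 hdvd)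
      rw [e1, zero_add] at e3
      exact e2.symm.trans e3
    refine Pw.of_pow hcop hℓ1 hvδ0 ?_
    rw [pow_add, h4, mul_assoc, ← pow_add]
    have e1 : χv τ j + (ℓ - 1) * χv τ j = χv τ j * ℓ := by
      obtain ⟨k, hk⟩ : ∃ k, ℓ = k + 1 := ⟨ℓ - 1, by omega⟩
      rw [hk, Nat.add_sub_cancel]; ring
    rw [e1, pow_mul]
    exact (Pw.pow _).mul (Pw.pow _)
  intro i j
  have hfix : ∀ τ : Ω ≃ₐ[v.adicCompletion K] Ω, τ (ι (kd.θ i j)) = ι (kd.θ i j) := by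
    intro τ
    have h3 := h2 τ i j
    rw [(D.base Ω).ζ_pow_of_modEq (hmod τ i j)] at h3
    exact mul_left_cancel₀ (pow_ne_zero _ (D.base Ω).ζ_ne) h3
  obtain ⟨x, hx⟩ := exists_F hfix
  refine ⟨x, ?_⟩
  apply (algebraMap (v.adicCompletion K) Ω).injective
  rw [map_pow, hx, ← map_pow, kd.hd, AlgHom.commutes, ← IsScalarTower.algebraMap_apply]

/-- collision places -/
theorem coll_place {p : ℕ} [ExpChar Ω p] {a0 b0 c0 : Fin n}
    (hab : a0 ≠ b0) (hca : c0 ≠ a0) (hcb : c0 ≠ b0)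
    (hv : ∀ i j, i ≠ j → ¬ (i = a0 ∧ j = b0) → ¬ (i = b0 ∧ j = a0) →
      v.valuation K (D.e i - D.e j) = 1)
    (hπ1 : v.valuation K (D.e a0 - D.e b0) < 1)
    (hπ : ¬ Pw ℓ (v.valuation K (D.e a0 - D.e b0)))
    (hδ : v.valuation K D.δ = 1)
    (hℓ : v.valuation K (ℓ : K) = 1) {χ : (L ≃ₐ[K] L) → Fin n → ℕ}
    (ht : D.Triv (v.adicCompletion K) Ω (fun σ => cl ((D.base L).PT (χ σ)))) :
    ∃ r : ℕ, ∀ (m : Fin n → ℕ) (Q : ClassGroup (D.base L).A) (χ' : (L ≃ₐ[K] L) → Fin n → ℕ)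
      (kd : D.KD χ'), m b0 = r → m a0 = 0 → cl ((D.base L).PT m) * (D.base L).sC Q = Q →
      (∀ σ, cl ((D.base L).PT (χ' σ)) = cl ((D.base L).PT (χ σ)) / (D.mC (au σ) Q / Q)) →
      (∀ i j, Pw ℓ (v.valuation K (kd.d i j))) ∧
      ∃ x : v.adicCompletion K, algebraMap K (v.adicCompletion K) (kd.d a0 b0) = x ^ ℓ := by
  obtain ⟨S, hS⟩ := exists_LSv v ℓ Ω hℓ
  replace hS : Cpt S := hS
  obtain ⟨ι, P, hP⟩ := ht
  have hone : ∀ i j, i ≠ j → ¬ (i = a0 ∧ j = b0) → ¬ (i = b0 ∧ j = a0) →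
      S.nrm ((D.base Ω).e i - (D.base Ω).e j) = 1 := fun i j hij h1 h2 => by
    rw [D.e_sub]
    exact hS.one (hv i j hij h1 h2)
  have hδ' : S.nrm (D.base Ω).δ = 1 := hS.one hδ
  have hπ1' : S.nrm ((D.base Ω).e a0 - (D.base Ω).e b0) < 1 := by
    rw [D.e_sub]; exact hS.lt hπ1
  have hπK : D.e a0 - D.e b0 ≠ 0 := sub_ne_zero.2 fun h => hab (D.he h)
  obtain ⟨χ0, h10, -⟩ := D.transfer' (χ := χ) hP
  obtain ⟨B, hB, hBinv, hBc⟩ := D.exists_B h10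
  obtain ⟨μ, g, r, hμ, hg, hL⟩ := D.tame2 S (p := p) hab hca hcb hone hπ1' hδ'
    (fun γ hγ => by
      rw [D.e_sub]
      exact hS.gen D.hp hπK hπ γ hγ) hB hBinv
  refine ⟨r, fun m Q χ' kd hmb hma hQ hχ' => ?_⟩
  obtain ⟨χv, h1, h2⟩ := D.transfer hP hχ' kd
  have hcl := D.adj_eq (ι := ι) hQ hBc
  -- norms of the branch points
  set π := S.nrm ((D.base Ω).e a0 - (D.base Ω).e b0) with hπdef
  have hπ0 : 0 < π := S.nrm.pos (sub_ne_zero.2 fun h => hab ((D.base Ω).he h))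
  have hge : ∀ i, i ≠ a0 → i ≠ b0 → S.nrm ((D.base Ω).ge i) = 1 := by
    intro i h1 h2
    rw [nrm_ge, hδ', one_mul]
    refine Finset.prod_eq_one fun j hj => ?_
    exact hone i j (Finset.ne_of_mem_erase hj).symm (fun h => h1 h.1) (fun h => h2 h.1)
  have hk1 : ∀ k, k ≠ a0 → k ≠ b0 → ∀ i, D.Lam S i ((D.base Ω).PP k) = 1 := by
    intro k h1 h2 i
    by_cases hik : i = k
    · subst hik
      rw [Lam_PP_self, hge i h1 h2, inv_one]
    · rw [D.Lam_PP_ne S hik]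
      exact hone i k hik (fun h => h2 h.2) (fun h => h1 h.2)
  have hgea : S.nrm ((D.base Ω).ge a0) = π := by
    rw [nrm_ge, hδ', one_mul, Finset.prod_eq_single b0]
    · intro j hj hjb
      exact hone a0 j (Finset.ne_of_mem_erase hj).symm (fun h => hjb h.2) (fun h => hab h.1)
    · intro h
      exact absurd (Finset.mem_erase.2 ⟨hab.symm, Finset.mem_univ _⟩) h
  have hPTab : ∀ (i : Fin n) (m : Fin n → ℕ), D.Lam S i ((D.base Ω).PT m) =
      D.Lam S i ((D.base Ω).PP a0) ^ m a0 * D.Lam S i ((D.base Ω).PP b0) ^ m b0 := by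
    intro i m
    rw [Lam_PT, ← Finset.mul_prod_erase Finset.univ _ (Finset.mem_univ a0),
      ← Finset.mul_prod_erase _ _ (Finset.mem_erase.2 ⟨hab.symm, Finset.mem_univ b0⟩),
      Finset.prod_eq_one, mul_one]
    intro k hk
    rw [hk1 k (Finset.ne_of_mem_erase (Finset.mem_of_mem_erase hk)) (Finset.ne_of_mem_erase hk) i,
      one_pow]
  have hL' : ∀ i, D.Lam S i B = μ * g i ^ ℓ * D.Lam S i ((D.base Ω).PT m) := by
    intro i
    rw [hL, hPTab, hmb, hma, pow_zero, one_mul]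
  have hθ0 : ∀ i j, ι (kd.θ i j) ≠ 0 := fun i j => (_root_.map_ne_zero _).2 (kd.h0 i j)
  have hG : ∀ i j, S.Gam (S.nrm (ι (kd.θ i j))) := fun i j =>
    D.gam_of S h1 (hθ0 i j) (fun τ => h2 τ i j) hB hBinv hcl hμ hg hL'
  have hmod : ∀ τ, χv τ a0 ≡ χv τ b0 [MOD ℓ] := by
    intro τ
    obtain ⟨x, hx, hxx⟩ := D.locB S h1 hθ0 h2 hG τ c0 a0
    have hca' : D.Lam S c0 ((D.base Ω).PP a0) = 1 := by
      rw [D.Lam_PP_ne S hca]
      exact hone c0 a0 hca (fun h => hca h.1) (fun h => hcb h.1)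
    have hcb' : D.Lam S c0 ((D.base Ω).PP b0) = 1 := by
      rw [D.Lam_PP_ne S hcb]
      exact hone c0 b0 hcb (fun h => hca h.1) (fun h => hcb h.1)
    have haa' : D.Lam S a0 ((D.base Ω).PP a0) = π⁻¹ := by rw [Lam_PP_self, hgea]
    have hab' : D.Lam S a0 ((D.base Ω).PP b0) = π := D.Lam_PP_ne S hab
    rw [hPTab, hPTab, hca', hcb', haa', hab', one_pow, one_pow, one_mul, mul_one, inv_pow] at hxx
    have h3 : π ^ χv τ b0 = S.nrm (algebraMap (v.adicCompletion K) Ω x) ^ ℓ * π ^ χv τ a0 := by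
      have e1 := pow_ne_zero (χv τ a0) hπ0.ne'
      rw [inv_mul_eq_iff_eq_mul₀ e1] at hxx
      rw [hxx]; ring
    have h4 : (v.valuation K (D.e a0 - D.e b0)) ^ χv τ b0 =
        (Valued.v x : WithZero (Multiplicative ℤ)) ^ ℓ *
          (v.valuation K (D.e a0 - D.e b0)) ^ χv τ a0 := by
      have h5 : S.nrm (algebraMap (v.adicCompletion K) Ω
          ((algebraMap K (v.adicCompletion K) (D.e a0 - D.e b0)) ^ χv τ b0)) =
          S.nrm (algebraMap (v.adicCompletion K) Ω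
          (x ^ ℓ * (algebraMap K (v.adicCompletion K) (D.e a0 - D.e b0)) ^ χv τ a0)) := by
        simp only [map_pow, map_mul, ← IsScalarTower.algebraMap_apply]
        rw [← D.e_sub]
        exact h3
      rw [hS.eq_iff, map_pow, map_mul, map_pow, map_pow, val_coe] at h5
      exact h5
    have hvπ0 : v.valuation K (D.e a0 - D.e b0) ≠ 0 := (Valuation.ne_zero_iff _).2 hπK
    by_contra hne
    apply hπ
    have hℓ1 := D.hp.one_lt
    have hcop : Nat.Coprime (χv τ b0 + (ℓ - 1) * χv τ a0) ℓ := by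
      rw [Nat.coprime_comm, Nat.Prime.coprime_iff_not_dvd D.hp]
      intro hdvd
      apply hne
      have e1 : χv τ b0 + (ℓ - 1) * χv τ a0 + χv τ a0 = χv τ b0 + ℓ * χv τ a0 := by
        obtain ⟨k, hk⟩ : ∃ k, ℓ = k + 1 := ⟨ℓ - 1, by omega⟩
        rw [hk, Nat.add_sub_cancel]; ring
      have e2 : χv τ b0 + ℓ * χv τ a0 ≡ χv τ b0 [MOD ℓ] := by simp [Nat.ModEq]
      have e3 : χv τ b0 + (ℓ - 1) * χv τ a0 + χv τ a0 ≡ 0 + χv τ a0 [MOD ℓ] :=
        Nat.ModEq.add_right _ ((Nat.modEq_zero_iff_dvd).2 hdvd)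
      rw [e1, zero_add] at e3
      exact e3.symm.trans e2
    refine Pw.of_pow hcop hℓ1 hvπ0 ?_
    rw [pow_add, h4, mul_assoc, ← pow_add]
    have e1 : χv τ a0 + (ℓ - 1) * χv τ a0 = χv τ a0 * ℓ := by
      obtain ⟨k, hk⟩ : ∃ k, ℓ = k + 1 := ⟨ℓ - 1, by omega⟩
      rw [hk, Nat.add_sub_cancel]; ring
    rw [e1, pow_mul]
    exact (Pw.pow _).mul (Pw.pow _)
  refine ⟨fun i j => ?_, ?_⟩
  · obtain ⟨x, hx, hxθ⟩ := hG i j
    have h3 : S.nrm (algebraMap (v.adicCompletion K) Ω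
        (algebraMap K (v.adicCompletion K) (kd.d i j))) =
        S.nrm (algebraMap (v.adicCompletion K) Ω x) ^ ℓ := by
      rw [hxθ, ← map_pow, ← map_pow, kd.hd, AlgHom.commutes, ← IsScalarTower.algebraMap_apply]
    exact hS.pw rfl h3
  · have hfix : ∀ τ : Ω ≃ₐ[v.adicCompletion K] Ω, τ (ι (kd.θ a0 b0)) = ι (kd.θ a0 b0) := by
      intro τ
      have h3 := h2 τ a0 b0
      rw [(D.base Ω).ζ_pow_of_modEq (hmod τ)] at h3
      exact mul_left_cancel₀ (pow_ne_zero _ (D.base Ω).ζ_ne) h3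
    obtain ⟨x, hx⟩ := exists_F hfix
    refine ⟨x, ?_⟩
    apply (algebraMap (v.adicCompletion K) Ω).injective
    rw [map_pow, hx, ← map_pow, kd.hd, AlgHom.commutes, ← IsScalarTower.algebraMap_apply]

end place

end Dat

end Pool.Agent.Y713.SE
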