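import Pool.Agent.Y713.SE.Glo2

/-! The two criteria. -/

set_option autoImplicit false
set_option linter.all false

open Polynomial IsDedekindDomain

namespace Pool.Agent.Y713.SE

namespace Dat

variable {ℓ n : ℕ} {K : Type} [Field K] (D : Dat ℓ n K)
variable {L : Type} [Field L] [Algebra K L] [IsGalois K L]

/-- an `ℓ`-th power among the Kummer data gives a relation -/
theorem modEq_of_pow {χ : (L ≃ₐ[K] L) → Fin n → ℕ} (kd : D.KD χ) {i j : Fin n} {y : K}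
    (h : kd.d i j = y ^ ℓ) (σ : L ≃ₐ[K] L) : χ σ i ≡ χ σ j [MOD ℓ] := by
  have h1 : kd.θ i j ^ ℓ = (algebraMap K L y) ^ ℓ := by rw [kd.hd, h, map_pow]
  have hy0 : algebraMap K L y ≠ 0 := by
    intro h0
    rw [h0, zero_pow D.pos.ne'] at h1
    exact kd.h0 i j (pow_eq_zero_iff D.pos.ne' |>.1 h1)
  have h2 : (kd.θ i j / algebraMap K L y) ^ ℓ = 1 := by
    rw [div_pow, h1, div_self (pow_ne_zero _ hy0)]
  haveI : NeZero ℓ := ⟨D.pos.ne'⟩
  obtain ⟨k, -, hk⟩ := (D.base L).hζ.eq_pow_of_pow_eq_one h2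
  have h3 : kd.θ i j = algebraMap K L (D.ζ ^ k * y) := by
    rw [map_mul, map_pow]
    have : algebraMap K L D.ζ = (D.base L).ζ := rfl
    rw [this, hk, div_mul_cancel₀ _ hy0]
  have h4 : σ (kd.θ i j) = kd.θ i j := by rw [h3]; exact σ.commutes _
  have h5 := kd.hθ σ i j
  rw [h4] at h5
  exact ((D.base L).ζ_modEq (mul_right_cancel₀ (kd.h0 i j) h5)).symm

/-- adjusting a cocycle -/
theorem exists_adj [IsSepClosed L] {p : ℕ} [ExpChar L p] (m : Fin n → ℕ)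
    {χ : (L ≃ₐ[K] L) → Fin n → ℕ} (hc : D.Coc (fun σ => cl ((D.base L).PT (χ σ)))) :
    ∃ (Q : ClassGroup (D.base L).A) (χ' : (L ≃ₐ[K] L) → Fin n → ℕ),
      cl ((D.base L).PT m) * (D.base L).sC Q = Q ∧
      (∀ σ, cl ((D.base L).PT (χ' σ)) = cl ((D.base L).PT (χ σ)) / (D.mC (au σ) Q / Q)) ∧
      D.Coc (fun σ => cl ((D.base L).PT (χ' σ))) := by
  obtain ⟨Q, hQ⟩ := (D.base L).phi_surj (p := p) (cl ((D.base L).PT m))
  have hφQ : (D.base L).phi Q = cl ((D.base L).PT m) := by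
    rw [phi_apply, div_eq_iff_eq_mul]
    exact hQ.symm
  have hφT : ∀ m' : Fin n → ℕ, (D.base L).phi (cl ((D.base L).PT m')) = 1 := by
    intro m'
    rw [phi_apply, sC_cl _ ((D.base L).PT_ne _), sI_PT, div_self']
  have h3 : ∀ σ, ∃ m' : Fin n → ℕ, cl ((D.base L).PT (χ σ)) / (D.mC (au σ) Q / Q) =
      cl ((D.base L).PT m') := by
    intro σ
    have h4 : (D.base L).phi (cl ((D.base L).PT (χ σ)) / (D.mC (au σ) Q / Q)) = 1 := by
      rw [_root_.map_div, hφT, _root_.map_div, ← mC_phi, hφQ, D.mC_PT, div_self', div_one]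
    rw [phi_apply, div_eq_one] at h4
    obtain ⟨m', hm⟩ := (D.base L).phi_ker (p := p) h4.symm
    exact ⟨m', by rw [hm, cl_PT]⟩
  choose χ' hχ' using h3
  refine ⟨Q, χ', hQ, fun σ => (hχ' σ).symm, ?_⟩
  have h4 : (fun σ => cl ((D.base L).PT (χ' σ))) =
      fun σ => cl ((D.base L).PT (χ σ)) / (D.mC (au σ) Q / Q) := funext fun σ => (hχ' σ).symm
  rw [h4]
  exact hc.div D Q

section places
variable {R : Type} [CommRing R] [IsDedekindDomain R] [Algebra R K] [IsFractionRing R K]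
variable (Ω : HeightOneSpectrum R → Type) [∀ v, Field (Ω v)]
  [∀ v, Algebra (v.adicCompletion K) (Ω v)] [∀ v, Algebra K (Ω v)]
  [∀ v, IsScalarTower K (v.adicCompletion K) (Ω v)] [∀ v, IsSepClosed (Ω v)]
  [∀ v, IsGalois (v.adicCompletion K) (Ω v)] 

/-- criterion with a twist place -/
theorem crit1 [IsSepClosed L] {p : ℕ} [ExpChar L p] [∀ v, ExpChar (Ω v) p]
    (hℓ : ∀ v : HeightOneSpectrum R, v.valuation K (ℓ : K) = 1)
    (Bad : Set (HeightOneSpectrum R)) (v0 : HeightOneSpectrum R)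
    (h0 : D.Sep1 v0) (hδ0 : ¬ Pw ℓ (v0.valuation K D.δ))
    (hgood : ∀ v, v ∉ Bad → v ≠ v0 → D.Sep1 v ∧ v.valuation K D.δ = 1)
    (stab : ∀ d : K, d ≠ 0 → (∀ v : HeightOneSpectrum R, v ∉ Bad → v ≠ v0 →
      Pw ℓ (v.valuation K d)) → (∃ x : v0.adicCompletion K, algebraMap K _ d = x ^ ℓ) →
        ∃ y : K, d = y ^ ℓ)
    (χ : (L ≃ₐ[K] L) → Fin n → ℕ) (hc : D.Coc (fun σ => cl ((D.base L).PT (χ σ))))
    (ht : ∀ v, D.Triv (v.adicCompletion K) (Ω v) (fun σ => cl ((D.base L).PT (χ σ)))) :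
    D.Cob (fun σ => cl ((D.base L).PT (χ σ))) := by
  obtain ⟨m, hm⟩ := D.twist_place (p := p) h0 hδ0 (hℓ v0) (ht v0)
  obtain ⟨Q, χ', hQ, hχ', hc'⟩ := D.exists_adj (p := p) m hc
  obtain ⟨kd⟩ := D.exists_KD hc'
  have ht' : ∀ v, D.Triv (v.adicCompletion K) (Ω v) (fun σ => cl ((D.base L).PT (χ' σ))) := by
    intro v
    have h4 : (fun σ => cl ((D.base L).PT (χ' σ))) =
      fun σ => cl ((D.base L).PT (χ σ)) / (D.mC (au σ) Q / Q) := funext hχ'
    rw [h4]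
    exact (ht v).div D Q
  have h1 : ∀ i j, ∃ y : K, kd.d i j = y ^ ℓ := by
    intro i j
    have hd0 : kd.d i j ≠ 0 := by
      intro h0
      have := kd.hd i j
      rw [h0, map_zero] at this
      exact kd.h0 i j (pow_eq_zero_iff D.pos.ne' |>.1 this)
    refine stab _ hd0 (fun v hv hv0 => ?_) (hm Q χ' kd hQ hχ' i j)
    exact D.good_place (p := p) (hgood v hv hv0).1 (hgood v hv hv0).2 (hℓ v) (ht' v) kd i j
  refine ⟨Q, fun σ => ?_⟩
  have h2 := hχ' σ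
  rw [(D.base L).cl_PT_of_modEq fun i j => ?_] at h2
  · exact (div_eq_one.1 h2.symm)
  · obtain ⟨y, hy⟩ := h1 i j
    exact D.modEq_of_pow kd hy σ

/-- criterion with collision places -/
theorem crit2 [IsSepClosed L] {p : ℕ} [ExpChar L p] [∀ v, ExpChar (Ω v) p]
    (hℓ : ∀ v : HeightOneSpectrum R, v.valuation K (ℓ : K) = 1)
    (hδ : ∀ v : HeightOneSpectrum R, v.valuation K D.δ = 1)
    (a0 : Fin n) (w : Fin n → HeightOneSpectrum R)
    (hn3 : 3 ≤ n)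
    (hw1 : ∀ i, i ≠ a0 → (w i).valuation K (D.e a0 - D.e i) < 1)
    (hw2 : ∀ i, i ≠ a0 → ¬ Pw ℓ ((w i).valuation K (D.e a0 - D.e i)))
    (hw3 : ∀ i, i ≠ a0 → ∀ j k, j ≠ k → ¬ (j = a0 ∧ k = i) → ¬ (j = i ∧ k = a0) →
      (w i).valuation K (D.e j - D.e k) = 1)
    (hgood : ∀ v, (∀ i, i ≠ a0 → v ≠ w i) → D.Sep1 v)
    (stab : ∀ i, i ≠ a0 → ∀ d : K, d ≠ 0 → (∀ v : HeightOneSpectrum R,
      Pw ℓ (v.valuation K d)) → (∃ x : (w i).adicCompletion K, algebraMap K _ d = x ^ ℓ) →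
        ∃ y : K, d = y ^ ℓ)
    (χ : (L ≃ₐ[K] L) → Fin n → ℕ) (hc : D.Coc (fun σ => cl ((D.base L).PT (χ σ))))
    (ht : ∀ v, D.Triv (v.adicCompletion K) (Ω v) (fun σ => cl ((D.base L).PT (χ σ)))) :
    D.Cob (fun σ => cl ((D.base L).PT (χ σ))) := by
  classical
  have hex : ∀ i, i ≠ a0 → ∃ c0 : Fin n, c0 ≠ a0 ∧ c0 ≠ i := by
    intro i hi
    have h1 : ({a0, i} : Finset (Fin n)).card < (Finset.univ : Finset (Fin n)).card := by
      rw [Finset.card_univ, Fintype.card_fin]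
      exact lt_of_le_of_lt Finset.card_le_two (by omega)
    obtain ⟨c, -, hc⟩ := Finset.exists_mem_notMem_of_card_lt_card h1
    rw [Finset.mem_insert, Finset.mem_singleton, not_or] at hc
    exact ⟨c, hc⟩
  have hcoll : ∀ i, ∃ r : ℕ, i ≠ a0 → ∀ (m : Fin n → ℕ) (Q : ClassGroup (D.base L).A)
      (χ' : (L ≃ₐ[K] L) → Fin n → ℕ)
      (kd : D.KD χ'), m i = r → m a0 = 0 → cl ((D.base L).PT m) * (D.base L).sC Q = Q →
      (∀ σ, cl ((D.base L).PT (χ' σ)) = cl ((D.base L).PT (χ σ)) / (D.mC (au σ) Q / Q)) →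
      (∀ j k, Pw ℓ ((w i).valuation K (kd.d j k))) ∧
      ∃ x : (w i).adicCompletion K, algebraMap K ((w i).adicCompletion K) (kd.d a0 i) = x ^ ℓ := by
    intro i
    by_cases hi : i = a0
    · exact ⟨0, fun h => absurd hi h⟩
    obtain ⟨c0, hca, hci⟩ := hex i hi
    obtain ⟨r, hr⟩ := D.coll_place (p := p) (a0 := a0) (b0 := i) (c0 := c0) (Ne.symm hi) hca hci
      (hw3 i hi) (hw1 i hi) (hw2 i hi) (hδ _) (hℓ _) (ht (w i))
    exact ⟨r, fun _ => hr⟩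
  choose r hr using hcoll
  obtain ⟨Q, χ', hQ, hχ', hc'⟩ := D.exists_adj (p := p) (fun i => if i = a0 then 0 else r i) hc
  obtain ⟨kd⟩ := D.exists_KD hc'
  have ht' : ∀ v, D.Triv (v.adicCompletion K) (Ω v) (fun σ => cl ((D.base L).PT (χ' σ))) := by
    intro v
    have h4 : (fun σ => cl ((D.base L).PT (χ' σ))) =
      fun σ => cl ((D.base L).PT (χ σ)) / (D.mC (au σ) Q / Q) := funext hχ'
    rw [h4]
    exact (ht v).div D Q
  have hr' : ∀ i, i ≠ a0 → (∀ j k, Pw ℓ ((w i).valuation K (kd.d j k))) ∧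
      ∃ x : (w i).adicCompletion K, algebraMap K ((w i).adicCompletion K) (kd.d a0 i) = x ^ ℓ := by
    intro i hi
    exact hr i hi _ Q χ' kd (if_neg hi) (if_pos rfl) hQ hχ'
  have hpw : ∀ (v : HeightOneSpectrum R) j k, Pw ℓ (v.valuation K (kd.d j k)) := by
    intro v j k
    by_cases hv : ∀ i, i ≠ a0 → v ≠ w i
    · exact D.good_place (p := p) (hgood v hv) (hδ v) (hℓ v) (ht' v) kd j k
    · push Not at hv
      obtain ⟨i, hi, rfl⟩ := hv
      exact (hr' i hi).1 j k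
  have h1 : ∀ i, i ≠ a0 → ∃ y : K, kd.d a0 i = y ^ ℓ := by
    intro i hi
    have hd0 : kd.d a0 i ≠ 0 := by
      intro h0
      have := kd.hd a0 i
      rw [h0, map_zero] at this
      exact kd.h0 a0 i (pow_eq_zero_iff D.pos.ne' |>.1 this)
    exact stab i hi _ hd0 (fun v => hpw v _ _) (hr' i hi).2
  refine ⟨Q, fun σ => ?_⟩
  have h2 := hχ' σ
  rw [(D.base L).cl_PT_of_modEq fun i j => ?_] at h2
  · exact (div_eq_one.1 h2.symm)
  · have h3 : ∀ i, χ' σ a0 ≡ χ' σ i [MOD ℓ] := by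
      intro i
      by_cases hi : i = a0
      · rw [hi]
      · obtain ⟨y, hy⟩ := h1 i hi
        exact D.modEq_of_pow kd hy σ
    exact (h3 i).symm.trans (h3 j)

end places

end Dat

end Pool.Agent.Y713.SE
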