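import Pool.Agent.Y713.SE.Idl

/-! Every polynomial `x ^ q - a` is a quotient of norms, over a separably closed field. -/

set_option autoImplicit false
set_option linter.all false

open Polynomial

namespace Pool.Agent.Y713.SE

lemma prod_range_sub {R : Type} [CommRing R] [IsDomain R] {ℓ : ℕ} (hℓ : 0 < ℓ) {ω : R}
    (h : IsPrimitiveRoot ω ℓ) (x y : R) :
    ∏ i ∈ Finset.range ℓ, (x - ω ^ i * y) = x ^ ℓ - y ^ ℓ := by
  classical
  rw [h.pow_sub_pow_eq_prod_sub_mul x y hℓ]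
  refine Finset.prod_nbij (fun i => ω ^ i) ?_ ?_ ?_ ?_
  · intro i _
    rw [mem_nthRootsFinset hℓ, ← pow_mul, mul_comm, pow_mul, h.pow_eq_one, one_pow]
  · intro i hi j hj hij
    rw [Finset.coe_range, Set.mem_Iio] at hi hj
    exact h.pow_inj hi hj hij
  · intro z hz
    have hz' : z ^ ℓ = 1 := (mem_nthRootsFinset hℓ _).1 hz
    haveI : NeZero ℓ := ⟨hℓ.ne'⟩
    obtain ⟨i, hi, hiz⟩ := h.eq_pow_of_pow_eq_one hz'
    exact ⟨i, by simpa using hi, hiz⟩
  · intro i _; rfl

/-- invariant polynomials are polynomials in the power -/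
lemma contract_of_inv {E : Type} [Field E] {ℓ : ℕ} (hℓ : 0 < ℓ) {w : E} (hw : IsPrimitiveRoot w ℓ)
    {Q : E[X][X]} (hQ : aeval (C (C w) * X : E[X][X]) Q = Q) :
    expand E[X] ℓ (contract ℓ Q) = Q := by
  ext1 k
  rw [coeff_expand hℓ, coeff_contract hℓ.ne']
  split_ifs with h
  · rw [Nat.div_mul_cancel h]
  · have h1 : (aeval (C (C w) * X : E[X][X]) Q).coeff k = C (w ^ k) * Q.coeff k := by
      rw [aeval_eq_sum_range, finsetSum_coeff]
      have h2 : ∀ i ∈ Finset.range (Q.natDegree + 1),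
          (Q.coeff i • (C (C w) * X : E[X][X]) ^ i).coeff k =
          if k = i then C (w ^ k) * Q.coeff k else 0 := by
        intro i _
        rw [mul_pow, ← C_pow, ← C_pow, coeff_smul, coeff_C_mul, coeff_X_pow, smul_eq_mul]
        split_ifs with hk
        · subst hk; ring
        · ring
      rw [Finset.sum_congr rfl h2, Finset.sum_ite_eq]
      split_ifs with h3
      · rfl
      · rw [Finset.mem_range, not_lt] at h3
        rw [coeff_eq_zero_of_natDegree_lt (by omega), mul_zero]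
    rw [hQ] at h1
    have h2 : w ^ k ≠ 1 := fun h3 => h (hw.dvd_of_pow_eq_one k h3)
    have h3 : C (w ^ k - 1) * Q.coeff k = 0 := by
      rw [C_sub, C_1, sub_mul, ← h1, one_mul, sub_self]
    rcases mul_eq_zero.1 h3 with h4 | h4
    · exact absurd (sub_eq_zero.1 (C_eq_zero.1 h4)) h2
    · exact h4.symm

lemma aeval_of_inv {E : Type} [Field E] {ℓ : ℕ} (hℓ : 0 < ℓ) {w : E} (hw : IsPrimitiveRoot w ℓ)
    {Q : E[X][X]} (hQ : aeval (C (C w) * X : E[X][X]) Q = Q) {R : Type} [Ring R] [Algebra E[X] R]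
    {t : R} {F : E[X]} (ht : t ^ ℓ = algebraMap E[X] R F) :
    aeval t Q = algebraMap E[X] R (eval F (contract ℓ Q)) := by
  conv_lhs => rw [← contract_of_inv hℓ hw hQ]
  rw [expand_aeval, ht, aeval_algebraMap_apply]
  rfl

section semi

variable {E : Type} [Field E]

/-- scaling of the second variable -/
noncomputable def scl (w : E) (i : ℕ) : E[X][X] →ₐ[E[X]] E[X][X] := aeval (C (C (w ^ i)) * X : E[X][X])

lemma scl_X (w : E) (i : ℕ) : scl w i X = C (C (w ^ i)) * X := aeval_X _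

lemma scl_scl (w : E) (i j : ℕ) (Q : E[X][X]) : scl w i (scl w j Q) = scl w (i + j) Q := by
  have : (scl w i).comp (scl w j) = scl w (i + j) := by
    apply Polynomial.algHom_ext
    rw [AlgHom.comp_apply, scl_X, map_mul, scl_X, scl_X]
    have : (C (C (w ^ j)) : E[X][X]) = algebraMap E[X] E[X][X] (C (w ^ j)) := rfl
    rw [this, AlgHom.commutes, ← this, pow_add, C_mul, C_mul]
    ring
  exact congrArg (fun φ => φ Q) this

lemma scl_zero (w : E) (Q : E[X][X]) : scl w 0 Q = Q := by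
  have : scl w 0 = AlgHom.id _ _ := by
    apply Polynomial.algHom_ext
    rw [scl_X, pow_zero]; simp
  rw [this]; rfl

lemma scl_of_eq {w : E} {i j : ℕ} (h : w ^ i = w ^ j) : scl w i = scl w j := by
  unfold scl; rw [h]

lemma scl_prod {w : E} {ℓ : ℕ} (hℓ : 0 < ℓ) (hw : w ^ ℓ = 1) (Q : E[X][X]) :
    scl w 1 (∏ i ∈ Finset.range ℓ, scl w i Q) = ∏ i ∈ Finset.range ℓ, scl w i Q := by
  rw [map_prod]
  have h1 : ∀ i, scl w 1 (scl w i Q) = scl w (i + 1) Q := fun i => by rw [scl_scl, add_comm]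
  rw [Finset.prod_congr rfl fun i _ => h1 i]
  obtain ⟨k, rfl⟩ : ∃ k, ℓ = k + 1 := ⟨ℓ - 1, (Nat.sub_add_cancel hℓ).symm⟩
  rw [Finset.prod_range_succ (fun i => scl w (i + 1) Q),
    Finset.prod_range_succ' (fun i => scl w i Q) k,
    scl_of_eq (i := k + 1) (j := 0) (by rw [hw, pow_zero])]

end semi

namespace Dat

variable {ℓ n : ℕ} {E : Type} [Field E] (D : Dat ℓ n E)

lemma aeval_ne {q : ℕ} (hq : Nat.Coprime q ℓ) {m : E[X][X]} (hm : m ≠ 0) (hdeg : m.natDegree < ℓ) :
    aeval (D.y ^ q) m ≠ 0 := by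
  intro h
  obtain ⟨j0, hj0⟩ : ∃ j0, m.coeff j0 ≠ 0 := by
    by_contra hne
    push Not at hne
    exact hm (Polynomial.ext fun k => by rw [hne k, coeff_zero])
  have hj0' : j0 < ℓ := (le_natDegree_of_ne_zero hj0).trans_lt hdeg
  have h1 := congrArg (D.c ⟨(q * j0) % ℓ, Nat.mod_lt _ D.pos⟩) h
  rw [map_zero, aeval_eq_sum_range' hdeg, map_sum] at h1
  have h2 : ∀ j ∈ Finset.range ℓ, D.c ⟨(q * j0) % ℓ, Nat.mod_lt _ D.pos⟩
      (m.coeff j • (D.y ^ q) ^ j) = if j = j0 then m.coeff j0 * D.f ^ (q * j0 / ℓ) else 0 := by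
    intro j hj
    rw [Finset.mem_range] at hj
    have h3 : m.coeff j • (D.y ^ q) ^ j =
        (m.coeff j * D.f ^ (q * j / ℓ)) • D.y ^ ((⟨(q * j) % ℓ, Nat.mod_lt _ D.pos⟩ : Fin ℓ) : ℕ) := by
      rw [← pow_mul]
      conv_lhs => rw [← Nat.div_add_mod (q * j) ℓ, pow_add, pow_mul, D.y_pow]
      rw [Algebra.smul_def, Algebra.smul_def, map_mul, map_pow _ D.f]
      ring
    rw [h3, map_smul]
    have h4 : D.c ⟨(q * j0) % ℓ, Nat.mod_lt _ D.pos⟩
        (D.y ^ ((⟨(q * j) % ℓ, Nat.mod_lt _ D.pos⟩ : Fin ℓ) : ℕ)) =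
        if (⟨(q * j) % ℓ, Nat.mod_lt _ D.pos⟩ : Fin ℓ) = ⟨(q * j0) % ℓ, Nat.mod_lt _ D.pos⟩
          then 1 else 0 := cf_pow D.pos _ _
    rw [h4]
    by_cases hjj : j = j0
    · subst hjj; rw [if_pos rfl, if_pos rfl, smul_eq_mul, mul_one]
    · rw [if_neg hjj, if_neg, smul_zero]
      intro h5
      rw [Fin.mk.injEq] at h5
      have h6 : q * j ≡ q * j0 [MOD ℓ] := h5
      have h7 := Nat.ModEq.cancel_left_of_coprime (c := q) (by rw [Nat.gcd_comm]; exact hq) h6
      exact hjj ((Nat.mod_eq_of_lt hj).symm.trans (Eq.trans h7 (Nat.mod_eq_of_lt hj0')))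
  rw [Finset.sum_congr rfl h2, Finset.sum_ite_eq', if_pos (Finset.mem_range.2 hj0')] at h1
  exact (mul_ne_zero hj0 (pow_ne_zero _ D.f_ne)) h1

theorem lemN_aux {q : ℕ} (hq : Nat.Coprime q ℓ) {u : E[X]} (hu : u ≠ 0) {G : CR ℓ u}
    (hG : ∏ i ∈ Finset.range ℓ, tw D.pos (((D.ζ ^ q)⁻¹) ^ i)
      (by rw [← pow_mul, mul_comm, pow_mul, inv_pow, ← pow_mul, mul_comm, pow_mul,
        D.hζ.pow_eq_one, one_pow, inv_one, one_pow]) G = algebraMap E[X] (CR ℓ u) (D.f ^ q)) :
    ∃ A0 B0 : D.A, A0 ≠ 0 ∧ B0 ≠ 0 ∧ D.Nm A0 = u * D.Nm B0 := by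
  set w : E := D.ζ ^ q with hw
  have hprim : IsPrimitiveRoot w ℓ := D.hζ.pow_of_coprime q hq
  have hw1 : ∀ i : ℕ, (w⁻¹ ^ i) ^ ℓ = 1 := fun i => by
    rw [← pow_mul, mul_comm, pow_mul, inv_pow, hprim.pow_eq_one, inv_one, one_pow]
  have hw0 : w ≠ 0 := pow_ne_zero _ D.ζ_ne
  -- the semilinear operator
  let τ : ℕ → CR ℓ u →ₐ[E[X]] CR ℓ u := fun i => tw D.pos (w⁻¹ ^ i) (hw1 i)
  have ττ : ∀ i j z, τ i (τ j z) = τ (i + j) z := by
    intro i j z
    show tw _ _ _ (tw _ _ _ z) = tw _ _ _ z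
    rw [tw_tw]
    exact tw_congr _ _ _ (by rw [pow_add]) _
  have τ0 : ∀ z, τ 0 z = z := by
    intro z
    show tw _ _ _ z = z
    rw [tw_congr D.pos _ (one_pow _) (pow_zero _), tw_one]
  have τℓ : ∀ z, τ ℓ z = z := by
    intro z
    show tw _ _ _ z = z
    rw [tw_congr D.pos _ (one_pow _) (by rw [inv_pow, hprim.pow_eq_one, inv_one]), tw_one]
  let T : Module.End E[X] (CR ℓ u) := (LinearMap.mulLeft E[X] G).comp (τ 1).toLinearMap
  have hT : ∀ z, T z = G * τ 1 z := fun z => rfl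
  have hTk : ∀ k z, (T ^ k) z = (∏ i ∈ Finset.range k, τ i G) * τ k z := by
    intro k
    induction k with
    | zero => intro z; rw [pow_zero, Finset.prod_range_zero, one_mul, τ0]; rfl
    | succ k ih =>
      intro z
      rw [pow_succ', Module.End.mul_apply, ih, hT, map_mul, map_prod, ττ, Finset.prod_range_succ',
        τ0, add_comm 1 k, Finset.prod_congr rfl fun i _ => ττ 1 i G]
      rw [Finset.prod_congr rfl fun i _ => by rw [add_comm 1 i]]
      ring
  have hTℓ : T ^ ℓ = algebraMap E[X] (Module.End E[X] (CR ℓ u)) (D.f ^ q) := by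
    ext1 z
    rw [hTk, τℓ, Module.algebraMap_end_apply, Algebra.smul_def]
    congr 1
  set S : CR ℓ u := yy ℓ u with hS
  have hST : ∀ z, S * T z = algebraMap E[X] _ (C w) * T (S * z) := by
    intro z
    rw [hT, hT, map_mul]
    have h1 : τ 1 S = algebraMap E[X] _ (C (w⁻¹)) * S := by
      show tw _ _ _ (yy ℓ u) = _
      rw [tw_yy, pow_one]
    have h2 : algebraMap E[X] (CR ℓ u) (C w) * algebraMap E[X] _ (C (w⁻¹)) = 1 := by
      rw [← map_mul, ← C_mul, mul_inv_cancel₀ hw0, C_1, map_one]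
    rw [h1]
    calc S * (G * τ 1 z) = 1 * (S * G * τ 1 z) := by ring
      _ = _ := by rw [← h2]; ring
  -- semilinearity
  have semi : ∀ m : E[X][X], ∀ z, S * (aeval T m) z = (aeval T (scl w 1 m)) (S * z) := by
    have hXk : ∀ k : ℕ, ∀ z, S * (T ^ k) z = algebraMap E[X] _ (C (w ^ k)) * (T ^ k) (S * z) := by
      intro k
      induction k with
      | zero => intro z; rw [pow_zero, pow_zero, C_1, map_one, one_mul]; rfl
      | succ k ih =>
        intro z
        rw [pow_succ', Module.End.mul_apply, hST, Module.End.mul_apply, ih, ← Algebra.smul_def,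
          ← Algebra.smul_def, ← Algebra.smul_def, map_smul, smul_smul, ← C_mul, pow_succ']
    intro m
    induction m using Polynomial.induction_on' with
    | add p r hp hr =>
      intro z
      rw [map_add, LinearMap.add_apply, mul_add, hp, hr, map_add, map_add, LinearMap.add_apply]
    | monomial k g =>
      intro z
      rw [← C_mul_X_pow_eq_monomial, map_mul, map_pow, aeval_X, map_mul (scl w 1), map_pow (scl w 1),
        scl_X, pow_one, map_mul (aeval T), map_pow (aeval T), map_mul (aeval T), aeval_X, aeval_C,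
        aeval_C]
      have h1 : scl w 1 (C g) = C g := (scl w 1).commutes g
      rw [h1, aeval_C, Module.End.mul_apply, Module.End.mul_apply,
        Commute.mul_pow (Algebra.commutes _ _) k]
      rw [Module.algebraMap_end_apply, Module.algebraMap_end_apply, Module.End.mul_apply,
        ← map_pow, ← C_pow, Module.algebraMap_end_apply, Algebra.smul_def, Algebra.smul_def,
        Algebra.smul_def]
      have h2 := hXk k z
      calc S * (algebraMap E[X] (CR ℓ u) g * (T ^ k) z) =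
          algebraMap E[X] (CR ℓ u) g * (S * (T ^ k) z) := by ring
        _ = _ := by rw [h2]
  -- a relation
  obtain ⟨m0, m1, hne, hd0, hd1, hrel⟩ : ∃ m0 m1 : E[X][X], (m0 ≠ 0 ∨ m1 ≠ 0) ∧
      m0.natDegree < ℓ ∧ m1.natDegree < ℓ ∧ aeval T m1 S = aeval T m0 1 := by
    let Φ : ((Fin ℓ → E[X]) × (Fin ℓ → E[X])) →ₗ[E[X]] CR ℓ u :=
      { toFun := fun ab => (∑ j, ab.2 j • (T ^ (j : ℕ)) S) - ∑ j, ab.1 j • (T ^ (j : ℕ)) 1
        map_add' := fun x z => by
          simp only [Prod.snd_add, Prod.fst_add, Pi.add_apply, add_smul, Finset.sum_add_distrib]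
          ring
        map_smul' := fun r x => by
          simp only [Prod.smul_snd, Prod.smul_fst, Pi.smul_apply, smul_eq_mul, mul_smul,
            RingHom.id_apply, smul_sub, Finset.smul_sum] }
    have hΦ : ¬ Function.Injective Φ := by
      intro hinj
      haveI := Pool.Agent.Y713.SE.free (f := u) D.pos
      haveI := Pool.Agent.Y713.SE.finite (f := u) D.pos
      have h1 := LinearMap.finrank_le_finrank_of_injective hinj
      rw [Module.finrank_prod, Module.finrank_fin_fun,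
        Module.finrank_eq_card_basis (bas (f := u) D.pos), Fintype.card_fin] at h1
      have := D.pos
      omega
    rw [← LinearMap.ker_eq_bot, Submodule.eq_bot_iff] at hΦ
    push Not at hΦ
    obtain ⟨⟨a, b⟩, hab, hab0⟩ := hΦ
    have hsum : ∀ a : Fin ℓ → E[X], ∀ z, aeval T (∑ j, C (a j) * X ^ (j : ℕ)) z =
        ∑ j, a j • (T ^ (j : ℕ)) z := by
      intro a z
      rw [map_sum, LinearMap.sum_apply]
      refine Finset.sum_congr rfl fun j _ => ?_
      rw [map_mul, map_pow, aeval_X, aeval_C, Module.End.mul_apply, Module.algebraMap_end_apply]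
    have hcoef : ∀ a : Fin ℓ → E[X], ∀ j, (∑ j, C (a j) * X ^ (j : ℕ)).coeff (j : ℕ) = a j := by
      intro a j
      rw [finsetSum_coeff, Finset.sum_eq_single j]
      · rw [coeff_C_mul, coeff_X_pow, if_pos rfl, mul_one]
      · intro i _ hi
        rw [coeff_C_mul, coeff_X_pow, if_neg (fun h => hi (Fin.ext h.symm)), mul_zero]
      · intro h; exact absurd (Finset.mem_univ _) h
    have hdeg : ∀ a : Fin ℓ → E[X], (∑ j, C (a j) * X ^ (j : ℕ)).natDegree < ℓ := by
      intro a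
      have h1 : (∑ j, C (a j) * X ^ (j : ℕ)).natDegree ≤ ℓ - 1 := by
        refine natDegree_sum_le_of_forall_le _ _ fun j _ => ?_
        refine (natDegree_C_mul_X_pow_le _ _).trans ?_
        have := j.2
        omega
      have := D.pos
      omega
    refine ⟨∑ j, C (a j) * X ^ (j : ℕ), ∑ j, C (b j) * X ^ (j : ℕ), ?_, hdeg a, hdeg b, ?_⟩
    · by_contra hne
      push Not at hne
      apply hab0
      have h1 : a = 0 := by
        funext j
        rw [← hcoef a j, hne.1]; rfl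
      have h2 : b = 0 := by
        funext j
        rw [← hcoef b j, hne.2]; rfl
      rw [h1, h2]; rfl
    · rw [hsum, hsum, ← sub_eq_zero]
      exact hab
  -- norms of the relation
  have hind : ∀ j : ℕ, aeval T (∏ i ∈ Finset.range j, scl w i m1) (S ^ j) =
      aeval T (∏ i ∈ Finset.range j, scl w i m0) 1 := by
    intro j
    induction j with
    | zero => rw [Finset.prod_range_zero, Finset.prod_range_zero, pow_zero]
    | succ j ih =>
      have hstep : ∀ m : E[X][X], ∏ i ∈ Finset.range (j + 1), scl w i m =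
          scl w 1 (∏ i ∈ Finset.range j, scl w i m) * m := by
        intro m
        rw [Finset.prod_range_succ', scl_zero, map_prod]
        congr 1
        exact Finset.prod_congr rfl fun i _ => by rw [scl_scl, add_comm]
      have h1 := congrArg (S * ·) ih
      rw [semi, semi, ← pow_succ', mul_one] at h1
      have h2 := congrArg (aeval T m1) h1
      rw [← Module.End.mul_apply, ← Module.End.mul_apply, ← map_mul, ← map_mul, mul_comm m1,
        mul_comm m1, ← hstep, map_mul, Module.End.mul_apply, hrel, ← Module.End.mul_apply,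
        ← map_mul, ← hstep] at h2
      exact h2
  have hfin := hind ℓ
  rw [hS, yy_pow D.pos] at hfin
  have hinv := scl_prod (w := w) D.pos hprim.pow_eq_one
  have hinv' : ∀ Q : E[X][X], aeval (C (C w) * X : E[X][X]) (∏ i ∈ Finset.range ℓ, scl w i Q) =
      ∏ i ∈ Finset.range ℓ, scl w i Q := by
    intro Q
    have := hinv Q
    rw [scl, pow_one] at this
    exact this
  rw [aeval_of_inv D.pos hprim (hinv' m1) hTℓ, aeval_of_inv D.pos hprim (hinv' m0) hTℓ,
    Module.algebraMap_end_apply, Module.algebraMap_end_apply, Algebra.smul_def, Algebra.smul_def,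
    mul_one, ← map_mul] at hfin
  have hd := inj D.pos hfin
  -- norms in the coordinate ring
  have hyq : (D.y ^ q) ^ ℓ = algebraMap E[X] D.A (D.f ^ q) := by
    rw [← pow_mul, mul_comm, pow_mul, D.y_pow, map_pow]
  have hNm : ∀ m : E[X][X], D.Nm (aeval (D.y ^ q) m) =
      eval (D.f ^ q) (contract ℓ (∏ i ∈ Finset.range ℓ, scl w i m)) := by
    intro m
    apply D.injA
    rw [← aeval_of_inv D.pos hprim (hinv' m) hyq, Nm_spec, map_prod]
    refine Finset.prod_congr rfl fun i _ => ?_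
    have : ((D.s i).toAlgHom.comp (aeval (D.y ^ q))) = (aeval (D.y ^ q)).comp (scl w i) := by
      apply Polynomial.algHom_ext
      rw [AlgHom.comp_apply, AlgHom.comp_apply, aeval_X, scl_X, map_mul, aeval_X]
      show D.s i (D.y ^ q) = _
      rw [map_pow, s_y, mul_pow, ← map_pow, ← C_pow, ← pow_mul, aeval_C, hw, ← pow_mul,
        mul_comm q i]
    exact congrArg (fun φ => φ m) this
  have hrelN : D.Nm (aeval (D.y ^ q) m0) = u * D.Nm (aeval (D.y ^ q) m1) := by
    rw [hNm, hNm, ← hd]; ring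
  have hNm0 : D.Nm 0 = 0 := by
    have := D.Nm_algebraMap 0
    rwa [map_zero, zero_pow D.pos.ne'] at this
  refine ⟨aeval (D.y ^ q) m0, aeval (D.y ^ q) m1, ?_, ?_, hrelN⟩
  · intro h0
    have hm0 : m0 = 0 := by
      by_contra hm0
      exact D.aeval_ne hq hm0 hd0 h0
    have hm1 : m1 ≠ 0 := hne.resolve_left (fun h => h hm0)
    have h2 := D.Nm_ne (D.aeval_ne hq hm1 hd1)
    rw [h0, hNm0] at hrelN
    exact mul_ne_zero hu h2 hrelN.symm
  · intro h0
    have hm1 : m1 = 0 := by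
      by_contra hm1
      exact D.aeval_ne hq hm1 hd1 h0
    have hm0 : m0 ≠ 0 := hne.resolve_right (fun h => h hm1)
    have h2 := D.Nm_ne (D.aeval_ne hq hm0 hd0)
    rw [h0, hNm0, mul_zero] at hrelN
    exact h2 hrelN

/-- every `x ^ q - a` is a quotient of norms -/
theorem lemN [IsSepClosed E] {q p m : ℕ} [ExpChar E p] (hqp : q = p ^ m)
    (hq : Nat.Coprime q ℓ) (a : E) :
    ∃ A0 B0 : D.A, A0 ≠ 0 ∧ B0 ≠ 0 ∧ D.Nm A0 = (X ^ q - C a) * D.Nm B0 := by
  haveI : NeZero (ℓ : E) := ⟨D.hne⟩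
  have hq0 : q ≠ 0 := by
    rintro rfl
    rw [Nat.coprime_zero_left] at hq
    exact D.hp.one_lt.ne' hq
  have hprim : IsPrimitiveRoot ((D.ζ ^ q)⁻¹) ℓ := (D.hζ.pow_of_coprime q hq).inv
  choose r hr using fun k : Fin n => IsSepClosed.exists_pow_nat_eq (D.e k ^ q - a) ℓ
  obtain ⟨κ, hκ⟩ := IsSepClosed.exists_pow_nat_eq ((-1) ^ n * D.δ ^ q) ℓ
  obtain ⟨u, hudef⟩ : ∃ u : E[X], u = X ^ q - C a := ⟨_, rfl⟩
  rw [← hudef]
  have hu : u ≠ 0 := hudef ▸ X_pow_sub_C_ne_zero (Nat.pos_of_ne_zero hq0) a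
  have hfrob : ∀ k : Fin n, (X - C (D.e k)) ^ q = (X ^ q - C (D.e k ^ q) : E[X]) := by
    intro k
    haveI : ExpChar E[X] p := expChar_of_injective_algebraMap (C_injective (R := E)) p
    rw [hqp, sub_pow_expChar_pow, C_pow]
  refine D.lemN_aux hq hu (G := algebraMap E[X] (CR ℓ u) (C κ) *
    ∏ k, (algebraMap E[X] (CR ℓ u) (C (r k)) - yy ℓ u)) ?_
  have h1 : ∀ i : ℕ, ∀ hw : (((D.ζ ^ q)⁻¹) ^ i) ^ ℓ = 1, tw D.pos (((D.ζ ^ q)⁻¹) ^ i) hw
      (algebraMap E[X] (CR ℓ u) (C κ) * ∏ k, (algebraMap E[X] (CR ℓ u) (C (r k)) - yy ℓ u)) =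
      algebraMap E[X] (CR ℓ u) (C κ) * ∏ k, (algebraMap E[X] (CR ℓ u) (C (r k)) -
        algebraMap E[X] (CR ℓ u) (C (((D.ζ ^ q)⁻¹) ^ i)) * yy ℓ u) := by
    intro i hw
    rw [map_mul, map_prod, AlgHom.commutes]
    congr 1
    refine Finset.prod_congr rfl fun k _ => ?_
    rw [map_sub, AlgHom.commutes, tw_yy]
  rw [Finset.prod_congr rfl fun i _ => h1 i _, Finset.prod_mul_distrib, Finset.prod_const,
    Finset.card_range, Finset.prod_comm]
  have h2 : ∀ k : Fin n, ∏ i ∈ Finset.range ℓ, (algebraMap E[X] (CR ℓ u) (C (r k)) -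
        algebraMap E[X] (CR ℓ u) (C (((D.ζ ^ q)⁻¹) ^ i)) * yy ℓ u) =
      algebraMap E[X] (CR ℓ u) (- (X - C (D.e k)) ^ q) := by
    intro k
    have h3 := prod_range_sub D.pos (hprim.map_of_injective (C_injective (R := E)))
      (C (r k)) (X : E[X])
    have h4 := congrArg (aeval (R := E) (yy ℓ u)) h3
    rw [map_prod, map_sub, map_pow, map_pow, aeval_X, aeval_C, yy_pow D.pos] at h4
    have hC : ∀ c : E, algebraMap E (CR ℓ u) c = algebraMap E[X] (CR ℓ u) (C c) := fun c => rfl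
    have h5 : ∀ i ∈ Finset.range ℓ, aeval (R := E) (yy ℓ u) (C (r k) - C ((D.ζ ^ q)⁻¹) ^ i * X) =
        (algebraMap E[X] (CR ℓ u) (C (r k)) -
        algebraMap E[X] (CR ℓ u) (C (((D.ζ ^ q)⁻¹) ^ i)) * yy ℓ u) := by
      intro i _
      rw [map_sub, map_mul, aeval_X, aeval_C, ← C_pow, aeval_C, hC, hC]
    rw [Finset.prod_congr rfl h5] at h4
    rw [h4, hC, ← map_pow, ← C_pow, hr, hfrob, ← map_sub]
    congr 1
    rw [hudef, C_sub]; ring
  rw [Finset.prod_congr rfl fun k _ => h2 k, ← map_prod, ← map_pow, ← map_mul, ← C_pow, hκ]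
  congr 1
  rw [Finset.prod_congr rfl fun k _ => (neg_one_mul ((X - C (D.e k)) ^ q)).symm,
    Finset.prod_mul_distrib, Finset.prod_const, Finset.card_univ, Fintype.card_fin,
    Finset.prod_pow]
  have h6 : D.f ^ q = C (D.δ ^ q) * (∏ i, (X - C (D.e i))) ^ q := by
    rw [f, mul_pow, C_pow]
  rw [h6, C_mul, C_pow, C_neg, C_1]
  have h7 : ((-1 : E[X]) ^ n) * (-1) ^ n = 1 := by
    rw [← mul_pow]; norm_num
  calc (-1) ^ n * C (D.δ ^ q) * ((-1) ^ n * (∏ i, (X - C (D.e i))) ^ q) =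
      ((-1 : E[X]) ^ n * (-1) ^ n) * (C (D.δ ^ q) * (∏ i, (X - C (D.e i))) ^ q) := by ring
    _ = _ := by rw [h7, one_mul]

end Dat

end Pool.Agent.Y713.SE
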