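import Pool.Agent.Y713.SE.Idl
import Pool.Agent.Y713.SE.LemN
import Pool.Agent.Y713.SE.Cls

/-! Hilbert 90 for functions and for ideals. -/

set_option autoImplicit false
set_option linter.all false

open Polynomial

namespace Pool.Agent.Y713.SE

namespace Dat

variable {ℓ n : ℕ} {E : Type} [Field E] (D : Dat ℓ n E)

include D in
lemma sum_shift {M : Type} [AddCommMonoid M] (F : ℕ → M) (hF : F ℓ = F 0) :
    ∑ i ∈ Finset.range ℓ, F (i + 1) = ∑ i ∈ Finset.range ℓ, F i := by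
  have hp := D.pos
  clear D
  obtain ⟨k, rfl⟩ : ∃ k, ℓ = k + 1 := ⟨ℓ - 1, (Nat.sub_add_cancel hp).symm⟩
  rw [Finset.sum_range_succ (fun i => F (i + 1)), Finset.sum_range_succ' F k, hF]

/-- Hilbert 90 for functions -/
theorem hil_elt {a b : D.A} (ha : a ≠ 0) (hb : b ≠ 0) (h : D.Nm a = D.Nm b) :
    ∃ g : D.A, g ≠ 0 ∧ a * D.s 1 g = b * g := by
  let Cj : ℕ → D.A := fun j =>
    (∏ i ∈ Finset.range j, D.s i a) * ∏ i ∈ Finset.Ico j ℓ, D.s i b
  have hC : ∀ j < ℓ, a * D.s 1 (Cj j) = b * Cj (j + 1) := by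
    intro j hj
    have h1 : a * D.s 1 (∏ i ∈ Finset.range j, D.s i a) = ∏ i ∈ Finset.range (j + 1), D.s i a := by
      rw [map_prod, Finset.prod_range_succ' (fun i => D.s i a), s_zero, mul_comm]
      congr 1
      exact Finset.prod_congr rfl fun i _ => by rw [s_s, add_comm]
    have h2 : D.s 1 (∏ i ∈ Finset.Ico j ℓ, D.s i b) = (∏ i ∈ Finset.Ico (j + 1) ℓ, D.s i b) * b := by
      rw [map_prod]
      have h3 : ∀ i ∈ Finset.Ico j ℓ, D.s 1 (D.s i b) = D.s (i + 1) b := fun i _ => by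
        rw [s_s, add_comm]
      rw [Finset.prod_congr rfl h3, Finset.prod_Ico_add' (fun i => D.s i b) j ℓ 1,
        Finset.prod_Ico_succ_top (by omega), s_ell]
    calc a * D.s 1 (Cj j) = (a * D.s 1 (∏ i ∈ Finset.range j, D.s i a)) *
          D.s 1 (∏ i ∈ Finset.Ico j ℓ, D.s i b) := by
          simp only [Cj]; rw [map_mul]; ring
      _ = b * Cj (j + 1) := by rw [h1, h2]; simp only [Cj]; ring
  have hC0 : Cj 0 = algebraMap E[X] D.A (D.Nm b) := by
    simp only [Cj]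
    rw [Finset.prod_range_zero, one_mul, Nm_spec, Finset.range_eq_Ico]
  have hCℓ : Cj ℓ = Cj 0 := by
    rw [hC0, ← h, Nm_spec]
    simp only [Cj]
    rw [Finset.Ico_self, Finset.prod_empty, mul_one]
  have hC0ne : Cj 0 ≠ 0 := by
    rw [hC0]; exact D.alg_ne (D.Nm_ne hb)
  -- the resolvent
  have hG : ∀ θ : D.A, a * D.s 1 (∑ j ∈ Finset.range ℓ, Cj j * D.s j θ) =
      b * ∑ j ∈ Finset.range ℓ, Cj j * D.s j θ := by
    intro θ
    have h1 : ∑ j ∈ Finset.range ℓ, Cj (j + 1) * D.s (j + 1) θ =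
        ∑ j ∈ Finset.range ℓ, Cj j * D.s j θ :=
      D.sum_shift (fun j => Cj j * D.s j θ) (by rw [hCℓ, s_ell, s_zero])
    calc a * D.s 1 (∑ j ∈ Finset.range ℓ, Cj j * D.s j θ) =
        b * ∑ j ∈ Finset.range ℓ, Cj (j + 1) * D.s (j + 1) θ := by
          rw [map_sum, Finset.mul_sum, Finset.mul_sum]
          refine Finset.sum_congr rfl fun j hj => ?_
          rw [map_mul, ← mul_assoc, hC j (Finset.mem_range.1 hj), s_s, add_comm 1 j]; ring
      _ = _ := by rw [h1]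
  by_contra hne
  push Not at hne
  have hz : ∀ m : ℕ, ∑ j ∈ Finset.range ℓ, Cj j * algebraMap E[X] D.A (C (D.ζ ^ (j * m))) = 0 := by
    intro m
    have h1 : ∑ j ∈ Finset.range ℓ, Cj j * D.s j (D.y ^ m) = 0 := by
      by_contra h2
      exact hne _ h2 (hG _)
    have h2 : ∀ j ∈ Finset.range ℓ, Cj j * D.s j (D.y ^ m) =
        (Cj j * algebraMap E[X] D.A (C (D.ζ ^ (j * m)))) * D.y ^ m := by
      intro j _
      rw [map_pow, s_y, mul_pow, ← map_pow, ← C_pow, ← pow_mul]; ring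
    rw [Finset.sum_congr rfl h2, ← Finset.sum_mul] at h1
    exact (mul_eq_zero.1 h1).resolve_right (pow_ne_zero _ D.y_ne)
  have hsum : ∑ m ∈ Finset.range ℓ, ∑ j ∈ Finset.range ℓ,
      Cj j * algebraMap E[X] D.A (C (D.ζ ^ (j * m))) = 0 :=
    Finset.sum_eq_zero fun m _ => hz m
  rw [Finset.sum_comm, Finset.sum_eq_single 0] at hsum
  · have h1 : ∑ m ∈ Finset.range ℓ, Cj 0 * algebraMap E[X] D.A (C (D.ζ ^ (0 * m))) =
        algebraMap E[X] D.A (C (ℓ : E)) * Cj 0 := by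
      simp
    rw [h1] at hsum
    exact (mul_ne_zero (D.alg_ne (C_ne_zero.2 D.hne)) hC0ne) hsum
  · intro j hj hj0
    rw [← Finset.mul_sum, ← map_sum, ← map_sum]
    have h1 : ∑ m ∈ Finset.range ℓ, D.ζ ^ (j * m) = 0 := by
      have h2 := mul_neg_geom_sum (D.ζ ^ j) ℓ
      rw [D.ζpow, sub_self] at h2
      have h3 : (1 : E) - D.ζ ^ j ≠ 0 := by
        rw [sub_ne_zero]
        exact (D.hζ.pow_ne_one_of_pos_of_lt hj0 (Finset.mem_range.1 hj)).symm
      have h4 := (mul_eq_zero.1 h2).resolve_left h3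
      rw [← h4]
      exact Finset.sum_congr rfl fun m _ => by rw [pow_mul]
    rw [h1, C_0, map_zero, mul_zero]
  · intro h0
    exact absurd (Finset.mem_range.2 D.pos) h0

/-- Hilbert 90 for ideals -/
theorem hil_ideal {J : Ideal D.A} (hJ : J ≠ ⊥) : ∀ I : Ideal D.A, I ≠ ⊥ → D.NI I = D.NI J →
    ∃ Q : Ideal D.A, Q ≠ ⊥ ∧ I * D.sI 1 Q = J * Q := by
  induction J using UniqueFactorizationMonoid.induction_on_prime with
  | h₁ => exact absurd rfl hJ
  | h₂ J hJu =>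
    intro I hI h
    rw [Ideal.isUnit_iff] at hJu
    subst hJu
    have hle : D.NI I ≤ I := by
      have := Ideal.prod_le_inf.trans (Finset.inf_le (f := fun j => D.sI j I)
        (Finset.mem_range.2 D.pos))
      rwa [sI_zero] at this
    rw [h, NI_top, top_le_iff] at hle
    exact ⟨⊤, top_ne_bot, by rw [hle, sI_top]⟩
  | h₃ J P hJ0 hP ih =>
    intro I hI h
    have hPp : P.IsPrime := Ideal.isPrime_of_prime hP
    have hP0 : P ≠ ⊥ := hP.ne_zero
    have hdvd : P ∣ D.NI I := by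
      rw [h, NI_mul]
      refine Dvd.dvd.mul_right ?_ _
      rw [Ideal.dvd_iff_le]
      have := Ideal.prod_le_inf.trans (Finset.inf_le (f := fun j => D.sI j P)
        (Finset.mem_range.2 D.pos))
      rwa [sI_zero] at this
    obtain ⟨j, hj, hPj⟩ := (Prime.dvd_finset_prod_iff hP _).1 hdvd
    rw [Finset.mem_range] at hj
    set P' := D.sI (ℓ - j) P with hP'def
    have hP'0 : P' ≠ ⊥ := D.sI_ne hP0
    have hPP' : D.sI j P' = P := by
      rw [hP'def, sI_sI, Nat.add_sub_cancel' hj.le, sI_ell]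
    have hP'I : P' ∣ I := by
      rw [Ideal.dvd_iff_le] at hPj ⊢
      have h1 := D.sI_mono (ℓ - j) hPj
      rwa [sI_sI, Nat.sub_add_cancel hj.le, sI_ell] at h1
    obtain ⟨I', rfl⟩ := hP'I
    have hI'0 : I' ≠ ⊥ := by
      rintro rfl
      exact hI (Ideal.mul_bot _)
    have hNI : D.NI I' = D.NI J := by
      rw [NI_mul, NI_mul, hP'def, NI_sI] at h
      exact mul_left_cancel₀ (D.NI_ne hP0) h
    obtain ⟨Q, hQ0, hQ⟩ := ih hJ0 I' hI'0 hNI
    set T := ∏ i ∈ Finset.range j, D.sI i P' with hT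
    have hT0 : T ≠ ⊥ := prod_ne _ fun i _ => D.sI_ne hP'0
    have hTT : P' * D.sI 1 T = P * T := by
      have h1 : D.sI 1 T = ∏ i ∈ Finset.range j, D.sI (i + 1) P' := by
        rw [hT, sI, ← Ideal.mapHom_apply, map_prod]
        exact Finset.prod_congr rfl fun i _ => by
          rw [Ideal.mapHom_apply]
          show D.sI 1 _ = _
          rw [sI_sI, add_comm]
      have h2 := Finset.prod_range_succ (fun i => D.sI i P') j
      rw [Finset.prod_range_succ', sI_zero, hPP'] at h2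
      rw [h1, mul_comm, h2, mul_comm]
    refine ⟨Q * T, D.mul_ne hQ0 hT0, ?_⟩
    rw [sI_mul]
    calc P' * I' * (D.sI 1 Q * D.sI 1 T) = (P' * D.sI 1 T) * (I' * D.sI 1 Q) := by ring
      _ = (P * T) * (J * Q) := by rw [hTT, hQ]
      _ = _ := by ring

lemma frob_const {p m : ℕ} [ExpChar E p] (a : E) (g : E[X]) :
    ∃ c : E, (X ^ (p ^ m) - C a) ∣ g ^ (p ^ m) - C c := by
  haveI : ExpChar E[X] p := expChar_of_injective_algebraMap (C_injective (R := E)) p
  induction g using Polynomial.induction_on' with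
  | add g h hg hh =>
    obtain ⟨c, hc⟩ := hg
    obtain ⟨c', hc'⟩ := hh
    refine ⟨c + c', ?_⟩
    rw [add_pow_expChar_pow, C_add]
    have : g ^ p ^ m + h ^ p ^ m - (C c + C c') = (g ^ p ^ m - C c) + (h ^ p ^ m - C c') := by ring
    rw [this]
    exact dvd_add hc hc'
  | monomial k r =>
    refine ⟨r ^ (p ^ m) * a ^ k, ?_⟩
    rw [← C_mul_X_pow_eq_monomial, mul_pow, C_mul, C_pow, C_pow, ← mul_sub, ← pow_mul,
      mul_comm k, pow_mul]
    exact Dvd.dvd.mul_left (sub_dvd_pow_sub_pow _ _ _) _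

include D in
lemma q_coprime {p m : ℕ} [hp : ExpChar E p] : Nat.Coprime (p ^ m) ℓ := by
  apply Nat.Coprime.pow_left
  cases hp with
  | zero => exact Nat.coprime_one_left _
  | prime h =>
    rw [Nat.coprime_primes h D.hp]
    rintro rfl
    exact D.hne (CharP.cast_eq_zero E _)

/-- primes over a separably closed field -/
theorem prime_struct {p : ℕ} [ExpChar E p] [IsSepClosed E] {P : Ideal D.A} (hP : P.IsPrime)
    (h0 : P ≠ ⊥) (hy : D.y ∉ P) : ∃ (m : ℕ) (a b : E), D.U P = X ^ (p ^ m) - C a ∧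
      Irreducible (X ^ (p ^ m) - C a) ∧
      (∀ g : E[X], algebraMap E[X] D.A g ∈ P ↔ (X ^ (p ^ m) - C a) ∣ g) ∧
      D.y ^ (p ^ m) - algebraMap E[X] D.A (C b) ∈ P ∧ D.sI 1 P ≠ P := by
  obtain ⟨u, hu1, hu2, hu3⟩ := D.exists_u hP h0
  obtain ⟨g, hg, m, hm⟩ := hu2.hasSeparableContraction p
  have hg' : Irreducible g := by
    apply of_irreducible_expand_pow (expChar_pos E p).ne'
    rw [hm]; exact hu2
  have hgm : g.Monic := (monic_expand_iff (expChar_pow_pos E p m)).1 (hm ▸ hu1)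
  have hdeg : g.natDegree = 1 :=
    natDegree_eq_of_degree_eq_some (IsSepClosed.degree_eq_one_of_irreducible E hg' hg)
  obtain ⟨a, ha⟩ : ∃ a, u = X ^ (p ^ m) - C a := by
    refine ⟨-(g.coeff 0), ?_⟩
    rw [← hm, hgm.eq_X_add_C hdeg, map_add, expand_X, expand_C]
    simp
  subst ha
  haveI : NeZero (ℓ : E) := ⟨D.hne⟩
  obtain ⟨c, hc⟩ := frob_const (p := p) (m := m) a D.f
  obtain ⟨d, hd⟩ := IsSepClosed.exists_pow_nat_eq c ℓ
  have h1 : (D.y ^ (p ^ m)) ^ ℓ - (algebraMap E[X] D.A (C d)) ^ ℓ ∈ P := by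
    rw [← pow_mul, mul_comm, pow_mul, D.y_pow, ← map_pow, ← map_pow, ← map_sub, ← C_pow, hd, hu3]
    exact hc
  have hprim : IsPrimitiveRoot (algebraMap E[X] D.A (C D.ζ)) ℓ :=
    (D.hζ.map_of_injective (C_injective (R := E))).map_of_injective D.injA
  rw [← prod_range_sub D.pos hprim] at h1
  obtain ⟨i, _, hi⟩ := (Ideal.IsPrime.prod_mem_iff).1 h1
  have hb : D.y ^ (p ^ m) - algebraMap E[X] D.A (C (D.ζ ^ i * d)) ∈ P := by
    rw [C_mul, map_mul, C_pow, map_pow]; exact hi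
  have hs : D.sI 1 P ≠ P := by
    intro hs
    have h2 : D.s 1 (D.y ^ (p ^ m) - algebraMap E[X] D.A (C (D.ζ ^ i * d))) ∈ P := by
      rw [← hs]
      exact D.mem_sI.2 ⟨_, hb, rfl⟩
    rw [map_sub, map_pow, s_y, AlgEquiv.commutes, mul_pow, ← map_pow, ← C_pow, pow_one] at h2
    have h3 := P.sub_mem h2 hb
    have h4 : algebraMap E[X] D.A (C (D.ζ ^ (p ^ m) - 1)) * D.y ^ (p ^ m) ∈ P := by
      convert h3 using 1
      rw [C_sub, map_sub, C_1, map_one]; ring
    have h5 : D.ζ ^ (p ^ m) ≠ 1 := by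
      intro h5
      have h6 := D.hζ.dvd_of_pow_eq_one _ h5
      have h7 := (D.q_coprime (p := p) (m := m))
      exact D.hp.one_lt.ne' (Nat.Coprime.eq_one_of_dvd h7.symm h6)
    rcases hP.mem_or_mem h4 with h6 | h6
    · have h7 : IsUnit (algebraMap E[X] D.A (C (D.ζ ^ (p ^ m) - 1))) :=
        (isUnit_C.2 (isUnit_iff_ne_zero.2 (sub_ne_zero.2 h5))).map _
      exact hP.ne_top (Ideal.eq_top_of_isUnit_mem _ h6 h7)
    · exact hy (hP.mem_of_pow_mem _ h6)
  exact ⟨m, a, _, D.U_eq_of hu1 (D.NI_of_moved hP h0 hu3 hy hs), hu2, hu3, hb, hs⟩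

end Dat

end Pool.Agent.Y713.SE
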