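import Pool.Agent.Y713.SE.Ev

/-! Norms of ideals. -/

set_option autoImplicit false
set_option linter.all false

open Polynomial

namespace Pool.Agent.Y713.SE

namespace Dat

variable {ℓ n : ℕ} {E : Type} [Field E] (D : Dat ℓ n E)

/-- image of an ideal under `s j` -/
noncomputable def sI (j : ℕ) (I : Ideal D.A) : Ideal D.A := I.map (D.s j)

lemma mem_sI {j : ℕ} {I : Ideal D.A} {a : D.A} : a ∈ D.sI j I ↔ ∃ b ∈ I, D.s j b = a :=
  Ideal.mem_map_iff_of_surjective _ (D.s j).surjective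

lemma sI_mul (j : ℕ) (I J : Ideal D.A) : D.sI j (I * J) = D.sI j I * D.sI j J := Ideal.map_mul _ _ _

lemma sI_sI (i j : ℕ) (I : Ideal D.A) : D.sI i (D.sI j I) = D.sI (i + j) I := by
  ext a
  rw [mem_sI, mem_sI]
  constructor
  · rintro ⟨b, hb, rfl⟩
    obtain ⟨c, hc, rfl⟩ := D.mem_sI.1 hb
    exact ⟨c, hc, (D.s_s i j c).symm⟩
  · rintro ⟨c, hc, rfl⟩
    exact ⟨D.s j c, D.mem_sI.2 ⟨c, hc, rfl⟩, D.s_s i j c⟩

lemma sI_zero (I : Ideal D.A) : D.sI 0 I = I := by
  ext a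
  rw [mem_sI]
  constructor
  · rintro ⟨b, hb, rfl⟩; rwa [s_zero]
  · intro h; exact ⟨a, h, D.s_zero a⟩

lemma sI_ell (I : Ideal D.A) : D.sI ℓ I = I := by
  ext a
  rw [mem_sI]
  constructor
  · rintro ⟨b, hb, rfl⟩; rwa [s_ell]
  · intro h; exact ⟨a, h, D.s_ell a⟩

lemma sI_mul_ell (k : ℕ) (I : Ideal D.A) : D.sI (ℓ * k) I = I := by
  induction k with
  | zero => rw [mul_zero, sI_zero]
  | succ k ih => rw [mul_add, mul_one, ← sI_sI, sI_ell, ih]

lemma sI_span (j : ℕ) (a : D.A) : D.sI j (Ideal.span {a}) = Ideal.span {D.s j a} := by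
  unfold sI
  rw [Ideal.map_span, Set.image_singleton]

lemma sI_top (j : ℕ) : D.sI j ⊤ = ⊤ := Ideal.map_top _

lemma sI_mono (j : ℕ) {I J : Ideal D.A} (h : I ≤ J) : D.sI j I ≤ D.sI j J := Ideal.map_mono h

lemma sI_inj (j : ℕ) {I J : Ideal D.A} (h : D.sI j I = D.sI j J) : I = J := by
  have aux : ∀ {I J : Ideal D.A}, D.sI j I = D.sI j J → I ≤ J := by
    intro I J h a ha
    have h1 : D.s j a ∈ D.sI j J := h ▸ D.mem_sI.2 ⟨a, ha, rfl⟩
    obtain ⟨b, hb, hab⟩ := D.mem_sI.1 h1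
    rw [← (D.s j).injective hab]; exact hb
  exact le_antisymm (aux h) (aux h.symm)

lemma sI_bot (j : ℕ) : D.sI j ⊥ = ⊥ := Ideal.map_bot

lemma sI_ne {j : ℕ} {I : Ideal D.A} (hI : I ≠ ⊥) : D.sI j I ≠ ⊥ := fun h =>
  hI (D.sI_inj j (h.trans (D.sI_bot j).symm))

lemma sI_prime (j : ℕ) {P : Ideal D.A} (hP : P.IsPrime) : (D.sI j P).IsPrime :=
  Ideal.map_isPrime_of_equiv (D.s j)

/-- the norm of an ideal, as an ideal of the same ring -/
noncomputable def NI (I : Ideal D.A) : Ideal D.A := ∏ j ∈ Finset.range ℓ, D.sI j I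

lemma NI_mul (I J : Ideal D.A) : D.NI (I * J) = D.NI I * D.NI J := by
  unfold NI
  rw [← Finset.prod_mul_distrib]
  exact Finset.prod_congr rfl fun j _ => D.sI_mul j I J

lemma NI_sI (i : ℕ) (I : Ideal D.A) : D.NI (D.sI i I) = D.NI I := by
  induction i with
  | zero => rw [sI_zero]
  | succ k ih =>
    rw [← ih]
    unfold NI
    have h1 : ∀ j, D.sI j (D.sI (k + 1) I) = (fun m => D.sI m (D.sI k I)) (j + 1) := by
      intro j
      simp only [sI_sI]
      congr 1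
      rw [add_right_comm, add_assoc]
    rw [Finset.prod_congr rfl fun j _ => h1 j]
    exact D.prod_shift (fun m => D.sI m (D.sI k I)) (by rw [sI_ell, sI_zero])

lemma NI_span (a : D.A) : D.NI (Ideal.span {a}) = Ideal.span {algebraMap E[X] D.A (D.Nm a)} := by
  unfold NI
  rw [Finset.prod_congr rfl fun j _ => D.sI_span j a, Ideal.prod_span_singleton, Nm_spec]

lemma NI_top : D.NI ⊤ = ⊤ := by
  unfold NI
  rw [Finset.prod_congr rfl fun j _ => D.sI_top j, Finset.prod_const, ← Ideal.one_eq_top, one_pow]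

lemma NI_ne {I : Ideal D.A} (hI : I ≠ ⊥) : D.NI I ≠ ⊥ := by
  unfold NI
  rw [← Ideal.zero_eq_bot]
  exact Finset.prod_ne_zero_iff.2 fun j _ => D.sI_ne hI

lemma span_alg_inj {U V : E[X]} (hU : U.Monic) (hV : V.Monic)
    (h : Ideal.span {algebraMap E[X] D.A U} = Ideal.span {algebraMap E[X] D.A V}) : U = V := by
  rw [Ideal.span_singleton_eq_span_singleton] at h
  obtain ⟨u, hu⟩ := h
  obtain ⟨c, hc, huc⟩ := D.unit_const u.isUnit
  rw [huc, ← map_mul] at hu
  have h1 := D.injA hu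
  have h2 := congrArg leadingCoeff h1
  rw [leadingCoeff_mul, leadingCoeff_C, hU.leadingCoeff, hV.leadingCoeff, one_mul] at h2
  rw [h2, C_1, mul_one] at h1
  exact h1

/-- the prime at the `i`-th branch point -/
noncomputable def PP (i : Fin n) : Ideal D.A := RingHom.ker (D.ev i)

lemma mem_PP {i : Fin n} {a : D.A} : a ∈ D.PP i ↔ D.ev i a = 0 := RingHom.mem_ker

lemma ev_surj (i : Fin n) : Function.Surjective (D.ev i) := fun c =>
  ⟨algebraMap E[X] D.A (C c), by rw [ev_alg, eval_C]⟩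

instance PP_max (i : Fin n) : (D.PP i).IsMaximal := RingHom.ker_isMaximal_of_surjective _ (D.ev_surj i)

lemma y_mem_PP (i : Fin n) : D.y ∈ D.PP i := D.mem_PP.2 (D.ev_y i)

lemma X_mem_PP (i : Fin n) : algebraMap E[X] D.A (X - C (D.e i)) ∈ D.PP i := by
  rw [mem_PP, ev_alg]; simp

lemma PP_ne (i : Fin n) : D.PP i ≠ ⊥ := fun h => D.y_ne (by
  have := D.y_mem_PP i
  rwa [h, Ideal.mem_bot] at this)

lemma PP_le {i : Fin n} {P : Ideal D.A} (h1 : D.y ∈ P)
    (h2 : algebraMap E[X] D.A (X - C (D.e i)) ∈ P) : D.PP i ≤ P := by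
  intro a ha
  obtain ⟨t, ht⟩ := D.exists_y a
  rw [mem_PP, ev_eq] at ha
  obtain ⟨r, hr⟩ := dvd_iff_isRoot.2 ha
  rw [ht, hr, map_mul]
  exact P.add_mem (P.mul_mem_right _ h2) (P.mul_mem_right _ h1)

lemma sI_PP (i : Fin n) (j : ℕ) : D.sI j (D.PP i) = D.PP i := by
  have h : ∀ j, D.sI j (D.PP i) ≤ D.PP i := by
    intro j a ha
    obtain ⟨b, hb, rfl⟩ := D.mem_sI.1 ha
    rw [mem_PP, ev_s]
    exact D.mem_PP.1 hb
  refine le_antisymm (h j) ?_
  have h2 := D.sI_mono j (h ((ℓ - 1) * j))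
  rw [sI_sI] at h2
  have h3 : j + (ℓ - 1) * j = ℓ * j := by
    have := D.pos
    obtain ⟨k, rfl⟩ : ∃ k, ℓ = k + 1 := ⟨ℓ - 1, (Nat.sub_add_cancel this).symm⟩
    rw [Nat.add_sub_cancel]; ring
  rwa [h3, sI_mul_ell] at h2

lemma isCoprime_g (i : Fin n) (k m : ℕ) : IsCoprime ((X - C (D.e i)) ^ k) (D.g i ^ m) := by
  apply IsCoprime.pow
  rw [(irreducible_X_sub_C (D.e i)).coprime_iff_not_dvd, dvd_iff_isRoot]
  exact D.g_eval_ne i

lemma PP_pow (i : Fin n) : (D.PP i) ^ ℓ = Ideal.span {algebraMap E[X] D.A (X - C (D.e i))} := by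
  apply le_antisymm
  · have key : ∀ m : ℕ, ∀ a ∈ (D.PP i) ^ m, ∃ b, a * D.gA i ^ m = D.y ^ m * b := by
      intro m
      induction m with
      | zero => intro a _; exact ⟨a, by simp⟩
      | succ m ih =>
        intro a ha
        rw [pow_succ] at ha
        induction ha using Submodule.mul_induction_on' with
        | mem_mul_mem u hu v hv =>
          obtain ⟨b, hb⟩ := ih u hu
          obtain ⟨b', hb'⟩ := D.step (D.mem_PP.1 hv)
          refine ⟨b * b', ?_⟩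
          calc u * v * D.gA i ^ (m + 1) = (u * D.gA i ^ m) * (v * D.gA i) := by rw [pow_succ]; ring
            _ = _ := by rw [hb, hb', pow_succ]; ring
        | add u _ v _ h1 h2 =>
          obtain ⟨b, hb⟩ := h1
          obtain ⟨b', hb'⟩ := h2
          exact ⟨b + b', by rw [add_mul, hb, hb', mul_add]⟩
    intro a ha
    obtain ⟨b, hb⟩ := key ℓ a ha
    have h1 : a * algebraMap E[X] D.A (D.g i ^ (ℓ - 1)) =
        algebraMap E[X] D.A (X - C (D.e i)) * b := by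
      apply mul_right_cancel₀ (D.gA_ne i)
      have h2 : algebraMap E[X] D.A (D.g i ^ (ℓ - 1)) * D.gA i = D.gA i ^ ℓ := by
        rw [map_pow]
        show D.gA i ^ (ℓ - 1) * D.gA i = _
        rw [← pow_succ, Nat.sub_add_cancel D.pos]
      rw [mul_assoc, h2, hb, D.y_pow' i]; ring
    have hcop := D.isCoprime_g i 1 (ℓ - 1)
    rw [pow_one] at hcop
    obtain ⟨p, q, hpq⟩ := hcop
    rw [Ideal.mem_span_singleton]
    have h3 := congrArg (algebraMap E[X] D.A) hpq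
    rw [map_add, map_mul, map_mul, map_one] at h3
    refine ⟨algebraMap E[X] D.A p * a + algebraMap E[X] D.A q * b, ?_⟩
    calc a = (algebraMap E[X] D.A p * algebraMap E[X] D.A (X - C (D.e i)) +
          algebraMap E[X] D.A q * algebraMap E[X] D.A (D.g i ^ (ℓ - 1))) * a := by rw [h3, one_mul]
      _ = algebraMap E[X] D.A p * algebraMap E[X] D.A (X - C (D.e i)) * a +
          algebraMap E[X] D.A q * (a * algebraMap E[X] D.A (D.g i ^ (ℓ - 1))) := by ring
      _ = _ := by rw [h1]; ring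
  · rw [Ideal.span_singleton_le_iff_mem]
    have hcop := D.isCoprime_g i (ℓ - 1) 1
    rw [pow_one] at hcop
    obtain ⟨p, q, hpq⟩ := hcop
    have h3 : (X - C (D.e i) : E[X]) =
        p * (X - C (D.e i)) ^ ℓ + q * ((X - C (D.e i)) * D.g i) := by
      calc (X - C (D.e i) : E[X]) = (p * (X - C (D.e i)) ^ (ℓ - 1) + q * D.g i) * (X - C (D.e i)) := by
            rw [hpq, one_mul]
        _ = p * ((X - C (D.e i)) ^ (ℓ - 1) * (X - C (D.e i))) + q * ((X - C (D.e i)) * D.g i) := by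
            ring
        _ = _ := by rw [← pow_succ, Nat.sub_add_cancel D.pos]
    have h4 := congrArg (algebraMap E[X] D.A) h3
    rw [map_add, map_mul, map_mul, map_pow, map_mul _ (X - C (D.e i)) (D.g i)] at h4
    rw [h4]
    refine Ideal.add_mem _ (Ideal.mul_mem_left _ _ (Ideal.pow_mem_pow (D.X_mem_PP i) _))
      (Ideal.mul_mem_left _ _ ?_)
    have h5 := Ideal.pow_mem_pow (D.y_mem_PP i) ℓ
    rwa [D.y_pow' i] at h5

lemma NI_PP (i : Fin n) : D.NI (D.PP i) = Ideal.span {algebraMap E[X] D.A (X - C (D.e i))} := by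
  unfold NI
  rw [Finset.prod_congr rfl fun j _ => D.sI_PP i j, Finset.prod_const, Finset.card_range, PP_pow]

/-- the contraction of a prime -/
lemma exists_u {P : Ideal D.A} (hP : P.IsPrime) (h0 : P ≠ ⊥) :
    ∃ u : E[X], u.Monic ∧ Irreducible u ∧ ∀ g : E[X], algebraMap E[X] D.A g ∈ P ↔ u ∣ g := by
  have hpr : (P.comap (algebraMap E[X] D.A)).IsPrime := Ideal.comap_isPrime _ _
  have hne : P.comap (algebraMap E[X] D.A) ≠ ⊥ := by
    obtain ⟨a, ha, ha0⟩ := Submodule.exists_mem_ne_zero_of_ne_bot h0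
    intro h
    have h1 : D.Nm a ∈ P.comap (algebraMap E[X] D.A) := by
      rw [Ideal.mem_comap]
      obtain ⟨b, hb⟩ := D.dvd_Nm a
      rw [hb]; exact P.mul_mem_right _ ha
    rw [h, Ideal.mem_bot] at h1
    exact D.Nm_ne ha0 h1
  obtain ⟨v, hv⟩ : ∃ v, P.comap (algebraMap E[X] D.A) = Ideal.span {v} :=
    ⟨_, (Ideal.span_singleton_generator _).symm⟩
  have hv0 : v ≠ 0 := by
    rintro rfl
    rw [Ideal.span_singleton_eq_bot.2 rfl] at hv
    exact hne hv
  have hirr : Irreducible v := by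
    rw [hv, Ideal.span_singleton_prime hv0] at hpr
    exact hpr.irreducible
  have hlc : v.leadingCoeff⁻¹ ≠ 0 := inv_ne_zero (leadingCoeff_ne_zero.2 hv0)
  have hass : Associated v (v * C (v.leadingCoeff⁻¹)) :=
    (associated_mul_isUnit_right_iff (isUnit_C.2 (isUnit_iff_ne_zero.2 hlc))).2
      (Associated.refl v)
  refine ⟨v * C (v.leadingCoeff⁻¹), monic_mul_leadingCoeff_inv hv0, hass.irreducible hirr,
    fun g => ?_⟩
  rw [← hass.dvd_iff_dvd_left, ← Ideal.mem_span_singleton, ← hv, Ideal.mem_comap]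

lemma mem_span_u {P : Ideal D.A} (hP : P.IsPrime) {u : E[X]}
    (hu : ∀ g : E[X], algebraMap E[X] D.A g ∈ P ↔ u ∣ g) (hy : D.y ∉ P) {a : D.A}
    (ha : ∀ j, D.s j a ∈ P) : a ∈ Ideal.span {algebraMap E[X] D.A u} := by
  rw [Ideal.mem_span_singleton]
  have h1 : ∀ k : Fin ℓ, u ∣ D.c k a := by
    intro k
    have h2 := D.sum_s a k
    have h3 : (C (ℓ : E) * D.c k a) • D.y ^ (k : ℕ) ∈ P := by
      rw [← h2]
      refine Ideal.sum_mem _ fun i _ => ?_
      rw [Algebra.smul_def]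
      exact P.mul_mem_left _ (ha i)
    rw [Algebra.smul_def] at h3
    rcases hP.mem_or_mem h3 with h4 | h4
    · rw [hu] at h4
      exact (IsUnit.dvd_mul_left (isUnit_C.2 (isUnit_iff_ne_zero.2 D.hne))).1 h4
    · exact absurd (hP.mem_of_pow_mem _ h4) hy
  choose q hq using h1
  refine ⟨∑ k, q k • D.y ^ (k : ℕ), ?_⟩
  conv_lhs => rw [← D.sum_c a]
  rw [Finset.mul_sum]
  refine Finset.sum_congr rfl fun k _ => ?_
  rw [hq k, Algebra.smul_def, Algebra.smul_def, map_mul]; ring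

lemma span_u_of_fixed {P : Ideal D.A} (hP : P.IsPrime) {u : E[X]}
    (hu : ∀ g : E[X], algebraMap E[X] D.A g ∈ P ↔ u ∣ g) (hy : D.y ∉ P) (hs : D.sI 1 P = P) :
    P = Ideal.span {algebraMap E[X] D.A u} := by
  apply le_antisymm
  · intro a ha
    refine D.mem_span_u hP hu hy fun j => ?_
    have h1 : ∀ j, D.sI j P = P := by
      intro j
      induction j with
      | zero => rw [sI_zero]
      | succ k ih => rw [← sI_sI, hs, ih]
    rw [← h1 j]
    exact D.mem_sI.2 ⟨a, ha, rfl⟩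
  · rw [Ideal.span_singleton_le_iff_mem, hu]

lemma NI_of_fixed {P : Ideal D.A} (hP : P.IsPrime) {u : E[X]}
    (hu : ∀ g : E[X], algebraMap E[X] D.A g ∈ P ↔ u ∣ g) (hy : D.y ∉ P) (hs : D.sI 1 P = P) :
    D.NI P = Ideal.span {algebraMap E[X] D.A (u ^ ℓ)} := by
  rw [D.span_u_of_fixed hP hu hy hs, NI_span, Nm_algebraMap]

lemma sI_one_of {P : Ideal D.A} {i j : ℕ} (hi : i < j) (hj : j < ℓ) (h : D.sI i P = D.sI j P) :
    D.sI 1 P = P := by
  have h1 : D.sI (j - i) P = P := by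
    apply D.sI_inj i
    rw [sI_sI, Nat.add_sub_cancel' hi.le, h]
  have h2 : ∀ m, D.sI ((j - i) * m) P = P := by
    intro m
    induction m with
    | zero => rw [mul_zero, sI_zero]
    | succ m ih => rw [mul_add, mul_one, ← sI_sI, h1, ih]
  have hc : Nat.Coprime (j - i) ℓ :=
    (Nat.coprime_of_lt_prime (Nat.sub_pos_of_lt hi).ne' (by omega) D.hp).symm
  obtain ⟨m, -, hm⟩ := Nat.exists_mul_mod_eq_one_of_coprime hc D.hp.one_lt
  have h3 := Nat.div_add_mod ((j - i) * m) ℓ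
  have h4 := h2 m
  rw [← h3, hm, add_comm, ← sI_sI, sI_mul_ell] at h4
  exact h4

lemma NI_of_moved {P : Ideal D.A} (hP : P.IsPrime) (h0 : P ≠ ⊥) {u : E[X]}
    (hu : ∀ g : E[X], algebraMap E[X] D.A g ∈ P ↔ u ∣ g) (hy : D.y ∉ P) (hs : D.sI 1 P ≠ P) :
    D.NI P = Ideal.span {algebraMap E[X] D.A u} := by
  classical
  have hinj : Set.InjOn (fun j => D.sI j P) (Finset.range ℓ : Set ℕ) := by
    intro i hi j hj h
    rw [Finset.coe_range, Set.mem_Iio] at hi hj
    rcases lt_trichotomy i j with h1 | h1 | h1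
    · exact absurd (D.sI_one_of h1 hj h) hs
    · exact h1
    · exact absurd (D.sI_one_of h1 hi h.symm) hs
  apply le_antisymm
  · intro a ha
    have h1 : ∀ j < ℓ, a ∈ D.sI j P := fun j hj =>
      Ideal.prod_le_inf.trans (Finset.inf_le (Finset.mem_range.2 hj)) ha
    have h2 : ∀ j < ℓ, D.s j a ∈ P := by
      intro j hj
      rcases Nat.eq_zero_or_pos j with rfl | hj0
      · rw [s_zero]
        have := h1 0 D.pos
        rwa [sI_zero] at this
      · have h3 := D.mem_sI.2 ⟨a, h1 (ℓ - j) (by omega), (rfl : D.s j a = D.s j a)⟩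
        rwa [sI_sI, Nat.add_sub_cancel' hj.le, sI_ell] at h3
    refine D.mem_span_u hP hu hy fun j => ?_
    have h4 : D.s j a = D.s (j % ℓ) a := by
      apply D.s_mod
      conv_lhs => rw [← Nat.div_add_mod j ℓ, pow_add, pow_mul, D.hζ.pow_eq_one, one_pow, one_mul]
    rw [h4]
    exact h2 _ (Nat.mod_lt _ D.pos)
  · rw [← Ideal.dvd_iff_le]
    unfold NI
    have him : ∏ j ∈ Finset.range ℓ, D.sI j P =
        ∏ Q ∈ (Finset.range ℓ).image (fun j => D.sI j P), id Q :=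
      (Finset.prod_image (f := id) hinj).symm
    rw [him]
    apply Finset.prod_primes_dvd
    · intro Q hQ
      obtain ⟨j, _, rfl⟩ := Finset.mem_image.1 hQ
      exact Ideal.prime_of_isPrime (D.sI_ne h0) (D.sI_prime j hP)
    · intro Q hQ
      obtain ⟨j, _, rfl⟩ := Finset.mem_image.1 hQ
      rw [Ideal.dvd_iff_le, Ideal.span_singleton_le_iff_mem]
      refine D.mem_sI.2 ⟨algebraMap E[X] D.A u, (hu u).2 dvd_rfl, AlgEquiv.commutes _ _⟩

lemma eq_PP_of_y_mem {P : Ideal D.A} (hP : P.IsPrime) (hy : D.y ∈ P) : ∃ i, P = D.PP i := by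
  have h1 : algebraMap E[X] D.A D.f ∈ P := by
    rw [← D.y_pow]; exact Ideal.pow_mem_of_mem _ hy _ D.pos
  have h2 : ∃ i, algebraMap E[X] D.A (X - C (D.e i)) ∈ P := by
    have h3 : algebraMap E[X] D.A D.f = algebraMap E[X] D.A (C D.δ) *
        ∏ i, algebraMap E[X] D.A (X - C (D.e i)) := by
      rw [← map_prod, ← map_mul]; rfl
    rw [h3] at h1
    rcases hP.mem_or_mem h1 with h4 | h4
    · exfalso
      have h5 : IsUnit (algebraMap E[X] D.A (C D.δ)) :=
        (isUnit_C.2 (isUnit_iff_ne_zero.2 D.hδ)).map _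
      exact hP.ne_top (Ideal.eq_top_of_isUnit_mem _ h4 h5)
    · obtain ⟨i, _, hi⟩ := (Ideal.IsPrime.prod_mem_iff).1 h4
      exact ⟨i, hi⟩
  obtain ⟨i, hi⟩ := h2
  exact ⟨i, ((D.PP_max i).eq_of_le hP.ne_top (D.PP_le hy hi)).symm⟩

theorem exists_U {I : Ideal D.A} (hI : I ≠ ⊥) :
    ∃ U : E[X], U.Monic ∧ D.NI I = Ideal.span {algebraMap E[X] D.A U} := by
  induction I using UniqueFactorizationMonoid.induction_on_prime with
  | h₁ => exact absurd rfl hI
  | h₂ J hJ =>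
    rw [Ideal.isUnit_iff] at hJ
    subst hJ
    refine ⟨1, monic_one, ?_⟩
    rw [NI_top, map_one, Ideal.span_singleton_one]
  | h₃ J P hJ hP ih =>
    obtain ⟨V, hV, hV'⟩ := ih hJ
    have hPp : P.IsPrime := Ideal.isPrime_of_prime hP
    have hP0 : P ≠ ⊥ := hP.ne_zero
    obtain ⟨W, hW, hW'⟩ : ∃ U : E[X], U.Monic ∧ D.NI P = Ideal.span {algebraMap E[X] D.A U} := by
      by_cases hy : D.y ∈ P
      · obtain ⟨i, rfl⟩ := D.eq_PP_of_y_mem hPp hy
        exact ⟨_, monic_X_sub_C _, D.NI_PP i⟩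
      · obtain ⟨u, hu1, hu2, hu3⟩ := D.exists_u hPp hP0
        by_cases hs : D.sI 1 P = P
        · exact ⟨_, hu1.pow ℓ, D.NI_of_fixed hPp hu3 hy hs⟩
        · exact ⟨_, hu1, D.NI_of_moved hPp hP0 hu3 hy hs⟩
    refine ⟨W * V, hW.mul hV, ?_⟩
    rw [NI_mul, hV', hW', Ideal.span_singleton_mul_span_singleton, map_mul]

open Classical in
/-- the monic generator of the norm of an ideal -/
noncomputable def U (I : Ideal D.A) : E[X] :=
  if h : ∃ U : E[X], U.Monic ∧ D.NI I = Ideal.span {algebraMap E[X] D.A U} then h.choose else 1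

lemma U_monic (I : Ideal D.A) : (D.U I).Monic := by
  unfold U
  split_ifs with h
  · exact h.choose_spec.1
  · exact monic_one

lemma NI_eq {I : Ideal D.A} (hI : I ≠ ⊥) : D.NI I = Ideal.span {algebraMap E[X] D.A (D.U I)} := by
  have h := D.exists_U hI
  unfold U
  rw [dif_pos h]
  exact h.choose_spec.2

lemma U_eq_of {I : Ideal D.A} {V : E[X]} (hV : V.Monic)
    (h : D.NI I = Ideal.span {algebraMap E[X] D.A V}) : D.U I = V := by
  have hex : ∃ U : E[X], U.Monic ∧ D.NI I = Ideal.span {algebraMap E[X] D.A U} := ⟨V, hV, h⟩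
  have h2 : D.NI I = Ideal.span {algebraMap E[X] D.A (D.U I)} := by
    unfold U
    rw [dif_pos hex]
    exact hex.choose_spec.2
  exact D.span_alg_inj (D.U_monic I) hV (h2.symm.trans h)

lemma U_mul {I J : Ideal D.A} (hI : I ≠ ⊥) (hJ : J ≠ ⊥) : D.U (I * J) = D.U I * D.U J := by
  apply D.U_eq_of ((D.U_monic I).mul (D.U_monic J))
  rw [NI_mul, D.NI_eq hI, D.NI_eq hJ, Ideal.span_singleton_mul_span_singleton, map_mul]

lemma U_sI (j : ℕ) {I : Ideal D.A} (hI : I ≠ ⊥) : D.U (D.sI j I) = D.U I := by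
  apply D.U_eq_of (D.U_monic I)
  rw [NI_sI, D.NI_eq hI]

lemma U_top : D.U ⊤ = 1 := by
  apply D.U_eq_of monic_one
  rw [NI_top, map_one, Ideal.span_singleton_one]

lemma U_PP (i : Fin n) : D.U (D.PP i) = X - C (D.e i) :=
  D.U_eq_of (monic_X_sub_C _) (D.NI_PP i)

lemma U_span {a : D.A} (ha : a ≠ 0) :
    D.U (Ideal.span {a}) = D.Nm a * C ((D.Nm a).leadingCoeff⁻¹) := by
  have h0 := D.Nm_ne ha
  apply D.U_eq_of (monic_mul_leadingCoeff_inv h0)
  rw [NI_span, Ideal.span_singleton_eq_span_singleton, map_mul]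
  apply (associated_mul_isUnit_right_iff _).2 (Associated.refl _)
  exact (isUnit_C.2 (isUnit_iff_ne_zero.2 (inv_ne_zero (leadingCoeff_ne_zero.2 h0)))).map _

lemma U_ne (I : Ideal D.A) : D.U I ≠ 0 := (D.U_monic I).ne_zero

lemma U_alg {V : E[X]} (hV : V.Monic) :
    D.U (Ideal.span {algebraMap E[X] D.A V}) = V ^ ℓ := by
  rw [U_span _ (D.alg_ne hV.ne_zero), Nm_algebraMap, (hV.pow ℓ).leadingCoeff, inv_one, C_1,
    mul_one]

lemma natDegree_U_span {a : D.A} (ha : a ≠ 0) :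
    (D.U (Ideal.span {a})).natDegree = (D.Nm a).natDegree := by
  rw [D.U_span ha, mul_comm, natDegree_C_mul]
  exact inv_ne_zero (leadingCoeff_ne_zero.2 (D.Nm_ne ha))

lemma U_pow {I : Ideal D.A} (hI : I ≠ ⊥) (k : ℕ) : D.U (I ^ k) = D.U I ^ k := by
  induction k with
  | zero => rw [pow_zero, pow_zero, Ideal.one_eq_top, U_top]
  | succ k ih =>
    rw [pow_succ, pow_succ, U_mul _ _ hI, ih]
    rw [← Ideal.zero_eq_bot] at hI ⊢
    exact pow_ne_zero _ hI

lemma span_ne {a : D.A} (ha : a ≠ 0) : Ideal.span {a} ≠ ⊥ := fun h =>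
  ha (Ideal.span_singleton_eq_bot.1 h)

lemma mul_ne {I J : Ideal D.A} (hI : I ≠ ⊥) (hJ : J ≠ ⊥) : I * J ≠ ⊥ := by
  rw [← Ideal.zero_eq_bot] at *
  exact mul_ne_zero hI hJ

end Dat

end Pool.Agent.Y713.SE
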