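import Mathlib

/-! A discrete valuation on `k[X] / (D)` when `D = Π + ϖ + ϖ ^ 2 E`. -/

set_option autoImplicit false
set_option linter.all false

open Polynomial IsLocalRing

namespace Pool.Agent.Y713.SE

section dvr
variable {V : Type} [CommRing V] [IsDomain V] [IsDiscreteValuationRing V]

lemma map_res_eq_zero {ϖ : V} (hϖ : Irreducible ϖ) {g : V[X]} (h : g.map (residue V) = 0) :
    ∃ s : V[X], g = C ϖ * s := by
  have h1 : C ϖ ∣ g := by
    rw [C_dvd_iff_dvd_coeff]
    intro i
    have h2 : residue V (g.coeff i) = 0 := by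
      rw [← coeff_map, h, coeff_zero]
    rw [residue_eq_zero_iff, hϖ.maximalIdeal_eq, Ideal.mem_span_singleton] at h2
    exact h2
  exact h1

lemma res_unif {ϖ : V} (hϖ : Irreducible ϖ) : residue V ϖ = 0 := by
  rw [residue_eq_zero_iff, hϖ.maximalIdeal_eq]
  exact Ideal.mem_span_singleton_self _

theorem exists_val {D : V[X]} (hD : D.Monic) (hDirr : Irreducible D) {ϖ : V}
    (hϖ : Irreducible ϖ) {Q E : V[X]} (hDE : D = Q + C ϖ + C (ϖ ^ 2) * E) {π U : V[X]}
    (hQ : Q = π * U) {r : (ResidueField V)[X]} (hr : Irreducible r)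
    (hrπ : r ∣ π.map (residue V)) (hr2 : ¬ r * r ∣ Q.map (residue V)) :
    ∃ (B : Type) (_ : CommRing B) (_ : IsDomain B) (f : V[X] →+* B), f D = 0 ∧
      Prime (f (C ϖ)) ∧ (∀ g : V[X], ¬ r ∣ g.map (residue V) → IsUnit (f g)) ∧
      Associated (f π) (f (C ϖ)) := by
  have hϖ0 := res_unif hϖ
  have hDres : D.map (residue V) = Q.map (residue V) := by
    rw [hDE, Polynomial.map_add, Polynomial.map_add, Polynomial.map_mul, map_C, map_C, map_pow,
      hϖ0]
    simp
  haveI : Fact (Irreducible r) := ⟨hr⟩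
  have hDp : Prime D := hDirr.prime
  haveI : IsDomain (AdjoinRoot D) := AdjoinRoot.isDomain_of_prime hDp
  let Θ : AdjoinRoot D →+* AdjoinRoot r :=
    AdjoinRoot.lift ((AdjoinRoot.of r).comp (residue V)) (AdjoinRoot.root r) (by
      rw [← Polynomial.eval₂_map, hDres, hQ, Polynomial.map_mul]
      obtain ⟨s, hs⟩ := hrπ
      rw [hs, eval₂_mul, eval₂_mul, AdjoinRoot.eval₂_root, zero_mul, zero_mul])
  have hΘ : ∀ g : V[X], Θ (AdjoinRoot.mk D g) = AdjoinRoot.mk r (g.map (residue V)) := by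
    intro g
    show AdjoinRoot.lift _ _ _ (AdjoinRoot.mk D g) = _
    rw [AdjoinRoot.lift_mk, ← Polynomial.eval₂_map, ← AdjoinRoot.aeval_eq]
    rfl
  let P : Ideal (AdjoinRoot D) := RingHom.ker Θ
  haveI hP : P.IsPrime := RingHom.ker_isPrime Θ
  let B := Localization.AtPrime P
  let f : V[X] →+* B := (algebraMap (AdjoinRoot D) B).comp (AdjoinRoot.mk D)
  have hmem : ∀ g : V[X], AdjoinRoot.mk D g ∈ P ↔ r ∣ g.map (residue V) := by
    intro g
    rw [RingHom.mem_ker, hΘ, AdjoinRoot.mk_eq_zero]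
  have hunit : ∀ g : V[X], ¬ r ∣ g.map (residue V) → IsUnit (f g) := by
    intro g hg
    exact IsLocalization.map_units B (⟨AdjoinRoot.mk D g, fun h => hg ((hmem g).1 h)⟩ :
      P.primeCompl)
  have hf0 : f D = 0 := by
    show algebraMap (AdjoinRoot D) B (AdjoinRoot.mk D D) = 0
    rw [AdjoinRoot.mk_self, map_zero]
  haveI : IsDomain B := IsLocalization.isDomain_localization P.primeCompl_le_nonZeroDivisors
  -- `Q` and `ϖ` are associated
  have hu1 : IsUnit (f (1 + C ϖ * E)) := by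
    apply hunit
    rw [Polynomial.map_add, Polynomial.map_mul, map_C, hϖ0]
    simp only [Polynomial.map_one, C_0, zero_mul, add_zero]
    exact fun h => hr.not_isUnit (isUnit_of_dvd_one h)
  have hQϖ : f Q = - f (C ϖ) * f (1 + C ϖ * E) := by
    have h1 : f (Q + C ϖ * (1 + C ϖ * E)) = 0 := by
      have e : Q + C ϖ * (1 + C ϖ * E) = D := by
        rw [hDE, C_pow]; ring
      rw [e, hf0]
    rw [map_add, map_mul] at h1
    linear_combination h1
  have hU : IsUnit (f U) := by
    apply hunit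
    intro h
    apply hr2
    rw [hQ, Polynomial.map_mul]
    exact mul_dvd_mul hrπ h
  have hass : Associated (f π) (f (C ϖ)) := by
    have h1 : f π * f U = - f (C ϖ) * f (1 + C ϖ * E) := by rw [← map_mul, ← hQ, hQϖ]
    have h2 : Associated (f π) (f π * f U) := (associated_mul_unit_right _ _ hU)
    have h3 : Associated (- f (C ϖ)) (- f (C ϖ) * f (1 + C ϖ * E)) :=
      (associated_mul_unit_right _ _ hu1)
    rw [h1] at h2
    exact (h2.trans h3.symm).trans (Associated.neg_left (Associated.refl _))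
  refine ⟨B, inferInstance, inferInstance, f, hf0, ?_, hunit, hass⟩
  -- primality
  have hne : f (C ϖ) ≠ 0 := by
    intro h
    have h1 : AdjoinRoot.mk D (C ϖ) = 0 := by
      apply IsLocalization.injective B P.primeCompl_le_nonZeroDivisors
      rw [map_zero]; exact h
    rw [AdjoinRoot.mk_eq_zero] at h1
    have h2 : (C ϖ : V[X]) ≠ 0 := C_ne_zero.2 hϖ.ne_zero
    have h3 := natDegree_le_of_dvd h1 h2
    rw [natDegree_C] at h3
    have h4 : D = 1 := (hD.natDegree_eq_zero.1 (by omega))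
    rw [h4] at hDirr
    exact hDirr.not_isUnit isUnit_one
  rw [← Ideal.span_singleton_prime hne]
  have hmax : Ideal.span {f (C ϖ)} = maximalIdeal B := by
    rw [← IsLocalization.AtPrime.map_eq_maximalIdeal P B]
    apply le_antisymm
    · rw [Ideal.span_singleton_le_iff_mem]
      refine Ideal.mem_map_of_mem _ ((hmem _).2 ?_)
      rw [map_C, hϖ0, C_0]
      exact dvd_zero _
    · rw [Ideal.map_le_iff_le_comap]
      intro x hx
      obtain ⟨g, rfl⟩ := AdjoinRoot.mk_surjective x
      rw [hmem] at hx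
      obtain ⟨s', hs'⟩ := hx
      obtain ⟨ρ, hρ⟩ := Polynomial.map_surjective (residue V) residue_surjective r
      obtain ⟨s, hs⟩ := Polynomial.map_surjective (residue V) residue_surjective s'
      obtain ⟨t', ht'⟩ := hrπ
      obtain ⟨t, ht⟩ := Polynomial.map_surjective (residue V) residue_surjective t'
      obtain ⟨x1, hx1⟩ := map_res_eq_zero hϖ (g := g - ρ * s) (by
        rw [Polynomial.map_sub, Polynomial.map_mul, hs', hρ, hs, sub_self])
      obtain ⟨x2, hx2⟩ := map_res_eq_zero hϖ (g := π - ρ * t) (by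
        rw [Polynomial.map_sub, Polynomial.map_mul, ht', hρ, ht, sub_self])
      have htu : IsUnit (f t) := by
        apply hunit
        rw [ht]
        rintro ⟨w, hw⟩
        apply hr2
        rw [hQ, Polynomial.map_mul, ht', hw]
        exact ⟨w * U.map (residue V), by ring⟩
      show f g ∈ Ideal.span {f (C ϖ)}
      have hρm : f ρ ∈ Ideal.span {f (C ϖ)} := by
        have h1 : f ρ * f t ∈ Ideal.span {f (C ϖ)} := by
          have e : f ρ * f t = f π - f (C ϖ) * f x2 := by
            rw [← map_mul, ← map_mul, ← map_sub]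
            congr 1
            linear_combination -hx2
          rw [e]
          refine Ideal.sub_mem _ ?_ (Ideal.mul_mem_right _ _ (Ideal.mem_span_singleton_self _))
          rw [Ideal.mem_span_singleton]
          exact hass.symm.dvd
        obtain ⟨w, hw⟩ := htu
        rw [← hw] at h1
        have := Ideal.mul_mem_right (↑w⁻¹ : B) _ h1
        rwa [mul_assoc, Units.mul_inv, mul_one] at this
      have e : f g = f ρ * f s + f (C ϖ) * f x1 := by
        rw [← map_mul, ← map_mul, ← map_add]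
        congr 1
        linear_combination hx1
      rw [e]
      exact Ideal.add_mem _ (Ideal.mul_mem_right _ _ hρm)
        (Ideal.mul_mem_right _ _ (Ideal.mem_span_singleton_self _))
  rw [hmax]
  exact (IsLocalRing.maximalIdeal.isMaximal B).isPrime

lemma dvd_of_assoc_pow {B : Type} [CommRing B] [IsDomain B] {p : B} (hp : Prime p) {ℓ : ℕ}
    (hℓ : ℓ ≠ 0) (N : ℕ) : ∀ z : B, Associated (p ^ N) (z ^ ℓ) → ℓ ∣ N := by
  induction N using Nat.strong_induction_on with
  | _ N ih =>
  intro z hz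
  rcases Nat.eq_zero_or_pos N with h0 | hN
  · rw [h0]; exact dvd_zero _
  have h1 : p ∣ z ^ ℓ := (dvd_pow_self p hN.ne').trans hz.dvd
  obtain ⟨w, rfl⟩ := hp.dvd_of_dvd_pow h1
  rw [mul_pow] at hz
  by_cases hlt : N < ℓ
  · exfalso
    obtain ⟨u, hu⟩ := hz
    have e : p ^ ℓ = p ^ N * p ^ (ℓ - N) := by rw [← pow_add]; congr 1; omega
    rw [e, mul_assoc] at hu
    have h2 := mul_left_cancel₀ (pow_ne_zero _ hp.ne_zero) hu
    have h3 : p ∣ (u : B) := by
      rw [h2]
      exact (dvd_pow_self p (by omega)).mul_right _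
    exact hp.not_unit (isUnit_of_dvd_unit h3 u.isUnit)
  · have hle : ℓ ≤ N := by omega
    have e : p ^ N = p ^ ℓ * p ^ (N - ℓ) := by rw [← pow_add]; congr 1; omega
    rw [e] at hz
    have h2 := hz.of_mul_left (Associated.refl _) (pow_ne_zero _ hp.ne_zero)
    have h3 := ih (N - ℓ) (by have := Nat.pos_of_ne_zero hℓ; omega) w h2
    have h4 : N = (N - ℓ) + ℓ := by omega
    rw [h4]
    exact dvd_add h3 (dvd_refl _)

/-- the relation -/
theorem pd_V {ι : Type} [Fintype ι] [DecidableEq ι] {D : V[X]} (hD : D.Monic)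
    (hDirr : Irreducible D) {ϖ : V} (hϖ : Irreducible ϖ) {E : V[X]} (h : ι → V[X])
    (hDE : D = ∏ i, h i + C ϖ + C (ϖ ^ 2) * E)
    (hsq : Squarefree ((∏ i, h i).map (residue V))) (i : ι)
    (hi : 0 < ((h i).map (residue V)).natDegree) {ℓ : ℕ} (hℓ : ℓ ≠ 0) (a : ι → ℕ) (j : ℕ) (u : Vˣ)
    (z : V[X]) (hdvd : D ∣ C (ϖ ^ j * u) * ∏ i, h i ^ a i - z ^ ℓ) : ℓ ∣ j + a i := by
  obtain ⟨r, hr, hri⟩ : ∃ r : (ResidueField V)[X], Irreducible r ∧ r ∣ (h i).map (residue V) := by
    obtain ⟨r, hr, hd⟩ := WfDvdMonoid.exists_irreducible_factor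
      (a := (h i).map (residue V)) (fun hu => by
        rw [natDegree_eq_zero_of_isUnit hu] at hi
        exact lt_irrefl _ hi) (fun h0 => by
        rw [h0, natDegree_zero] at hi
        exact lt_irrefl _ hi)
    exact ⟨r, hr, hd⟩
  have hr2 : ¬ r * r ∣ (∏ i, h i).map (residue V) := fun hd => hr.not_isUnit (hsq r hd)
  have hprod : ∏ i, h i = h i * ∏ k ∈ Finset.univ.erase i, h k :=
    (Finset.mul_prod_erase _ _ (Finset.mem_univ i)).symm
  obtain ⟨B, _, _, f, hf0, hpr, hunit, hass⟩ := exists_val hD hDirr hϖ hDE hprod hr hri hr2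
  have hother : ∀ k, k ≠ i → IsUnit (f (h k)) := by
    intro k hk
    apply hunit
    intro hd
    apply hr2
    rw [hprod, Polynomial.map_mul]
    refine mul_dvd_mul hri (hd.trans ?_)
    exact Polynomial.map_dvd _ (Finset.dvd_prod_of_mem _ (Finset.mem_erase.2
      ⟨hk, Finset.mem_univ _⟩))
  obtain ⟨w, hw⟩ := hdvd
  have h1 : f (C (ϖ ^ j * u)) * ∏ i, f (h i ^ a i) = f z ^ ℓ := by
    have h1 := congrArg f hw
    have e1 : f (D * w) = 0 := by rw [map_mul f, hf0, zero_mul]
    rw [e1, map_sub f, sub_eq_zero, map_mul f, map_prod f, map_pow f] at h1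
    exact h1
  have h2 : f (C (ϖ ^ j * u)) = f (C ϖ) ^ j * f (C (u : V)) := by
    rw [C_mul, C_pow, map_mul, map_pow]
  have hu : IsUnit (f (C (u : V))) := (Polynomial.isUnit_C.2 u.isUnit).map f
  apply dvd_of_assoc_pow hpr hℓ _ (f z)
  rw [← h1, h2, ← Finset.mul_prod_erase _ _ (Finset.mem_univ i)]
  have hv : IsUnit (∏ k ∈ Finset.univ.erase i, f (h k ^ a k)) := by
    rw [IsUnit.prod_iff]
    intro k hk
    rw [map_pow]
    exact (hother k (Finset.ne_of_mem_erase hk)).pow _
  have e : f (C ϖ) ^ j * f (C (u : V)) * (f (h i ^ a i) * ∏ k ∈ Finset.univ.erase i, f (h k ^ a k)) =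
      (f (C ϖ) ^ j * f (h i) ^ a i) * (f (C (u : V)) * ∏ k ∈ Finset.univ.erase i, f (h k ^ a k)) := by
    rw [map_pow f (h i)]; ring
  rw [e]
  have h3 : Associated (f (C ϖ) ^ j * f (h i) ^ a i) ((f (C ϖ) ^ j * f (h i) ^ a i) *
      (f (C (u : V)) * ∏ k ∈ Finset.univ.erase i, f (h k ^ a k))) :=
    associated_mul_unit_right _ _ (hu.mul hv)
  have h4 : Associated (f (C ϖ) ^ (j + a i)) (f (C ϖ) ^ j * f (h i) ^ a i) := by
    rw [pow_add]
    exact (Associated.refl _).mul_mul (hass.symm.pow_pow)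
  exact h4.trans h3

end dvr

end Pool.Agent.Y713.SE
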