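import Pool.Agent.Y713.SE.Hil
import Pool.Agent.TH958.SJ.Cl

/-! The endomorphism `1 - s` of the class group. -/

set_option autoImplicit false
set_option linter.all false

open Polynomial

namespace Pool.Agent.Y713.SE

namespace Dat

variable {ℓ n : ℕ} {E : Type} [Field E] (D : Dat ℓ n E)

/-- action of the covering automorphism on the class group -/
noncomputable def sC : ClassGroup D.A →* ClassGroup D.A :=
  clm (D.s 1 : D.A →+* D.A) (D.s 1).injective

lemma sC_cl {I : Ideal D.A} (hI : I ≠ ⊥) : D.sC (cl I) = cl (D.sI 1 I) :=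
  clm_cl _ _ hI

lemma sC_iter {I : Ideal D.A} (hI : I ≠ ⊥) (j : ℕ) : (D.sC)^[j] (cl I) = cl (D.sI j I) := by
  induction j with
  | zero => rw [sI_zero]; rfl
  | succ j ih =>
    rw [Function.iterate_succ_apply', ih, sC_cl _ (D.sI_ne hI), sI_sI, add_comm]

lemma prod_sC (c : ClassGroup D.A) : ∏ j ∈ Finset.range ℓ, (D.sC)^[j] c = 1 := by
  obtain ⟨I, hI, rfl⟩ := exists_cl c
  rw [Finset.prod_congr rfl fun j _ => D.sC_iter hI j, ← cl_prod _ fun j _ => D.sI_ne hI]
  show cl (D.NI I) = 1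
  rw [D.NI_eq hI]
  exact cl_span (D.alg_ne (D.U_ne I))

/-- `1 - s` is surjective over a separably closed field -/
theorem phi_surj [IsSepClosed E] {p : ℕ} [ExpChar E p] (c : ClassGroup D.A) :
    ∃ c' : ClassGroup D.A, c * D.sC c' = c' := by
  obtain ⟨I, hI, rfl⟩ := exists_cl c
  induction I using UniqueFactorizationMonoid.induction_on_prime with
  | h₁ => exact absurd rfl hI
  | h₂ J hJ =>
    rw [Ideal.isUnit_iff] at hJ
    subst hJ
    exact ⟨1, by rw [cl_top, map_one, one_mul]⟩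
  | h₃ J P hJ hP ih =>
    obtain ⟨c1, hc1⟩ := ih hJ
    have hPp : P.IsPrime := Ideal.isPrime_of_prime hP
    have hP0 : P ≠ ⊥ := hP.ne_zero
    obtain ⟨m, a, hU⟩ : ∃ (m : ℕ) (a : E), D.U P = X ^ (p ^ m) - C a := by
      by_cases hy : D.y ∈ P
      · obtain ⟨i, rfl⟩ := D.eq_PP_of_y_mem hPp hy
        exact ⟨0, D.e i, by rw [U_PP, pow_zero, pow_one]⟩
      · obtain ⟨m, a, b, h1, -⟩ := D.prime_struct (p := p) hPp hP0 hy
        exact ⟨m, a, h1⟩
    obtain ⟨A0, B0, hA0, hB0, hN⟩ := D.lemN (p := p) (m := m) rfl D.q_coprime a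
    have hNI : D.NI (P * Ideal.span {B0}) = D.NI (Ideal.span {A0}) := by
      rw [NI_mul, D.NI_eq hP0, NI_span, NI_span, hU, Ideal.span_singleton_mul_span_singleton,
        ← map_mul, hN]
    obtain ⟨Q, hQ0, hQ⟩ := D.hil_ideal (D.span_ne hA0) _ (D.mul_ne hP0 (D.span_ne hB0)) hNI
    have h2 : cl P * D.sC (cl Q) = cl Q := by
      have h3 := congrArg cl hQ
      rwa [cl_mul (D.mul_ne hP0 (D.span_ne hB0)) (D.sI_ne hQ0), cl_mul hP0 (D.span_ne hB0),
        cl_span hB0, mul_one, cl_mul (D.span_ne hA0) hQ0, cl_span hA0, one_mul, ← D.sC_cl hQ0] at h3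
    refine ⟨cl Q * c1, ?_⟩
    rw [cl_mul hP0 hJ, map_mul]
    calc cl P * cl J * (D.sC (cl Q) * D.sC c1) = (cl P * D.sC (cl Q)) * (cl J * D.sC c1) := by
          rw [mul_mul_mul_comm]
      _ = _ := by rw [h2, hc1]

lemma NI_dvd {P K : Ideal D.A} (hP : P.IsPrime) (h0 : P ≠ ⊥) (hs : D.sI 1 P ≠ P)
    (hK : ∀ j, D.sI j P ∣ K) : D.NI P ∣ K := by
  classical
  have hinj : Set.InjOn (fun j => D.sI j P) (Finset.range ℓ : Set ℕ) := by
    intro i hi j hj h
    rw [Finset.coe_range, Set.mem_Iio] at hi hj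
    rcases lt_trichotomy i j with h1 | h1 | h1
    · exact absurd (D.sI_one_of h1 hj h) hs
    · exact h1
    · exact absurd (D.sI_one_of h1 hi h.symm) hs
  have him : ∏ j ∈ Finset.range ℓ, D.sI j P =
      ∏ Q ∈ (Finset.range ℓ).image (fun j => D.sI j P), id Q :=
    (Finset.prod_image (f := id) hinj).symm
  unfold NI
  rw [him]
  apply Finset.prod_primes_dvd
  · intro Q hQ
    obtain ⟨j, _, rfl⟩ := Finset.mem_image.1 hQ
    exact Ideal.prime_of_isPrime (D.sI_ne h0) (D.sI_prime j hP)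
  · intro Q hQ
    obtain ⟨j, _, rfl⟩ := Finset.mem_image.1 hQ
    exact hK j

/-- invariant ideals -/
theorem inv_ideal [IsSepClosed E] {p : ℕ} [ExpChar E p] (N : ℕ) : ∀ I : Ideal D.A, I ≠ ⊥ →
    D.sI 1 I = I → (D.U I).natDegree ≤ N → ∃ m : Fin n → ℕ, cl I = ∏ k, cl (D.PP k) ^ m k := by
  induction N with
  | zero =>
    intro I hI hs hN
    have h1 : D.U I = 1 := (D.U_monic I).natDegree_eq_zero.1 (Nat.le_zero.1 hN)
    have hle : D.NI I ≤ I := by
      have := Ideal.prod_le_inf.trans (Finset.inf_le (f := fun j => D.sI j I)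
        (Finset.mem_range.2 D.pos))
      rwa [sI_zero] at this
    rw [D.NI_eq hI, h1, map_one, Ideal.span_singleton_one, top_le_iff] at hle
    exact ⟨fun _ => 0, by rw [hle, cl_top]; simp⟩
  | succ N ih =>
    intro I hI hs hN
    by_cases hT : I = ⊤
    · exact ⟨fun _ => 0, by rw [hT, cl_top]; simp⟩
    obtain ⟨P, hPm, hPI⟩ := Ideal.exists_le_maximal I hT
    have hP := hPm.isPrime
    have hP0 : P ≠ ⊥ := fun h => hI (le_bot_iff.1 (h ▸ hPI))
    have hsj : ∀ j, D.sI j I = I := by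
      intro j
      induction j with
      | zero => rw [sI_zero]
      | succ k ihk => rw [← sI_sI, hs, ihk]
    by_cases hy : D.y ∈ P
    · obtain ⟨i, rfl⟩ := D.eq_PP_of_y_mem hP hy
      obtain ⟨I', rfl⟩ := Ideal.dvd_iff_le.2 hPI
      have hI' : I' ≠ ⊥ := by rintro rfl; exact hI (Ideal.mul_bot _)
      have hs' : D.sI 1 I' = I' := by
        rw [sI_mul, sI_PP] at hs
        exact mul_left_cancel₀ hP0 hs
      have hd : (D.U I').natDegree ≤ N := by
        rw [D.U_mul hP0 hI', U_PP, (monic_X_sub_C _).natDegree_mul (D.U_monic _),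
          natDegree_X_sub_C] at hN
        omega
      obtain ⟨m, hm⟩ := ih I' hI' hs' hd
      refine ⟨fun k => m k + if k = i then 1 else 0, ?_⟩
      rw [cl_mul hP0 hI', hm]
      simp only [pow_add, Finset.prod_mul_distrib]
      rw [Finset.prod_eq_single i (f := fun k => cl (D.PP k) ^ (if k = i then 1 else 0))]
      · rw [if_pos rfl, pow_one, mul_comm]
      · intro k _ hk; rw [if_neg hk, pow_zero]
      · intro h; exact absurd (Finset.mem_univ _) h
    · obtain ⟨m, a, b, h1, h2, h3, h4, h5⟩ := D.prime_struct (p := p) hP hP0 hy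
      have hdvd : D.NI P ∣ I := by
        refine D.NI_dvd hP hP0 h5 fun j => ?_
        rw [Ideal.dvd_iff_le, ← hsj j]
        exact D.sI_mono j hPI
      obtain ⟨I', rfl⟩ := hdvd
      have hI' : I' ≠ ⊥ := by rintro rfl; exact hI (Ideal.mul_bot _)
      have hNI0 := D.NI_ne hP0
      have hs' : D.sI 1 I' = I' := by
        rw [sI_mul, D.NI_eq hP0, sI_span, AlgEquiv.commutes, ← D.NI_eq hP0] at hs
        exact mul_left_cancel₀ hNI0 hs
      have hpos : 0 < (D.U P).natDegree := by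
        rw [h1]
        exact h2.natDegree_pos
      have hd : (D.U I').natDegree ≤ N := by
        rw [D.U_mul hNI0 hI', (D.U_monic _).natDegree_mul (D.U_monic _), D.NI_eq hP0,
          D.U_alg (D.U_monic _), natDegree_pow] at hN
        have := Nat.mul_pos D.pos hpos
        omega
      obtain ⟨m', hm'⟩ := ih I' hI' hs' hd
      refine ⟨m', ?_⟩
      rw [cl_mul hNI0 hI', hm', D.NI_eq hP0, cl_span (D.alg_ne (D.U_ne _)), one_mul]

/-- the kernel of `1 - s` -/
theorem phi_ker [IsSepClosed E] {p : ℕ} [ExpChar E p] {c : ClassGroup D.A} (hc : D.sC c = c) :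
    ∃ m : Fin n → ℕ, c = ∏ k, cl (D.PP k) ^ m k := by
  obtain ⟨I, hI, rfl⟩ := exists_cl c
  rw [sC_cl _ hI, cl_eq_iff (D.sI_ne hI) hI] at hc
  obtain ⟨a, b, ha, hb, h⟩ := hc
  have h1 := congrArg D.NI h
  rw [NI_mul, NI_mul, NI_sI] at h1
  have h2 := mul_right_cancel₀ (D.NI_ne hI) h1
  rw [NI_span, NI_span, Ideal.span_singleton_eq_span_singleton] at h2
  obtain ⟨u, hu⟩ := h2
  obtain ⟨c0, hc0, huc⟩ := D.unit_const u.isUnit
  rw [huc, ← map_mul] at hu
  have h3 := D.injA hu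
  haveI : NeZero (ℓ : E) := ⟨D.hne⟩
  obtain ⟨κ, hκ⟩ := IsSepClosed.exists_pow_nat_eq c0 ℓ
  have hκ0 : κ ≠ 0 := by
    rintro rfl
    rw [zero_pow D.pos.ne'] at hκ
    exact hc0 hκ.symm
  set a' : D.A := a * algebraMap E[X] D.A (C κ) with ha'
  have hκA : IsUnit (algebraMap E[X] D.A (C κ)) := (isUnit_C.2 (isUnit_iff_ne_zero.2 hκ0)).map _
  have ha'0 : a' ≠ 0 := mul_ne_zero ha hκA.ne_zero
  have hNm : D.Nm a' = D.Nm b := by
    rw [ha', Nm_mul, Nm_algebraMap, ← C_pow, hκ, h3]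
  have h' : Ideal.span {a'} * D.sI 1 I = Ideal.span {b} * I := by
    rw [← h]
    congr 1
    rw [ha', Ideal.span_singleton_eq_span_singleton]
    exact (associated_mul_isUnit_left_iff hκA).2 (Associated.refl _)
  obtain ⟨g, hg, hg'⟩ := D.hil_elt ha'0 hb hNm
  have hsg : D.s 1 g ≠ 0 := (map_ne_zero_iff _ (D.s 1).injective).2 hg
  -- `(g) sI = (s g) I`
  have h4 : Ideal.span {g} * D.sI 1 I = Ideal.span {D.s 1 g} * I := by
    apply mul_left_cancel₀ (D.span_ne hb)
    rw [← mul_assoc, Ideal.span_singleton_mul_span_singleton, ← hg',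
      ← Ideal.span_singleton_mul_span_singleton, mul_assoc, mul_comm (Ideal.span {D.s 1 g}),
      ← mul_assoc, h']
    ring
  obtain ⟨g', hgg'⟩ := D.dvd_Nm g
  have hg'0 : g' ≠ 0 := by
    rintro rfl
    rw [mul_zero] at hgg'
    exact D.alg_ne (D.Nm_ne hg) hgg'
  have hsgg : D.s 1 g * D.s 1 g' = g * g' := by
    rw [← map_mul, ← hgg', AlgEquiv.commutes]
  set I' : Ideal D.A := Ideal.span {g'} * I with hI'
  have hI'0 : I' ≠ ⊥ := D.mul_ne (D.span_ne hg'0) hI
  have hinv : D.sI 1 I' = I' := by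
    apply mul_left_cancel₀ (D.span_ne hg)
    rw [hI', sI_mul, sI_span]
    calc Ideal.span {g} * (Ideal.span {D.s 1 g'} * D.sI 1 I) =
          Ideal.span {D.s 1 g'} * (Ideal.span {g} * D.sI 1 I) := by ring
      _ = (Ideal.span {D.s 1 g} * Ideal.span {D.s 1 g'}) * I := by rw [h4]; ring
      _ = _ := by
        rw [Ideal.span_singleton_mul_span_singleton, hsgg,
          ← Ideal.span_singleton_mul_span_singleton]; ring
  obtain ⟨m, hm⟩ := D.inv_ideal (p := p) _ I' hI'0 hinv le_rfl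
  refine ⟨m, ?_⟩
  rw [← hm, hI', cl_mul (D.span_ne hg'0) hI, cl_span hg'0, one_mul]

/-- the order of an ideal at a branch point -/
noncomputable def oI (i : Fin n) (I : Ideal D.A) : ℕ := (D.U I).rootMultiplicity (D.e i)

lemma oI_mul (i : Fin n) {I J : Ideal D.A} (hI : I ≠ ⊥) (hJ : J ≠ ⊥) :
    D.oI i (I * J) = D.oI i I + D.oI i J := by
  unfold oI
  rw [D.U_mul hI hJ, rootMultiplicity_mul (mul_ne_zero (D.U_ne I) (D.U_ne J))]

lemma oI_top (i : Fin n) : D.oI i ⊤ = 0 := by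
  unfold oI
  rw [U_top, ← C_1, rootMultiplicity_C]

lemma oI_pow (i : Fin n) {I : Ideal D.A} (hI : I ≠ ⊥) (k : ℕ) : D.oI i (I ^ k) = k * D.oI i I := by
  induction k with
  | zero => rw [pow_zero, Ideal.one_eq_top, oI_top, zero_mul]
  | succ k ih =>
    rw [pow_succ, oI_mul _ _ _ hI, ih, Nat.succ_mul]
    rw [← Ideal.zero_eq_bot] at hI ⊢
    exact pow_ne_zero _ hI

lemma oI_prod (i : Fin n) {ι : Type} (s : Finset ι) {F : ι → Ideal D.A} (h : ∀ j ∈ s, F j ≠ ⊥) :
    D.oI i (∏ j ∈ s, F j) = ∑ j ∈ s, D.oI i (F j) := by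
  classical
  induction s using Finset.induction_on with
  | empty => rw [Finset.prod_empty, Finset.sum_empty, Ideal.one_eq_top, oI_top]
  | insert a s ha ih =>
    rw [Finset.prod_insert ha, Finset.sum_insert ha, D.oI_mul i (h a (Finset.mem_insert_self _ _))
      (prod_ne s fun i hi => h i (Finset.mem_insert_of_mem hi)),
      ih fun i hi => h i (Finset.mem_insert_of_mem hi)]

lemma oI_PP (i k : Fin n) : D.oI i (D.PP k) = if k = i then 1 else 0 := by
  unfold oI
  rw [U_PP]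
  split_ifs with h
  · rw [h, rootMultiplicity_X_sub_C_self]
  · apply rootMultiplicity_eq_zero
    rw [IsRoot.def, eval_sub, eval_X, eval_C, sub_eq_zero]
    exact fun h' => h (D.he h').symm

lemma oI_sI (i : Fin n) (j : ℕ) {I : Ideal D.A} (hI : I ≠ ⊥) : D.oI i (D.sI j I) = D.oI i I := by
  unfold oI
  rw [D.U_sI j hI]

lemma oI_span (i : Fin n) {a : D.A} (ha : a ≠ 0) : D.oI i (Ideal.span {a}) = D.ord i a := by
  unfold oI ord
  have h0 := D.Nm_ne ha
  have hc : (C ((D.Nm a).leadingCoeff⁻¹) : E[X]) ≠ 0 :=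
    C_ne_zero.2 (inv_ne_zero (leadingCoeff_ne_zero.2 h0))
  rw [D.U_span ha, rootMultiplicity_mul (mul_ne_zero h0 hc), rootMultiplicity_C, add_zero]

/-- a product of powers of the primes at the branch points -/
noncomputable def PT (m : Fin n → ℕ) : Ideal D.A := ∏ k, D.PP k ^ m k

lemma PPpow_ne (k : Fin n) (m : ℕ) : D.PP k ^ m ≠ ⊥ := by
  have := D.PP_ne k
  rw [← Ideal.zero_eq_bot] at this ⊢
  exact pow_ne_zero _ this

lemma PT_ne (m : Fin n → ℕ) : D.PT m ≠ ⊥ := prod_ne _ fun k _ => D.PPpow_ne k _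

lemma cl_PT (m : Fin n → ℕ) : cl (D.PT m) = ∏ k, cl (D.PP k) ^ m k := by
  unfold PT
  rw [cl_prod _ fun k _ => D.PPpow_ne k _]
  exact Finset.prod_congr rfl fun k _ => cl_pow (D.PP_ne k) _

lemma oI_PT (i : Fin n) (m : Fin n → ℕ) : D.oI i (D.PT m) = m i := by
  unfold PT
  rw [D.oI_prod i _ fun k _ => D.PPpow_ne k _, Finset.sum_congr rfl fun k _ => by
    rw [D.oI_pow i (D.PP_ne k), oI_PP], Finset.sum_eq_single i]
  · rw [if_pos rfl, mul_one]
  · intro k _ hk; rw [if_neg hk, mul_zero]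
  · intro h; exact absurd (Finset.mem_univ _) h

lemma sI_PT (j : ℕ) (m : Fin n → ℕ) : D.sI j (D.PT m) = D.PT m := by
  unfold PT
  rw [sI, ← Ideal.mapHom_apply, map_prod]
  refine Finset.prod_congr rfl fun k _ => ?_
  rw [map_pow, Ideal.mapHom_apply]
  congr 1
  exact D.sI_PP k j

lemma U_PT (m : Fin n → ℕ) : D.U (D.PT m) = ∏ k, (X - C (D.e k)) ^ m k := by
  classical
  have h : ∀ s : Finset (Fin n), D.U (∏ k ∈ s, D.PP k ^ m k) = ∏ k ∈ s, (X - C (D.e k)) ^ m k := by
    intro s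
    induction s using Finset.induction_on with
    | empty => rw [Finset.prod_empty, Finset.prod_empty, Ideal.one_eq_top, U_top]
    | insert a s ha ih =>
      rw [Finset.prod_insert ha, Finset.prod_insert ha, D.U_mul (D.PPpow_ne a _)
        (prod_ne s fun k _ => D.PPpow_ne k _), ih, D.U_pow (D.PP_ne a), U_PP]
  exact h _

lemma ζ_modEq {a b : ℕ} (h : D.ζ ^ a = D.ζ ^ b) : a ≡ b [MOD ℓ] := by
  have aux : ∀ {a b : ℕ}, a ≤ b → D.ζ ^ a = D.ζ ^ b → a ≡ b [MOD ℓ] := by
    intro a b hab h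
    rw [Nat.modEq_iff_dvd' hab]
    apply D.hζ.dvd_of_pow_eq_one
    apply mul_left_cancel₀ (pow_ne_zero a D.ζ_ne)
    rw [← pow_add, Nat.add_sub_cancel' hab, ← h, mul_one]
  rcases le_total a b with hab | hab
  · exact aux hab h
  · exact (aux hab h.symm).symm

lemma ζ_pow_of_modEq {a b : ℕ} (h : a ≡ b [MOD ℓ]) : D.ζ ^ a = D.ζ ^ b := by
  have : ∀ a : ℕ, D.ζ ^ a = D.ζ ^ (a % ℓ) := fun a => by
    conv_lhs => rw [← Nat.div_add_mod a ℓ, pow_add, pow_mul, D.hζ.pow_eq_one, one_pow, one_mul]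
  rw [this a, this b, h]

/-- independence of the classes at the branch points -/
theorem PT_indep {m m' : Fin n → ℕ} (h : cl (D.PT m) = cl (D.PT m')) (i j : Fin n) :
    m i + m' j ≡ m j + m' i [MOD ℓ] := by
  rw [cl_eq_iff (D.PT_ne _) (D.PT_ne _)] at h
  obtain ⟨a, b, ha, hb, h⟩ := h
  -- reduce to a principal ideal
  have hsa : D.s 1 a ≠ 0 := (map_ne_zero_iff _ (D.s 1).injective).2 ha
  have hsb : D.s 1 b ≠ 0 := (map_ne_zero_iff _ (D.s 1).injective).2 hb
  have h1 := congrArg (D.sI 1) h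
  rw [sI_mul, sI_mul, sI_PT, sI_PT, sI_span, sI_span] at h1
  have h2 : Ideal.span {b * D.s 1 a} = Ideal.span {a * D.s 1 b} := by
    have h3 : (Ideal.span {b * D.s 1 a}) * (D.PT m * D.PT m') =
        (Ideal.span {a * D.s 1 b}) * (D.PT m * D.PT m') := by
      rw [← Ideal.span_singleton_mul_span_singleton, ← Ideal.span_singleton_mul_span_singleton]
      calc Ideal.span {b} * Ideal.span {D.s 1 a} * (D.PT m * D.PT m') =
          (Ideal.span {b} * D.PT m') * (Ideal.span {D.s 1 a} * D.PT m) := by ring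
        _ = (Ideal.span {a} * D.PT m) * (Ideal.span {D.s 1 b} * D.PT m') := by rw [h, h1]
        _ = _ := by ring
    exact mul_right_cancel₀ (D.mul_ne (D.PT_ne _) (D.PT_ne _)) h3
  rw [Ideal.span_singleton_eq_span_singleton] at h2
  obtain ⟨u, hu⟩ := h2
  obtain ⟨c, hc, huc⟩ := D.unit_const u.isUnit
  rw [huc] at hu
  have hcA : algebraMap E[X] D.A (C c) ≠ 0 := D.alg_ne (C_ne_zero.2 hc)
  have key : ∀ k : Fin n, D.ζ ^ D.ord k a * c = D.ζ ^ D.ord k b := by
    intro k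
    have h3 := congrArg (D.lead k) hu
    rw [D.lead_mul k (mul_ne_zero hb hsa) hcA, D.lead_mul k hb hsa, D.lead_mul k ha hsb,
      D.lead_C k hc, D.lead_s k ha, D.lead_s k hb, one_mul, one_mul] at h3
    have h4 := D.lead_ne (i := k) ha
    have h5 := D.lead_ne (i := k) hb
    apply mul_left_cancel₀ (mul_ne_zero h4 h5)
    calc D.lead k a * D.lead k b * (D.ζ ^ D.ord k a * c) =
        D.lead k b * (D.ζ ^ D.ord k a * D.lead k a) * c := by ring
      _ = _ := by rw [h3]; ring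
  have hord : ∀ k : Fin n, D.ord k a + m k = D.ord k b + m' k := by
    intro k
    have h3 := congrArg (D.oI k) h
    rwa [D.oI_mul k (D.span_ne ha) (D.PT_ne _), D.oI_mul k (D.span_ne hb) (D.PT_ne _),
      D.oI_span k ha, D.oI_span k hb, oI_PT, oI_PT] at h3
  have h6 : D.ζ ^ (D.ord i a + D.ord j b) = D.ζ ^ (D.ord j a + D.ord i b) := by
    rw [pow_add, pow_add, ← key i, ← key j]; ring
  have h7 := D.ζ_modEq h6
  have h8 := hord i
  have h9 := hord j
  -- `m i - m' i = ord i b - ord i a`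
  have h10 : (D.ord i a + D.ord j b) + (m i + m' j) = (D.ord j a + D.ord i b) + (m j + m' i) +
      0 := by omega
  have h11 : (D.ord i a + D.ord j b) + (m i + m' j) ≡ (D.ord i a + D.ord j b) + (m j + m' i)
      [MOD ℓ] := by
    rw [h10, add_zero]
    exact Nat.ModEq.add_right _ h7.symm
  exact Nat.ModEq.add_left_cancel' _ h11

lemma prod_PP : ∏ k, D.PP k = Ideal.span {D.y} := by
  apply TH958.SJ.ideal_pow_inj D.pos.ne'
  rw [← Finset.prod_pow, Finset.prod_congr rfl fun k _ => D.PP_pow k, Ideal.prod_span_singleton,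
    Ideal.span_singleton_pow, D.y_pow, ← map_prod, Ideal.span_singleton_eq_span_singleton]
  have h1 : algebraMap E[X] D.A D.f = algebraMap E[X] D.A (C D.δ) *
      algebraMap E[X] D.A (∏ i, (X - C (D.e i))) := by
    rw [← map_mul]; rfl
  rw [h1]
  exact (associated_isUnit_mul_right_iff
    ((isUnit_C.2 (isUnit_iff_ne_zero.2 D.hδ)).map _)).2 (Associated.refl _)

lemma cl_prod_PP : ∏ k, cl (D.PP k) = 1 := by
  rw [← cl_prod _ fun k _ => D.PP_ne k, prod_PP]
  exact cl_span D.y_ne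

lemma cl_PP_pow (k : Fin n) : cl (D.PP k) ^ ℓ = 1 := by
  rw [← cl_pow (D.PP_ne k), PP_pow]
  exact cl_span (D.alg_ne (X_sub_C_ne_zero _))

end Dat

end Pool.Agent.Y713.SE
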