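import Pool.Agent.Y713.SE.Tame2

/-! The absolute value on an algebraic extension of a complete discretely valued field. -/

set_option autoImplicit false
set_option linter.all false

open Polynomial

namespace Pool.Agent.Y713.SE

open WithZero

section
variable (F : Type) [Field F] [hv : Valued F (WithZero (Multiplicative ℤ))]

theorem exists_LS_aux [CompleteSpace F] [(Valued.v : Valuation F (WithZero (Multiplicative ℤ))).RankOne]
    (ℓ : ℕ) (Ω : Type) [Field Ω] [Algebra F Ω] [Algebra.IsAlgebraic F Ω]
    (hℓ : Valued.v (ℓ : F) = (1 : WithZero (Multiplicative ℤ))) :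
    ∃ S : LS ℓ F Ω, ∀ x y : F, S.nrm (algebraMap F Ω x) ≤ S.nrm (algebraMap F Ω y) ↔
      (Valued.v x : WithZero (Multiplicative ℤ)) ≤ Valued.v y := by
  letI : NontriviallyNormedField F := Valued.toNontriviallyNormedField (L := F)
    (Γ₀ := WithZero (Multiplicative ℤ))
  haveI : IsUltrametricDist F := Valued.instIsUltrametricDist F (WithZero (Multiplicative ℤ))
  have hext : ∀ x : F, spectralNorm F Ω (algebraMap F Ω x) = ‖x‖ := fun x => spectralNorm_extends x
  refine ⟨{ nrm := { toFun := spectralNorm F Ω
                     map_mul' := fun x y => map_mul (spectralMulAlgNorm F Ω) x y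
                     nonneg' := fun x => spectralNorm_nonneg x
                     eq_zero' := fun x => ⟨fun h => eq_zero_of_map_spectralNorm_eq_zero h
                       (Algebra.IsAlgebraic.isAlgebraic x), fun h => by rw [h, spectralNorm_zero]⟩
                     add_le' := fun x y => ?_ }
            na := fun x y => isNonarchimedean_spectralNorm x y
            inv := fun τ x => (spectralNorm_eq_of_equiv τ x).symm
            hℓ := ?_ }, fun x y => ?_⟩
  · refine (isNonarchimedean_spectralNorm x y).trans ?_
    exact max_le_add_of_nonneg (spectralNorm_nonneg _) (spectralNorm_nonneg _)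
  · show spectralNorm F Ω (ℓ : Ω) = 1
    rw [← map_natCast (algebraMap F Ω), hext]
    apply le_antisymm
    · exact Valued.toNormedField.norm_le_one_iff.2 hℓ.le
    · exact Valued.toNormedField.one_le_norm_iff.2 hℓ.ge
  · show spectralNorm F Ω (algebraMap F Ω x) ≤ spectralNorm F Ω (algebraMap F Ω y) ↔ _
    rw [hext, hext]
    exact Valued.toNormedField.norm_le_iff

theorem exists_LS [CompleteSpace F]
    [hnt : (Valued.v : Valuation F (WithZero (Multiplicative ℤ))).IsNontrivial]
    (ℓ : ℕ) (Ω : Type) [Field Ω] [Algebra F Ω] [Algebra.IsAlgebraic F Ω]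
    (hℓ : Valued.v (ℓ : F) = (1 : WithZero (Multiplicative ℤ))) :
    ∃ S : LS ℓ F Ω, ∀ x y : F, S.nrm (algebraMap F Ω x) ≤ S.nrm (algebraMap F Ω y) ↔
      (Valued.v x : WithZero (Multiplicative ℤ)) ≤ Valued.v y := by
  have h : Nonempty (Valued.v : Valuation F (WithZero (Multiplicative ℤ))).RankOne := by
    rw [Valuation.nonempty_rankOne_iff_mulArchimedean]
    exact MulArchimedean.comap (MonoidWithZeroHom.ValueGroup₀.embedding).toMonoidHom
      MonoidWithZeroHom.ValueGroup₀.embedding_strictMono
  obtain ⟨h⟩ := h
  exact exists_LS_aux F ℓ Ω hℓ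

end

section
variable {R K : Type} [CommRing R] [IsDedekindDomain R] [Field K] [Algebra R K] [IsFractionRing R K]
open IsDedekindDomain

lemma val_coe (v : HeightOneSpectrum R) (x : K) :
    Valued.v (R := v.adicCompletion K) (Γ₀ := WithZero (Multiplicative ℤ))
      (algebraMap K (v.adicCompletion K) x) = v.valuation K x :=
  v.valuedAdicCompletion_eq_valuation' x

theorem exists_LSv (v : HeightOneSpectrum R) (ℓ : ℕ) (Ω : Type) [Field Ω]
    [Algebra (v.adicCompletion K) Ω] [Algebra.IsAlgebraic (v.adicCompletion K) Ω]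
    (hℓ : v.valuation K (ℓ : K) = 1) :
    ∃ S : LS ℓ (v.adicCompletion K) Ω, ∀ x y : v.adicCompletion K,
      S.nrm (algebraMap _ Ω x) ≤ S.nrm (algebraMap _ Ω y) ↔
      (Valued.v x : WithZero (Multiplicative ℤ)) ≤ Valued.v y := by
  haveI : (Valued.v : Valuation (v.adicCompletion K) (WithZero (Multiplicative ℤ))).IsNontrivial := by
    obtain ⟨x, hx⟩ := v.valuation_exists_uniformizer K
    refine ⟨algebraMap K _ x, ?_, ?_⟩
    · rw [val_coe, hx]; simp
    · rw [val_coe, hx]
      intro h
      have h2 : (WithZero.exp (-1 : ℤ)) = WithZero.exp (0 : ℤ) := by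
        rw [h, WithZero.exp_zero]
      have h3 := WithZero.exp_injective h2
      omega
  refine exists_LS (v.adicCompletion K) ℓ Ω ?_
  rw [← map_natCast (algebraMap K (v.adicCompletion K)), val_coe, hℓ]

end

end Pool.Agent.Y713.SE
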