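import Pool.Agent.Y713.SE.StmT
import Pool.Agent.Y713.SE.Ari

/-! Pencils `y ^ ℓ = h(x) (x - g(t))`. -/

set_option autoImplicit false
set_option linter.all false

open Polynomial IsDedekindDomain

namespace Pool.Agent.Y713.SE

section
variable {k : Type} [Field k]

/-- the polynomial `h(x) (x - g(t))` over a field containing `k[t]` -/
noncomputable def pencil (K : Type) [Field K] [Algebra k[X] K] (h g : k[X]) : K[X] :=
  h.map ((algebraMap k[X] K).comp C) * (X - C (algebraMap k[X] K g))

variable (K : Type) [Field K] [Algebra k[X] K] [IsFractionRing k[X] K]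

/-- the data of the curve -/
noncomputable def pDat {ℓ m : ℕ} (hℓ : ℓ.Prime) (hk : (ℓ : k) ≠ 0) {ζ : k}
    (hζ : IsPrimitiveRoot ζ ℓ) {δ : k} (hδ : δ ≠ 0) {c : Fin m → k} (hc : Function.Injective c)
    {g : k[X]} (hg : 0 < g.natDegree) (hn : ¬ ℓ ∣ m + 1) : Dat ℓ (m + 1) K where
  hp := hℓ
  hne := by
    have h3 : algebraMap k[X] K (C (ℓ : k)) ≠ 0 := by
      rw [Ne, map_eq_zero_iff _ (IsFractionRing.injective k[X] K), C_eq_zero]
      exact hk
    rwa [C_eq_natCast, map_natCast] at h3
  ζ := algebraMap k[X] K (C ζ)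
  hζ := hζ.map_of_injective (f := (algebraMap k[X] K).comp C)
    ((IsFractionRing.injective k[X] K).comp C_injective)
  δ := algebraMap k[X] K (C δ)
  hδ := by
    rw [Ne, map_eq_zero_iff _ (IsFractionRing.injective k[X] K), C_eq_zero]
    exact hδ
  e := Fin.cons (algebraMap k[X] K g) (fun i => algebraMap k[X] K (C (c i)))
  he := by
    rw [Fin.cons_injective_iff]
    refine ⟨?_, ?_⟩
    · rintro ⟨i, hi⟩
      have h1 := IsFractionRing.injective k[X] K hi
      rw [← h1, natDegree_C] at hg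
      exact lt_irrefl _ hg
    · exact (IsFractionRing.injective k[X] K).comp (C_injective.comp hc)
  hn := hn

theorem pencil_primary {ℓ : ℕ} (hℓ : ℓ.Prime) (hk : (ℓ : k) ≠ 0) {ζ : k}
    (hζ : IsPrimitiveRoot ζ ℓ) {h g : k[X]} (hs : h.Splits) (hsep : h.Separable)
    (h2 : 2 ≤ h.natDegree) (hn : ¬ ℓ ∣ h.natDegree + 1) (hg : ¬ ℓ ∣ g.natDegree)
    (hirr : ∀ c, h.IsRoot c → Irreducible (g - C c)) :
    Jac.ShaPrimaryTrivial ℓ (pencil K h g) k[X] := by
  classical
  have hg0 : 0 < g.natDegree := Nat.pos_of_ne_zero fun h => hg (h ▸ dvd_zero _)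
  have hnd : h.roots.Nodup := nodup_roots hsep
  have hh0 : h ≠ 0 := hsep.ne_zero
  set m := h.natDegree with hm
  have hcard : h.roots.toFinset.card = m := by
    rw [Multiset.toFinset_card_of_nodup hnd, ← hs.natDegree_eq_card_roots]
  let eqv := h.roots.toFinset.equivFinOfCardEq hcard
  let c : Fin m → k := fun i => (eqv.symm i : k)
  have hc : Function.Injective c := Subtype.val_injective.comp eqv.symm.injective
  have hroot : ∀ i, h.IsRoot (c i) := fun i =>
    (mem_roots'.1 (Multiset.mem_toFinset.1 (eqv.symm i).2)).2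
  have hlc : h.leadingCoeff ≠ 0 := leadingCoeff_ne_zero.2 hh0
  have hfac : h = C h.leadingCoeff * ∏ i : Fin m, (X - C (c i)) := by
    conv_lhs => rw [hs.eq_prod_roots]
    congr 1
    have h3 : (h.roots.map fun a => X - C a).prod = ∏ a ∈ h.roots.toFinset, (X - C a) := by
      rw [Finset.prod_multiset_map_count]
      refine Finset.prod_congr rfl fun a ha => ?_
      rw [Multiset.count_eq_one_of_mem hnd (Multiset.mem_toFinset.1 ha), pow_one]
    rw [h3, ← Finset.prod_coe_sort]
    exact (Equiv.prod_comp eqv.symm (fun a : h.roots.toFinset => (X - C (a : k)))).symm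
  let D := pDat K hℓ hk hζ hlc hc hg0 hn
  have hf : D.f = pencil K h g := by
    unfold Dat.f pencil
    show C (algebraMap k[X] K (C h.leadingCoeff)) * ∏ i : Fin (m + 1), (X - C
      ((Fin.cons (algebraMap k[X] K g) (fun i => algebraMap k[X] K (C (c i))) :
        Fin (m + 1) → K) i)) = _
    rw [Fin.prod_univ_succ]
    simp only [Fin.cons_zero, Fin.cons_succ]
    conv_rhs => rw [hfac]
    rw [Polynomial.map_mul, map_C, Polynomial.map_prod]
    simp only [Polynomial.map_sub, map_X, map_C, RingHom.comp_apply]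
    ring
  rw [← hf]
  have hirr' : ∀ i, Irreducible (g - C (c i)) := fun i => hirr _ (hroot i)
  have i0 : Fin m := ⟨0, by omega⟩
  let w : Fin (m + 1) → HeightOneSpectrum k[X] :=
    Fin.cons (hp _ (hirr' i0)) (fun i => hp _ (hirr' i))
  have he0 : D.e 0 = algebraMap k[X] K g := rfl
  have hes : ∀ i : Fin m, D.e i.succ = algebraMap k[X] K (C (c i)) := fun i => rfl
  have hsub0 : ∀ i : Fin m, D.e 0 - D.e i.succ = algebraMap k[X] K (g - C (c i)) := fun i => by
    rw [he0, hes, map_sub]
  have hcc : ∀ (v : HeightOneSpectrum k[X]) (i j : Fin m), i ≠ j →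
      v.valuation K (D.e i.succ - D.e j.succ) = 1 := by
    intro v i j hij
    rw [hes, hes, ← map_sub, ← C_sub]
    exact val_C (sub_ne_zero.2 fun h => hij (hc h))
  -- valuations of differences
  have hg1 : ∀ (v : HeightOneSpectrum k[X]) (i : Fin m), v ≠ hp _ (hirr' i) →
      v.valuation K (D.e 0 - D.e i.succ) = 1 := by
    intro v i hv
    rw [hsub0, val_eq_one_iff]
    intro hmem
    exact hv (eq_hp (hirr' i) hmem)
  have hwne : ∀ i j : Fin m, i ≠ j → hp _ (hirr' i) ≠ hp _ (hirr' j) := by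
    intro i j hij heq
    have h3 : g - C (c j) ∈ (hp _ (hirr' i)).asIdeal := by
      rw [heq, mem_hp]
    have h4 : g - C (c i) ∈ (hp _ (hirr' i)).asIdeal := by rw [mem_hp]
    have h5 := Ideal.sub_mem _ h3 h4
    have h6 : g - C (c j) - (g - C (c i)) = C (c i - c j) := by rw [C_sub]; ring
    rw [h6] at h5
    exact (val_eq_one_iff (K := K) _ _).1 (val_C (sub_ne_zero.2 fun h => hij (hc h))) h5
  obtain ⟨p, hexp⟩ := ExpChar.exists K
  haveI := hexp
  haveI : ExpChar (SeparableClosure K) p :=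
    expChar_of_injective_algebraMap (algebraMap K (SeparableClosure K)).injective p
  haveI : ∀ v : HeightOneSpectrum k[X], ExpChar (SeparableClosure (v.adicCompletion K)) p := fun v =>
    expChar_of_injective_algebraMap
      (algebraMap K (SeparableClosure (v.adicCompletion K))).injective p
  apply D.sha_primary (R := k[X])
  refine D.crit2 (p := p) (fun v => SeparableClosure (v.adicCompletion K)) ?_ ?_ 0 w (by omega)
    ?_ ?_ ?_ ?_ ?_
  · intro v
    have h3 : ((ℓ : ℕ) : K) = algebraMap k[X] K (C (ℓ : k)) := by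
      rw [C_eq_natCast, map_natCast]
    rw [h3]
    exact val_C hk
  · intro v
    exact val_C hlc
  · intro i hi
    obtain ⟨j, rfl⟩ := Fin.exists_succ_eq.2 hi
    rw [hsub0]
    show (hp _ (hirr' j)).valuation K _ < 1
    rw [val_hp_self, ← WithZero.exp_zero, WithZero.exp_lt_exp]
    norm_num
  · intro i hi
    obtain ⟨j, rfl⟩ := Fin.exists_succ_eq.2 hi
    rw [hsub0]
    show ¬ Pw ℓ ((hp _ (hirr' j)).valuation K _)
    rw [val_hp_self]
    exact not_pw_exp hℓ
  · intro i hi a b hab h3 h4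
    obtain ⟨j, rfl⟩ := Fin.exists_succ_eq.2 hi
    show (hp _ (hirr' j)).valuation K _ = 1
    rcases Fin.eq_zero_or_eq_succ a with rfl | ⟨a', rfl⟩
    · rcases Fin.eq_zero_or_eq_succ b with rfl | ⟨b', rfl⟩
      · exact absurd rfl hab
      · apply hg1
        apply hwne
        rintro rfl
        exact h3 ⟨rfl, rfl⟩
    · rcases Fin.eq_zero_or_eq_succ b with rfl | ⟨b', rfl⟩
      · rw [Valuation.map_sub_swap]
        apply hg1
        apply hwne
        rintro rfl
        exact h4 ⟨rfl, rfl⟩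
      · exact hcc _ _ _ fun h => hab (by rw [h])
  · intro v hv a b hab
    have hv' : ∀ i : Fin m, v ≠ hp _ (hirr' i) := fun i => hv i.succ (Fin.succ_ne_zero _)
    rcases Fin.eq_zero_or_eq_succ a with rfl | ⟨a', rfl⟩
    · rcases Fin.eq_zero_or_eq_succ b with rfl | ⟨b', rfl⟩
      · exact absurd rfl hab
      · exact hg1 _ _ (hv' _)
    · rcases Fin.eq_zero_or_eq_succ b with rfl | ⟨b', rfl⟩
      · rw [Valuation.map_sub_swap]
        exact hg1 _ _ (hv' _)
      · exact hcc _ _ _ fun h => hab (by rw [h])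
  · intro i hi d hd hpw hx
    obtain ⟨j, rfl⟩ := Fin.exists_succ_eq.2 hi
    refine stab2 hℓ (hirr' j) ?_ hd hpw hx
    rw [natDegree_sub_C]
    exact hg

end

end Pool.Agent.Y713.SE
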