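import Pool.Agent.Y713.SE.Coh

/-! Reduction to cocycles with values in the kernel of `1 - s`. -/

set_option autoImplicit false
set_option linter.all false

open Polynomial

namespace Pool.Agent.Y713.SE

/-- the polynomial congruence `(1 - X) ^ (ℓ - 1) = 1 + X + … + X ^ (ℓ - 1)` modulo `ℓ` -/
lemma poly_congr {ℓ : ℕ} (hp : ℓ.Prime) : ∃ w : ℤ[X],
    (1 - X : ℤ[X]) ^ (ℓ - 1) = ∑ j ∈ Finset.range ℓ, X ^ j + C (ℓ : ℤ) * w := by
  haveI := Fact.mk hp
  have h1 : ((1 - X : ℤ[X]) ^ (ℓ - 1) - ∑ j ∈ Finset.range ℓ, X ^ j).map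
      (Int.castRingHom (ZMod ℓ)) = 0 := by
    rw [Polynomial.map_sub, Polynomial.map_pow, Polynomial.map_sub, Polynomial.map_one, map_X,
      Polynomial.map_sum]
    simp only [Polynomial.map_pow, map_X]
    rw [sub_eq_zero]
    have h2 : (1 - X : (ZMod ℓ)[X]) ≠ 0 := by
      intro h
      have h3 := congrArg (fun p => p.coeff 1) h
      simp [coeff_one] at h3
    apply mul_left_cancel₀ h2
    rw [← pow_succ', Nat.sub_add_cancel hp.pos, mul_neg_geom_sum]
    haveI : CharP (ZMod ℓ)[X] ℓ := inferInstance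
    rw [sub_pow_char, one_pow]
  have h2 : ∀ i, (ℓ : ℤ) ∣ ((1 - X : ℤ[X]) ^ (ℓ - 1) - ∑ j ∈ Finset.range ℓ, X ^ j).coeff i := by
    intro i
    rw [← ZMod.intCast_zmod_eq_zero_iff_dvd, ← eq_intCast (Int.castRingHom (ZMod ℓ)), ← coeff_map,
      h1, coeff_zero]
  obtain ⟨w, hw⟩ := (C_dvd_iff_dvd_coeff _ _).2 h2
  exact ⟨w, by rw [← hw]; ring⟩

namespace Dat

variable {ℓ n : ℕ} {K : Type} [Field K] (D : Dat ℓ n K)
variable {L : Type} [Field L] [Algebra K L]

/-- `1 - s` on the class group -/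
noncomputable def phi {E : Type} [Field E] (D : Dat ℓ n E) : ClassGroup D.A →* ClassGroup D.A where
  toFun c := c / D.sC c
  map_one' := by rw [map_one, div_one]
  map_mul' a b := by rw [map_mul, mul_div_mul_comm]

lemma phi_apply {E : Type} [Field E] (D : Dat ℓ n E) (c : ClassGroup D.A) :
    D.phi c = c / D.sC c := rfl

lemma mC_phi {L' : Type} [Field L'] [Algebra K L'] (φ : L →ₐ[K] L') (c : ClassGroup (D.base L).A) :
    D.mC φ ((D.base L).phi c) = (D.base L').phi (D.mC φ c) := by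
  rw [phi_apply, phi_apply, _root_.map_div, mC_sC]

/-- the power identity -/
theorem phi_pow {E : Type} [Field E] (D : Dat ℓ n E) (m : ℕ) :
    ∃ w : ClassGroup D.A →* ClassGroup D.A, (∀ f : ClassGroup D.A →* ClassGroup D.A,
      (∀ x, f (D.sC x) = D.sC (f x)) → ∀ x, f (w x) = w (f x)) ∧
      ∀ x, (D.phi)^[(ℓ - 1) * m] x = w (x ^ ℓ ^ m) := by
  obtain ⟨w, hw⟩ := poly_congr D.hp
  let sA : Module.End ℤ (Additive (ClassGroup D.A)) := (MonoidHom.toAdditive D.sC).toIntLinearMap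
  have hsA : ∀ x : ClassGroup D.A, sA (Additive.ofMul x) = Additive.ofMul (D.sC x) := fun x => rfl
  have hsAj : ∀ (j : ℕ) (x : ClassGroup D.A), (sA ^ j) (Additive.ofMul x) =
      Additive.ofMul ((D.sC)^[j] x) := by
    intro j
    induction j with
    | zero => intro x; rfl
    | succ j ih =>
      intro x
      rw [pow_succ', Module.End.mul_apply, ih, hsA, Function.iterate_succ_apply']
  have hN : ∑ j ∈ Finset.range ℓ, sA ^ j = 0 := by
    ext1 x
    rw [LinearMap.sum_apply, LinearMap.zero_apply]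
    have h1 := D.prod_sC (Additive.toMul x)
    have h2 : ∀ j ∈ Finset.range ℓ, (sA ^ j) x = Additive.ofMul ((D.sC)^[j] (Additive.toMul x)) :=
      fun j _ => hsAj j (Additive.toMul x)
    rw [Finset.sum_congr rfl h2, ← ofMul_prod, h1]; rfl
  have hphi : ∀ x : ClassGroup D.A, (1 - sA) (Additive.ofMul x) = Additive.ofMul (D.phi x) := by
    intro x
    rw [LinearMap.sub_apply, hsA]; rfl
  have hphij : ∀ (j : ℕ) (x : ClassGroup D.A), ((1 - sA) ^ j) (Additive.ofMul x) =
      Additive.ofMul ((D.phi)^[j] x) := by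
    intro j
    induction j with
    | zero => intro x; rfl
    | succ j ih =>
      intro x
      rw [pow_succ', Module.End.mul_apply, ih, hphi, Function.iterate_succ_apply']
  have h1 : (1 - sA) ^ (ℓ - 1) = (ℓ : ℤ) • aeval sA w := by
    have h2 := congrArg (aeval sA) hw
    rw [map_pow, map_sub, map_one, aeval_X, map_add, map_sum, map_mul, aeval_C] at h2
    simp only [map_pow, aeval_X] at h2
    rw [hN, zero_add] at h2
    rw [h2, Algebra.smul_def]
  have h2 : ∀ m : ℕ, (1 - sA) ^ ((ℓ - 1) * m) = ((ℓ : ℤ) ^ m) • (aeval sA w) ^ m := by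
    intro m
    rw [pow_mul, h1, _root_.smul_pow]
  let W : ClassGroup D.A →* ClassGroup D.A :=
    { toFun := fun x => Additive.toMul (((aeval sA w) ^ m) (Additive.ofMul x))
      map_one' := by
        have := map_zero ((aeval sA w) ^ m)
        exact congrArg Additive.toMul this
      map_mul' := fun x y => by
        have := map_add ((aeval sA w) ^ m) (Additive.ofMul x) (Additive.ofMul y)
        exact congrArg Additive.toMul this }
  refine ⟨W, ?_, ?_⟩
  · intro f hf x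
    let fA : Module.End ℤ (Additive (ClassGroup D.A)) := (MonoidHom.toAdditive f).toIntLinearMap
    have hcomm : Commute fA sA := by
      ext1 x
      exact congrArg Additive.ofMul (hf (Additive.toMul x))
    have h3 : Commute fA ((aeval sA w) ^ m) := by
      apply Commute.pow_right
      rw [aeval_eq_sum_range]
      refine Commute.sum_right _ _ _ fun i _ => ?_
      exact (hcomm.pow_right i).smul_right _
    have h4 := congrArg (fun g => g (Additive.ofMul x)) h3.eq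
    exact congrArg Additive.toMul h4
  · intro x
    have h3 : ((1 - sA) ^ ((ℓ - 1) * m)) (Additive.ofMul x) =
        (((ℓ : ℤ) ^ m) • (aeval sA w) ^ m) (Additive.ofMul x) := by rw [h2 m]
    rw [hphij, LinearMap.smul_apply, ← map_smul] at h3
    have h4 : ((ℓ : ℤ) ^ m) • Additive.ofMul x = Additive.ofMul (x ^ ℓ ^ m) := by
      rw [ofMul_pow, ← Nat.cast_pow, natCast_zsmul]
    rw [h4] at h3
    exact congrArg Additive.toMul h3

lemma Triv.div {F Ω : Type} [Field F] [Algebra K F] [Field Ω] [Algebra K Ω] [Algebra F Ω]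
    [IsScalarTower K F Ω] {c : (L ≃ₐ[K] L) → ClassGroup (D.base L).A} (h : D.Triv F Ω c)
    (Q : ClassGroup (D.base L).A) : D.Triv F Ω (fun σ => c σ / (D.mC (au σ) Q / Q)) := by
  obtain ⟨ι, P, h⟩ := h
  refine ⟨ι, P / D.mC ι Q, fun τ σ hτσ => ?_⟩
  have h1 : (rs K τ).comp ι = ι.comp (au σ) := AlgHom.ext hτσ
  rw [_root_.map_div, _root_.map_div, h τ σ hτσ, _root_.map_div, mC_mC, mC_mC, h1]
  generalize D.mC (ι.comp (au σ)) Q = a
  generalize D.mC (rs K τ) P = b
  generalize D.mC ι Q = d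
  rw [div_div_div_comm]

lemma Triv.phi {F Ω : Type} [Field F] [Algebra K F] [Field Ω] [Algebra K Ω] [Algebra F Ω]
    [IsScalarTower K F Ω] {c : (L ≃ₐ[K] L) → ClassGroup (D.base L).A} (h : D.Triv F Ω c) :
    D.Triv F Ω (fun σ => (D.base L).phi (c σ)) := by
  obtain ⟨ι, P, h⟩ := h
  refine ⟨ι, (D.base Ω).phi P, fun τ σ hτσ => ?_⟩
  rw [mC_phi, h τ σ hτσ, _root_.map_div, mC_phi]

/-- the kernel step -/
theorem ker_step [IsSepClosed L] [IsGalois K L] {p : ℕ} [ExpChar L p]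
    {LT : ((L ≃ₐ[K] L) → ClassGroup (D.base L).A) → Prop}
    (hLT : ∀ c Q, LT c → LT (fun σ => c σ / (D.mC (au σ) Q / Q)))
    (crit : ∀ χ : (L ≃ₐ[K] L) → Fin n → ℕ, D.Coc (fun σ => cl ((D.base L).PT (χ σ))) →
      LT (fun σ => cl ((D.base L).PT (χ σ))) → D.Cob (fun σ => cl ((D.base L).PT (χ σ))))
    {c : (L ≃ₐ[K] L) → ClassGroup (D.base L).A} (hc : D.Coc c) (hl : LT c)
    (hφ : D.Cob (fun σ => (D.base L).phi (c σ))) : D.Cob c := by
  obtain ⟨b, hb⟩ := hφ
  replace hb : ∀ σ, (D.base L).phi (c σ) = D.mC (au σ) b / b := hb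
  obtain ⟨b', hb'⟩ := (D.base L).phi_surj (p := p) b
  have hbb : b = (D.base L).phi b' := by
    rw [phi_apply, eq_div_iff_mul_eq', hb']
  have h1 := hc.div D b'
  have h2 := hLT c b' hl
  have h3 : ∀ σ, ∃ m : Fin n → ℕ, c σ / (D.mC (au σ) b' / b') = cl ((D.base L).PT m) := by
    intro σ
    have h4 : (D.base L).phi (c σ / (D.mC (au σ) b' / b')) = 1 := by
      rw [_root_.map_div, hb σ, _root_.map_div, ← mC_phi, ← hbb, div_self']
    rw [phi_apply, div_eq_one] at h4
    obtain ⟨m, hm⟩ := (D.base L).phi_ker (p := p) h4.symm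
    exact ⟨m, by rw [hm, cl_PT]⟩
  choose χ hχ using h3
  have h4 : (fun σ => c σ / (D.mC (au σ) b' / b')) = fun σ => cl ((D.base L).PT (χ σ)) :=
    funext hχ
  rw [h4] at h1 h2
  obtain ⟨Q, hQ⟩ := crit χ h1 h2
  refine ⟨Q * b', fun σ => ?_⟩
  have h5 : cl ((D.base L).PT (χ σ)) = D.mC (au σ) Q / Q := hQ σ
  rw [← hχ σ, div_eq_iff_eq_mul] at h5
  rw [h5, map_mul, mul_div_mul_comm]

/-- reduction of `ℓ`-power torsion classes -/
theorem red [IsSepClosed L] [IsGalois K L] {p : ℕ} [ExpChar L p]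
    {LT : ((L ≃ₐ[K] L) → ClassGroup (D.base L).A) → Prop}
    (hLT : ∀ c Q, LT c → LT (fun σ => c σ / (D.mC (au σ) Q / Q)))
    (hLT' : ∀ c, LT c → LT (fun σ => (D.base L).phi (c σ)))
    (crit : ∀ χ : (L ≃ₐ[K] L) → Fin n → ℕ, D.Coc (fun σ => cl ((D.base L).PT (χ σ))) →
      LT (fun σ => cl ((D.base L).PT (χ σ))) → D.Cob (fun σ => cl ((D.base L).PT (χ σ))))
    {c : (L ≃ₐ[K] L) → ClassGroup (D.base L).A} (hc : D.Coc c) (hl : LT c) (m : ℕ)
    (hm : D.Cob (fun σ => c σ ^ ℓ ^ m)) : D.Cob c := by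
  have key : ∀ N : ℕ, ∀ c : (L ≃ₐ[K] L) → ClassGroup (D.base L).A, D.Coc c → LT c →
      D.Cob (fun σ => ((D.base L).phi)^[N] (c σ)) → D.Cob c := by
    intro N
    induction N with
    | zero => intro c _ _ h; exact h
    | succ N ih =>
      intro c hc hl h
      apply D.ker_step (p := p) hLT crit hc hl
      apply ih _ (hc.map D _ fun σ x => (D.mC_phi _ _).symm) (hLT' c hl)
      simpa only [Function.iterate_succ_apply] using h
  apply key ((ℓ - 1) * m) c hc hl
  obtain ⟨w, hw1, hw2⟩ := (D.base L).phi_pow m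
  obtain ⟨Q, hQ⟩ := hm
  replace hQ : ∀ σ, c σ ^ ℓ ^ m = D.mC (au σ) Q / Q := hQ
  refine ⟨w Q, fun σ => ?_⟩
  show ((D.base L).phi)^[(ℓ - 1) * m] (c σ) = _
  rw [hw2, hQ σ, _root_.map_div, ← hw1 (D.mC (au σ)) fun x => D.mC_sC _ _]

end Dat

end Pool.Agent.Y713.SE
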