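import Mathlib

/-! The coordinate ring `Ω[x, y] / (y ^ ℓ - f(x))` of a superelliptic curve with rational branch
points: basis, covering automorphism, eigenspaces. -/

set_option autoImplicit false
set_option linter.all false

open Polynomial

namespace Pool.Agent.Y713.SE

/-- The ring `F[x, y] / (y ^ ℓ - f(x))`. -/
abbrev CR (ℓ : ℕ) {F : Type} [Field F] (f : F[X]) : Type := AdjoinRoot (X ^ ℓ - C f : F[X][X])

section general
variable {ℓ : ℕ} {F : Type} [Field F] {f : F[X]}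

/-- the function `y` -/
noncomputable def yy (ℓ : ℕ) {F : Type} [Field F] (f : F[X]) : CR ℓ f := AdjoinRoot.root _

lemma yy_pow (hℓ : 0 < ℓ) : (yy ℓ f) ^ ℓ = algebraMap F[X] (CR ℓ f) f := by
  have h := AdjoinRoot.eval₂_root (X ^ ℓ - C f : F[X][X])
  rw [eval₂_sub, eval₂_pow, eval₂_X, eval₂_C, sub_eq_zero] at h
  exact h

lemma monic_def (hℓ : 0 < ℓ) : (X ^ ℓ - C f : F[X][X]).Monic := monic_X_pow_sub_C f hℓ.ne'

lemma natDegree_def (hℓ : 0 < ℓ) : (X ^ ℓ - C f : F[X][X]).natDegree = ℓ := natDegree_X_pow_sub_C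

/-- the basis `1, y, …` -/
noncomputable def bas (hℓ : 0 < ℓ) : Module.Basis (Fin ℓ) F[X] (CR ℓ f) :=
  ((AdjoinRoot.powerBasis' (monic_def (f := f) hℓ)).basis).reindex
    (finCongr (natDegree_def (f := f) hℓ))

lemma bas_apply (hℓ : 0 < ℓ) (j : Fin ℓ) : bas (f := f) hℓ j = yy ℓ f ^ (j : ℕ) := by
  unfold bas
  rw [Module.Basis.reindex_apply, PowerBasis.basis_eq_pow]
  rfl

/-- the coefficient of `y ^ j` -/
noncomputable def cf (hℓ : 0 < ℓ) (j : Fin ℓ) : CR ℓ f →ₗ[F[X]] F[X] := (bas hℓ).coord j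

lemma sum_cf (hℓ : 0 < ℓ) (a : CR ℓ f) : ∑ j : Fin ℓ, cf hℓ j a • yy ℓ f ^ (j : ℕ) = a := by
  conv_rhs => rw [← (bas (f := f) hℓ).sum_repr a]
  exact Finset.sum_congr rfl fun j _ => by rw [bas_apply]; rfl

lemma cf_pow (hℓ : 0 < ℓ) (i j : Fin ℓ) : cf hℓ j (yy ℓ f ^ (i : ℕ)) = if i = j then 1 else 0 := by
  unfold cf
  rw [← bas_apply hℓ i, Module.Basis.coord_apply, Module.Basis.repr_self, Finsupp.single_apply]

lemma cf_sum (hℓ : 0 < ℓ) (c : Fin ℓ → F[X]) (j : Fin ℓ) :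
    cf hℓ j (∑ i : Fin ℓ, c i • yy ℓ f ^ (i : ℕ)) = c j := by
  rw [map_sum, Finset.sum_eq_single j]
  · rw [map_smul, cf_pow, if_pos rfl, smul_eq_mul, mul_one]
  · intro i _ hi
    rw [map_smul, cf_pow, if_neg hi, smul_zero]
  · intro h; exact absurd (Finset.mem_univ _) h

lemma ext_cf (hℓ : 0 < ℓ) {a b : CR ℓ f} (h : ∀ j, cf hℓ j a = cf hℓ j b) : a = b := by
  rw [← sum_cf hℓ a, ← sum_cf hℓ b]
  exact Finset.sum_congr rfl fun j _ => by rw [h j]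

lemma cf_algebraMap (hℓ : 0 < ℓ) (g : F[X]) (j : Fin ℓ) :
    cf hℓ j (algebraMap F[X] (CR ℓ f) g) = if (⟨0, hℓ⟩ : Fin ℓ) = j then g else 0 := by
  have h := cf_pow (f := f) hℓ ⟨0, hℓ⟩ j
  rw [pow_zero] at h
  rw [Algebra.algebraMap_eq_smul_one, map_smul, h]
  split_ifs <;> simp

lemma inj (hℓ : 0 < ℓ) : Function.Injective (algebraMap F[X] (CR ℓ f)) := by
  intro a b h
  have h1 := congrArg (cf hℓ ⟨0, hℓ⟩) h
  rwa [cf_algebraMap, cf_algebraMap, if_pos rfl, if_pos rfl] at h1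

lemma free (hℓ : 0 < ℓ) : Module.Free F[X] (CR ℓ f) := Module.Free.of_basis (bas hℓ)

lemma finite (hℓ : 0 < ℓ) : Module.Finite F[X] (CR ℓ f) := Module.Finite.of_basis (bas hℓ)

lemma nontriv (hℓ : 0 < ℓ) : Nontrivial (CR ℓ f) := (inj hℓ).nontrivial

/-- the map `y ↦ z y` for `z ^ ℓ = 1` -/
noncomputable def tw (hℓ : 0 < ℓ) (z : F) (hz : z ^ ℓ = 1) : CR ℓ f →ₐ[F[X]] CR ℓ f :=
  AdjoinRoot.liftAlgHom _ (Algebra.ofId _ _) (algebraMap F[X] _ (C z) * yy ℓ f) (by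
    show eval₂ (algebraMap F[X] (CR ℓ f)) _ _ = 0
    rw [eval₂_sub, eval₂_pow, eval₂_X, eval₂_C, mul_pow, yy_pow hℓ, ← map_pow, ← C_pow, hz,
      C_1, map_one, one_mul, sub_self])

lemma tw_yy (hℓ : 0 < ℓ) (z : F) (hz : z ^ ℓ = 1) :
    tw (f := f) hℓ z hz (yy ℓ f) = algebraMap F[X] _ (C z) * yy ℓ f := by
  unfold tw yy
  exact AdjoinRoot.liftAlgHom_root ..

lemma cf_tw (hℓ : 0 < ℓ) (z : F) (hz : z ^ ℓ = 1) (a : CR ℓ f) (j : Fin ℓ) :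
    cf hℓ j (tw hℓ z hz a) = C (z ^ (j : ℕ)) * cf hℓ j a := by
  conv_lhs => rw [← sum_cf hℓ a, map_sum]
  have h : ∀ i : Fin ℓ, tw (f := f) hℓ z hz (cf hℓ i a • yy ℓ f ^ (i : ℕ)) =
      (C (z ^ (i : ℕ)) * cf hℓ i a) • yy ℓ f ^ (i : ℕ) := by
    intro i
    rw [map_smul, map_pow, tw_yy, mul_pow, ← map_pow, ← C_pow, Algebra.smul_def, Algebra.smul_def,
      map_mul]
    ring
  rw [Finset.sum_congr rfl fun i _ => h i, cf_sum]

lemma tw_one (hℓ : 0 < ℓ) (a : CR ℓ f) : tw hℓ 1 (one_pow ℓ) a = a := by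
  apply ext_cf hℓ
  intro j
  rw [cf_tw, one_pow, C_1, one_mul]

lemma tw_tw (hℓ : 0 < ℓ) {z w : F} (hz : z ^ ℓ = 1) (hw : w ^ ℓ = 1) (a : CR ℓ f) :
    tw hℓ z hz (tw hℓ w hw a) = tw hℓ (z * w) (by rw [mul_pow, hz, hw, one_mul]) a := by
  apply ext_cf hℓ
  intro j
  rw [cf_tw, cf_tw, cf_tw, mul_pow, C_mul, mul_assoc]

lemma inv_pow_one {z : F} (hz : z ^ ℓ = 1) : z⁻¹ ^ ℓ = 1 := by rw [inv_pow, hz, inv_one]

lemma ne_zero_of_pow (hℓ : 0 < ℓ) {z : F} (hz : z ^ ℓ = 1) : z ≠ 0 := by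
  rintro rfl
  rw [zero_pow hℓ.ne'] at hz
  exact zero_ne_one hz

lemma tw_congr (hℓ : 0 < ℓ) {z w : F} (hz : z ^ ℓ = 1) (hw : w ^ ℓ = 1) (h : z = w) (a : CR ℓ f) :
    tw hℓ z hz a = tw hℓ w hw a := by subst h; rfl

/-- the automorphism `y ↦ z y` -/
noncomputable def twE (hℓ : 0 < ℓ) (z : F) (hz : z ^ ℓ = 1) : CR ℓ f ≃ₐ[F[X]] CR ℓ f :=
  AlgEquiv.ofAlgHom (tw hℓ z hz) (tw hℓ z⁻¹ (inv_pow_one hz))
    (AlgHom.ext fun a => by
      rw [AlgHom.comp_apply, tw_tw, AlgHom.id_apply,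
        tw_congr hℓ _ (one_pow ℓ) (mul_inv_cancel₀ (ne_zero_of_pow hℓ hz)), tw_one])
    (AlgHom.ext fun a => by
      rw [AlgHom.comp_apply, tw_tw, AlgHom.id_apply,
        tw_congr hℓ _ (one_pow ℓ) (inv_mul_cancel₀ (ne_zero_of_pow hℓ hz)), tw_one])

@[simp] lemma twE_apply (hℓ : 0 < ℓ) (z : F) (hz : z ^ ℓ = 1) (a : CR ℓ f) :
    twE hℓ z hz a = tw hℓ z hz a := rfl

/-- averaging -/
lemma sum_tw (hℓ : 0 < ℓ) {z : F} (hz : IsPrimitiveRoot z ℓ) (a : CR ℓ f) (j : Fin ℓ) :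
    ∑ i ∈ Finset.range ℓ, (C ((z⁻¹) ^ (i * j)) : F[X]) •
      tw hℓ (z ^ i) (by rw [← pow_mul, mul_comm, pow_mul, hz.pow_eq_one, one_pow]) a =
    (C (ℓ : F) * cf hℓ j a) • yy ℓ f ^ (j : ℕ) := by
  have hz0 : z ≠ 0 := hz.ne_zero hℓ.ne'
  apply ext_cf hℓ
  intro k
  rw [map_sum, map_smul, cf_pow]
  have h1 : ∀ i ∈ Finset.range ℓ, cf hℓ k ((C ((z⁻¹) ^ (i * j)) : F[X]) •
      tw hℓ (z ^ i) (by rw [← pow_mul, mul_comm, pow_mul, hz.pow_eq_one, one_pow]) a) =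
      C ((z ^ (k : ℕ) * (z⁻¹) ^ (j : ℕ)) ^ i) * cf hℓ k a := by
    intro i _
    rw [map_smul, cf_tw, smul_eq_mul, ← mul_assoc, ← C_mul]
    congr 2
    rw [mul_pow, ← pow_mul, ← pow_mul, ← pow_mul, mul_comm i j, mul_comm i k, mul_comm]
  rw [Finset.sum_congr rfl h1, ← Finset.sum_mul, ← map_sum]
  by_cases hjk : j = k
  · subst hjk
    have h2 : z ^ (j : ℕ) * (z⁻¹) ^ (j : ℕ) = 1 := by
      rw [← mul_pow, mul_inv_cancel₀ hz0, one_pow]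
    rw [if_pos rfl, h2]
    simp
  · rw [if_neg hjk, smul_zero]
    set w := z ^ (k : ℕ) * (z⁻¹) ^ (j : ℕ) with hw
    have hw1 : w ^ ℓ = 1 := by
      rw [hw, mul_pow, ← pow_mul, ← pow_mul, mul_comm (k : ℕ), mul_comm (j : ℕ), pow_mul, pow_mul,
        inv_pow, hz.pow_eq_one, inv_one, one_pow, one_pow, one_mul]
    have hw2 : w ≠ 1 := by
      intro h
      have h3 : z ^ (k : ℕ) = z ^ (j : ℕ) := by
        rw [hw, inv_pow, mul_inv_eq_one₀ (pow_ne_zero _ hz0)] at h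
        exact h
      exact hjk (Fin.ext (hz.pow_inj k.2 j.2 h3).symm)
    have h4 : ∑ i ∈ Finset.range ℓ, w ^ i = 0 := by
      have h6 := mul_neg_geom_sum w ℓ
      rw [hw1, sub_self] at h6
      rcases mul_eq_zero.1 h6 with h7 | h7
      · exact absurd (sub_eq_zero.1 h7).symm hw2
      · exact h7
    rw [h4, C_0, zero_mul]

end general

end Pool.Agent.Y713.SE
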