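import Mathlib

/-!
# Jacobians of superelliptic curves and their Tate-Shafarevich groups: the definitions

`F` is a polynomial over `K` of degree prime to `ℓ` without multiple roots, and `J` is the Jacobian
of the curve `y ^ ℓ = F(x)`. The smooth projective model has one point at infinity, which is
rational, so that `J(L)` is the Picard group of the affine coordinate ring `L[x, y] / (y ^ ℓ - F)`.
-/

set_option autoImplicit false
set_option linter.all false

open Polynomial IsDedekindDomain

namespace Pool.Agent.Y713.Jac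

/-- The affine coordinate ring `L[x, y] / (y ^ ℓ - F(x))` over an extension `L` of `K`. -/
abbrev CoordRing (ℓ : ℕ) {K : Type} [Field K] (F : K[X]) (L : Type) [Field L] [Algebra K L] :
    Type :=
  AdjoinRoot (X ^ ℓ - C (F.map (algebraMap K L)) : L[X][X])

/-- The homomorphism of coordinate rings given by a homomorphism of extensions of `K`. -/
noncomputable def coordMap (ℓ : ℕ) {K : Type} [Field K] (F : K[X]) {L L' : Type} [Field L]
    [Algebra K L] [Field L'] [Algebra K L'] (φ : L →ₐ[K] L') :
    CoordRing ℓ F L →+* CoordRing ℓ F L' :=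
  AdjoinRoot.map (mapRingHom φ.toRingHom) _ _ (by
    rw [Polynomial.map_sub, Polynomial.map_pow, map_X, map_C, coe_mapRingHom, Polynomial.map_map]
    rw [show φ.toRingHom.comp (algebraMap K L) = algebraMap K L' from φ.comp_algebraMap])

/-- The group `J(L)`. -/
abbrev J (ℓ : ℕ) {K : Type} [Field K] (F : K[X]) (L : Type) [Field L] [Algebra K L] : Type :=
  CommRing.Pic (CoordRing ℓ F L)

/-- The homomorphism `J(L) → J(L')` given by a homomorphism of extensions of `K`. -/
noncomputable def mapJ (ℓ : ℕ) {K : Type} [Field K] (F : K[X]) {L L' : Type} [Field L]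
    [Algebra K L] [Field L'] [Algebra K L'] (φ : L →ₐ[K] L') : J ℓ F L →* J ℓ F L' :=
  CommRing.Pic.mapRingHom (coordMap ℓ F φ)

/-- The absolute Galois group of `K`. -/
abbrev Gal (K : Type) [Field K] : Type := SeparableClosure K ≃ₐ[K] SeparableClosure K

section cohomology

variable (ℓ : ℕ) {K : Type} [Field K] (F : K[X])

/-- Functions on the absolute Galois group of `K` with values in `J(K^sep)`. -/
abbrev Cochain : Type := Gal K → J ℓ F (SeparableClosure K)

/-- Continuous 1-cocycles with values in the discrete group `J(K^sep)`. -/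
def IsCocycle (f : Cochain ℓ F) : Prop :=
  IsLocallyConstant f ∧ ∀ σ τ : Gal K, f (σ * τ) = f σ * mapJ ℓ F σ.toAlgHom (f τ)

/-- Coboundaries. -/
def IsCoboundary (f : Cochain ℓ F) : Prop :=
  ∃ Q : J ℓ F (SeparableClosure K), ∀ σ : Gal K, f σ = mapJ ℓ F σ.toAlgHom Q / Q

/-- The restriction of the class of the cocycle `f` to `H ^ 1 (E, J)` is zero: for an embedding
`ι : K^sep → E^sep` over `K` there is `P ∈ J(E^sep)` with `f(τ|K^sep) = τ P / P` for every
`τ ∈ Gal(E^sep / E)`. -/
def IsTrivialOver (E : Type) [Field E] [Algebra K E] (f : Cochain ℓ F) : Prop :=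
  ∃ (ι : SeparableClosure K →ₐ[K] SeparableClosure E) (P : J ℓ F (SeparableClosure E)),
    ∀ (τ : Gal E) (σ : Gal K), (∀ x : SeparableClosure K, τ (ι x) = ι (σ x)) →
      mapJ ℓ F ι (f σ) = mapJ ℓ F (τ.toAlgHom.restrictScalars K) P / P

variable (R : Type) [CommRing R] [IsDedekindDomain R] [Algebra R K] [IsFractionRing R K]

/-- The class of `f` is zero over the completion of `K = Frac R` at every maximal ideal of `R`. -/
def IsLocallyTrivial (f : Cochain ℓ F) : Prop :=
  ∀ v : HeightOneSpectrum R, IsTrivialOver ℓ F (v.adicCompletion K) f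

/-- The `ℓ`-primary part of the group of classes in `H ^ 1 (K, J)` which are zero over the
completions of `K` at all maximal ideals of `R` is zero. -/
def ShaPrimaryTrivial : Prop :=
  ∀ (f : Cochain ℓ F) (m : ℕ), IsCocycle ℓ F f → IsLocallyTrivial ℓ F R f →
    IsCoboundary ℓ F (fun σ => f σ ^ ℓ ^ m) → IsCoboundary ℓ F f

/-- The `ℓ`-adic Tate module of the group of classes in `H ^ 1 (K, J)` which are zero over the
completions of `K` at all maximal ideals of `R` is zero: for every sequence of classes `c m` in this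
group with `ℓ ^ m • c m = 0` and `ℓ • c (m + 1) = c m` all the `c m` are zero. -/
def ShaTateTrivial : Prop :=
  ∀ c : ℕ → Cochain ℓ F, (∀ m, IsCocycle ℓ F (c m)) → (∀ m, IsLocallyTrivial ℓ F R (c m)) →
    (∀ m, IsCoboundary ℓ F (fun σ => c m σ ^ ℓ ^ m)) →
    (∀ m, IsCoboundary ℓ F (fun σ => c (m + 1) σ ^ ℓ / c m σ)) → ∀ m, IsCoboundary ℓ F (c m)

end cohomology

theorem ShaPrimaryTrivial.tate {ℓ : ℕ} {K : Type} [Field K] {F : K[X]} {R : Type} [CommRing R]
    [IsDedekindDomain R] [Algebra R K] [IsFractionRing R K] (h : ShaPrimaryTrivial ℓ F R) :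
    ShaTateTrivial ℓ F R :=
  fun c h1 h2 h3 _ m => h (c m) m (h1 m) (h2 m) (h3 m)

end Pool.Agent.Y713.Jac
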