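import Pool.Agent.Y713.SE.Stm
import Pool.Agent.Y713.SE.Brg
import Pool.Agent.Y713.SE.Glo3

/-! Transport between the statement and the library. -/

set_option autoImplicit false
set_option linter.all false

open Polynomial IsDedekindDomain

namespace Pool.Agent.Y713.SE

open Pool.Agent.Y713.Jac (CoordRing coordMap J mapJ IsCocycle IsCoboundary IsTrivialOver
  IsLocallyTrivial ShaPrimaryTrivial ShaTateTrivial)

/-- isomorphism of coordinate rings -/
noncomputable def crE {ℓ : ℕ} {F : Type} [Field F] {f g : F[X]} (h : f = g) : CR ℓ f ≃+* CR ℓ g :=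
  h ▸ RingEquiv.refl _

lemma crE_root {ℓ : ℕ} {F : Type} [Field F] {f g : F[X]} (h : f = g) :
    crE (ℓ := ℓ) h (AdjoinRoot.root _) = AdjoinRoot.root _ := by subst h; rfl

lemma crE_of {ℓ : ℕ} {F : Type} [Field F] {f g : F[X]} (h : f = g) (a : F[X]) :
    crE (ℓ := ℓ) h (AdjoinRoot.of _ a) = AdjoinRoot.of _ a := by subst h; rfl

theorem mapRH_bij {A B : Type} [CommRing A] [CommRing B] (e : A ≃+* B) :
    Function.Bijective (CommRing.Pic.mapRingHom (e : A →+* B)) := by
  have h1 : ∀ M, CommRing.Pic.mapRingHom (e.symm : B →+* A)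
      (CommRing.Pic.mapRingHom (e : A →+* B) M) = M := by
    intro M
    rw [CommRing.Pic.mapRingHom_mapRingHom]
    have : (e.symm : B →+* A).comp (e : A →+* B) = RingHom.id A := by
      ext x; simp
    rw [this, CommRing.Pic.mapRingHom_id_apply]
  have h2 : ∀ M, CommRing.Pic.mapRingHom (e : A →+* B)
      (CommRing.Pic.mapRingHom (e.symm : B →+* A) M) = M := by
    intro M
    rw [CommRing.Pic.mapRingHom_mapRingHom]
    have : (e : A →+* B).comp (e.symm : B →+* A) = RingHom.id B := by
      ext x; simp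
    rw [this, CommRing.Pic.mapRingHom_id_apply]
  exact Function.bijective_iff_has_inverse.2 ⟨_, h1, h2⟩

namespace Dat

variable {ℓ n : ℕ} {K : Type} [Field K] (D : Dat ℓ n K)

lemma f_base (L : Type) [Field L] [Algebra K L] :
    (D.base L).f = D.f.map (algebraMap K L) := by
  unfold f
  rw [Polynomial.map_mul, map_C, Polynomial.map_prod]
  simp only [base_δ, base_e, Polynomial.map_sub, map_X, map_C]

/-- the isomorphism with the coordinate ring of the statement -/
noncomputable def cE (L : Type) [Field L] [Algebra K L] : (D.base L).A ≃+* CoordRing ℓ D.f L :=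
  crE (D.f_base L)

lemma cE_nat {L L' : Type} [Field L] [Algebra K L] [Field L'] [Algebra K L'] (φ : L →ₐ[K] L') :
    ((D.cE L' : (D.base L').A →+* CoordRing ℓ D.f L')).comp (D.mp φ) =
      (coordMap ℓ D.f φ).comp (D.cE L : (D.base L).A →+* CoordRing ℓ D.f L) := by
  have key : ∀ a, D.cE L' (D.mp φ a) = coordMap ℓ D.f φ (D.cE L a) := by
    intro a
    have h1 : D.cE L' (D.mp φ (D.base L).y) = coordMap ℓ D.f φ (D.cE L (D.base L).y) := by
      rw [mp_y]
      have e1 : D.cE L' (D.base L').y = AdjoinRoot.root _ := crE_root _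
      have e2 : D.cE L (D.base L).y = AdjoinRoot.root _ := crE_root _
      rw [e1, e2]
      unfold coordMap
      exact (AdjoinRoot.map_root _ _ _ _).symm
    have h2 : ∀ g : L[X], D.cE L' (D.mp φ (algebraMap L[X] (D.base L).A g)) =
        coordMap ℓ D.f φ (D.cE L (algebraMap L[X] (D.base L).A g)) := by
      intro g
      rw [mp_alg]
      have e1 : ∀ g, D.cE L' (algebraMap L'[X] (D.base L').A g) = AdjoinRoot.of _ g :=
        fun g => crE_of _ _
      have e2 : ∀ g, D.cE L (algebraMap L[X] (D.base L).A g) = AdjoinRoot.of _ g :=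
        fun g => crE_of _ _
      rw [e1, e2]
      exact (AdjoinRoot.map_of (mapRingHom φ.toRingHom) _ _ _ g).symm
    rw [← (D.base L).sum_c a]
    simp only [map_sum, Algebra.smul_def, map_mul, map_pow, h1, h2]
  exact RingHom.ext key

/-- the isomorphism of the class group with the group of the statement -/
noncomputable def Th (L : Type) [Field L] [Algebra K L] :
    ClassGroup (D.base L).A →* J ℓ D.f L :=
  (CommRing.Pic.mapRingHom (D.cE L : (D.base L).A →+* CoordRing ℓ D.f L)).comp pc

lemma Th_bij (L : Type) [Field L] [Algebra K L] : Function.Bijective (D.Th L) :=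
  (mapRH_bij (D.cE L)).comp (pc_bij (A := (D.base L).A))

lemma Th_nat {L L' : Type} [Field L] [Algebra K L] [Field L'] [Algebra K L'] (φ : L →ₐ[K] L')
    (c : ClassGroup (D.base L).A) : D.Th L' (D.mC φ c) = mapJ ℓ D.f φ (D.Th L c) := by
  show CommRing.Pic.mapRingHom (D.cE L' : (D.base L').A →+* CoordRing ℓ D.f L')
    (pc (clm (D.mp φ) (D.mp_inj φ) c)) = CommRing.Pic.mapRingHom (coordMap ℓ D.f φ)
      (CommRing.Pic.mapRingHom (D.cE L : (D.base L).A →+* CoordRing ℓ D.f L) (pc c))
  rw [pc_nat, CommRing.Pic.mapRingHom_mapRingHom, CommRing.Pic.mapRingHom_mapRingHom, D.cE_nat φ]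

/-- the inverse -/
noncomputable def Te (L : Type) [Field L] [Algebra K L] : ClassGroup (D.base L).A ≃* J ℓ D.f L :=
  MulEquiv.ofBijective (D.Th L) (D.Th_bij L)

lemma Te_symm_nat {L L' : Type} [Field L] [Algebra K L] [Field L'] [Algebra K L']
    (φ : L →ₐ[K] L') (x : J ℓ D.f L) :
    (D.Te L').symm (mapJ ℓ D.f φ x) = D.mC φ ((D.Te L).symm x) := by
  apply (D.Te L').injective
  rw [MulEquiv.apply_symm_apply]
  have h := D.Th_nat φ ((D.Te L).symm x)
  have e : D.Th L ((D.Te L).symm x) = x := (D.Te L).apply_symm_apply x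
  rw [e] at h
  exact h.symm

/-- transport of the reduction theorem -/
theorem sha_primary {R : Type} [CommRing R] [IsDedekindDomain R] [Algebra R K] [IsFractionRing R K]
    (crit : ∀ χ : Jac.Gal K → Fin n → ℕ,
      D.Coc (fun σ => cl ((D.base (SeparableClosure K)).PT (χ σ))) →
      (∀ v : HeightOneSpectrum R, D.Triv (v.adicCompletion K)
        (SeparableClosure (v.adicCompletion K))
          (fun σ => cl ((D.base (SeparableClosure K)).PT (χ σ)))) →
      D.Cob (fun σ => cl ((D.base (SeparableClosure K)).PT (χ σ)))) :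
    ShaPrimaryTrivial ℓ D.f R := by
  intro f m hf hl hm
  obtain ⟨p, hp⟩ := ExpChar.exists K
  haveI := hp
  haveI : ExpChar (SeparableClosure K) p :=
    expChar_of_injective_algebraMap (algebraMap K (SeparableClosure K)).injective p
  set c : Jac.Gal K → ClassGroup (D.base (SeparableClosure K)).A :=
    fun σ => (D.Te (SeparableClosure K)).symm (f σ) with hc
  have hcoc : D.Coc c := by
    refine ⟨hf.1.comp _, fun σ τ => ?_⟩
    show (D.Te (SeparableClosure K)).symm (f (σ * τ)) = _
    rw [hf.2, map_mul, D.Te_symm_nat]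
  have hlt : ∀ v : HeightOneSpectrum R, D.Triv (v.adicCompletion K)
      (SeparableClosure (v.adicCompletion K)) c := by
    intro v
    obtain ⟨ι, P, h⟩ := hl v
    refine ⟨ι, (D.Te _).symm P, fun τ σ hτσ => ?_⟩
    have h1 := congrArg (D.Te _).symm (h τ σ hτσ)
    rw [D.Te_symm_nat, _root_.map_div, D.Te_symm_nat] at h1
    exact h1
  have hcob : D.Cob (fun σ => c σ ^ ℓ ^ m) := by
    obtain ⟨Q, hQ⟩ := hm
    refine ⟨(D.Te _).symm Q, fun σ => ?_⟩
    have h1 := congrArg (D.Te _).symm (hQ σ)
    rw [map_pow, _root_.map_div, D.Te_symm_nat] at h1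
    exact h1
  have key : D.Cob c := D.red (p := p)
    (LT := fun c => ∀ v : HeightOneSpectrum R, D.Triv (v.adicCompletion K)
      (SeparableClosure (v.adicCompletion K)) c)
    (fun c Q h v => (h v).div D Q) (fun c h v => (h v).phi D) crit hcoc hlt m hcob
  obtain ⟨Q, hQ⟩ := key
  refine ⟨D.Te _ Q, fun σ => ?_⟩
  apply (D.Te _).symm.injective
  rw [_root_.map_div, D.Te_symm_nat, MulEquiv.symm_apply_apply]
  exact hQ σ

end Dat

end Pool.Agent.Y713.SE
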