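import Pool.Agent.Y713.SE.Loc

/-! Invariant ideals: orbits, and norms of leading coefficients. -/

set_option autoImplicit false
set_option linter.all false

open Polynomial

namespace Pool.Agent.Y713.SE

namespace Dat

variable {ℓ n : ℕ} {K : Type} [Field K] (D : Dat ℓ n K)
variable {F Ω : Type} [Field F] [Algebra K F] [Field Ω] [Algebra K Ω] [Algebra F Ω]
  [IsScalarTower K F Ω] (S : LS ℓ F Ω)

lemma mI_inv_mI (τ : Ω ≃ₐ[F] Ω) (I : Ideal (D.base Ω).A) :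
    D.mI (rs K τ⁻¹) (D.mI (rs K τ) I) = I := by
  rw [mI_mI, ← rs_mul, inv_mul_cancel, rs_one, mI_id]

lemma mI_mI_inv (τ : Ω ≃ₐ[F] Ω) (I : Ideal (D.base Ω).A) :
    D.mI (rs K τ) (D.mI (rs K τ⁻¹) I) = I := by
  rw [mI_mI, ← rs_mul, mul_inv_cancel, rs_one, mI_id]

lemma mp_surj (τ : Ω ≃ₐ[F] Ω) : Function.Surjective (D.mp (rs K τ)) := by
  intro a
  refine ⟨D.mp (rs K τ⁻¹) a, ?_⟩
  rw [mp_mp, ← rs_mul, mul_inv_cancel, rs_one, mp_id]

lemma mI_prime (τ : Ω ≃ₐ[F] Ω) {P : Ideal (D.base Ω).A} (hP : P.IsPrime) :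
    (D.mI (rs K τ) P).IsPrime := by
  refine Ideal.map_isPrime_of_surjective (D.mp_surj τ) ?_
  rw [(RingHom.injective_iff_ker_eq_bot _).1 (D.mp_inj _)]
  exact bot_le

/-- norms of the leading coefficients of an invariant ideal -/
lemma Gam_of_inv [IsGalois F Ω] {I : Ideal (D.base Ω).A} (hI : I ≠ ⊥)
    (h : ∀ τ : Ω ≃ₐ[F] Ω, D.mI (rs K τ) I = I) (i : Fin n) : S.Gam (D.Lam S i I) := by
  have h1 : ∀ τ : Ω ≃ₐ[F] Ω, τ ((D.base Ω).lam i ((D.base Ω).U I)) =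
      (D.base Ω).lam i ((D.base Ω).U I) := by
    intro τ
    have h2 := D.lam_map (rs K τ) i ((D.base Ω).U_ne I)
    rw [← D.U_mI _ hI, h] at h2
    exact h2.symm
  obtain ⟨x, hx⟩ := exists_F h1
  refine ⟨x, ?_, by rw [hx]; rfl⟩
  rintro rfl
  rw [map_zero] at hx
  exact (D.base Ω).lam_ne i ((D.base Ω).U_ne I) hx.symm

/-- what we need to know about an orbit of primes -/
def Orb (I : Ideal (D.base Ω).A) : Prop :=
  I ≠ ⊥ ∧ (∀ τ : Ω ≃ₐ[F] Ω, D.mI (rs K τ) I = I) ∧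
  ∃ (N q : ℕ) (t : Fin n → ℝ) (x : F), 0 < N ∧ 0 < q ∧ (∀ i, 0 < t i) ∧
    (∀ i, D.Lam S i I = t i ^ N) ∧ x ≠ 0 ∧
    S.nrm (algebraMap F Ω x) ^ ℓ = S.nrm (D.base Ω).δ ^ (q * N) * ∏ k, t k ^ N ∧
    (∀ i j, S.nrm ((D.base Ω).e i - (D.base Ω).e j) ^ q ≤ max (t i) (t j)) ∧
    (∀ i j, t i ≠ t j → S.nrm ((D.base Ω).e i - (D.base Ω).e j) ^ q = max (t i) (t j))

lemma nrm_neg (x : Ω) : S.nrm (-x) = S.nrm x := S.nrm.map_neg x

lemma na_sub (x y : Ω) : S.nrm (x - y) ≤ max (S.nrm x) (S.nrm y) := by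
  rw [sub_eq_add_neg, ← S.nrm.map_neg y]
  exact S.na _ _

lemma na_eq {x y : Ω} (h : S.nrm x ≠ S.nrm y) : S.nrm (x - y) = max (S.nrm x) (S.nrm y) := by
  apply le_antisymm (na_sub S x y)
  rcases lt_or_gt_of_ne h with h1 | h1
  · rw [max_eq_right h1.le]
    have h2 := na_sub S x (x - y)
    rw [sub_sub_cancel] at h2
    rcases le_max_iff.1 h2 with h3 | h3
    · linarith
    · exact h3
  · rw [max_eq_left h1.le]
    have h2 := S.na (x - y) y
    rw [sub_add_cancel] at h2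
    rcases le_max_iff.1 h2 with h3 | h3
    · exact h3
    · linarith

theorem exists_orb [IsGalois F Ω] [IsSepClosed Ω] {p : ℕ} [ExpChar Ω p]
    {B P : Ideal (D.base Ω).A} (hB : B ≠ ⊥) (hinv : ∀ τ : Ω ≃ₐ[F] Ω, D.mI (rs K τ) B = B)
    (hP : P.IsPrime) (hBP : B ≤ P) (hy : (D.base Ω).y ∉ P) :
    ∃ I B' : Ideal (D.base Ω).A, B = I * B' ∧ B' ≠ ⊥ ∧ (∀ τ : Ω ≃ₐ[F] Ω, D.mI (rs K τ) B' = B') ∧
      D.Orb S I ∧ 0 < ((D.base Ω).U I).natDegree := by
  classical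
  have hP0 : P ≠ ⊥ := fun h => hB (le_bot_iff.1 (h ▸ hBP))
  obtain ⟨m, a, b, hU, hirr, hmem, hb, hs⟩ := (D.base Ω).prime_struct (p := p) hP hP0 hy
  set q := p ^ m with hq
  have hq0 : 0 < q := expChar_pow_pos Ω p m
  haveI : ExpChar (Polynomial Ω) p := expChar_of_injective_algebraMap (C_injective (R := Ω)) p
  let O : Finset (Ideal (D.base Ω).A) :=
    (UniqueFactorizationMonoid.normalizedFactors B).toFinset.filter
      fun Q => ∃ τ : Ω ≃ₐ[F] Ω, Q = D.mI (rs K τ) P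
  have hO : ∀ Q, Q ∈ O ↔ ∃ τ : Ω ≃ₐ[F] Ω, Q = D.mI (rs K τ) P := by
    intro Q
    rw [Finset.mem_filter, Multiset.mem_toFinset, Ideal.mem_normalizedFactors_iff hB]
    constructor
    · exact fun h => h.2
    · rintro ⟨τ, rfl⟩
      refine ⟨⟨D.mI_prime τ hP, ?_⟩, τ, rfl⟩
      have := D.mI_mono (rs K τ) hBP
      rwa [hinv] at this
  have hPO : P ∈ O := (hO P).2 ⟨1, by rw [rs_one, mI_id]⟩
  have hperm : ∀ {M : Type} [CommMonoid M] (G : Ideal (D.base Ω).A → M) (τ : Ω ≃ₐ[F] Ω),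
      ∏ Q ∈ O, G (D.mI (rs K τ) Q) = ∏ Q ∈ O, G Q := by
    intro M _ G τ
    refine Finset.prod_nbij (fun Q => D.mI (rs K τ) Q) ?_ ?_ ?_ (fun _ _ => rfl)
    · intro Q hQ
      obtain ⟨ρ, rfl⟩ := (hO Q).1 hQ
      refine (hO _).2 ⟨τ * ρ, ?_⟩
      rw [mI_mI, ← rs_mul]
    · intro Q _ Q' _ h
      have h1 := congrArg (D.mI (rs K τ⁻¹)) h
      rwa [D.mI_inv_mI, D.mI_inv_mI] at h1
    · intro Q hQ
      obtain ⟨ρ, rfl⟩ := (hO Q).1 hQ
      refine ⟨D.mI (rs K (τ⁻¹ * ρ)) P, (hO _).2 ⟨_, rfl⟩, ?_⟩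
      simp only
      rw [mI_mI, ← rs_mul, mul_inv_cancel_left]
  have hQ0 : ∀ Q ∈ O, Q ≠ ⊥ := by
    intro Q hQ
    obtain ⟨τ, rfl⟩ := (hO Q).1 hQ
    exact D.mI_ne _ hP0
  set I : Ideal (D.base Ω).A := ∏ Q ∈ O, Q with hI
  have hI0 : I ≠ ⊥ := prod_ne _ hQ0
  have hIB : I ∣ B := by
    have : I = ∏ Q ∈ O, id Q := rfl
    rw [this]
    apply Finset.prod_primes_dvd
    · intro Q hQ
      obtain ⟨τ, rfl⟩ := (hO Q).1 hQ
      exact Ideal.prime_of_isPrime (D.mI_ne _ hP0) (D.mI_prime τ hP)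
    · intro Q hQ
      rw [Ideal.dvd_iff_le]
      have := (Finset.mem_filter.1 hQ).1
      rw [Multiset.mem_toFinset, Ideal.mem_normalizedFactors_iff hB] at this
      exact this.2
  have hIinv : ∀ τ : Ω ≃ₐ[F] Ω, D.mI (rs K τ) I = I := by
    intro τ
    rw [hI, mI_prod]
    exact hperm (fun Q => Q) τ
  obtain ⟨B', hB'⟩ := hIB
  have hB'0 : B' ≠ ⊥ := by
    rintro rfl
    exact hB (by rw [hB', Ideal.mul_bot])
  have hB'inv : ∀ τ : Ω ≃ₐ[F] Ω, D.mI (rs K τ) B' = B' := by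
    intro τ
    have h1 := hinv τ
    rw [hB', mI_mul, hIinv] at h1
    exact mul_left_cancel₀ hI0 h1
  -- the values of `y ^ q`
  have hfr : ∀ k : Fin n, (X - C ((D.base Ω).e k)) ^ q = (X ^ q - C ((D.base Ω).e k ^ q) : (Polynomial Ω)) := by
    intro k
    rw [hq, sub_pow_expChar_pow, C_pow]
  have hbℓ : b ^ ℓ = (D.base Ω).δ ^ q * ∏ k, (a - (D.base Ω).e k ^ q) := by
    have h1 : algebraMap (Polynomial Ω) (D.base Ω).A (C (b ^ ℓ) - (D.base Ω).f ^ q) ∈ P := by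
      have h2 : algebraMap (Polynomial Ω) (D.base Ω).A (C (b ^ ℓ) - (D.base Ω).f ^ q) =
          -(((D.base Ω).y ^ q) ^ ℓ - (algebraMap (Polynomial Ω) (D.base Ω).A (C b)) ^ ℓ) := by
        rw [← pow_mul, mul_comm q ℓ, pow_mul, (D.base Ω).y_pow, map_sub, C_pow, map_pow, map_pow]
        ring
      rw [h2, neg_mem_iff]
      obtain ⟨w, hw⟩ := sub_dvd_pow_sub_pow ((D.base Ω).y ^ q) (algebraMap (Polynomial Ω) (D.base Ω).A (C b)) ℓ
      rw [hw]
      exact P.mul_mem_right _ hb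
    rw [hmem] at h1
    have h3 : (X ^ q - C a : (Polynomial Ω)) ∣ (D.base Ω).f ^ q - C ((D.base Ω).δ ^ q *
        ∏ k, (a - (D.base Ω).e k ^ q)) := by
      have h4 : (D.base Ω).f ^ q = C ((D.base Ω).δ ^ q) * ∏ k, (X ^ q - C ((D.base Ω).e k ^ q)) := by
        rw [f, mul_pow, ← C_pow, ← Finset.prod_pow]
        congr 1
        exact Finset.prod_congr rfl fun k _ => hfr k
      rw [h4, C_mul, ← mul_sub, map_prod]
      refine Dvd.dvd.mul_left ?_ _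
      have h5 : ∀ s : Finset (Fin n), (X ^ q - C a : (Polynomial Ω)) ∣
          ∏ k ∈ s, (X ^ q - C ((D.base Ω).e k ^ q)) - ∏ k ∈ s, C (a - (D.base Ω).e k ^ q) := by
        intro s
        induction s using Finset.induction_on with
        | empty => simp
        | insert k s hk ih =>
          rw [Finset.prod_insert hk, Finset.prod_insert hk]
          obtain ⟨w, hw⟩ := ih
          refine ⟨(∏ k ∈ s, (X ^ q - C ((D.base Ω).e k ^ q))) + C (a - (D.base Ω).e k ^ q) * w, ?_⟩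
          rw [mul_add, mul_left_comm, ← hw, C_sub]; ring
      exact h5 _
    have h4 : (X ^ q - C a : (Polynomial Ω)) ∣ C (b ^ ℓ - (D.base Ω).δ ^ q *
        ∏ k, (a - (D.base Ω).e k ^ q)) := by
      have := dvd_add h1 h3
      rw [sub_add_sub_cancel, ← C_sub] at this
      exact this
    by_contra hne
    have h5 := natDegree_le_of_dvd h4 (C_ne_zero.2 (sub_ne_zero.2 hne))
    rw [natDegree_C, natDegree_X_pow_sub_C] at h5
    omega
  have hb0 : b ≠ 0 := by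
    rintro rfl
    rw [C_0, map_zero, sub_zero] at hb
    exact hy (hP.mem_of_pow_mem _ hb)
  have hane : ∀ k, a - (D.base Ω).e k ^ q ≠ 0 := by
    intro k hk
    have : b ^ ℓ = 0 := by
      rw [hbℓ, Finset.prod_eq_zero (Finset.mem_univ k) hk, mul_zero]
    exact hb0 (pow_eq_zero_iff D.pos.ne' |>.1 this)
  have hLamP : ∀ i, D.Lam S i P = S.nrm (a - (D.base Ω).e i ^ q) := by
    intro i
    unfold Lam
    have h1 : (X ^ q - C a : (Polynomial Ω)).eval ((D.base Ω).e i) = -(a - (D.base Ω).e i ^ q) := by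
      rw [eval_sub, eval_pow, eval_X, eval_C]; ring
    rw [hU, (D.base Ω).lam_of_eval, h1, S.nrm.map_neg]
    rw [h1]
    exact neg_ne_zero.2 (hane i)
  -- the product of the values
  have huniq : ∀ Q ∈ O, ∀ c c' : Ω, (D.base Ω).y ^ q - algebraMap (Polynomial Ω) (D.base Ω).A (C c) ∈ Q →
      (D.base Ω).y ^ q - algebraMap (Polynomial Ω) (D.base Ω).A (C c') ∈ Q → c = c' := by
    intro Q hQ c c' h h'
    have hQp : Q.IsPrime := by
      obtain ⟨τ, rfl⟩ := (hO Q).1 hQ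
      exact D.mI_prime τ hP
    by_contra hne
    have h1 := Q.sub_mem h' h
    rw [sub_sub_sub_cancel_left, ← map_sub, ← C_sub] at h1
    exact hQp.ne_top (Ideal.eq_top_of_isUnit_mem _ h1
      ((isUnit_C.2 (isUnit_iff_ne_zero.2 (sub_ne_zero.2 hne))).map _))
  let bq : Ideal (D.base Ω).A → Ω := fun Q =>
    if h : ∃ c, (D.base Ω).y ^ q - algebraMap (Polynomial Ω) (D.base Ω).A (C c) ∈ Q then h.choose else 1
  have hbq : ∀ τ : Ω ≃ₐ[F] Ω, bq (D.mI (rs K τ) P) = τ b := by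
    intro τ
    have h1 : (D.base Ω).y ^ q - algebraMap (Polynomial Ω) (D.base Ω).A (C (τ b)) ∈ D.mI (rs K τ) P := by
      have h2 := D.mem_mI (rs K τ) hb
      rw [map_sub, map_pow, mp_y, mp_alg, map_C] at h2
      exact h2
    have hex : ∃ c, (D.base Ω).y ^ q - algebraMap (Polynomial Ω) (D.base Ω).A (C c) ∈ D.mI (rs K τ) P :=
      ⟨_, h1⟩
    have h3 : bq (D.mI (rs K τ) P) = hex.choose := dif_pos hex
    rw [h3]
    exact huniq _ ((hO _).2 ⟨τ, rfl⟩) _ _ hex.choose_spec h1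
  have hβfix : ∀ τ : Ω ≃ₐ[F] Ω, τ (∏ Q ∈ O, bq Q) = ∏ Q ∈ O, bq Q := by
    intro τ
    rw [map_prod, ← hperm bq τ]
    refine Finset.prod_congr rfl fun Q hQ => ?_
    obtain ⟨ρ, rfl⟩ := (hO Q).1 hQ
    rw [mI_mI, ← rs_mul, hbq, hbq]; rfl
  obtain ⟨x, hx⟩ := exists_F hβfix
  have hnx : S.nrm (algebraMap F Ω x) = S.nrm b ^ O.card := by
    rw [hx, map_prod, ← Finset.prod_const]
    refine Finset.prod_congr rfl fun Q hQ => ?_
    obtain ⟨ρ, rfl⟩ := (hO Q).1 hQ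
    rw [hbq, S.inv]
  have hLamI : ∀ i, D.Lam S i I = S.nrm (a - (D.base Ω).e i ^ q) ^ O.card := by
    intro i
    rw [hI, D.Lam_prod S i _ hQ0, ← Finset.prod_const]
    refine Finset.prod_congr rfl fun Q hQ => ?_
    obtain ⟨ρ, rfl⟩ := (hO Q).1 hQ
    rw [D.Lam_mI S i ρ hP0, hLamP]
  have hNpos : 0 < O.card := Finset.card_pos.2 ⟨P, hPO⟩
  have hdiff : ∀ i j, ((D.base Ω).e i - (D.base Ω).e j) ^ q =
      (a - (D.base Ω).e j ^ q) - (a - (D.base Ω).e i ^ q) := by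
    intro i j
    rw [hq, sub_pow_expChar_pow]; ring
  refine ⟨I, B', hB', hB'0, hB'inv, ⟨hI0, hIinv, O.card, q, fun i => S.nrm (a - (D.base Ω).e i ^ q),
    x, hNpos, hq0, fun i => S.nrm.pos (hane i), hLamI, ?_, ?_, ?_, ?_⟩, ?_⟩
  · rintro rfl
    rw [map_zero] at hx
    obtain ⟨Q, hQ, h0⟩ := Finset.prod_eq_zero_iff.1 hx.symm
    obtain ⟨ρ, rfl⟩ := (hO Q).1 hQ
    rw [hbq] at h0
    exact hb0 ((_root_.map_eq_zero _).1 h0)
  · rw [hnx, ← pow_mul, mul_comm, pow_mul, ← map_pow, hbℓ, map_mul, map_pow, map_prod, mul_pow,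
      ← pow_mul, ← Finset.prod_pow]
  · intro i j
    rw [← map_pow, hdiff, max_comm]
    exact na_sub S _ _
  · intro i j hij
    rw [← map_pow, hdiff, max_comm]
    exact na_eq S (fun h => hij h.symm)
  · have h1 : I = P * ∏ Q ∈ O.erase P, Q := (Finset.mul_prod_erase O (fun Q => Q) hPO).symm
    have h2 : (∏ Q ∈ O.erase P, Q) ≠ ⊥ := prod_ne _ fun Q hQ => hQ0 Q (Finset.mem_of_mem_erase hQ)
    rw [h1, (D.base Ω).deg_mul hP0 h2, hU]
    exact Nat.add_pos_left hirr.natDegree_pos _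

/-- induction for invariant ideals -/
theorem inv_induct [IsGalois F Ω] [IsSepClosed Ω] {p : ℕ} [ExpChar Ω p]
    {Pr : Ideal (D.base Ω).A → Prop} (htop : Pr ⊤) (hPP : ∀ k, Pr ((D.base Ω).PP k))
    (hmul : ∀ I J : Ideal (D.base Ω).A, I ≠ ⊥ → J ≠ ⊥ → Pr I → Pr J → Pr (I * J))
    (horb : ∀ I : Ideal (D.base Ω).A, D.Orb S I → Pr I) (N : ℕ) :
    ∀ B : Ideal (D.base Ω).A, B ≠ ⊥ → (∀ τ : Ω ≃ₐ[F] Ω, D.mI (rs K τ) B = B) →
      ((D.base Ω).U B).natDegree ≤ N → Pr B := by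
  induction N with
  | zero =>
    intro B hB _ hN
    have h1 : (D.base Ω).U B = 1 := ((D.base Ω).U_monic B).natDegree_eq_zero.1 (Nat.le_zero.1 hN)
    have hle : (D.base Ω).NI B ≤ B := by
      have := Ideal.prod_le_inf.trans (Finset.inf_le (f := fun j => (D.base Ω).sI j B)
        (Finset.mem_range.2 D.pos))
      rwa [sI_zero] at this
    rw [(D.base Ω).NI_eq hB, h1, map_one, Ideal.span_singleton_one, top_le_iff] at hle
    rw [hle]; exact htop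
  | succ N ih =>
    intro B hB hinv hN
    by_cases hT : B = ⊤
    · rw [hT]; exact htop
    obtain ⟨P, hPm, hPB⟩ := Ideal.exists_le_maximal B hT
    have hP := hPm.isPrime
    by_cases hy : (D.base Ω).y ∈ P
    · obtain ⟨i, rfl⟩ := (D.base Ω).eq_PP_of_y_mem hP hy
      obtain ⟨B', rfl⟩ := Ideal.dvd_iff_le.2 hPB
      have hPP0 := (D.base Ω).PP_ne i
      have hB' : B' ≠ ⊥ := by rintro rfl; exact hB (Ideal.mul_bot _)
      refine hmul _ _ hPP0 hB' (hPP i) (ih B' hB' (fun τ => ?_) ?_)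
      · have h1 := hinv τ
        rw [mI_mul, mI_PP] at h1
        exact mul_left_cancel₀ hPP0 h1
      · rw [(D.base Ω).deg_mul hPP0 hB', U_PP, natDegree_X_sub_C] at hN
        omega
    · obtain ⟨I, B', rfl, hB', hB'inv, hI, hdeg⟩ := D.exists_orb S (p := p) hB hinv hP hPB hy
      refine hmul _ _ hI.1 hB' (horb I hI) (ih B' hB' hB'inv ?_)
      rw [(D.base Ω).deg_mul hI.1 hB'] at hN
      omega

lemma Lam_PP_ne {i k : Fin n} (h : i ≠ k) :
    D.Lam S i ((D.base Ω).PP k) = S.nrm ((D.base Ω).e i - (D.base Ω).e k) := by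
  unfold Lam
  rw [U_PP, (D.base Ω).lam_X_sub_C_ne h]

lemma Lam_PP_self (i : Fin n) : D.Lam S i ((D.base Ω).PP i) = (S.nrm ((D.base Ω).ge i))⁻¹ := by
  unfold Lam
  rw [U_PP, lam_X_sub_C_self, map_inv₀]

lemma Lam_PT (i : Fin n) (m : Fin n → ℕ) :
    D.Lam S i ((D.base Ω).PT m) = ∏ k, D.Lam S i ((D.base Ω).PP k) ^ m k := by
  unfold PT
  rw [D.Lam_prod S i _ fun k _ => (D.base Ω).PPpow_ne k _]
  exact Finset.prod_congr rfl fun k _ => D.Lam_pow S i ((D.base Ω).PP_ne k) _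

lemma nrm_ge (i : Fin n) : S.nrm ((D.base Ω).ge i) = S.nrm (D.base Ω).δ *
    ∏ j ∈ Finset.univ.erase i, S.nrm ((D.base Ω).e i - (D.base Ω).e j) := by
  unfold ge
  rw [g_eval, map_mul, map_prod]

end Dat

end Pool.Agent.Y713.SE
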