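import Pool.Agent.Y713.SE.Tame

/-! Places of the three types. -/

set_option autoImplicit false
set_option linter.all false

open Polynomial

namespace Pool.Agent.Y713.SE

namespace Dat

variable {ℓ n : ℕ} {K : Type} [Field K] (D : Dat ℓ n K)
variable {F Ω : Type} [Field F] [Algebra K F] [Field Ω] [Algebra K Ω] [Algebra F Ω]
  [IsScalarTower K F Ω] (S : LS ℓ F Ω)

lemma prod_single_pow (k : Fin n) (r : ℕ) (G : Fin n → ℝ) :
    ∏ j, G j ^ (Pi.single k r : Fin n → ℕ) j = G k ^ r := by
  classical
  rw [Finset.prod_eq_single k]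
  · rw [Pi.single_eq_same]
  · intro j _ hj
    rw [Pi.single_eq_of_ne hj, pow_zero]
  · intro h; exact absurd (Finset.mem_univ _) h

/-- the norms of the leading coefficients of an invariant ideal, up to those of a product of
branch points and up to `ℓ`-th powers -/
def T1 (I : Ideal (D.base Ω).A) : Prop :=
  ∃ (μ : ℝ) (g : Fin n → ℝ) (m : Fin n → ℕ), 0 < μ ∧ (∀ i, S.Gam (g i)) ∧
    ∀ i, D.Lam S i I = μ * g i ^ ℓ * D.Lam S i ((D.base Ω).PT m)

theorem tame1 [IsGalois F Ω] [IsSepClosed Ω] {p : ℕ} [ExpChar Ω p]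
    (he : ∀ i j, i ≠ j → S.nrm ((D.base Ω).e i - (D.base Ω).e j) = 1)
    {B : Ideal (D.base Ω).A} (hB : B ≠ ⊥) (hinv : ∀ τ : Ω ≃ₐ[F] Ω, D.mI (rs K τ) B = B) :
    D.T1 S B := by
  have hδ0 : S.nrm (D.base Ω).δ ≠ 0 := S.nrm.ne_zero (D.base Ω).hδ
  have hPPne : ∀ i k : Fin n, i ≠ k → D.Lam S i ((D.base Ω).PP k) = 1 := fun i k h => by
    rw [D.Lam_PP_ne S h, he i k h]
  have hPPs : ∀ i : Fin n, D.Lam S i ((D.base Ω).PP i) = (S.nrm (D.base Ω).δ)⁻¹ := fun i => by
    rw [D.Lam_PP_self, nrm_ge, Finset.prod_eq_one, mul_one]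
    intro j hj
    exact he i j (Finset.ne_of_mem_erase hj).symm
  refine D.inv_induct S (p := p) ?_ ?_ ?_ ?_ _ B hB hinv le_rfl
  · refine ⟨1, fun _ => 1, fun _ => 0, one_pos, fun _ => LS.Gam.one, fun i => ?_⟩
    rw [Lam_top, Lam_PT]; simp
  · intro k
    refine ⟨1, fun _ => 1, Pi.single k 1, one_pos, fun _ => LS.Gam.one, fun i => ?_⟩
    rw [Lam_PT, prod_single_pow]; simp
  · rintro I J hI hJ ⟨μ, g, m, h1, h2, h3⟩ ⟨μ', g', m', h1', h2', h3'⟩
    refine ⟨μ * μ', fun i => g i * g' i, m + m', mul_pos h1 h1', fun i => (h2 i).mul (h2' i),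
      fun i => ?_⟩
    rw [D.Lam_mul S i hI hJ, h3, h3', Lam_PT, Lam_PT, Lam_PT]
    simp only [Pi.add_apply, pow_add, Finset.prod_mul_distrib]
    ring
  · rintro I ⟨hI, hIinv, N, q, t, x, hN, hq, ht, hLam, hx, hxx, hle, heq⟩
    by_cases hlt : ∃ j, t j < 1
    · obtain ⟨j, hj⟩ := hlt
      have hk : ∀ k, k ≠ j → t k = 1 := by
        intro k hk
        have h1 := hle j k
        rw [he j k hk.symm, one_pow] at h1
        have h2 : 1 ≤ t k := by
          rcases le_max_iff.1 h1 with h | h
          · linarith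
          · exact h
        have h3 := heq j k (by linarith)
        rw [he j k hk.symm, one_pow, max_eq_right (by linarith)] at h3
        exact h3.symm
      have hprod : ∏ k, t k ^ N = t j ^ N := by
        rw [Finset.prod_eq_single j]
        · intro k _ hkj; rw [hk k hkj, one_pow]
        · intro h; exact absurd (Finset.mem_univ _) h
      rw [hprod] at hxx
      refine ⟨1, fun i => if i = j then S.nrm (algebraMap F Ω x) else 1, Pi.single j (q * N), one_pos,
        fun i => ?_, fun i => ?_⟩
      · simp only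
        split_ifs
        · exact ⟨x, hx, rfl⟩
        · exact LS.Gam.one
      · simp only
        rw [Lam_PT, prod_single_pow, hLam, one_mul]
        by_cases hij : i = j
        · subst hij
          rw [if_pos rfl, hPPs, hxx, inv_pow, mul_comm (S.nrm (D.base Ω).δ ^ (q * N)) _, mul_assoc,
            mul_inv_cancel₀ (pow_ne_zero _ hδ0), mul_one]
        · rw [if_neg hij, hPPne i j hij, hk i hij]; simp
    · push Not at hlt
      have hconst : ∀ i j, t i = t j := by
        intro i j
        by_contra hne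
        have hij : i ≠ j := fun h => hne (by rw [h])
        have h1 := heq i j hne
        rw [he i j hij, one_pow] at h1
        have h2 := hlt i
        have h3 := hlt j
        have h4 : t i ≤ 1 := h1 ▸ le_max_left _ _
        have h5 : t j ≤ 1 := h1 ▸ le_max_right _ _
        exact hne (by linarith)
      let i0 : Fin n := ⟨0, D.n_pos⟩
      refine ⟨t i0 ^ N, fun _ => 1, fun _ => 0, pow_pos (ht _) _, fun _ => LS.Gam.one, fun i => ?_⟩
      rw [hLam, Lam_PT, hconst i i0]; simp

/-- the collision of two branch points -/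
theorem tame2 [IsGalois F Ω] [IsSepClosed Ω] {p : ℕ} [ExpChar Ω p] {a0 b0 c0 : Fin n}
    (hab : a0 ≠ b0) (hca : c0 ≠ a0) (hcb : c0 ≠ b0)
    (he : ∀ i j, i ≠ j → ¬ (i = a0 ∧ j = b0) → ¬ (i = b0 ∧ j = a0) →
      S.nrm ((D.base Ω).e i - (D.base Ω).e j) = 1)
    (hπ1 : S.nrm ((D.base Ω).e a0 - (D.base Ω).e b0) < 1)
    (hδ : S.nrm (D.base Ω).δ = 1)
    (hπ : ∀ γ, S.Gam γ → ∃ (r : ℕ) (g : ℝ), S.Gam g ∧
      γ = S.nrm ((D.base Ω).e a0 - (D.base Ω).e b0) ^ r * g ^ ℓ)
    {B : Ideal (D.base Ω).A} (hB : B ≠ ⊥) (hinv : ∀ τ : Ω ≃ₐ[F] Ω, D.mI (rs K τ) B = B) :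
    ∃ (μ : ℝ) (g : Fin n → ℝ) (m : ℕ), 0 < μ ∧ (∀ i, S.Gam (g i)) ∧
      ∀ i, D.Lam S i B = μ * g i ^ ℓ * D.Lam S i ((D.base Ω).PP b0) ^ m := by
  classical
  set π := S.nrm ((D.base Ω).e a0 - (D.base Ω).e b0) with hπdef
  have hπ0 : 0 < π := S.nrm.pos (sub_ne_zero.2 fun h => hab ((D.base Ω).he h))
  have hπ' : S.nrm ((D.base Ω).e b0 - (D.base Ω).e a0) = π := by
    rw [hπdef, ← S.nrm.map_neg, neg_sub]
  have hba : b0 ≠ a0 := hab.symm
  have hGπ : S.Gam π := ⟨algebraMap K F (D.e a0) - algebraMap K F (D.e b0), by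
      rw [sub_ne_zero]
      exact fun h => hab (D.he ((algebraMap K F).injective h)), by
      rw [map_sub, ← IsScalarTower.algebraMap_apply, ← IsScalarTower.algebraMap_apply]; rfl⟩
  -- `ge`
  have hge : ∀ i, i ≠ a0 → i ≠ b0 → S.nrm ((D.base Ω).ge i) = 1 := by
    intro i h1 h2
    rw [nrm_ge, hδ, one_mul]
    refine Finset.prod_eq_one fun j hj => ?_
    exact he i j (Finset.ne_of_mem_erase hj).symm (fun h => h1 h.1) (fun h => h2 h.1)
  have hgeb : S.nrm ((D.base Ω).ge b0) = π := by
    rw [nrm_ge, hδ, one_mul, Finset.prod_eq_single a0, hπ']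
    · intro j hj hja
      exact he b0 j (Finset.ne_of_mem_erase hj).symm (fun h => hba h.1) (fun h => hja h.2)
    · intro h
      exact absurd (Finset.mem_erase.2 ⟨hab, Finset.mem_univ _⟩) h
  have hgea : S.nrm ((D.base Ω).ge a0) = π := by
    rw [nrm_ge, hδ, one_mul, Finset.prod_eq_single b0]
    · intro j hj hjb
      exact he a0 j (Finset.ne_of_mem_erase hj).symm (fun h => hjb h.2) (fun h => hab h.1)
    · intro h
      exact absurd (Finset.mem_erase.2 ⟨hba, Finset.mem_univ _⟩) h
  -- `Lam` of the branch points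
  have hk1 : ∀ k, k ≠ a0 → k ≠ b0 → ∀ i, D.Lam S i ((D.base Ω).PP k) = 1 := by
    intro k h1 h2 i
    by_cases hik : i = k
    · subst hik
      rw [Lam_PP_self, hge i h1 h2, inv_one]
    · rw [D.Lam_PP_ne S hik]
      exact he i k hik (fun h => h2 h.2) (fun h => h1 h.2)
  have hib : ∀ i, i ≠ a0 → i ≠ b0 → D.Lam S i ((D.base Ω).PP b0) = 1 := by
    intro i h1 h2
    rw [D.Lam_PP_ne S h2]
    exact he i b0 h2 (fun h => h1 h.1) (fun h => h2 h.1)
  have hia : ∀ i, i ≠ a0 → i ≠ b0 → D.Lam S i ((D.base Ω).PP a0) = 1 := by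
    intro i h1 h2
    rw [D.Lam_PP_ne S h1]
    exact he i a0 h1 (fun h => h1 h.1) (fun h => h2 h.1)
  have hab' : D.Lam S a0 ((D.base Ω).PP b0) = π := D.Lam_PP_ne S hab
  have hba' : D.Lam S b0 ((D.base Ω).PP a0) = π := by rw [D.Lam_PP_ne S hba, hπ']
  have haa' : D.Lam S a0 ((D.base Ω).PP a0) = π⁻¹ := by rw [Lam_PP_self, hgea]
  have hbb' : D.Lam S b0 ((D.base Ω).PP b0) = π⁻¹ := by rw [Lam_PP_self, hgeb]
  refine D.inv_induct S (p := p) (Pr := fun B => ∃ (μ : ℝ) (g : Fin n → ℝ) (m : ℕ), 0 < μ ∧
    (∀ i, S.Gam (g i)) ∧ ∀ i, D.Lam S i B = μ * g i ^ ℓ * D.Lam S i ((D.base Ω).PP b0) ^ m)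
    ?_ ?_ ?_ ?_ _ B hB hinv le_rfl
  · refine ⟨1, fun _ => 1, 0, one_pos, fun _ => LS.Gam.one, fun i => ?_⟩
    rw [Lam_top]; simp
  · intro k
    by_cases h1 : k = b0
    · subst h1
      exact ⟨1, fun _ => 1, 1, one_pos, fun _ => LS.Gam.one, fun i => by simp⟩
    · by_cases h2 : k = a0
      · subst h2
        refine ⟨1, fun i => if i = k then π⁻¹ else if i = b0 then π else 1, ℓ - 1, one_pos,
          fun i => ?_, fun i => ?_⟩
        · simp only
          split_ifs
          · exact hGπ.inv
          · exact hGπ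
          · exact LS.Gam.one
        · simp only
          have hℓ : π ^ ℓ = π * π ^ (ℓ - 1) := by
            rw [← pow_succ', Nat.sub_add_cancel D.pos]
          by_cases h3 : i = k
          · rw [if_pos h3, h3, haa', hab', inv_pow, hℓ, one_mul, mul_inv, mul_assoc,
              inv_mul_cancel₀ (pow_ne_zero _ hπ0.ne'), mul_one]
          · rw [if_neg h3]
            by_cases h4 : i = b0
            · rw [if_pos h4, h4, hba', hbb', inv_pow, hℓ, one_mul, mul_assoc,
                mul_inv_cancel₀ (pow_ne_zero _ hπ0.ne'), mul_one]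
            · rw [if_neg h4, hia i h3 h4, hib i h3 h4]; simp
      · refine ⟨1, fun _ => 1, 0, one_pos, fun _ => LS.Gam.one, fun i => ?_⟩
        rw [hk1 k h2 h1 i]; simp
  · rintro I J hI hJ ⟨μ, g, m, h1, h2, h3⟩ ⟨μ', g', m', h1', h2', h3'⟩
    refine ⟨μ * μ', fun i => g i * g' i, m + m', mul_pos h1 h1', fun i => (h2 i).mul (h2' i),
      fun i => ?_⟩
    rw [D.Lam_mul S i hI hJ, h3, h3', pow_add]
    ring
  · rintro I ⟨hI, hIinv, N, q, t, x, hN, hq, ht, hLam, hx, hxx, hle, heq⟩
    rw [hδ, one_pow, one_mul] at hxx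
    have hGx : S.Gam (S.nrm (algebraMap F Ω x)) := ⟨x, hx, rfl⟩
    by_cases hlt : ∃ j, j ≠ a0 ∧ j ≠ b0 ∧ t j < 1
    · obtain ⟨j, hja, hjb, hj⟩ := hlt
      have hej : ∀ k, k ≠ j → S.nrm ((D.base Ω).e j - (D.base Ω).e k) = 1 := fun k hk =>
        he j k hk.symm (fun h => hja h.1) (fun h => hjb h.1)
      have hk : ∀ k, k ≠ j → t k = 1 := by
        intro k hk
        have h1 := hle j k
        rw [hej k hk, one_pow] at h1
        have h2 : 1 ≤ t k := by
          rcases le_max_iff.1 h1 with h | h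
          · linarith
          · exact h
        have h3 := heq j k (by linarith)
        rw [hej k hk, one_pow, max_eq_right (by linarith)] at h3
        exact h3.symm
      have hprod : ∏ k, t k ^ N = t j ^ N := by
        rw [Finset.prod_eq_single j]
        · intro k _ hkj; rw [hk k hkj, one_pow]
        · intro h; exact absurd (Finset.mem_univ _) h
      rw [hprod] at hxx
      refine ⟨1, fun i => if i = j then S.nrm (algebraMap F Ω x) else 1, 0, one_pos,
        fun i => ?_, fun i => ?_⟩
      · simp only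
        split_ifs
        · exact hGx
        · exact LS.Gam.one
      · simp only
        rw [hLam, one_mul, pow_zero, mul_one]
        by_cases hij : i = j
        · rw [if_pos hij, hxx, hij]
        · rw [if_neg hij, hk i hij]; simp
    · push Not at hlt
      have hc1 : 1 ≤ t c0 := hlt c0 hca hcb
      by_cases hlt2 : t a0 < 1 ∨ t b0 < 1
      · -- both specialise to the collision
        have hk : ∀ k, k ≠ a0 → k ≠ b0 → t k = 1 := by
          intro k hka hkb
          have h1 := hlt k hka hkb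
          rcases hlt2 with h2 | h2
          · have h3 := heq k a0 (by linarith)
            rw [he k a0 hka (fun h => hka h.1) (fun h => hkb h.1), one_pow,
              max_eq_left (by linarith)] at h3
            exact h3.symm
          · have h3 := heq k b0 (by linarith)
            rw [he k b0 hkb (fun h => hka h.1) (fun h => hkb h.1), one_pow,
              max_eq_left (by linarith)] at h3
            exact h3.symm
        have hprod : ∏ k, t k ^ N = t a0 ^ N * t b0 ^ N := by
          rw [← Finset.mul_prod_erase Finset.univ _ (Finset.mem_univ a0),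
            ← Finset.mul_prod_erase _ _ (Finset.mem_erase.2 ⟨hba, Finset.mem_univ b0⟩),
            Finset.prod_eq_one, mul_one]
          intro k hk'
          have h1 := Finset.ne_of_mem_erase hk'
          have h2 := Finset.ne_of_mem_erase (Finset.mem_of_mem_erase hk')
          rw [hk k h2 h1, one_pow]
        rw [hprod] at hxx
        have hGa : S.Gam (t a0 ^ N) := by
          rw [← hLam]; exact D.Gam_of_inv S hI hIinv a0
        obtain ⟨r, g, hg, hgr⟩ := hπ _ hGa
        refine ⟨1, fun i => if i = a0 then g else if i = b0 then S.nrm (algebraMap F Ω x) / g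
          else 1, r, one_pos, fun i => ?_, fun i => ?_⟩
        · simp only
          split_ifs
          · exact hg
          · exact hGx.div hg
          · exact LS.Gam.one
        · simp only
          rw [hLam]
          by_cases h3 : i = a0
          · rw [if_pos h3, h3, hab', hgr]; ring
          · rw [if_neg h3]
            by_cases h4 : i = b0
            · rw [if_pos h4, h4, hbb', div_pow, hxx, hgr, inv_pow]
              have := pow_ne_zero r hπ0.ne'
              have := pow_ne_zero ℓ hg.ne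
              field_simp
            · rw [if_neg h4, hib i h3 h4, hk i h3 h4]; simp
      · push Not at hlt2
        obtain ⟨ha1, hb1⟩ := hlt2
        have hconst : ∀ j, t j = t c0 := by
          intro j
          by_contra hne
          have hjc : c0 ≠ j := fun h => hne (by rw [h])
          have h1 := heq c0 j (fun h => hne h.symm)
          rw [he c0 j hjc (fun h => hca h.1) (fun h => hcb h.1), one_pow] at h1
          have h4 : t c0 ≤ 1 := h1 ▸ le_max_left _ _
          have h5 : t j ≤ 1 := h1 ▸ le_max_right _ _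
          have h6 : 1 ≤ t j := by
            by_cases h7 : j = a0
            · rw [h7]; exact ha1
            · by_cases h8 : j = b0
              · rw [h8]; exact hb1
              · exact hlt j h7 h8
          exact hne (by linarith)
        refine ⟨t c0 ^ N, fun _ => 1, 0, pow_pos (ht _) _, fun _ => LS.Gam.one, fun i => ?_⟩
        rw [hLam, hconst i]; simp

end Dat

end Pool.Agent.Y713.SE
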