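import Pool.Agent.Y713.SE.Ded2

/-! The degree at the point at infinity: weights. -/

set_option autoImplicit false
set_option linter.all false

open Polynomial

namespace Pool.Agent.Y713.SE

namespace Dat

variable {ℓ n : ℕ} {E : Type} [Field E] (D : Dat ℓ n E)

/-- elements of weight less than `w` -/
noncomputable def Lt (w : ℕ) : Submodule E D.A :=
  Submodule.span E {z | ∃ a b : ℕ, ℓ * a + n * b < w ∧ z = algebraMap E[X] D.A (X ^ a) * D.y ^ b}

lemma mul_mem_Lt {w w' : ℕ} {z z' : D.A} (hz : z ∈ D.Lt w) (hz' : z' ∈ D.Lt (w' + 1)) :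
    z * z' ∈ D.Lt (w + w') := by
  have h := Submodule.mul_mem_mul hz hz'
  unfold Lt at h
  rw [Submodule.span_mul_span] at h
  refine Submodule.span_mono ?_ h
  rintro _ ⟨u, ⟨a, b, h1, rfl⟩, v, ⟨a', b', h2, rfl⟩, rfl⟩
  refine ⟨a + a', b + b', ?_, ?_⟩
  · rw [mul_add, mul_add]; omega
  · simp only [map_mul, pow_add]
    ring

lemma mem_Lt_of {w : ℕ} {z : D.A} (h : ∀ (j : Fin ℓ) (k : ℕ), (D.c j z).coeff k ≠ 0 →
    ℓ * k + n * j < w) : z ∈ D.Lt w := by
  rw [← D.sum_c z]
  refine Submodule.sum_mem _ fun j _ => ?_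
  rw [Algebra.smul_def]
  conv => enter [2, 1, 2]; rw [(D.c j z).as_sum_support]
  rw [map_sum, Finset.sum_mul]
  refine Submodule.sum_mem _ fun k hk => ?_
  have h1 := h j k (mem_support_iff.1 hk)
  have h2 : algebraMap E[X] D.A ((monomial k) ((D.c j z).coeff k)) * D.y ^ (j : ℕ) =
      (D.c j z).coeff k • (algebraMap E[X] D.A (X ^ k) * D.y ^ (j : ℕ)) := by
    rw [← C_mul_X_pow_eq_monomial, map_mul, mul_assoc, Algebra.smul_def,
      IsScalarTower.algebraMap_apply E E[X] D.A]
    rfl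
  rw [h2]
  exact Submodule.smul_mem _ _ (Submodule.subset_span ⟨k, j, h1, rfl⟩)

lemma of_mem_Lt {w : ℕ} {z : D.A} (hz : z ∈ D.Lt w) (j : Fin ℓ) (k : ℕ)
    (hk : (D.c j z).coeff k ≠ 0) : ℓ * k + n * j < w := by
  revert j k
  unfold Lt at hz
  induction hz using Submodule.span_induction with
  | mem z hz =>
    obtain ⟨a, b, hab, rfl⟩ := hz
    intro j k hk
    have h1 : algebraMap E[X] D.A (X ^ a) * D.y ^ b =
        (X ^ a * D.f ^ (b / ℓ)) • D.y ^ ((⟨b % ℓ, Nat.mod_lt _ D.pos⟩ : Fin ℓ) : ℕ) := by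
      conv_lhs => rw [← Nat.div_add_mod b ℓ, pow_add, pow_mul, D.y_pow]
      rw [Algebra.smul_def, map_mul, map_pow _ D.f]
      ring
    rw [h1, map_smul] at hk
    have h2 : D.c j (D.y ^ ((⟨b % ℓ, Nat.mod_lt _ D.pos⟩ : Fin ℓ) : ℕ)) =
      if (⟨b % ℓ, Nat.mod_lt _ D.pos⟩ : Fin ℓ) = j then 1 else 0 := cf_pow D.pos _ _
    rw [h2] at hk
    split_ifs at hk with hj
    · rw [smul_eq_mul, mul_one] at hk
      have h3 : k ≤ a + (b / ℓ) * n := by
        refine (le_natDegree_of_ne_zero hk).trans ?_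
        refine natDegree_mul_le.trans ?_
        rw [natDegree_X_pow, natDegree_pow, D.natDegree_f]
      have h4 : (j : ℕ) = b % ℓ := by rw [← hj]
      have h5 := Nat.div_add_mod b ℓ
      calc ℓ * k + n * j ≤ ℓ * (a + (b / ℓ) * n) + n * (b % ℓ) := by
            rw [h4]; exact Nat.add_le_add_right (Nat.mul_le_mul_left _ h3) _
        _ = ℓ * a + n * (ℓ * (b / ℓ) + b % ℓ) := by ring
        _ = ℓ * a + n * b := by rw [h5]
        _ < w := hab
    · rw [smul_zero, coeff_zero] at hk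
      exact absurd rfl hk
  | zero =>
    intro j k hk
    rw [map_zero, coeff_zero] at hk
    exact absurd rfl hk
  | add x y hx hy h1 h2 =>
    intro j k hk
    rw [map_add, coeff_add] at hk
    by_cases h3 : (D.c j x).coeff k = 0
    · rw [h3, zero_add] at hk
      exact h2 j k hk
    · exact h1 j k h3
  | smul r x hx h1 =>
    intro j k hk
    have h2 : D.c j (r • x) = C r * D.c j x := by
      have : r • x = (C r : E[X]) • x := by
        rw [Algebra.smul_def, Algebra.smul_def, IsScalarTower.algebraMap_apply E E[X] D.A]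
        rfl
      rw [this, map_smul, smul_eq_mul]
    rw [h2, coeff_C_mul] at hk
    exact h1 j k (right_ne_zero_of_mul hk)

lemma s_mem_Lt {w : ℕ} {z : D.A} (i : ℕ) (hz : z ∈ D.Lt w) : D.s i z ∈ D.Lt w := by
  refine D.mem_Lt_of fun j k hk => D.of_mem_Lt hz j k ?_
  rw [c_s, coeff_C_mul] at hk
  exact right_ne_zero_of_mul hk

lemma Nm_y : ∃ u : E, u ≠ 0 ∧ D.Nm D.y = C u * D.f := by
  refine ⟨∏ i ∈ Finset.range ℓ, D.ζ ^ i,
    Finset.prod_ne_zero_iff.2 fun i _ => pow_ne_zero _ D.ζ_ne, ?_⟩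
  apply D.injA
  rw [Nm_spec, Finset.prod_congr rfl fun i _ => D.s_y i, Finset.prod_mul_distrib,
    Finset.prod_const, Finset.card_range, D.y_pow, map_mul]
  congr 1
  rw [map_prod, map_prod]

lemma Nm_pow (a : D.A) (k : ℕ) : D.Nm (a ^ k) = D.Nm a ^ k := by
  induction k with
  | zero =>
    rw [pow_zero, pow_zero]
    have := D.Nm_algebraMap 1
    rwa [map_one, one_pow] at this
  | succ k ih => rw [pow_succ, pow_succ, Nm_mul, ih]

theorem natDegree_Nm {a : D.A} {j0 : Fin ℓ} (h0 : D.c j0 a ≠ 0)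
    (hlt : ∀ j, j ≠ j0 → D.c j a ≠ 0 →
      ℓ * (D.c j a).natDegree + n * j < ℓ * (D.c j0 a).natDegree + n * j0) :
    (D.Nm a).natDegree = ℓ * (D.c j0 a).natDegree + n * j0 := by
  set w := ℓ * (D.c j0 a).natDegree + n * j0 with hw
  set m0 : D.A := D.c j0 a • D.y ^ (j0 : ℕ) with hm0
  have hc0 : ∀ j, D.c j m0 = if j0 = j then D.c j0 a else 0 := by
    intro j
    rw [hm0, map_smul]
    have h2 : D.c j (D.y ^ (j0 : ℕ)) = if j0 = j then 1 else 0 := cf_pow D.pos _ _
    rw [h2]
    split_ifs <;> simp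
  have hm : m0 ∈ D.Lt (w + 1) := by
    refine D.mem_Lt_of fun j k hk => ?_
    rw [hc0] at hk
    split_ifs at hk with hj
    · have := le_natDegree_of_ne_zero hk
      rw [← hj]
      have h3 := Nat.mul_le_mul_left ℓ this
      omega
    · rw [coeff_zero] at hk; exact absurd rfl hk
  have hr : a - m0 ∈ D.Lt w := by
    refine D.mem_Lt_of fun j k hk => ?_
    rw [map_sub, hc0] at hk
    split_ifs at hk with hj
    · rw [hj, sub_self, coeff_zero] at hk
      exact absurd rfl hk
    · rw [sub_zero] at hk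
      have h1 := hlt j (fun h => hj h.symm) (fun h => hk (by rw [h, coeff_zero]))
      have h2 := Nat.mul_le_mul_left ℓ (le_natDegree_of_ne_zero hk)
      omega
  have hmono : ∀ {w w' : ℕ}, w ≤ w' → D.Lt w ≤ D.Lt w' := by
    intro w w' h
    refine Submodule.span_mono ?_
    rintro z ⟨a, b, h1, h2⟩
    exact ⟨a, b, h1.trans_le h, h2⟩
  have ha : a ∈ D.Lt (w + 1) := by
    have : a = (a - m0) + m0 := by ring
    rw [this]
    exact Submodule.add_mem _ (hmono (Nat.le_succ w) hr) hm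
  have key : ∀ k : ℕ, ((∏ i ∈ Finset.range k, D.s i a) - ∏ i ∈ Finset.range k, D.s i m0 ∈
      D.Lt (k * w)) ∧ ∏ i ∈ Finset.range k, D.s i m0 ∈ D.Lt (k * w + 1) := by
    intro k
    induction k with
    | zero =>
      refine ⟨by simp, ?_⟩
      rw [Finset.prod_range_zero]
      exact Submodule.subset_span ⟨0, 0, by simp, by simp⟩
    | succ k ih =>
      rw [Finset.prod_range_succ, Finset.prod_range_succ]
      constructor
      · have h1 : (∏ i ∈ Finset.range k, D.s i a) * D.s k a -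
            (∏ i ∈ Finset.range k, D.s i m0) * D.s k m0 =
            ((∏ i ∈ Finset.range k, D.s i a) - ∏ i ∈ Finset.range k, D.s i m0) * D.s k a +
            D.s k (a - m0) * (∏ i ∈ Finset.range k, D.s i m0) := by
          rw [map_sub]; ring
        rw [h1]
        refine Submodule.add_mem _ ?_ ?_
        · have := D.mul_mem_Lt ih.1 (D.s_mem_Lt k ha)
          rwa [← Nat.succ_mul] at this
        · have := D.mul_mem_Lt (D.s_mem_Lt k hr) ih.2
          rwa [add_comm, ← Nat.succ_mul] at this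
      · have := D.mul_mem_Lt ih.2 (D.s_mem_Lt k hm)
        have h2 : k * w + 1 + w = (k + 1) * w + 1 := by ring
        rwa [h2] at this
  have h1 := (key ℓ).1
  rw [← Nm_spec, ← Nm_spec, ← map_sub] at h1
  obtain ⟨u, hu, hy⟩ := D.Nm_y
  have h2 : D.Nm m0 = C (u ^ (j0 : ℕ)) * (D.c j0 a ^ ℓ * D.f ^ (j0 : ℕ)) := by
    rw [hm0, Algebra.smul_def, Nm_mul, Nm_algebraMap, Nm_pow, hy, mul_pow, C_pow]
    ring
  have h3 : (D.Nm m0).natDegree = w := by
    rw [h2, natDegree_C_mul (pow_ne_zero _ hu), natDegree_mul (pow_ne_zero _ h0)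
      (pow_ne_zero _ D.f_ne), natDegree_pow, natDegree_pow, D.natDegree_f, mul_comm (j0 : ℕ) n]
  have h4 : (D.Nm a - D.Nm m0).degree < w := by
    rw [degree_lt_iff_coeff_zero]
    intro k hk
    by_contra hne
    have h5 := D.of_mem_Lt h1 ⟨0, D.pos⟩ k (by rwa [c_algebraMap, if_pos rfl])
    simp only [mul_zero, add_zero] at h5
    have := Nat.lt_of_mul_lt_mul_left h5
    omega
  have h6 : (D.Nm m0) ≠ 0 := by
    rw [h2]
    exact mul_ne_zero (C_ne_zero.2 (pow_ne_zero _ hu)) (mul_ne_zero (pow_ne_zero _ h0)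
      (pow_ne_zero _ D.f_ne))
  have h7 : D.Nm a = (D.Nm a - D.Nm m0) + D.Nm m0 := by ring
  have h8 : (D.Nm m0).degree = w := by rw [degree_eq_natDegree h6, h3]
  rw [h7]
  apply natDegree_eq_of_degree_eq_some
  rw [degree_add_eq_right_of_degree_lt (by rw [h8]; exact h4), h8]

include D in
lemma wt_inj {d d' : ℕ} {j j' : Fin ℓ} (h : ℓ * d + n * j = ℓ * d' + n * j') : j = j' ∧ d = d' := by
  have hc : Nat.Coprime ℓ n := (Nat.Prime.coprime_iff_not_dvd D.hp).2 D.hn
  have h1 : ((j : ℕ) : ℤ) = j' := by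
    have h2 : (ℓ : ℤ) ∣ (n : ℤ) * ((j : ℤ) - j') := by
      refine ⟨(d' : ℤ) - d, ?_⟩
      have h3 : (ℓ : ℤ) * d + n * j = ℓ * d' + n * j' := by exact_mod_cast h
      linarith
    have h4 : (ℓ : ℤ) ∣ (j : ℤ) - j' := by
      refine (Int.isCoprime_iff_gcd_eq_one.2 ?_).dvd_of_dvd_mul_left h2
      rw [Int.gcd_natCast_natCast]; exact hc
    have h5 := j.2
    have h6 := j'.2
    have h7 : ((j : ℤ) - j') = 0 := by
      apply Int.eq_zero_of_abs_lt_dvd h4
      rw [abs_lt]; constructor <;> omega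
    linarith
  have h2 : j = j' := Fin.ext (by exact_mod_cast h1)
  refine ⟨h2, ?_⟩
  rw [h2] at h
  have h3 := D.pos
  have h4 : ℓ * d = ℓ * d' := by omega
  exact Nat.eq_of_mul_eq_mul_left h3 h4

lemma exists_lead {a : D.A} (ha : a ≠ 0) : ∃ j0 : Fin ℓ, D.c j0 a ≠ 0 ∧
    (∀ j, j ≠ j0 → D.c j a ≠ 0 →
      ℓ * (D.c j a).natDegree + n * j < ℓ * (D.c j0 a).natDegree + n * j0) := by
  classical
  have h1 : (Finset.univ.filter fun j : Fin ℓ => D.c j a ≠ 0).Nonempty := by
    by_contra h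
    rw [Finset.not_nonempty_iff_eq_empty, Finset.filter_eq_empty_iff] at h
    refine ha (D.ext_c fun j => ?_)
    rw [map_zero]
    exact not_not.1 (h (Finset.mem_univ j))
  obtain ⟨j0, h2, h3⟩ := Finset.exists_max_image _
    (fun j : Fin ℓ => ℓ * (D.c j a).natDegree + n * j) h1
  refine ⟨j0, (Finset.mem_filter.1 h2).2, fun j hj hj' => ?_⟩
  refine lt_of_le_of_ne (h3 j (Finset.mem_filter.2 ⟨Finset.mem_univ _, hj'⟩)) fun h => ?_
  exact hj (D.wt_inj h).1

/-- units are constants -/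
lemma unit_const {u : D.A} (hu : IsUnit u) : ∃ c : E, c ≠ 0 ∧ u = algebraMap E[X] D.A (C c) := by
  obtain ⟨j0, h0, h1⟩ := D.exists_lead hu.ne_zero
  have h2 := D.natDegree_Nm h0 h1
  rw [natDegree_eq_zero_of_isUnit (D.Nm_isUnit hu)] at h2
  have h3 : (D.c j0 u).natDegree = 0 := by
    have : ℓ * (D.c j0 u).natDegree = 0 := by omega
    rcases Nat.mul_eq_zero.1 this with h | h
    · exact absurd h D.pos.ne'
    · exact h
  have h4 : (j0 : ℕ) = 0 := by
    have : n * (j0 : ℕ) = 0 := by omega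
    rcases Nat.mul_eq_zero.1 this with h | h
    · exact absurd h D.n_pos.ne'
    · exact h
  have h5 : j0 = ⟨0, D.pos⟩ := Fin.ext h4
  rw [natDegree_eq_zero] at h3
  obtain ⟨c, hc⟩ := h3
  refine ⟨c, ?_, D.ext_c fun j => ?_⟩
  · rintro rfl
    exact h0 (by rw [← hc, C_0])
  · rw [c_algebraMap]
    split_ifs with hj
    · rw [hc, h5, hj]
    · by_contra hne
      have := h1 j (fun h => hj (by rw [h, h5])) hne
      omega

/-- cancelling leading terms at infinity -/
theorem exists_sub {a b : D.A} (ha : a ≠ 0) (hb : b ≠ 0)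
    (h : (D.Nm a).natDegree = (D.Nm b).natDegree) :
    ∃ c : E, a = algebraMap E[X] D.A (C c) * b ∨
      (a - algebraMap E[X] D.A (C c) * b ≠ 0 ∧
        (D.Nm (a - algebraMap E[X] D.A (C c) * b)).natDegree < (D.Nm a).natDegree) := by
  obtain ⟨j0, h0, h1⟩ := D.exists_lead ha
  obtain ⟨k0, g0, g1⟩ := D.exists_lead hb
  have h2 := D.natDegree_Nm h0 h1
  have g2 := D.natDegree_Nm g0 g1
  have h3 := D.wt_inj (h2.symm.trans (h.trans g2))
  obtain ⟨rfl, h4⟩ := h3
  set c : E := (D.c j0 a).leadingCoeff / (D.c j0 b).leadingCoeff with hc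
  refine ⟨c, ?_⟩
  by_cases hz : a - algebraMap E[X] D.A (C c) * b = 0
  · left; exact sub_eq_zero.1 hz
  · right
    refine ⟨hz, ?_⟩
    set z := a - algebraMap E[X] D.A (C c) * b with hzdef
    have hcz : ∀ j, D.c j z = D.c j a - C c * D.c j b := by
      intro j
      rw [hzdef, map_sub, ← Algebra.smul_def, map_smul, smul_eq_mul]
    obtain ⟨m0, m1, m2⟩ := D.exists_lead hz
    rw [D.natDegree_Nm m1 m2, h2]
    by_cases hm : m0 = j0
    · subst hm
      have hlc : (D.c m0 b).leadingCoeff ≠ 0 := leadingCoeff_ne_zero.2 g0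
      have h5 : (D.c m0 a).degree = (C c * D.c m0 b).degree := by
        have hc0 : c ≠ 0 := div_ne_zero (leadingCoeff_ne_zero.2 h0) hlc
        rw [degree_C_mul hc0, degree_eq_natDegree h0, degree_eq_natDegree g0, h4]
      have h6 : (D.c m0 a).leadingCoeff = (C c * D.c m0 b).leadingCoeff := by
        rw [leadingCoeff_mul, leadingCoeff_C, hc, div_mul_cancel₀ _ hlc]
      have h7 := degree_sub_lt h5 h0 h6
      rw [← hcz] at h7
      have h8 : (D.c m0 z).natDegree < (D.c m0 a).natDegree := natDegree_lt_natDegree m1 h7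
      have := Nat.mul_lt_mul_of_pos_left h8 D.pos
      omega
    · have h5 : (D.c m0 z).natDegree ≤ max (D.c m0 a).natDegree (D.c m0 b).natDegree := by
        rw [hcz]
        refine (natDegree_sub_le _ _).trans (max_le_max le_rfl (natDegree_C_mul_le _ _))
      by_cases ha0 : D.c m0 a = 0
      · by_cases hb0 : D.c m0 b = 0
        · rw [hcz, ha0, hb0, mul_zero, sub_zero] at m1
          exact absurd rfl m1
        · have := g1 m0 hm hb0
          rw [ha0, natDegree_zero, Nat.zero_max] at h5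
          have h9 := Nat.mul_le_mul_left ℓ h5
          rw [h4]
          omega
      · have h8 := h1 m0 hm ha0
        by_cases hb0 : D.c m0 b = 0
        · rw [hb0, natDegree_zero, Nat.max_zero] at h5
          have h9 := Nat.mul_le_mul_left ℓ h5
          omega
        · have := g1 m0 hm hb0
          rcases le_total (D.c m0 a).natDegree (D.c m0 b).natDegree with h10 | h10
          · rw [max_eq_right h10] at h5
            have h9 := Nat.mul_le_mul_left ℓ h5
            rw [h4]; omega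
          · rw [max_eq_left h10] at h5
            have h9 := Nat.mul_le_mul_left ℓ h5
            omega

end Dat

end Pool.Agent.Y713.SE
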